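import Mathlib

/-!
ROW A02 (60-120 lines). Commuting endomorphisms `n` of a finite vector space over `ZMod ℓ` with
`n ^ ℓ = n` have a common eigenvector.

PROOF. Let `W` be a nonzero submodule stable under all the `n i`, with the smallest number of elements
(`V` is finite). For each `i`, the polynomial `X^ℓ - X = ∏_{c} (X - c)` over `ZMod ℓ` kills `n i`, so
some `n i - c` is not injective on `W` (else the product would be injective and zero on `W ≠ 0`).
Its kernel in `W` is stable under all `n j` (they commute), nonzero, so equal to `W` by minimality: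
`n i` is the scalar `c = a i` on `W`. Take any nonzero `x` in `W`.
-/

open Polynomial in
/-- the factorisation of `X^ℓ - X` -/
private lemma A02_prod (ℓ : ℕ) [Fact ℓ.Prime] :
    (∏ c : ZMod ℓ, (X - C c) : (ZMod ℓ)[X]) = X ^ ℓ - X := by
  have hℓ : 1 < ℓ := (Fact.out : ℓ.Prime).one_lt
  have hr := FiniteField.roots_X_pow_card_sub_X (ZMod ℓ)
  rw [ZMod.card] at hr
  have hm : (X ^ ℓ - X : (ZMod ℓ)[X]).Monic :=
    monic_X_pow_sub (by rw [degree_X]; exact_mod_cast hℓ)
  have hd := FiniteField.X_pow_card_sub_X_natDegree_eq (ZMod ℓ) hℓ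
  have hc : (X ^ ℓ - X : (ZMod ℓ)[X]).roots.card = (X ^ ℓ - X : (ZMod ℓ)[X]).natDegree := by
    rw [hr, hd]
    change (Finset.univ : Finset (ZMod ℓ)).card = ℓ
    rw [Finset.card_univ, ZMod.card]
  have h := prod_multiset_X_sub_C_of_monic_of_roots_card_eq hm hc
  rw [hr] at h
  exact h

namespace Pool.Agent.Lib.MP_89bcae_ag.Sup

open Polynomial in
private lemma A02_eig {R V : Type*} [CommRing R] [AddCommGroup V] [Module R V]
    (f : V →ₗ[R] V) (W : Submodule R V) (hW : ∀ x ∈ W, f x ∈ W) (s : Finset R) :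
    ∀ y ∈ W, y ≠ 0 → (aeval f (∏ c ∈ s, (X - C c : R[X]))) y = 0 →
      ∃ c : R, ∃ z ∈ W, z ≠ 0 ∧ f z = c • z := by
  classical
  induction s using Finset.induction_on with
  | empty =>
    intro y _ hy0 h
    exfalso
    rw [Finset.prod_empty, map_one] at h
    exact hy0 h
  | insert c s hc ih =>
    intro y hy hy0 h
    rw [Finset.prod_insert hc, mul_comm, map_mul] at h
    have e : aeval f (X - C c : R[X]) y = f y - c • y := by
      rw [map_sub, aeval_X, aeval_C]
      rfl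
    change aeval f (∏ c ∈ s, (X - C c : R[X])) (aeval f (X - C c : R[X]) y) = 0 at h
    rw [e] at h
    by_cases hz : f y - c • y = 0
    · exact ⟨c, y, hy, hy0, sub_eq_zero.1 hz⟩
    · exact ih _ (W.sub_mem (hW y hy) (W.smul_mem c hy)) hz h

lemma exists_common_eigenvector {ℓ : ℕ} [Fact ℓ.Prime] {V I : Type*} [AddCommGroup V]
    [Module (ZMod ℓ) V] [Finite V] (n : I → V →ₗ[ZMod ℓ] V) (hcomm : ∀ i j, n i * n j = n j * n i)
    (hpow : ∀ i, n i ^ ℓ = n i) (hV : ∃ x : V, x ≠ 0) :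
    ∃ x : V, x ≠ 0 ∧ ∃ a : I → ZMod ℓ, ∀ i, n i x = a i • x := by
  classical
  haveI : Finite (Submodule (ZMod ℓ) V) :=
    Finite.of_injective (fun W : Submodule (ZMod ℓ) V => (W : Set V)) SetLike.coe_injective
  set S : Set (Submodule (ZMod ℓ) V) := {W | (∃ x ∈ W, x ≠ 0) ∧ ∀ i, ∀ x ∈ W, n i x ∈ W} with hS
  have hSne : S.Nonempty := by
    obtain ⟨x, hx⟩ := hV
    exact ⟨⊤, ⟨x, Submodule.mem_top, hx⟩, fun i x _ => Submodule.mem_top⟩
  obtain ⟨W, ⟨⟨x, hxW, hx0⟩, hWst⟩, hmin⟩ := (Set.toFinite S).exists_minimal hSne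
  refine ⟨x, hx0, ?_⟩
  have key : ∀ i, ∃ c : ZMod ℓ, ∀ y ∈ W, n i y = c • y := by
    intro i
    have h0 : (Polynomial.aeval (n i) (∏ c : ZMod ℓ, (Polynomial.X - Polynomial.C c))) x = 0 := by
      rw [A02_prod, map_sub, map_pow, Polynomial.aeval_X, hpow i, sub_self]
      rfl
    obtain ⟨c, z, hzW, hz0, hz⟩ := A02_eig (n i) W (hWst i) Finset.univ x hxW hx0 h0
    refine ⟨c, ?_⟩
    set W' : Submodule (ZMod ℓ) V := W ⊓ LinearMap.ker (n i - c • LinearMap.id) with hW'
    have hmem : ∀ y, y ∈ W' ↔ y ∈ W ∧ n i y = c • y := fun y => by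
      rw [hW', Submodule.mem_inf, LinearMap.mem_ker]
      simp only [LinearMap.sub_apply, LinearMap.smul_apply, LinearMap.id_apply, sub_eq_zero]
    have hW'S : W' ∈ S := by
      refine ⟨⟨z, (hmem z).2 ⟨hzW, hz⟩, hz0⟩, fun j y hy => ?_⟩
      rw [hmem] at hy ⊢
      refine ⟨hWst j y hy.1, ?_⟩
      have e1 : n i (n j y) = n j (n i y) := by
        have := LinearMap.congr_fun (hcomm i j) y
        exact this
      rw [e1, hy.2, map_smul]
    have hle : W ≤ W' := hmin hW'S inf_le_left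
    intro y hy
    exact ((hmem y).1 (hle hy)).2
  choose a ha using key
  exact ⟨a, fun i => ha i x hxW⟩

end Pool.Agent.Lib.MP_89bcae_ag.Sup
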