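import Mathlib
import Pool.Agent.Lib.MP_89bcae_ag.Sup.Defs

/-!
# The curve `y ^ ℓ = f(x)` over an algebraically closed field: basic definitions
-/

open Polynomial IsDedekindDomain

open scoped Classical

namespace Pool.Agent.Lib.MP_89bcae_ag.Sup

universe u

/-- The hypotheses on the curve `y ^ ℓ = f(x)`. -/
class IsGood (ℓ : ℕ) {E : Type u} [Field E] (f : E[X]) : Prop where
  alg : IsAlgClosed E
  prime : ℓ.Prime
  ne_zero : (ℓ : E) ≠ 0
  separable : f.Separable
  coprime : f.natDegree.Coprime ℓ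

section

variable (ℓ : ℕ) {E : Type u} [Field E] (f : E[X])

/-- The points of the affine curve `y ^ ℓ = f(x)`. -/
@[ext]
structure Pt where
  /-- the first coordinate -/
  x : E
  /-- the second coordinate -/
  y : E
  eq : y ^ ℓ = f.eval x

/-- The ring of functions on the curve: the field of fractions of the coordinate ring. -/
abbrev Fn : Type u := FractionRing (Coord ℓ f)

end

section

variable {ℓ : ℕ} {E : Type u} [Field E] {f : E[X]}

/-- The function `p(x)` on the curve, for a polynomial `p`. -/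
noncomputable def ofPoly : E[X] →+* Coord ℓ f := AdjoinRoot.of (X ^ ℓ - C f : E[X][X])

/-- The function `y` on the curve. -/
noncomputable def yy : Coord ℓ f := AdjoinRoot.root (X ^ ℓ - C f : E[X][X])

lemma yy_pow : (yy : Coord ℓ f) ^ ℓ = ofPoly f := by
  have h := AdjoinRoot.eval₂_root (X ^ ℓ - C f : E[X][X])
  rw [eval₂_sub, eval₂_pow, eval₂_X, eval₂_C, sub_eq_zero] at h
  exact h

/-- The value of a function of the coordinate ring at a point. -/
noncomputable def evalPt (P : Pt ℓ f) : Coord ℓ f →+* E :=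
  AdjoinRoot.lift (evalRingHom P.x) P.y (by
    rw [eval₂_sub, eval₂_pow, eval₂_X, eval₂_C, coe_evalRingHom, P.eq, sub_self])

@[simp] lemma evalPt_ofPoly (P : Pt ℓ f) (p : E[X]) : evalPt P (ofPoly p) = p.eval P.x := by
  rw [evalPt, ofPoly, AdjoinRoot.lift_of, coe_evalRingHom]

@[simp] lemma evalPt_yy (P : Pt ℓ f) : evalPt P yy = P.y := by
  rw [evalPt, yy, AdjoinRoot.lift_root]

/-- The ideal of a point. -/
noncomputable def Pt.ideal (P : Pt ℓ f) : Ideal (Coord ℓ f) := RingHom.ker (evalPt P)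

/-- The point `(x, ζ y)`. -/
def Pt.rot (ζ : E) (hζ : ζ ^ ℓ = 1) (P : Pt ℓ f) : Pt ℓ f :=
  ⟨P.x, ζ * P.y, by rw [mul_pow, hζ, one_mul, P.eq]⟩

/-- The image of a point under a homomorphism of fields. -/
def Pt.map {E' : Type u} [Field E'] {f' : E'[X]} (σ : E →+* E') (h : f.map σ = f')
    (P : Pt ℓ f) : Pt ℓ f' :=
  ⟨σ P.x, σ P.y, by rw [← map_pow, P.eq, ← h, Polynomial.eval_map, Polynomial.eval₂_hom]⟩

/-- The automorphism `y ↦ ζ y` of the coordinate ring. -/
noncomputable def rotC (ζ : E) (hζ : ζ ^ ℓ = 1) : Coord ℓ f →+* Coord ℓ f :=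
  AdjoinRoot.lift ofPoly (ofPoly (C ζ) * yy) (by
    rw [eval₂_sub, eval₂_pow, eval₂_X, eval₂_C, mul_pow, ← map_pow, ← C_pow, hζ, C_1, map_one,
      one_mul, yy_pow, sub_self])

@[simp] lemma rotC_ofPoly (ζ : E) (hζ : ζ ^ ℓ = 1) (p : E[X]) :
    rotC ζ hζ (ofPoly p : Coord ℓ f) = ofPoly p := by
  unfold rotC
  exact AdjoinRoot.lift_of _

@[simp] lemma rotC_yy (ζ : E) (hζ : ζ ^ ℓ = 1) :
    rotC ζ hζ (yy : Coord ℓ f) = ofPoly (C ζ) * yy := by
  unfold rotC
  exact AdjoinRoot.lift_root _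

end

end Pool.Agent.Lib.MP_89bcae_ag.Sup
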