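import Mathlib
import Pool.Agent.Lib.MP_89bcae_ag.Sup.Base

/-!
ROW R01 (80-150 lines). The coordinate ring `E[x, y] / (y ^ ℓ - f(x))` is a domain, with the
`E[x]`-basis `1, y, ..., y ^ (ℓ - 1)`; uniqueness and existence of the expansion, the norm.

PROOF. `E` is algebraically closed and `deg f` is prime to the prime `ℓ`, so `deg f ≠ 0`
(`Nat.Coprime 0 ℓ ↔ ℓ = 1`); let `θ` be a root of `f`, it is simple as `f` is separable. `Y ^ ℓ - f`
in `E[X][Y]` is Eisenstein at the prime ideal `(X - θ)` (`f ∈ (X - θ)`, `f ∉ (X - θ) ^ 2`), monic,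
so irreducible (`Polynomial.IsEisensteinAt.irreducible`), hence prime since `E[X][Y]` is a UFD;
`AdjoinRoot.isDomain_of_prime`. The expansion: `AdjoinRoot.powerBasis'` (the polynomial is monic),
or `Polynomial.modByMonic` / `AdjoinRoot.modByMonicHom`.
-/

open Polynomial IsDedekindDomain

open scoped Classical

namespace Pool.Agent.Lib.MP_89bcae_ag.Sup

universe u

variable {ℓ : ℕ} {E : Type u} [Field E] {f : E[X]}

lemma monic_eqn (hℓ : ℓ ≠ 0) : (X ^ ℓ - C f : E[X][X]).Monic :=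
  Polynomial.monic_X_pow_sub_C f hℓ

lemma r01_natDegree : (X ^ ℓ - C f : E[X][X]).natDegree = ℓ :=
  Polynomial.natDegree_X_pow_sub_C

/-- Expansion of an element of the coordinate ring. -/
lemma exists_expand (hℓ : ℓ ≠ 0) (a : Coord ℓ f) :
    ∃ p : ℕ → E[X], a = ∑ i ∈ Finset.range ℓ, ofPoly (p i) * yy ^ i := by
  obtain ⟨P, rfl⟩ := AdjoinRoot.mk_surjective a
  have hm := monic_eqn (f := f) hℓ
  have hne : (X ^ ℓ - C f : E[X][X]) ≠ 1 := by
    intro h
    have h1 := r01_natDegree (ℓ := ℓ) (f := f)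
    rw [h, natDegree_one] at h1
    exact hℓ h1.symm
  have hlt : (P %ₘ (X ^ ℓ - C f : E[X][X])).natDegree < ℓ := by
    have h1 := natDegree_modByMonic_lt P hm hne
    rwa [r01_natDegree] at h1
  refine ⟨fun i => (P %ₘ (X ^ ℓ - C f : E[X][X])).coeff i, ?_⟩
  have h1 : AdjoinRoot.mk (X ^ ℓ - C f : E[X][X]) P =
      AdjoinRoot.mk (X ^ ℓ - C f : E[X][X]) (P %ₘ (X ^ ℓ - C f : E[X][X])) := by
    rw [AdjoinRoot.mk_eq_mk]
    refine ⟨P /ₘ (X ^ ℓ - C f : E[X][X]), ?_⟩
    have h2 := modByMonic_add_div P (X ^ ℓ - C f : E[X][X])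
    linear_combination -h2
  rw [h1]
  conv_lhs => rw [as_sum_range' _ ℓ hlt]
  rw [map_sum]
  refine Finset.sum_congr rfl (fun i _ => ?_)
  rw [← C_mul_X_pow_eq_monomial, map_mul, map_pow, AdjoinRoot.mk_C, AdjoinRoot.mk_X]
  rfl

/-- Uniqueness of the expansion. -/
lemma expand_unique (hℓ : ℓ ≠ 0) (p : ℕ → E[X])
    (h : ∑ i ∈ Finset.range ℓ, (ofPoly (p i) : Coord ℓ f) * yy ^ i = 0) :
    ∀ i < ℓ, p i = 0 := by
  have hm := monic_eqn (f := f) hℓ
  have h1 : AdjoinRoot.mk (X ^ ℓ - C f : E[X][X]) (∑ i ∈ Finset.range ℓ, C (p i) * X ^ i) = 0 := by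
    rw [map_sum, ← h]
    refine Finset.sum_congr rfl (fun i _ => ?_)
    rw [map_mul, map_pow, AdjoinRoot.mk_C, AdjoinRoot.mk_X]
    rfl
  rw [AdjoinRoot.mk_eq_zero] at h1
  have hQ : (∑ i ∈ Finset.range ℓ, C (p i) * X ^ i : E[X][X]) = 0 := by
    by_contra hne
    refine hm.not_dvd_of_natDegree_lt hne ?_ h1
    rw [r01_natDegree]
    have h3 : (∑ i ∈ Finset.range ℓ, C (p i) * X ^ i : E[X][X]).natDegree ≤ ℓ - 1 := by
      refine natDegree_sum_le_of_forall_le _ _ (fun i hi => ?_)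
      refine (natDegree_C_mul_X_pow_le (p i) i).trans ?_
      have h4 := Finset.mem_range.1 hi
      omega
    omega
  intro i hi
  have h3 : (∑ i ∈ Finset.range ℓ, C (p i) * X ^ i : E[X][X]).coeff i = p i := by
    rw [finsetSum_coeff, Finset.sum_eq_single i]
    · rw [coeff_C_mul_X_pow, if_pos rfl]
    · intro j _ hj
      rw [coeff_C_mul_X_pow, if_neg (Ne.symm hj)]
    · intro h4
      exact absurd (Finset.mem_range.2 hi) h4
  rw [← h3, hQ, coeff_zero]

lemma ofPoly_injective (hℓ : ℓ ≠ 0) : Function.Injective (ofPoly : E[X] →+* Coord ℓ f) := by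
  refine AdjoinRoot.of.injective_of_degree_ne_zero ?_
  rw [degree_X_pow_sub_C (Nat.pos_of_ne_zero hℓ)]
  exact_mod_cast hℓ

lemma IsGood.natDegree_ne_zero [hG : IsGood ℓ f] : f.natDegree ≠ 0 := by
  intro h
  have h1 := hG.coprime
  rw [h, Nat.coprime_zero_left] at h1
  exact hG.prime.one_lt.ne' h1

lemma IsGood.exists_root [hG : IsGood ℓ f] : ∃ θ, f.eval θ = 0 := by
  have := hG.alg
  have hd : f.degree ≠ 0 := by
    intro h
    exact IsGood.natDegree_ne_zero (hG := hG) (natDegree_eq_of_degree_eq_some h)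
  obtain ⟨θ, hθ⟩ := IsAlgClosed.exists_root f hd
  exact ⟨θ, hθ⟩

instance isDomain_coord [hG : IsGood ℓ f] : IsDomain (Coord ℓ f) := by
  have hℓ : ℓ ≠ 0 := hG.prime.ne_zero
  obtain ⟨θ, hθ⟩ := IsGood.exists_root (hG := hG)
  have hdvd : X - C θ ∣ f := dvd_iff_isRoot.2 hθ
  have hm := monic_eqn (f := f) hℓ
  have hP : (Ideal.span {X - C θ} : Ideal E[X]).IsPrime :=
    (Ideal.span_singleton_prime (X_sub_C_ne_zero θ)).2 (prime_X_sub_C θ)
  have hE : (X ^ ℓ - C f : E[X][X]).IsEisensteinAt (Ideal.span {X - C θ}) := by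
    refine ⟨?_, ?_, ?_⟩
    · rw [hm.leadingCoeff]
      exact (Ideal.ne_top_iff_one _).1 hP.ne_top
    · intro n hn
      rw [r01_natDegree] at hn
      rw [coeff_sub, coeff_X_pow, if_neg hn.ne, zero_sub, coeff_C]
      split_ifs
      · exact (Ideal.span {X - C θ}).neg_mem (Ideal.mem_span_singleton.2 hdvd)
      · rw [neg_zero]
        exact (Ideal.span {X - C θ}).zero_mem
    · rw [coeff_sub, coeff_X_pow, if_neg (Ne.symm hℓ), zero_sub, coeff_C_zero,
        Ideal.span_singleton_pow, Ideal.mem_span_singleton, dvd_neg]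
      intro h
      rw [pow_two] at h
      exact not_isUnit_X_sub_C θ (hG.separable.squarefree _ h)
  have hirr : Irreducible (X ^ ℓ - C f : E[X][X]) := by
    refine hE.irreducible hP hm.isPrimitive ?_
    rw [r01_natDegree]
    exact Nat.pos_of_ne_zero hℓ
  exact AdjoinRoot.isDomain_of_prime hirr.prime

end Pool.Agent.Lib.MP_89bcae_ag.Sup
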