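import Mathlib
import Pool.Agent.Lib.MP_89bcae_ag.Sup.R01

/-!
ROW R02 (150-300 lines). Points = maximal ideals, and the coordinate ring is a Dedekind domain.

PROOF. (1) `evalPt P` is surjective onto the field `E` (it maps `ofPoly (C c)` to `c`), so its
kernel is maximal; it is not zero: it contains `ofPoly (X - C P.x)`, which is not `0` by
`ofPoly_injective`.
(2) Let `I` be a nonzero prime ideal. `Coord ℓ f` is integral over `E[X]` (monic equation), so
`J = I.comap ofPoly` is a nonzero prime of the PID `E[X]` (a nonzero `a ∈ I` satisfies a monic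
equation of minimal degree with nonzero constant term in `J`; Mathlib:
`Ideal.comap_ne_bot_of_integral_mem`); as `E` is algebraically closed `J = (X - a)`. The residue
`b` of `y` modulo `I`: `Coord/I` is a domain, integral over `E[X]/J = E`, so equal to `E`; concretely
`y ^ ℓ - f(a) ∈ I` and `T ^ ℓ - f(a) = ∏ (T - bᵢ)` in `E[T]`, so by primality `y - b ∈ I` for some
`b` with `b ^ ℓ = f(a)`. So `I` contains `ofPoly (X - C a)` and `yy - ofPoly (C b)`, hence contains
the kernel of `evalPt P`, `P = (a, b)` (every element is congruent to its value modulo these two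
elements: use `exists_expand` or `AdjoinRoot.induction_on`), which is maximal.
(3) Dedekind: noetherian (quotient of `E[X][Y]`), dimension at most one by (2), integrally closed:
it is enough (`isDedekindDomain` from `IsDedekindDomainDvr`, `IsDedekindDomainDvr.isDedekindDomain`)
that the localization at each `P.ideal` is a discrete valuation ring, and for a noetherian local
domain which is not a field it is enough that the maximal ideal is principal
(`tfae_of_isNoetherianRing_of_isLocalRing_of_isDomain` / `IsDiscreteValuationRing.TFAE`).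
`P.ideal = (x - a, y - b)`. If `b ≠ 0`: `(y - b) (∑ y ^ i b ^ (ℓ-1-i)) = f(x) - f(a) ∈ (x - a)` and
the second factor takes the value `ℓ b ^ (ℓ - 1) ≠ 0` at `P`, so it is a unit in the localization:
the maximal ideal is generated by `x - a`. If `b = 0`: `f = (x - a) g` with `g(a) ≠ 0` (`f` is
separable), so `x - a = y ^ ℓ / g` in the localization and the maximal ideal is generated by `y`.
-/

open Polynomial IsDedekindDomain

open scoped Classical

namespace Pool.Agent.Lib.MP_89bcae_ag.Sup

universe u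

variable {ℓ : ℕ} {E : Type u} [Field E] {f : E[X]}

lemma Pt.ideal_isMaximal (P : Pt ℓ f) : P.ideal.IsMaximal := by
  refine RingHom.ker_isMaximal_of_surjective (evalPt P) ?_
  intro c
  exact ⟨ofPoly (C c), by rw [evalPt_ofPoly, eval_C]⟩

lemma R02_mem (P : Pt ℓ f) (a : Coord ℓ f) : a ∈ P.ideal ↔ evalPt P a = 0 := Iff.rfl

lemma R02_memx (P : Pt ℓ f) : ofPoly (X - C P.x) ∈ P.ideal := by
  rw [R02_mem, evalPt_ofPoly, eval_sub, eval_X, eval_C, sub_self]

lemma R02_memy (P : Pt ℓ f) : yy - ofPoly (C P.y) ∈ P.ideal := by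
  rw [R02_mem, map_sub, evalPt_yy, evalPt_ofPoly, eval_C, sub_self]

lemma R02_mod (P : Pt ℓ f) (a : Coord ℓ f) : a - ofPoly (C (evalPt P a)) ∈
    Ideal.span {(ofPoly (X - C P.x) : Coord ℓ f), yy - ofPoly (C P.y)} := by
  set J : Ideal (Coord ℓ f) :=
    Ideal.span {(ofPoly (X - C P.x) : Coord ℓ f), yy - ofPoly (C P.y)} with hJ
  have hx : (ofPoly (X - C P.x) : Coord ℓ f) ∈ J := Ideal.subset_span (by simp)
  have hy : (yy - ofPoly (C P.y) : Coord ℓ f) ∈ J := Ideal.subset_span (by simp)
  have key : (Ideal.Quotient.mk J) = (((Ideal.Quotient.mk J).comp ofPoly).comp C).comp (evalPt P) := by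
    apply AdjoinRoot.ringHom_ext
    · refine RingHom.ext fun p => ?_
      show Ideal.Quotient.mk J (ofPoly p) = Ideal.Quotient.mk J (ofPoly (C (evalPt P (ofPoly p))))
      rw [evalPt_ofPoly, Ideal.Quotient.eq, ← map_sub]
      obtain ⟨q, hq⟩ := X_sub_C_dvd_sub_C_eval (a := P.x) (p := p)
      rw [hq, map_mul]
      exact J.mul_mem_right _ hx
    · show Ideal.Quotient.mk J yy = Ideal.Quotient.mk J (ofPoly (C (evalPt P yy)))
      rw [evalPt_yy, Ideal.Quotient.eq]
      exact hy
  have h1 := congrArg (fun g : Coord ℓ f →+* (Coord ℓ f ⧸ J) => g a) key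
  have h2 : Ideal.Quotient.mk J a = Ideal.Quotient.mk J (ofPoly (C (evalPt P a))) := h1
  exact Ideal.Quotient.eq.1 h2

lemma Pt.ideal_eq_span (P : Pt ℓ f) :
    P.ideal = Ideal.span {ofPoly (X - C P.x), yy - ofPoly (C P.y)} := by
  apply le_antisymm
  · intro a ha
    have h1 := R02_mod P a
    rw [R02_mem] at ha
    rw [ha, C_0, map_zero, sub_zero] at h1
    exact h1
  · rw [Ideal.span_le]
    intro a ha
    rcases ha with rfl | ha
    · exact R02_memx P
    · rw [Set.mem_singleton_iff.1 ha]
      exact R02_memy P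

lemma Pt.ideal_ne_bot [hG : IsGood ℓ f] (P : Pt ℓ f) : P.ideal ≠ ⊥ := by
  intro h
  have h1 := R02_memx P
  rw [h, Ideal.mem_bot] at h1
  have h2 : (X - C P.x : E[X]) = 0 :=
    ofPoly_injective (f := f) hG.prime.ne_zero (by rw [h1, map_zero])
  exact X_sub_C_ne_zero _ h2

lemma Pt.ideal_injective : Function.Injective (Pt.ideal : Pt ℓ f → Ideal (Coord ℓ f)) := by
  intro P Q h
  have h1 := R02_memx P
  have h2 := R02_memy P
  rw [h, R02_mem, evalPt_ofPoly, eval_sub, eval_X, eval_C, sub_eq_zero] at h1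
  rw [h, R02_mem, map_sub, evalPt_yy, evalPt_ofPoly, eval_C, sub_eq_zero] at h2
  exact Pt.ext h1.symm h2.symm

/-- a value of a nonzero polynomial in a prime ideal: one of the linear factors is in the ideal -/
lemma R02_factor [IsAlgClosed E] {R : Type*} [CommRing R] (φ : E →+* R) {I : Ideal R}
    (hI : I.IsPrime) (r : R) : ∀ (n : ℕ) (q : E[X]), q.natDegree = n → q ≠ 0 → eval₂ φ r q ∈ I →
      ∃ b, q.eval b = 0 ∧ r - φ b ∈ I := by
  intro n
  induction n with
  | zero =>
    intro q hn hq hmem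
    exfalso
    rw [Polynomial.natDegree_eq_zero] at hn
    obtain ⟨c, rfl⟩ := hn
    have hc : c ≠ 0 := by
      rintro rfl
      exact hq C_0
    rw [eval₂_C] at hmem
    have hu : IsUnit (φ c) := (IsUnit.mk0 c hc).map φ
    exact hI.ne_top (Ideal.eq_top_of_isUnit_mem I hmem hu)
  | succ n ih =>
    intro q hn hq hmem
    obtain ⟨b, hb⟩ := IsAlgClosed.exists_root q (by
      rw [Polynomial.degree_eq_natDegree hq, hn]
      exact_mod_cast Nat.succ_ne_zero n)
    obtain ⟨q', hq'⟩ := dvd_iff_isRoot.2 hb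
    have hq'0 : q' ≠ 0 := by
      rintro rfl
      rw [mul_zero] at hq'
      exact hq hq'
    have hdeg : q'.natDegree = n := by
      have h1 := congrArg natDegree hq'
      rw [natDegree_mul (X_sub_C_ne_zero b) hq'0, natDegree_X_sub_C, hn] at h1
      omega
    rw [hq', eval₂_mul, eval₂_sub, eval₂_X, eval₂_C] at hmem
    rcases hI.mem_or_mem hmem with h1 | h1
    · exact ⟨b, hb, h1⟩
    · obtain ⟨b', hb', hmem'⟩ := ih q' hdeg hq'0 h1
      refine ⟨b', ?_, hmem'⟩
      rw [hq', eval_mul, hb', mul_zero]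

lemma exists_pt_of_prime [hG : IsGood ℓ f] (I : Ideal (Coord ℓ f)) (hI : I.IsPrime)
    (h0 : I ≠ ⊥) : ∃ P : Pt ℓ f, P.ideal = I := by
  have halg : IsAlgClosed E := hG.alg
  have hℓ : ℓ ≠ 0 := hG.prime.ne_zero
  -- a nonzero polynomial in `I`
  obtain ⟨q, hq0, hqI⟩ : ∃ q : E[X], q ≠ 0 ∧ ofPoly q ∈ I := by
    have hfin : Module.Finite E[X] (AdjoinRoot (X ^ ℓ - C f : E[X][X])) :=
      (monic_eqn (f := f) hℓ).finite_adjoinRoot
    obtain ⟨a, haI, ha0⟩ := Submodule.exists_mem_ne_zero_of_ne_bot h0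
    have hint : IsIntegral E[X] a := Algebra.IsIntegral.isIntegral a
    have h1 := Ideal.comap_ne_bot_of_integral_mem ha0 haI hint
    obtain ⟨q, hq, hq0⟩ := Submodule.exists_mem_ne_zero_of_ne_bot h1
    exact ⟨q, hq0, hq⟩
  have e1 : ∀ q : E[X], eval₂ ((ofPoly : E[X] →+* Coord ℓ f).comp C) (ofPoly X) q = ofPoly q := by
    intro q
    rw [← Polynomial.hom_eval₂, eval₂_C_X]
  obtain ⟨a, _, ha⟩ := R02_factor ((ofPoly : E[X] →+* Coord ℓ f).comp C) hI (ofPoly X) _ q rfl hq0
    (by rw [e1]; exact hqI)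
  have ha' : ofPoly (X - C a) ∈ I := by
    rw [map_sub]; exact ha
  obtain ⟨b, hb, hbI⟩ := R02_factor ((ofPoly : E[X] →+* Coord ℓ f).comp C) hI yy _
    (X ^ ℓ - C (f.eval a)) rfl (X_pow_sub_C_ne_zero hG.prime.pos _) (by
      rw [eval₂_sub, eval₂_pow, eval₂_X, eval₂_C, yy_pow]
      show ofPoly f - ofPoly (C (f.eval a)) ∈ I
      rw [← map_sub]
      obtain ⟨g, hg⟩ := X_sub_C_dvd_sub_C_eval (a := a) (p := f)
      rw [hg, map_mul]
      exact I.mul_mem_right _ ha')
  rw [eval_sub, eval_pow, eval_X, eval_C, sub_eq_zero] at hb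
  refine ⟨⟨a, b, hb⟩, ?_⟩
  refine (Pt.ideal_isMaximal _).eq_of_le hI.ne_top ?_
  rw [Pt.ideal_eq_span, Ideal.span_le]
  intro c hc
  rcases hc with rfl | hc
  · exact ha'
  · rw [Set.mem_singleton_iff.1 hc]
    exact hbI

lemma R02_dvd {R : Type*} [CommRing R] {I : Ideal R} [hI : I.IsPrime] {s u v w : R} (hs : s ∉ I)
    (h : s * u = v * w) : algebraMap R (Localization.AtPrime I) v ∣
      algebraMap R (Localization.AtPrime I) u := by
  have hu : IsUnit (algebraMap R (Localization.AtPrime I) s) :=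
    (IsLocalization.AtPrime.isUnit_to_map_iff (Localization.AtPrime I) I s).2 hs
  have h1 := congrArg (algebraMap R (Localization.AtPrime I)) h
  rw [map_mul, map_mul] at h1
  rw [← hu.dvd_mul_left]
  exact ⟨_, h1⟩

lemma R02_principal {R : Type*} [CommRing R] {I : Ideal R} [hI : I.IsPrime] {u v : R}
    (hspan : I = Ideal.span {u, v})
    (h : algebraMap R (Localization.AtPrime I) v ∣ algebraMap R (Localization.AtPrime I) u) :
    (IsLocalRing.maximalIdeal (Localization.AtPrime I)).IsPrincipal := by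
  refine ⟨⟨algebraMap R (Localization.AtPrime I) v, ?_⟩⟩
  rw [← IsLocalization.AtPrime.map_eq_maximalIdeal I (Localization.AtPrime I)]
  have e1 : I.map (algebraMap R (Localization.AtPrime I)) =
      (Ideal.span {u, v}).map (algebraMap R (Localization.AtPrime I)) :=
    congrArg (Ideal.map (algebraMap R (Localization.AtPrime I))) hspan
  rw [e1, Ideal.map_span, Set.image_pair]
  apply le_antisymm
  · rw [Ideal.span_le]
    intro c hc
    rcases hc with rfl | hc
    · obtain ⟨d, hd⟩ := h
      rw [hd]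
      exact Ideal.mul_mem_right _ _ (Ideal.subset_span (Set.mem_singleton _))
    · exact Ideal.subset_span hc
  · exact Ideal.span_mono (fun c hc => Or.inr hc)

lemma R02_localPrincipal [hG : IsGood ℓ f] (P : Pt ℓ f) (hI : P.ideal.IsPrime) :
    (IsLocalRing.maximalIdeal (Localization.AtPrime P.ideal)).IsPrincipal := by
  by_cases hy : P.y = 0
  · have hfa : f.eval P.x = 0 := by
      rw [← P.eq, hy, zero_pow hG.prime.ne_zero]
    obtain ⟨g, hg⟩ := dvd_iff_isRoot.2 hfa
    have hga : g.eval P.x ≠ 0 := by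
      intro h0
      have h1 := hG.separable.eval₂_derivative_ne_zero (RingHom.id E) (x := P.x)
        (by rw [eval₂_id]; exact hfa)
      apply h1
      have h2 := congrArg derivative hg
      rw [derivative_mul, derivative_sub, derivative_X, derivative_C, sub_zero, one_mul] at h2
      rw [eval₂_id, h2, eval_add, eval_mul, eval_sub, eval_X, eval_C, sub_self, zero_mul, add_zero,
        h0]
    refine R02_principal (Pt.ideal_eq_span P) (R02_dvd (s := ofPoly g) (w := yy ^ (ℓ - 1)) ?_ ?_)
    · rw [R02_mem, evalPt_ofPoly]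
      exact hga
    · rw [hy, C_0, map_zero, sub_zero, ← pow_succ', Nat.sub_add_cancel hG.prime.one_le, yy_pow,
        ← map_mul, mul_comm g, ← hg]
  · obtain ⟨g, hg⟩ := X_sub_C_dvd_sub_C_eval (a := P.x) (p := f)
    have hspan : P.ideal = Ideal.span {yy - ofPoly (C P.y), ofPoly (X - C P.x)} := by
      rw [Pt.ideal_eq_span, Set.pair_comm]
    refine R02_principal hspan (R02_dvd
      (s := ∑ i ∈ Finset.range ℓ, yy ^ i * (ofPoly (C P.y)) ^ (ℓ - 1 - i)) (w := ofPoly g) ?_ ?_)
    · rw [R02_mem, map_sum]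
      have e1 : ∀ i ∈ Finset.range ℓ, evalPt P (yy ^ i * (ofPoly (C P.y)) ^ (ℓ - 1 - i)) =
          P.y ^ (ℓ - 1) := by
        intro i hi
        rw [map_mul, map_pow, map_pow, evalPt_yy, evalPt_ofPoly, eval_C, ← pow_add]
        congr 1
        have := Finset.mem_range.1 hi
        omega
      rw [Finset.sum_congr rfl e1, Finset.sum_const, Finset.card_range, nsmul_eq_mul]
      exact mul_ne_zero hG.ne_zero (pow_ne_zero _ hy)
    · rw [geom_sum₂_mul, yy_pow, ← map_pow, ← map_sub, ← C_pow, P.eq, hg, map_mul]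

lemma R02_noeth : IsNoetherianRing (Coord ℓ f) :=
  isNoetherianRing_of_surjective _ _ (AdjoinRoot.mk (X ^ ℓ - C f : E[X][X]))
    AdjoinRoot.mk_surjective

instance isDedekindDomain_coord [hG : IsGood ℓ f] : IsDedekindDomain (Coord ℓ f) := by
  have hN : IsNoetherianRing (Coord ℓ f) := R02_noeth
  have hdvr : IsDedekindDomainDvr (Coord ℓ f) :=
    { toIsNoetherian := hN
      is_dvr_at_nonzero_prime := by
        intro I h0 hI
        obtain ⟨P, rfl⟩ := exists_pt_of_prime I hI h0
        have hN2 : IsNoetherianRing (Localization.AtPrime P.ideal) :=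
          IsLocalization.isNoetherianRing P.ideal.primeCompl _ hN
        have hD2 : IsDomain (Localization.AtPrime P.ideal) :=
          IsLocalization.isDomain_localization P.ideal.primeCompl_le_nonZeroDivisors
        exact ((IsDiscreteValuationRing.TFAE (Localization.AtPrime P.ideal)
          (IsLocalization.AtPrime.not_isField (Coord ℓ f) h0 _)).out 0 4).2
          (R02_localPrincipal P hI) }
  exact IsDedekindDomainDvr.isDedekindDomain (Coord ℓ f)

end Pool.Agent.Lib.MP_89bcae_ag.Sup
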