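import Mathlib
import Pool.Agent.Lib.MP_89bcae_ag.Sup.R06

/-!
ROW R07 (80-160 lines). The automorphisms `y ↦ ζ y` and the automorphisms of the constant field.

PROOF. `rotC ζ` has the inverse `rotC ζ⁻¹`; check on `ofPoly p` and `yy`
(`AdjoinRoot.ringHom_ext`, or `exists_expand`). `evalPt P ∘ rotC ζ = evalPt (P.rot ζ)` (check on
generators), so `ord_autU` with `Q`, `P := Q.rot ζ` gives `ord Q (rot h) = ord (Q.rot ζ) h`.
For `σ : E ≃+* E` with `f.map σ = f`: `coordMap ℓ σ` is bijective (inverse `coordMap ℓ σ⁻¹`), and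
`evalPt (P.map σ) (coordMap σ a) = σ (evalPt P a)`.
-/

open Polynomial IsDedekindDomain

open scoped Classical

namespace Pool.Agent.Lib.MP_89bcae_ag.Sup

universe u

variable {ℓ : ℕ} {E : Type u} [Field E] {f : E[X]}

lemma R07_hom_ext {S : Type u} [CommRing S] {g h : Coord ℓ f →+* S}
    (h1 : ∀ p, g (ofPoly p) = h (ofPoly p)) (h2 : g yy = h yy) : g = h := by
  exact AdjoinRoot.ringHom_ext (RingHom.ext h1) h2

section Maps

variable {E' : Type u} [Field E'] {f' : E'[X]}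

lemma coordMap_ofPoly (σ : E →+* E') (h : f.map σ = f') (p : E[X]) :
    coordMap ℓ σ h (ofPoly p) = ofPoly (p.map σ) := by
  unfold coordMap ofPoly
  exact AdjoinRoot.map_of _ _ _ _ _

lemma coordMap_yy (σ : E →+* E') (h : f.map σ = f') :
    coordMap ℓ σ h (yy : Coord ℓ f) = yy := by
  unfold coordMap yy
  exact AdjoinRoot.map_root _ _ _ _

lemma evalPt_coordMap (σ : E →+* E') (h : f.map σ = f') (P : Pt ℓ f) (a : Coord ℓ f) :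
    evalPt (P.map σ h) (coordMap ℓ σ h a) = σ (evalPt P a) := by
  have h1 : (evalPt (P.map σ h)).comp (coordMap ℓ σ h) = σ.comp (evalPt P) := by
    refine R07_hom_ext (fun p => ?_) ?_
    · rw [RingHom.comp_apply, RingHom.comp_apply, coordMap_ofPoly, evalPt_ofPoly, evalPt_ofPoly]
      change (p.map σ).eval (σ P.x) = σ (p.eval P.x)
      rw [Polynomial.eval_map, Polynomial.eval₂_hom]
    · rw [RingHom.comp_apply, RingHom.comp_apply, coordMap_yy, evalPt_yy, evalPt_yy]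
      rfl
  exact RingHom.congr_fun h1 a

end Maps

lemma R07_rotC_comp (ζ ξ : E) (hζ : ζ ^ ℓ = 1) (hξ : ξ ^ ℓ = 1) (h : ζ * ξ = 1) :
    (rotC ζ hζ : Coord ℓ f →+* Coord ℓ f).comp (rotC ξ hξ) = RingHom.id _ := by
  refine R07_hom_ext (fun p => ?_) ?_
  · rw [RingHom.comp_apply, rotC_ofPoly, rotC_ofPoly, RingHom.id_apply]
  · rw [RingHom.comp_apply, rotC_yy, map_mul, rotC_ofPoly, rotC_yy, RingHom.id_apply, ← mul_assoc,
      ← map_mul, ← C_mul, mul_comm ξ ζ, h, C_1, map_one, one_mul]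

lemma R07_coordMap_comp (σ τ : E →+* E) (hσ : f.map σ = f) (hτ : f.map τ = f)
    (h : σ.comp τ = RingHom.id E) :
    (coordMap ℓ σ hσ : Coord ℓ f →+* Coord ℓ f).comp (coordMap ℓ τ hτ) = RingHom.id _ := by
  refine R07_hom_ext (fun p => ?_) ?_
  · rw [RingHom.comp_apply, coordMap_ofPoly, coordMap_ofPoly, RingHom.id_apply,
      Polynomial.map_map, h, Polynomial.map_id]
  · rw [RingHom.comp_apply, coordMap_yy, coordMap_yy, RingHom.id_apply]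

/-- The automorphism `y ↦ ζ y` of the coordinate ring. -/
noncomputable def rotE (ζ : E) (hζ : ζ ^ ℓ = 1) (h0 : ζ ≠ 0) : Coord ℓ f ≃+* Coord ℓ f :=
  RingEquiv.ofRingHom (rotC ζ hζ) (rotC ζ⁻¹ (by rw [inv_pow, hζ, inv_one]))
    (R07_rotC_comp _ _ _ _ (mul_inv_cancel₀ h0)) (R07_rotC_comp _ _ _ _ (inv_mul_cancel₀ h0))

lemma evalPt_rotE (ζ : E) (hζ : ζ ^ ℓ = 1) (h0 : ζ ≠ 0) (P : Pt ℓ f) (a : Coord ℓ f) :
    evalPt P (rotE ζ hζ h0 a) = evalPt (P.rot ζ hζ) a := by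
  have h1 : (evalPt P).comp (rotC ζ hζ) = evalPt (P.rot ζ hζ) := by
    refine R07_hom_ext (fun p => ?_) ?_
    · rw [RingHom.comp_apply, rotC_ofPoly, evalPt_ofPoly, evalPt_ofPoly]
      rfl
    · rw [RingHom.comp_apply, rotC_yy, map_mul, evalPt_ofPoly, evalPt_yy, evalPt_yy, eval_C]
      rfl
  exact RingHom.congr_fun h1 a

/-- The automorphisms of the field of constants which fix the coefficients of `f`. -/
def Sym (f : E[X]) : Subgroup (E ≃+* E) where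
  carrier := {σ | f.map (σ : E →+* E) = f}
  mul_mem' {σ τ} hσ hτ := by
    have h1 : f.map (σ : E →+* E) = f := hσ
    have h2 : f.map (τ : E →+* E) = f := hτ
    change f.map ((σ * τ : E ≃+* E) : E →+* E) = f
    have h3 : ((σ * τ : E ≃+* E) : E →+* E) = (σ : E →+* E).comp (τ : E →+* E) := by
      ext x
      rfl
    rw [h3, ← Polynomial.map_map, h2, h1]
  one_mem' := by
    change f.map ((1 : E ≃+* E) : E →+* E) = f
    have h3 : ((1 : E ≃+* E) : E →+* E) = RingHom.id E := by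
      ext x
      rfl
    rw [h3, Polynomial.map_id]
  inv_mem' {σ} hσ := by
    have h1 : f.map (σ : E →+* E) = f := hσ
    change f.map ((σ⁻¹ : E ≃+* E) : E →+* E) = f
    have h3 : ((σ⁻¹ : E ≃+* E) : E →+* E).comp (σ : E →+* E) = RingHom.id E := by
      ext x
      exact σ.symm_apply_apply x
    conv_lhs => rw [← h1]
    rw [Polynomial.map_map, h3, Polynomial.map_id]

lemma mem_Sym {σ : E ≃+* E} : σ ∈ Sym f ↔ f.map (σ : E →+* E) = f := Iff.rfl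

/-- The automorphism of the coordinate ring induced by `σ`. -/
noncomputable def symE (ℓ : ℕ) (σ : Sym f) : Coord ℓ f ≃+* Coord ℓ f :=
  RingEquiv.ofRingHom (coordMap ℓ ((σ : E ≃+* E) : E →+* E) σ.2)
    (coordMap ℓ (((σ⁻¹ : Sym f) : E ≃+* E) : E →+* E) (σ⁻¹).2)
    (R07_coordMap_comp _ _ _ _ (by
      ext x
      exact (σ : E ≃+* E).apply_symm_apply x))
    (R07_coordMap_comp _ _ _ _ (by
      ext x
      exact (σ : E ≃+* E).symm_apply_apply x))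

/-- The action of `Sym f` on the points. -/
def Pt.sym (σ : Sym f) (P : Pt ℓ f) : Pt ℓ f := P.map ((σ : E ≃+* E) : E →+* E) σ.2

lemma evalPt_symE (σ : Sym f) (P : Pt ℓ f) (a : Coord ℓ f) :
    evalPt (P.sym σ) (symE ℓ σ a) = (σ : E ≃+* E) (evalPt P a) :=
  evalPt_coordMap ((σ : E ≃+* E) : E →+* E) σ.2 P a

variable [hG : IsGood ℓ f]

/-- `h(x, y) ↦ h(x, ζ y)`. -/
noncomputable def rotU (ζ : E) (hζ : ζ ^ ℓ = 1) (h0 : ζ ≠ 0) : (Fn ℓ f)ˣ ≃* (Fn ℓ f)ˣ :=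
  autU (rotE ζ hζ h0)

lemma ord_rotU (ζ : E) (hζ : ζ ^ ℓ = 1) (h0 : ζ ≠ 0) (P : Pt ℓ f) (u : (Fn ℓ f)ˣ) :
    ord P (rotU ζ hζ h0 u) = ord (P.rot ζ hζ) u :=
  ord_autU (rotE ζ hζ h0) (P.rot ζ hζ) P (fun a => by rw [evalPt_rotE]) u

lemma R07_autU_mk (φ : Coord ℓ f ≃+* Coord ℓ f) (u : (Fn ℓ f)ˣ) {a : Coord ℓ f}
    (hu : (u : Fn ℓ f) = algebraMap (Coord ℓ f) (Fn ℓ f) a) :
    ((autU φ u : (Fn ℓ f)ˣ) : Fn ℓ f) = algebraMap (Coord ℓ f) (Fn ℓ f) (φ a) := by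
  have h1 : ((autU φ u : (Fn ℓ f)ˣ) : Fn ℓ f) = autF φ (u : Fn ℓ f) := rfl
  rw [h1, hu, autF_algebraMap]

omit hG in
lemma R07_cstU (c : Eˣ) : ((cstU c : (Fn ℓ f)ˣ) : Fn ℓ f) =
    algebraMap (Coord ℓ f) (Fn ℓ f) (ofPoly (C (c : E))) := rfl

lemma R07_polyU (p : E[X]) (hp : p ≠ 0) : ((polyU p hp : (Fn ℓ f)ˣ) : Fn ℓ f) =
    algebraMap (Coord ℓ f) (Fn ℓ f) (ofPoly p) := rfl

lemma R07_yU : ((yU : (Fn ℓ f)ˣ) : Fn ℓ f) = algebraMap (Coord ℓ f) (Fn ℓ f) yy := rfl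

omit hG in
lemma R07_rotE_ofPoly (ζ : E) (hζ : ζ ^ ℓ = 1) (h0 : ζ ≠ 0) (p : E[X]) :
    rotE ζ hζ h0 (ofPoly p : Coord ℓ f) = ofPoly p := rotC_ofPoly ζ hζ p

omit hG in
lemma R07_rotE_yy (ζ : E) (hζ : ζ ^ ℓ = 1) (h0 : ζ ≠ 0) :
    rotE ζ hζ h0 (yy : Coord ℓ f) = ofPoly (C ζ) * yy := rotC_yy ζ hζ

lemma rotU_cstU (ζ : E) (hζ : ζ ^ ℓ = 1) (h0 : ζ ≠ 0) (c : Eˣ) :
    rotU ζ hζ h0 (cstU c : (Fn ℓ f)ˣ) = cstU c := by
  ext
  rw [rotU, R07_autU_mk (rotE ζ hζ h0) _ (R07_cstU c), R07_rotE_ofPoly, R07_cstU]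

lemma rotU_polyU (ζ : E) (hζ : ζ ^ ℓ = 1) (h0 : ζ ≠ 0) (p : E[X]) (hp : p ≠ 0) :
    rotU ζ hζ h0 (polyU p hp : (Fn ℓ f)ˣ) = polyU p hp := by
  ext
  rw [rotU, R07_autU_mk (rotE ζ hζ h0) _ (R07_polyU p hp), R07_rotE_ofPoly, R07_polyU]

lemma rotU_yU (ζ : E) (hζ : ζ ^ ℓ = 1) (h0 : ζ ≠ 0) :
    rotU ζ hζ h0 (yU : (Fn ℓ f)ˣ) = cstU (Units.mk0 ζ h0) * yU := by
  ext
  rw [rotU, R07_autU_mk (rotE ζ hζ h0) _ R07_yU, R07_rotE_yy, Units.val_mul, R07_cstU, R07_yU,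
    map_mul]
  rfl

/-- The action of `Sym f` on the nonzero functions. -/
noncomputable def symU (σ : Sym f) : (Fn ℓ f)ˣ ≃* (Fn ℓ f)ˣ := autU (symE ℓ σ)

lemma ord_symU (σ : Sym f) (P : Pt ℓ f) (u : (Fn ℓ f)ˣ) :
    ord (P.sym σ) (symU σ u) = ord P u :=
  ord_autU (symE ℓ σ) P (P.sym σ) (fun a => by
    rw [evalPt_symE]
    exact EmbeddingLike.map_eq_zero_iff) u

omit hG in
lemma R07_symE_ofPoly (σ : Sym f) (p : E[X]) :
    symE ℓ σ (ofPoly p : Coord ℓ f) = ofPoly (p.map ((σ : E ≃+* E) : E →+* E)) :=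
  coordMap_ofPoly ((σ : E ≃+* E) : E →+* E) σ.2 p

omit hG in
lemma R07_symE_yy (σ : Sym f) : symE ℓ σ (yy : Coord ℓ f) = yy :=
  coordMap_yy ((σ : E ≃+* E) : E →+* E) σ.2

lemma symU_cstU (σ : Sym f) (c : Eˣ) :
    symU σ (cstU c : (Fn ℓ f)ˣ) = cstU (Units.map ((σ : E ≃+* E) : E →* E) c) := by
  ext
  rw [symU, R07_autU_mk (symE ℓ σ) _ (R07_cstU c), R07_symE_ofPoly, R07_cstU, Polynomial.map_C]
  rfl

lemma symU_yU (σ : Sym f) : symU σ (yU : (Fn ℓ f)ˣ) = yU := by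
  ext
  rw [symU, R07_autU_mk (symE ℓ σ) _ R07_yU, R07_symE_yy, R07_yU]

lemma symU_xs (σ : Sym f) (a : E) : symU σ (xs a : (Fn ℓ f)ˣ) = xs ((σ : E ≃+* E) a) := by
  ext
  rw [symU, xs, xs, R07_autU_mk (symE ℓ σ) _ (R07_polyU _ (X_sub_C_ne_zero a)), R07_symE_ofPoly,
    R07_polyU, Polynomial.map_sub, Polynomial.map_X, Polynomial.map_C]
  rfl

lemma symU_rotU (σ : Sym f) (ζ : E) (hζ : ζ ^ ℓ = 1) (h0 : ζ ≠ 0)
    (hσ : (σ : E ≃+* E) ζ = ζ) (u : (Fn ℓ f)ˣ) :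
    symU σ (rotU ζ hζ h0 u) = rotU ζ hζ h0 (symU σ u) := by
  have hcomm : ∀ a : Coord ℓ f, symE ℓ σ (rotE ζ hζ h0 a) = rotE ζ hζ h0 (symE ℓ σ a) := by
    have h1 : ((symE ℓ σ : Coord ℓ f ≃+* Coord ℓ f) : Coord ℓ f →+* Coord ℓ f).comp
        ((rotE ζ hζ h0 : Coord ℓ f ≃+* Coord ℓ f) : Coord ℓ f →+* Coord ℓ f) =
        ((rotE ζ hζ h0 : Coord ℓ f ≃+* Coord ℓ f) : Coord ℓ f →+* Coord ℓ f).comp
        ((symE ℓ σ : Coord ℓ f ≃+* Coord ℓ f) : Coord ℓ f →+* Coord ℓ f) := by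
      refine R07_hom_ext (fun p => ?_) ?_
      · change symE ℓ σ (rotE ζ hζ h0 (ofPoly p)) = rotE ζ hζ h0 (symE ℓ σ (ofPoly p))
        rw [R07_rotE_ofPoly, R07_symE_ofPoly, R07_rotE_ofPoly]
      · change symE ℓ σ (rotE ζ hζ h0 yy) = rotE ζ hζ h0 (symE ℓ σ yy)
        rw [R07_rotE_yy, map_mul, R07_symE_ofPoly, R07_symE_yy, R07_rotE_yy, Polynomial.map_C]
        change ofPoly (C ((σ : E ≃+* E) ζ)) * yy = _
        rw [hσ]
    intro a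
    exact RingHom.congr_fun h1 a
  ext
  obtain ⟨a, b, hb, hab⟩ := IsFractionRing.div_surjective (A := Coord ℓ f) (u : Fn ℓ f)
  change autF (symE ℓ σ) (autF (rotE ζ hζ h0) (u : Fn ℓ f)) =
    autF (rotE ζ hζ h0) (autF (symE ℓ σ) (u : Fn ℓ f))
  rw [← hab]
  simp only [map_div₀, autF_algebraMap, hcomm]

end Pool.Agent.Lib.MP_89bcae_ag.Sup
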