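import Mathlib
import Pool.Agent.Lib.MP_89bcae_ag.Sup.R07

/-!
# Local analysis at a place `t = a`: definitions

`M` is an algebraic closure of the completion of `F(t)` at `t = a`, with its absolute value `v`.
-/

open Polynomial

open scoped Classical

namespace Pool.Agent.Lib.MP_89bcae_ag.Sup

universe u

/-- The real number `x` is a power of `ϖ` with exponent in `ℤ[1/p]`. -/
def Val (p : ℕ) (ϖ x : ℝ) : Prop := ∃ (s : ℕ) (i : ℤ), x ^ p ^ s = ϖ ^ i

/-- `v` is a nonarchimedean absolute value of `M`, with residue field `F ⊆ M`, such that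
`v (t - a) < 1`. -/
structure LocCtx {F M : Type u} [Field F] [Field M] [Algebra F M] (v : AbsoluteValue M ℝ) (a : F)
    (t : M) : Prop where
  alg : IsAlgClosed F
  nonarch : ∀ x y, v (x + y) ≤ max (v x) (v y)
  const : ∀ c : F, c ≠ 0 → v (algebraMap F M c) = 1
  lt_one : v (t - algebraMap F M a) < 1
  ne : t ≠ algebraMap F M a
  residue : ∀ x, v x ≤ 1 → ∃ c : F, v (x - algebraMap F M c) < 1

/-- `Γ` is a group of automorphisms of `M` over `F(t)`, preserving `v`, whose fixed elements have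
their values in `ϖ ^ ℤ[1/p]`. -/
structure LocGrp (p : ℕ) (F : Type u) {M : Type u} [Field F] [Field M] [Algebra F M] (v : AbsoluteValue M ℝ)
    (t : M) (ϖ : ℝ) {f : M[X]} (Γ : Subgroup (Sym f)) : Prop where
  pos : 0 < ϖ
  lt_one : ϖ < 1
  inv : ∀ σ ∈ Γ, ∀ x, v ((σ : M ≃+* M) x) = v x
  fix : ∀ σ ∈ Γ, ∀ c : F, (σ : M ≃+* M) (algebraMap F M c) = algebraMap F M c
  fixt : ∀ σ ∈ Γ, (σ : M ≃+* M) t = t
  disc : ∀ x, x ≠ 0 → (∀ σ ∈ Γ, (σ : M ≃+* M) x = x) → Val p ϖ (v x)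

/-- The polynomial `d⁻¹ (g(x) - t)`. -/
noncomputable def locPoly {F M : Type u} [Field F] [Field M] [Algebra F M] (g : F[X]) (t d : M) :
    M[X] :=
  C d⁻¹ * (g.map (algebraMap F M) - C t)

end Pool.Agent.Lib.MP_89bcae_ag.Sup
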