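import Mathlib
import Pool.Agent.Lib.MP_89bcae_ag.Sup.LBase

/-!
ROW L01 (60-120 lines). Elementary lemmas on `Val p ϖ x : ∃ s i, x ^ p ^ s = ϖ ^ i` (positive reals,
`0 < ϖ < 1`, `p ≥ 1`; `p = 1` is allowed).

PROOFS. Raise to powers of `p` to have a common exponent `s`. For `Val.of_pow`: `x ^ p^s = ϖ ^ i`,
`(x ^ m) ^ p^r = ϖ ^ (ℓ j)`; with common `s`: `ϖ ^ (m i) = ϖ ^ (ℓ j)`, so `m i = ℓ j`
(`ϖ ≠ 1`, positive), and `ℓ ∣ i` as `ℓ` and `m` are coprime. `Val.root`: `x ^ ℓ` with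
`(x ^ ℓ) ^ p^s = ϖ ^ (ℓ i)` gives `x ^ p^s = ϖ ^ i` by injectivity of `ℓ`-th powers of positive
reals. `Val.pow_dvd`: `ϖ ^ (n p^s) = ϖ ^ (ℓ i)`, `n p ^ s = ℓ i`, `ℓ` coprime to `p`.
-/

open Polynomial

open scoped Classical

namespace Pool.Agent.Lib.MP_89bcae_ag.Sup

variable {p : ℕ} {ϖ : ℝ}

private lemma L01.npow (x : ℝ) (i : ℤ) (n : ℕ) : (x ^ i) ^ n = x ^ (i * n) := by
  rw [zpow_mul, zpow_natCast]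

private lemma L01.npow' (x : ℝ) (i : ℤ) (n : ℕ) : (x ^ n) ^ i = x ^ ((n : ℤ) * i) := by
  rw [zpow_mul, zpow_natCast]

private lemma L01.zmul (x : ℝ) (a b : ℤ) : ∃ c : ℤ, x ^ a * x ^ b = x ^ c := by
  by_cases hx : x = 0
  · subst hx
    by_cases ha : a = 0
    · exact ⟨b, by rw [ha, zpow_zero, one_mul]⟩
    · refine ⟨a, ?_⟩
      rw [zero_zpow a ha, zero_mul]
  · exact ⟨a + b, (zpow_add₀ hx a b).symm⟩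

private lemma L01.zinj {ϖ : ℝ} (h0 : 0 < ϖ) (h1 : ϖ < 1) {a b : ℤ} (h : ϖ ^ a = ϖ ^ b) : a = b :=
  zpow_right_injective₀ h0 h1.ne h

lemma Val.one (p : ℕ) (ϖ : ℝ) : Val p ϖ 1 := ⟨0, 0, by simp⟩

lemma Val.mul {x y : ℝ} (hx : Val p ϖ x) (hy : Val p ϖ y) : Val p ϖ (x * y) := by
  obtain ⟨s, i, hs⟩ := hx
  obtain ⟨r, j, hr⟩ := hy
  obtain ⟨c, hc⟩ := L01.zmul ϖ (i * ((p ^ r : ℕ) : ℤ)) (j * ((p ^ s : ℕ) : ℤ))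
  refine ⟨s + r, c, ?_⟩
  rw [mul_pow, ← hc, ← L01.npow, ← L01.npow, ← hs, ← hr, ← pow_mul, ← pow_mul, ← pow_add,
    ← pow_add, add_comm r s]

lemma Val.inv {x : ℝ} (hx : Val p ϖ x) : Val p ϖ x⁻¹ := by
  obtain ⟨s, i, hs⟩ := hx
  exact ⟨s, -i, by rw [inv_pow, hs, zpow_neg]⟩

lemma Val.pow {x : ℝ} (hx : Val p ϖ x) (n : ℕ) : Val p ϖ (x ^ n) := by
  obtain ⟨s, i, hs⟩ := hx
  exact ⟨s, i * n, by rw [pow_right_comm, hs, L01.npow]⟩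

lemma Val.zpow {x : ℝ} (hx : Val p ϖ x) (n : ℤ) : Val p ϖ (x ^ n) := by
  obtain ⟨s, i, hs⟩ := hx
  refine ⟨s, i * n, ?_⟩
  rw [L01.npow, mul_comm n, zpow_mul, zpow_natCast, hs, zpow_mul]

lemma Val.prod {ι : Type*} (s : Finset ι) (x : ι → ℝ) (hx : ∀ i ∈ s, Val p ϖ (x i)) :
    Val p ϖ (∏ i ∈ s, x i) :=
  Finset.prod_induction x (Val p ϖ) (fun _ _ ha hb => ha.mul hb) (Val.one p ϖ) hx

/-- `ϖ ^ ℓ` instead of `ϖ`: a weaker statement for `ϖ`. -/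
lemma Val.mono {x : ℝ} {ℓ : ℕ} (hx : Val p (ϖ ^ ℓ) x) : Val p ϖ x := by
  obtain ⟨s, i, hs⟩ := hx
  exact ⟨s, ℓ * i, by rw [hs, L01.npow']⟩

lemma Val.pow_self {x : ℝ} (ℓ : ℕ) (hx : Val p ϖ x) : Val p (ϖ ^ ℓ) (x ^ ℓ) := by
  obtain ⟨s, i, hs⟩ := hx
  exact ⟨s, i, by rw [pow_right_comm, hs, L01.npow, L01.npow', mul_comm]⟩

lemma Val.of_pow {x : ℝ} {ℓ m : ℕ} (h0 : 0 < ϖ) (h1 : ϖ < 1) (hm : m.Coprime ℓ) (hx0 : 0 < x)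
    (hx : Val p ϖ x) (h : Val p (ϖ ^ ℓ) (x ^ m)) : Val p (ϖ ^ ℓ) x := by
  obtain ⟨s, i, hs⟩ := hx
  obtain ⟨r, j, hr⟩ := h
  have e1 : x ^ p ^ (s + r) = ϖ ^ (i * ((p ^ r : ℕ) : ℤ)) := by
    rw [pow_add, pow_mul, hs, L01.npow]
  have e2 : (x ^ p ^ (s + r)) ^ m = ϖ ^ ((ℓ : ℤ) * (j * ((p ^ s : ℕ) : ℤ))) := by
    rw [pow_right_comm, add_comm s r, pow_add, pow_mul, hr, L01.npow, L01.npow']
  rw [e1, L01.npow] at e2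
  have e3 := L01.zinj h0 h1 e2
  have hd : (ℓ : ℤ) ∣ (i * ((p ^ r : ℕ) : ℤ)) * (m : ℤ) := ⟨_, e3⟩
  have hco : IsCoprime (ℓ : ℤ) (m : ℤ) := (Nat.isCoprime_iff_coprime.2 hm).symm
  obtain ⟨k, hk⟩ := hco.dvd_of_dvd_mul_right hd
  exact ⟨s + r, k, by rw [e1, hk, L01.npow']⟩

lemma Val.root {x : ℝ} {ℓ : ℕ} (hℓ : ℓ ≠ 0) (h0 : 0 < ϖ) (hx0 : 0 < x)
    (h : Val p (ϖ ^ ℓ) (x ^ ℓ)) : Val p ϖ x := by
  obtain ⟨s, i, hs⟩ := h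
  refine ⟨s, i, ?_⟩
  rw [pow_right_comm, L01.npow', mul_comm, ← L01.npow] at hs
  exact (pow_left_inj₀ (pow_pos hx0 _).le (zpow_pos h0 _).le hℓ).1 hs

lemma Val.dvd_of_zpow {ℓ : ℕ} (hp : p.Coprime ℓ) (h0 : 0 < ϖ) (h1 : ϖ < 1) (n : ℤ)
    (h : Val p (ϖ ^ ℓ) (ϖ ^ n)) : (ℓ : ℤ) ∣ n := by
  obtain ⟨s, i, hs⟩ := h
  rw [L01.npow, L01.npow'] at hs
  have e := L01.zinj h0 h1 hs
  have hco : IsCoprime (ℓ : ℤ) ((p ^ s : ℕ) : ℤ) :=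
    (Nat.isCoprime_iff_coprime.2 (Nat.Coprime.pow_left s hp)).symm
  exact hco.dvd_of_dvd_mul_right ⟨_, e⟩

end Pool.Agent.Lib.MP_89bcae_ag.Sup
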