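import Mathlib
import Pool.Agent.Lib.MP_89bcae_ag.Sup.L01

/-!
ROW L02 (80-150 lines). Residues and `ℓ`-th roots of units.

PROOFS. `v_eq_one_of_residue`: ultrametric. Uniqueness of residues: a constant `c - c'` with
`v < 1` is zero. `root_of_unit_fixed`: let `z^ℓ = w`, `σ w = w`, `v w = 1`, so `v z = 1`. Let `c` be
the residue of `z`, `c ≠ 0`. `v (σ z - c) = v (σ (z - c)) < 1`. `σ z = ξ z` with `ξ^ℓ = 1`, and `ξ` is
a constant: it is a power of `ζ`, which is in (the image of) `F`; `v (ξ z - z) < 1` so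
`v (ξ - 1) < 1` and `ξ = 1`.
`root_fixed_of_val`: `(z ^ p^s / π' ^ i)` is an `ℓ`-th root of a fixed unit, where
`v (z ^ ℓ) ^ p^s = (ϖ ^ ℓ) ^ i`; so it is fixed; so `σ (z) ^ p^s = z ^ p^s`; as
`(σ z / z)^ℓ = 1` and `p` is prime to `ℓ`, `σ z = z`.
-/

open Polynomial

open scoped Classical

namespace Pool.Agent.Lib.MP_89bcae_ag.Sup

universe u

variable {F M : Type u} [Field F] [Field M] [Algebra F M] {v : AbsoluteValue M ℝ} {a : F} {t : M}

lemma LocCtx.residue_unique (h : LocCtx v a t) {x : M} {c c' : F}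
    (hc : v (x - algebraMap F M c) < 1) (hc' : v (x - algebraMap F M c') < 1) : c = c' := by
  by_contra hne
  have h1 := h.const (c - c') (sub_ne_zero.mpr hne)
  have h2 : algebraMap F M (c - c') = (x - algebraMap F M c') + -(x - algebraMap F M c) := by
    rw [map_sub]; ring
  have h3 := h.nonarch (x - algebraMap F M c') (-(x - algebraMap F M c))
  rw [← h2, h1, v.map_neg] at h3
  exact absurd h3 (not_le.mpr (max_lt hc' hc))

lemma LocCtx.v_const_le (h : LocCtx v a t) (c : F) : v (algebraMap F M c) ≤ 1 := by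
  by_cases hc : c = 0
  · rw [hc, map_zero, map_zero]
    exact zero_le_one
  · exact (h.const c hc).le

lemma LocCtx.v_eq_one (h : LocCtx v a t) {x : M} {c : F} (hc : v (x - algebraMap F M c) < 1)
    (h0 : c ≠ 0) : v x = 1 := by
  have h1 := h.const c h0
  apply le_antisymm
  · have h2 := h.nonarch (x - algebraMap F M c) (algebraMap F M c)
    rw [sub_add_cancel, h1] at h2
    exact h2.trans (max_le hc.le le_rfl)
  · have h2 := h.nonarch x (-(x - algebraMap F M c))
    rw [v.map_neg, show x + -(x - algebraMap F M c) = algebraMap F M c by ring, h1] at h2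
    rcases le_max_iff.mp h2 with h3 | h3
    · exact h3
    · exact absurd h3 (not_le.mpr hc)

lemma LocCtx.v_le_one (h : LocCtx v a t) {x : M} {c : F} (hc : v (x - algebraMap F M c) < 1) :
    v x ≤ 1 := by
  have h2 := h.nonarch (x - algebraMap F M c) (algebraMap F M c)
  rw [sub_add_cancel] at h2
  exact h2.trans (max_le hc.le (h.v_const_le c))

/-- Residues are multiplicative. -/
lemma LocCtx.residue_mul (h : LocCtx v a t) {x y : M} {c d : F}
    (hc : v (x - algebraMap F M c) < 1) (hd : v (y - algebraMap F M d) < 1) :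
    v (x * y - algebraMap F M (c * d)) < 1 := by
  have h1 : x * y - algebraMap F M (c * d) =
      x * (y - algebraMap F M d) + algebraMap F M d * (x - algebraMap F M c) := by
    rw [map_mul]; ring
  rw [h1]
  refine (h.nonarch _ _).trans_lt (max_lt ?_ ?_)
  · rw [v.map_mul]
    exact (mul_le_of_le_one_left (v.nonneg _) (h.v_le_one hc)).trans_lt hd
  · rw [v.map_mul]
    exact (mul_le_of_le_one_left (v.nonneg _) (h.v_const_le d)).trans_lt hc

lemma LocCtx.residue_inv (h : LocCtx v a t) {x : M} {c : F}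
    (hc : v (x - algebraMap F M c) < 1) (h0 : c ≠ 0) :
    v (x⁻¹ - algebraMap F M c⁻¹) < 1 := by
  have hx1 : v x = 1 := h.v_eq_one hc h0
  have hx0 : x ≠ 0 := by
    rintro rfl
    rw [map_zero] at hx1
    exact zero_ne_one hx1
  have hc0 : algebraMap F M c ≠ 0 := by
    intro h2
    have h3 := h.const c h0
    rw [h2, map_zero] at h3
    exact zero_ne_one h3
  have h1 : x⁻¹ - algebraMap F M c⁻¹ = -(x - algebraMap F M c) * (x⁻¹ * (algebraMap F M c)⁻¹) := by
    rw [map_inv₀]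
    field_simp
    ring
  rw [h1, v.map_mul, v.map_mul, v.map_neg, map_inv₀, map_inv₀, hx1, h.const c h0]
  simpa using hc

private lemma L02_residue_pow (h : LocCtx v a t) {x : M} {c : F}
    (hc : v (x - algebraMap F M c) < 1) (n : ℕ) :
    v (x ^ n - algebraMap F M (c ^ n)) < 1 := by
  induction n with
  | zero => simp
  | succ n ih =>
    rw [pow_succ, pow_succ]
    exact h.residue_mul ih hc

lemma LocCtx.residue_zpow (h : LocCtx v a t) {x : M} {c : F}
    (hc : v (x - algebraMap F M c) < 1) (h0 : c ≠ 0) (n : ℤ) :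
    v (x ^ n - algebraMap F M (c ^ n)) < 1 := by
  rcases n with n | n
  · rw [Int.ofNat_eq_natCast, zpow_natCast, zpow_natCast]
    exact L02_residue_pow h hc n
  · rw [zpow_negSucc, zpow_negSucc]
    exact h.residue_inv (L02_residue_pow h hc (n + 1)) (pow_ne_zero _ h0)

lemma LocCtx.residue_eval (h : LocCtx v a t) {x : M} {c : F}
    (hc : v (x - algebraMap F M c) < 1) (P : F[X]) :
    v (aeval x P - algebraMap F M (P.eval c)) < 1 := by
  induction P using Polynomial.induction_on' with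
  | add p q hp hq =>
    have h1 : aeval x (p + q) - algebraMap F M ((p + q).eval c) =
        (aeval x p - algebraMap F M (p.eval c)) + (aeval x q - algebraMap F M (q.eval c)) := by
      rw [map_add, eval_add, map_add]; ring
    rw [h1]
    exact (h.nonarch _ _).trans_lt (max_lt hp hq)
  | monomial n r =>
    rw [aeval_monomial, eval_monomial]
    refine h.residue_mul ?_ (L02_residue_pow h hc n)
    simp

lemma LocCtx.root_of_unit_fixed (h : LocCtx v a t) {ℓ : ℕ} (hℓ : ℓ ≠ 0) {ζ : F}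
    (hζ : IsPrimitiveRoot ζ ℓ) (σ : M ≃+* M) (hσ : ∀ x, v (σ x) = v x)
    (hc : ∀ c : F, σ (algebraMap F M c) = algebraMap F M c) {z : M} (h1 : v z = 1)
    (hz : σ (z ^ ℓ) = z ^ ℓ) : σ z = z := by
  have hz0 : z ≠ 0 := by
    rintro rfl
    rw [map_zero] at h1
    exact zero_ne_one h1
  obtain ⟨c, hcz⟩ := h.residue z h1.le
  have hc0 : c ≠ 0 := by
    rintro rfl
    rw [map_zero, sub_zero, h1] at hcz
    exact lt_irrefl _ hcz
  have hξ : (σ z / z) ^ ℓ = 1 := by
    rw [div_pow, ← map_pow, hz, div_self (pow_ne_zero _ hz0)]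
  have : NeZero ℓ := ⟨hℓ⟩
  have hζM : IsPrimitiveRoot (algebraMap F M ζ) ℓ :=
    hζ.map_of_injective (algebraMap F M).injective
  obtain ⟨i, -, hi⟩ := hζM.eq_pow_of_pow_eq_one hξ
  have hσz : σ z = algebraMap F M (ζ ^ i) * z := by
    rw [map_pow, hi, div_mul_cancel₀ _ hz0]
  have h2 : v (σ z - algebraMap F M c) < 1 := by
    have h3 := hσ (z - algebraMap F M c)
    rw [map_sub, hc] at h3
    rw [h3]
    exact hcz
  have h4 : v (σ z - algebraMap F M (ζ ^ i * c)) < 1 := by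
    rw [hσz]
    refine h.residue_mul ?_ hcz
    simp
  have h5 : c = ζ ^ i * c := h.residue_unique h2 h4
  have h6 : ζ ^ i = 1 := by
    have h7 : ζ ^ i * c = 1 * c := by rw [one_mul]; exact h5.symm
    exact mul_right_cancel₀ hc0 h7
  rw [hσz, h6, map_one, one_mul]

lemma LocCtx.root_fixed_of_val (h : LocCtx v a t) {ℓ p : ℕ} (hℓ : ℓ ≠ 0) (hp : p.Coprime ℓ) {ζ : F}
    (hζ : IsPrimitiveRoot ζ ℓ) (σ : M ≃+* M) (hσ : ∀ x, v (σ x) = v x)
    (hc : ∀ c : F, σ (algebraMap F M c) = algebraMap F M c) {z π' : M} (hz0 : z ≠ 0)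
    (hπ0 : π' ≠ 0) (hπ : σ π' = π') (hz : σ (z ^ ℓ) = z ^ ℓ)
    (hv : Val p (v π' ^ ℓ) (v (z ^ ℓ))) : σ z = z := by
  obtain ⟨s, i, hsi⟩ := hv
  have hπi0 : π' ^ i ≠ 0 := zpow_ne_zero _ hπ0
  have hvπ0 : v π' ≠ 0 := v.ne_zero hπ0
  have hw1 : v (z ^ p ^ s / π' ^ i) = 1 := by
    have h1 : (v (z ^ p ^ s / π' ^ i)) ^ ℓ = 1 := by
      rw [map_div₀, map_pow, map_zpow₀, div_pow]
      have h2 : (v z ^ p ^ s) ^ ℓ = (v (z ^ ℓ)) ^ p ^ s := by
        rw [map_pow, ← pow_mul, ← pow_mul, mul_comm]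
      have h3 : (v π' ^ i) ^ ℓ = (v π' ^ ℓ) ^ i := by
        rw [← zpow_natCast, ← zpow_natCast, ← zpow_mul, ← zpow_mul, mul_comm]
      rw [h2, h3, hsi]
      exact div_self (zpow_ne_zero _ (pow_ne_zero _ hvπ0))
    exact (pow_eq_one_iff_of_nonneg (v.nonneg _) hℓ).mp h1
  have hwf : σ ((z ^ p ^ s / π' ^ i) ^ ℓ) = (z ^ p ^ s / π' ^ i) ^ ℓ := by
    have h2 : (z ^ p ^ s / π' ^ i) ^ ℓ = (z ^ ℓ) ^ p ^ s / (π' ^ i) ^ ℓ := by
      rw [div_pow, ← pow_mul, ← pow_mul, mul_comm]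
    rw [h2, map_div₀, map_pow, hz, map_pow, map_zpow₀, hπ]
  have hw := h.root_of_unit_fixed hℓ hζ σ hσ hc hw1 hwf
  have hzs : σ z ^ p ^ s = z ^ p ^ s := by
    rw [map_div₀, map_zpow₀, hπ, map_pow] at hw
    exact (div_left_inj' hπi0).mp hw
  have h1 : (σ z / z) ^ p ^ s = 1 := by
    rw [div_pow, hzs, div_self (pow_ne_zero _ hz0)]
  have h2 : (σ z / z) ^ ℓ = 1 := by
    rw [div_pow, ← map_pow, hz, div_self (pow_ne_zero _ hz0)]
  have h3 : (σ z / z) ^ (Nat.gcd (p ^ s) ℓ) = 1 := pow_gcd_eq_one.mpr ⟨h1, h2⟩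
  rw [(Nat.Coprime.pow_left s hp : Nat.gcd (p ^ s) ℓ = 1), pow_one] at h3
  exact (div_eq_one_iff_eq hz0).mp h3

end Pool.Agent.Lib.MP_89bcae_ag.Sup
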