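import Mathlib
import Pool.Agent.Lib.MP_89bcae_ag.Sup.L02

/-!
ROW L03 (100-180 lines). The roots of `g(x) = t` in `M`.

`f = d⁻¹ (g(x) - t)`, `g` monic of degree `m ≥ 1` with coefficients in `F`.
PROOFS. (1) is a computation. (2) If `v θ > 1` the leading term dominates: `v (g(θ)) = v(θ)^m > 1`,
while `v t ≤ 1` (`t = a + (t - a)`). (8) is the same computation. (3) Let `r` be the residue of `θ`:
`g(θ) - g(r)` has `v < 1` (`LocCtx.residue_eval`) and `g(θ) - a = t - a` has `v < 1`; the residue is
unique. (4) `M` is algebraically closed and `f` is separable: `f = C d⁻¹ ∏ (X - θ)` over the finite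
set of its roots (`IsAlgClosed.splits`, `nodup_roots`).
-/

open Polynomial

open scoped Classical

namespace Pool.Agent.Lib.MP_89bcae_ag.Sup

universe u

variable {F M : Type u} [Field F] [Field M] [Algebra F M] {v : AbsoluteValue M ℝ} {a : F} {t : M}

lemma eval_locPoly (g : F[X]) (t d x : M) :
    (locPoly g t d).eval x = d⁻¹ * (aeval x g - t) := by
  unfold locPoly
  rw [eval_mul, eval_C, eval_sub, eval_C, eval_map, aeval_def]

lemma eval_locPoly_eq_zero {g : F[X]} {t d x : M} (hd : d ≠ 0) :
    (locPoly g t d).eval x = 0 ↔ aeval x g = t := by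
  rw [eval_locPoly, mul_eq_zero, or_iff_right (inv_ne_zero hd), sub_eq_zero]

private lemma l03_monic {g : F[X]} (hg : g.Monic) (hm : g.natDegree ≠ 0) (t : M) :
    (g.map (algebraMap F M) - C t).Monic := by
  refine Monic.sub_of_left (hg.map _) ?_
  rw [degree_map, degree_eq_natDegree hg.ne_zero]
  refine degree_C_le.trans_lt ?_
  exact_mod_cast Nat.pos_of_ne_zero hm

private lemma l03_natDegree {g : F[X]} (t : M) :
    (g.map (algebraMap F M) - C t).natDegree = g.natDegree := by
  rw [natDegree_sub_C, natDegree_map]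

lemma natDegree_locPoly {g : F[X]} (hg : g.Monic) (hm : g.natDegree ≠ 0) {t d : M} (hd : d ≠ 0) :
    (locPoly g t d).natDegree = g.natDegree := by
  unfold locPoly
  rw [natDegree_C_mul (inv_ne_zero hd), l03_natDegree]

/-- The finite set of the roots of `g(x) = t`. -/
noncomputable def rts (f : M[X]) : Finset M := f.roots.toFinset

lemma mem_rts {f : M[X]} (hf : f ≠ 0) {θ : M} : θ ∈ rts f ↔ f.eval θ = 0 := by
  unfold rts
  rw [Multiset.mem_toFinset, mem_roots hf, IsRoot.def]

lemma locPoly_ne_zero {g : F[X]} (hg : g.Monic) (hm : g.natDegree ≠ 0) {t d : M} (hd : d ≠ 0) :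
    locPoly g t d ≠ 0 := by
  unfold locPoly
  exact mul_ne_zero (C_ne_zero.2 (inv_ne_zero hd)) (l03_monic hg hm t).ne_zero

private lemma l03_vconst (h : LocCtx v a t) (c : F) : v (algebraMap F M c) ≤ 1 := by
  by_cases hc : c = 0
  · rw [hc, map_zero, map_zero]
    exact zero_le_one
  · exact (h.const c hc).le

private lemma l03_vt (h : LocCtx v a t) : v t ≤ 1 := by
  have h1 : t = (t - algebraMap F M a) + algebraMap F M a := by ring
  rw [h1]
  exact (h.nonarch _ _).trans (max_le h.lt_one.le (l03_vconst h a))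

private lemma l03_sum (h : LocCtx v a t) (s : Finset ℕ) (y : ℕ → M) {B : ℝ} (hB : 0 < B)
    (hy : ∀ i ∈ s, v (y i) < B) : v (∑ i ∈ s, y i) < B := by
  induction s using Finset.induction_on with
  | empty => rwa [Finset.sum_empty, map_zero]
  | insert j s hj ih =>
    rw [Finset.sum_insert hj]
    refine (h.nonarch _ _).trans_lt (max_lt (hy j (Finset.mem_insert_self _ _)) ?_)
    exact ih fun i hi => hy i (Finset.mem_insert_of_mem hi)

/-- the value of a sum with a strictly dominant term -/
private lemma l03_dom (h : LocCtx v a t) {x y : M} (hxy : v y < v x) : v (x + y) = v x := by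
  refine le_antisymm ((h.nonarch _ _).trans (max_le le_rfl hxy.le)) ?_
  by_contra hlt
  have hlt' := not_le.1 hlt
  have h1 : x = (x + y) + (-y) := by ring
  have h2 : v x ≤ max (v (x + y)) (v (-y)) := by
    conv_lhs => rw [h1]
    exact h.nonarch _ _
  rw [v.map_neg] at h2
  exact absurd h2 (not_le.2 (max_lt hlt' hxy))

private lemma l03_large (h : LocCtx v a t) {g : F[X]} (hg : g.Monic) (hm : g.natDegree ≠ 0)
    {x : M} (hx : 1 < v x) : v (aeval x g - t) = v x ^ g.natDegree := by
  have hpos : 0 < v x := zero_lt_one.trans hx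
  have h1 : aeval x g - t = x ^ g.natDegree +
      (∑ i ∈ Finset.range g.natDegree, algebraMap F M (g.coeff i) * x ^ i + (-t)) := by
    rw [aeval_eq_sum_range, Finset.sum_range_succ, hg.coeff_natDegree, one_smul]
    simp only [Algebra.smul_def]
    ring
  have hP : 0 < v x ^ g.natDegree := pow_pos hpos _
  rw [h1, l03_dom h, map_pow]
  rw [map_pow]
  refine (h.nonarch _ _).trans_lt (max_lt ?_ ?_)
  · refine l03_sum h _ _ hP fun i hi => ?_
    rw [map_mul, map_pow]
    calc v (algebraMap F M (g.coeff i)) * v x ^ i ≤ 1 * v x ^ i :=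
          mul_le_mul_of_nonneg_right (l03_vconst h _) (pow_nonneg hpos.le _)
      _ = v x ^ i := one_mul _
      _ < v x ^ g.natDegree := pow_lt_pow_right₀ hx (Finset.mem_range.1 hi)
  · rw [v.map_neg]
    exact (l03_vt h).trans_lt (one_lt_pow₀ hx hm)

/-- (2) -/
lemma LocCtx.v_root_le (h : LocCtx v a t) {g : F[X]} (hg : g.Monic) (hm : g.natDegree ≠ 0) {θ : M}
    (hθ : aeval θ g = t) : v θ ≤ 1 := by
  by_contra hlt
  have hx := not_le.1 hlt
  have h1 := l03_large h hg hm hx
  rw [hθ, sub_self, map_zero] at h1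
  exact (pow_pos (zero_lt_one.trans hx) g.natDegree).ne h1

/-- (8) -/
lemma LocCtx.v_eval_of_large (h : LocCtx v a t) {g : F[X]} (hg : g.Monic) (hm : g.natDegree ≠ 0)
    {x : M} (hx : 1 < v x) : v (aeval x g - t) = v x ^ g.natDegree :=
  l03_large h hg hm hx

/-- (3) -/
lemma LocCtx.eval_residue (h : LocCtx v a t) {g : F[X]} {θ : M} (hθ : aeval θ g = t) {r : F}
    (hr : v (θ - algebraMap F M r) < 1) : g.eval r = a := by
  have h1 := h.residue_eval hr g
  rw [hθ] at h1
  exact h.residue_unique h1 h.lt_one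

private lemma l03_split [IsAlgClosed M] {g : F[X]} (hg : g.Monic) (hm : g.natDegree ≠ 0) {t d : M}
    (hd : d ≠ 0) (hs : (locPoly g t d).Separable) :
    g.map (algebraMap F M) - C t = ∏ θ ∈ rts (locPoly g t d), (X - C θ) := by
  have hmon := l03_monic hg hm t
  have hroots : (locPoly g t d).roots = (g.map (algebraMap F M) - C t).roots := by
    unfold locPoly
    exact roots_C_mul _ (inv_ne_zero hd)
  have hnd : (g.map (algebraMap F M) - C t).roots.Nodup := by
    rw [← hroots]
    exact nodup_roots hs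
  have hsp : (g.map (algebraMap F M) - C t).Splits := IsAlgClosed.splits _
  have h2 := hsp.eq_prod_roots_of_monic hmon
  have h3 : ∏ θ ∈ rts (locPoly g t d), (X - C θ) =
      ((g.map (algebraMap F M) - C t).roots.map fun θ => X - C θ).prod := by
    unfold rts
    rw [hroots, Finset.prod, Multiset.toFinset_val, hnd.dedup]
  rw [h3]
  exact h2

/-- (4) -/
lemma eval_sub_eq_prod [IsAlgClosed M] {g : F[X]} (hg : g.Monic) (hm : g.natDegree ≠ 0) {t d : M}
    (hd : d ≠ 0) (hs : (locPoly g t d).Separable) (x : M) :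
    aeval x g - t = ∏ θ ∈ rts (locPoly g t d), (x - θ) := by
  have h1 := congrArg (eval x) (l03_split hg hm hd hs)
  rw [eval_sub, eval_C, eval_map, ← aeval_def, eval_prod] at h1
  simpa using h1

lemma card_rts [IsAlgClosed M] {g : F[X]} (hg : g.Monic) (hm : g.natDegree ≠ 0) {t d : M}
    (hd : d ≠ 0) (hs : (locPoly g t d).Separable) :
    (rts (locPoly g t d)).card = g.natDegree := by
  have h1 := congrArg natDegree (l03_split hg hm hd hs)
  rw [l03_natDegree, natDegree_prod_of_monic _ _ fun θ _ => monic_X_sub_C θ] at h1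
  simpa using h1.symm

lemma derivative_locPoly_eval [IsAlgClosed M] {g : F[X]} (hg : g.Monic) (hm : g.natDegree ≠ 0)
    {t d : M} (hd : d ≠ 0) (hs : (locPoly g t d).Separable) {θ : M}
    (hθ : θ ∈ rts (locPoly g t d)) :
    (derivative (locPoly g t d)).eval θ =
      d⁻¹ * ∏ θ' ∈ (rts (locPoly g t d)).erase θ, (θ - θ') := by
  have h1 : locPoly g t d = C d⁻¹ * ((X - C θ) * ∏ θ' ∈ (rts (locPoly g t d)).erase θ,
      (X - C θ')) := by
    rw [Finset.mul_prod_erase (rts (locPoly g t d)) (fun θ => X - C θ) hθ, ← l03_split hg hm hd hs]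
    rfl
  have h2 := congrArg (fun q : M[X] => (derivative q).eval θ) h1
  simp only [derivative_C_mul, derivative_mul, derivative_sub, derivative_X, derivative_C,
    eval_mul, eval_C, eval_add, eval_sub, eval_X, sub_self, zero_mul, sub_zero, one_mul, add_zero,
    eval_prod, mul_one] at h2
  rw [h2]
  simp

end Pool.Agent.Lib.MP_89bcae_ag.Sup
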