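import Mathlib

/-!
ROW G09 (100-200 lines). Kummer theory for a continuous character of a subgroup of `Aut(Ω/L)`.

STATEMENT. `Ω/L` normal, `ζ` a primitive `ℓ`-th root of unity fixed by `H`, `χ` a function to `ZMod ℓ`
which is additive on the subgroup `H` of `Aut(Ω/L)` and vanishes on the elements of `H` which fix a
certain finite set `S`. Then there is `z ≠ 0` with `σ z = ζ^{χ(σ)} z` for all `σ` in `H`.

PROOF. Let `E` be the normal closure in `Ω` of `L(S)`: finite over `L`, stable under `H`. `H` acts on `E`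
through a finite group `G` of automorphisms of the field `E` (the image of `H → Aut(E/L)`), and
`χ` factors through `G`. By the linear independence of characters (`linearIndependent_monoidHom`) there
is `y` in `E` with `z = ∑_{s∈G} ζ^{-χ(s)} s(y) ≠ 0`. For `σ` in `H`,
`σ z = ∑ ζ^{-χ(s)} (σ s)(y) = ζ^{χ(σ)} z`.
-/

open Polynomial

open scoped Classical

namespace Pool.Agent.Lib.MP_89bcae_ag.Sup

theorem g09_pow_val_add {Ω : Type*} [Field Ω] {ℓ : ℕ} [Fact ℓ.Prime] {ζ : Ω} (hζ : ζ ^ ℓ = 1)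
    (a b : ZMod ℓ) : ζ ^ (a + b).val = ζ ^ a.val * ζ ^ b.val := by
  rw [ZMod.val_add, ← pow_eq_pow_mod _ hζ, pow_add]

theorem exists_kummer_char {L Ω : Type*} [Field L] [Field Ω] [Algebra L Ω] [Normal L Ω] {ℓ : ℕ}
    [Fact ℓ.Prime] {ζ : Ω} (hζ : IsPrimitiveRoot ζ ℓ) (H : Subgroup (Ω ≃ₐ[L] Ω))
    (hζH : ∀ σ ∈ H, σ ζ = ζ) (χ : (Ω ≃ₐ[L] Ω) → ZMod ℓ)
    (hχ : ∀ σ ∈ H, ∀ τ ∈ H, χ (σ * τ) = χ σ + χ τ) (S : Finset Ω)
    (hS : ∀ σ ∈ H, (∀ x ∈ S, σ x = x) → χ σ = 0) :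
    ∃ z : Ω, z ≠ 0 ∧ ∀ σ ∈ H, σ z = ζ ^ (χ σ).val * z := by
  have hζℓ : ζ ^ ℓ = 1 := hζ.pow_eq_one
  have hζ0 : ζ ≠ 0 := hζ.ne_zero (Fact.out : ℓ.Prime).ne_zero
  have hfd : FiniteDimensional L (IntermediateField.adjoin L (S : Set Ω)) :=
    IntermediateField.finiteDimensional_adjoin
      (fun x _ => (Algebra.IsAlgebraic.isAlgebraic (R := L) x).isIntegral)
  let E : IntermediateField L Ω :=
    IntermediateField.normalClosure L (IntermediateField.adjoin L (S : Set Ω)) Ω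
  have hEn : Normal L E := inferInstanceAs (Normal L
    (IntermediateField.normalClosure L (IntermediateField.adjoin L (S : Set Ω)) Ω))
  have hEfd : FiniteDimensional L E := inferInstanceAs (FiniteDimensional L
    (IntermediateField.normalClosure L (IntermediateField.adjoin L (S : Set Ω)) Ω))
  have hSE : ∀ x ∈ S, x ∈ E := by
    intro x hx
    have h1 : x ∈ IntermediateField.adjoin L (S : Set Ω) :=
      IntermediateField.subset_adjoin L (S : Set Ω) hx
    exact (IntermediateField.le_normalClosure _) h1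
  let res : (Ω ≃ₐ[L] Ω) →* (E ≃ₐ[L] E) := AlgEquiv.restrictNormalHom E
  have hres : ∀ (σ : Ω ≃ₐ[L] Ω) (x : E), algebraMap E Ω (res σ x) = σ (algebraMap E Ω x) :=
    fun σ x => AlgEquiv.restrictNormal_commutes σ E x
  have hfac : ∀ σ ∈ H, ∀ τ ∈ H, res σ = res τ → χ σ = χ τ := by
    intro σ hσ τ hτ h
    have h1 : ∀ x ∈ S, (σ⁻¹ * τ) x = x := by
      intro x hx
      have h2 := hres σ ⟨x, hSE x hx⟩
      have h3 := hres τ ⟨x, hSE x hx⟩
      rw [h] at h2
      have h4 : σ x = τ x := h2.symm.trans h3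
      rw [AlgEquiv.mul_apply, ← h4, ← AlgEquiv.mul_apply, inv_mul_cancel]
      rfl
    have h5 := hS _ (H.mul_mem (H.inv_mem hσ) hτ) h1
    have h6 := hχ σ hσ _ (H.mul_mem (H.inv_mem hσ) hτ)
    rw [mul_inv_cancel_left, h5, add_zero] at h6
    exact h6.symm
  let G : Subgroup (E ≃ₐ[L] E) := H.map res
  have hG : ∀ s : G, ∃ σ ∈ H, res σ = s := by
    intro s
    obtain ⟨σ, hσ, h⟩ := s.2
    exact ⟨σ, hσ, h⟩
  choose lift hlift1 hlift2 using hG
  have hfin : Finite (E ≃ₐ[L] E) := inferInstance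
  let hft : Fintype G := Fintype.ofFinite G
  let Φ : G → (E →* Ω) := fun s =>
    ((algebraMap E Ω : E →+* Ω).comp ((s : E ≃ₐ[L] E) : E →+* E) : E →+* Ω)
  have hΦ : ∀ (s : G) (y : E), Φ s y = algebraMap E Ω ((s : E ≃ₐ[L] E) y) := fun s y => rfl
  have hΦinj : Function.Injective Φ := by
    intro s s' h
    apply Subtype.ext
    apply AlgEquiv.ext
    intro y
    have h1 := DFunLike.congr_fun h y
    rw [hΦ, hΦ] at h1
    exact (algebraMap E Ω).injective h1
  have hlin := (linearIndependent_monoidHom E Ω).comp Φ hΦinj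
  rw [Fintype.linearIndependent_iff] at hlin
  have hex : ∃ y : E, ∑ s : G, ζ ^ (-χ (lift s)).val * Φ s y ≠ 0 := by
    by_contra hcon
    push Not at hcon
    have h1 := hlin (fun s => ζ ^ (-χ (lift s)).val) (by
      funext y
      simp only [Function.comp_apply, Finset.sum_apply, Pi.smul_apply, smul_eq_mul, Pi.zero_apply]
      exact hcon y) 1
    exact pow_ne_zero _ hζ0 h1
  obtain ⟨y, hy⟩ := hex
  refine ⟨∑ s : G, ζ ^ (-χ (lift s)).val * Φ s y, hy, ?_⟩
  intro σ hσ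
  have hσG : res σ ∈ G := ⟨σ, hσ, rfl⟩
  rw [map_sum, Finset.mul_sum]
  apply Fintype.sum_equiv (Equiv.mulLeft (⟨res σ, hσG⟩ : G))
  intro s
  rw [Equiv.coe_mulLeft]
  have h1 : χ (lift (⟨res σ, hσG⟩ * s)) = χ σ + χ (lift s) := by
    rw [← hχ σ hσ _ (hlift1 s)]
    apply hfac _ (hlift1 _) _ (H.mul_mem hσ (hlift1 s))
    rw [hlift2, map_mul, hlift2]
    rfl
  have h2 : -χ (lift s) = χ σ + -χ (lift (⟨res σ, hσG⟩ * s)) := by
    rw [h1]
    ring
  have h3 : Φ (⟨res σ, hσG⟩ * s) y = σ (Φ s y) := by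
    rw [hΦ, hΦ, ← hres]
    rfl
  rw [map_mul, map_pow, hζH σ hσ, h3, h2, g09_pow_val_add hζℓ, mul_assoc]

end Pool.Agent.Lib.MP_89bcae_ag.Sup
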