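import Mathlib
import Pool.Agent.Lib.MP_89bcae_ag.Sup.R10

/-!
ROW R11 (80-150 lines). Hilbert's theorem 90 for the cyclic extension of function fields.

PROOF. Let `φ = rotU ζ⁻¹` (an automorphism of the field `Fn ℓ f`, the inverse of `rotU ζ`) and
`n = ∏_{i<ℓ} φ^i(h) = nrm h = 1` (the same product in another order, as `φ^ℓ = 1`). The field
automorphisms `1, φ, ..., φ^(ℓ-1)` are distinct (`φ^i y = ζ^(-i) y`), so they are linearly
independent (`linearIndependent_monoidHom`): there is `b` with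
`v = ∑_{i<ℓ} (∏_{j<i} φ^j(h)) φ^i(b) ≠ 0`. Then `h φ(v) = v` (the term `i = ℓ - 1` becomes
`n φ^ℓ(b) = b`). (Alternatively Mathlib's Hilbert 90 for cyclic groups.)
-/

open Polynomial IsDedekindDomain

open scoped Classical

namespace Pool.Agent.Lib.MP_89bcae_ag.Sup

universe u

variable {ℓ : ℕ} {E : Type u} [Field E] {f : E[X]} [hG : IsGood ℓ f]

lemma R11_full (ζ : E) (hζ : ζ ^ ℓ = 1) (h0 : ζ ≠ 0) (x : Fn ℓ f) :
    (autF (rotE ζ hζ h0))^[ℓ] x = x := by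
  obtain ⟨a, b, _, hab⟩ := IsFractionRing.div_surjective (A := Coord ℓ f) x
  rw [← hab, R10_autF_div, R10_autF_iter, R10_autF_iter, R10_rot_full, R10_rot_full]

lemma R11_yy (ζ : E) (hζ : ζ ^ ℓ = 1) (h0 : ζ ≠ 0) (n : ℕ) :
    (rotE ζ hζ h0)^[n] (yy : Coord ℓ f) = ofPoly (C (ζ ^ n)) * yy := by
  induction n with
  | zero => simp
  | succ n ih =>
    rw [Function.iterate_succ_apply', ih, R10_rotE_apply, map_mul, rotC_ofPoly, rotC_yy,
      pow_succ, C_mul, map_mul]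
    ring

lemma R11_succ (ζ : E) (hζ : ζ ^ ℓ = 1) (h0 : ζ ≠ 0) (h : (Fn ℓ f)ˣ) (i : ℕ) :
    ∏ j ∈ Finset.range (i + 1), (rotU ζ hζ h0)^[j] h =
      h * rotU ζ hζ h0 (∏ j ∈ Finset.range i, (rotU ζ hζ h0)^[j] h) := by
  rw [Finset.prod_range_succ', Function.iterate_zero, id, map_prod, mul_comm]
  congr 1
  apply Finset.prod_congr rfl
  intro j _
  rw [Function.iterate_succ_apply']

lemma R11_exists (ζ : E) (hζ : IsPrimitiveRoot ζ ℓ) (h0 : ζ ≠ 0) (c : ℕ → Fn ℓ f)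
    (hc : c 0 ≠ 0) :
    ∃ b : Fn ℓ f, ∑ i ∈ Finset.range ℓ, c i * (autF (rotE ζ hζ.pow_eq_one h0))^[i] b ≠ 0 := by
  by_contra hcon
  push Not at hcon
  set ρ := autF (rotE ζ hζ.pow_eq_one h0 : Coord ℓ f ≃+* Coord ℓ f) with hρ
  set ψ : Monoid.End (Fn ℓ f) := ((ρ : Fn ℓ f →+* Fn ℓ f) : Fn ℓ f →* Fn ℓ f) with hψ
  have hψi : ∀ (i : ℕ) (x : Fn ℓ f), (ψ ^ i : Monoid.End (Fn ℓ f)) x = ρ^[i] x := by
    intro i x
    rw [Monoid.End.coe_pow]
    rfl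
  set χ : Fin ℓ → (Fn ℓ f →* Fn ℓ f) := fun i => (ψ ^ (i : ℕ) : Monoid.End (Fn ℓ f)) with hχ
  have hinj : Function.Injective χ := by
    intro i j hij
    have h1 : (χ i) (algebraMap (Coord ℓ f) (Fn ℓ f) yy) =
        (χ j) (algebraMap (Coord ℓ f) (Fn ℓ f) yy) := by rw [hij]
    have h2 : ∀ k : Fin ℓ, (χ k) (algebraMap (Coord ℓ f) (Fn ℓ f) yy) =
        algebraMap (Coord ℓ f) (Fn ℓ f) (ofPoly (C (ζ ^ (k : ℕ))) * yy) := by
      intro k
      rw [← R11_yy ζ hζ.pow_eq_one h0 k, ← R10_autF_iter]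
      exact hψi k _
    rw [h2, h2, map_mul, map_mul] at h1
    have h3 := mul_right_cancel₀ algebraMap_yy_ne_zero h1
    have h4 := IsFractionRing.injective (Coord ℓ f) (Fn ℓ f) h3
    have h5 := C_injective (ofPoly_injective (ℓ := ℓ) (f := f) hG.prime.ne_zero h4)
    exact Fin.ext (hζ.pow_inj i.2 j.2 h5)
  have hli := (linearIndependent_monoidHom (Fn ℓ f) (Fn ℓ f)).comp χ hinj
  rw [Fintype.linearIndependent_iff] at hli
  have h6 := hli (fun i => c i) (by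
    funext b
    rw [Finset.sum_apply, Pi.zero_apply, ← hcon b, Finset.sum_range]
    apply Finset.sum_congr rfl
    intro i _
    rw [← hψi i b]
    rfl) ⟨0, hG.prime.pos⟩
  exact hc h6

lemma exists_hilbert (ζ : E) (hζ : IsPrimitiveRoot ζ ℓ) (h0 : ζ ≠ 0) (h : (Fn ℓ f)ˣ)
    (hn : nrm ζ hζ.pow_eq_one h0 h = 1) :
    ∃ v : (Fn ℓ f)ˣ, h = v / (rotU ζ hζ.pow_eq_one h0).symm v := by
  set ρ := autF (rotE ζ hζ.pow_eq_one h0 : Coord ℓ f ≃+* Coord ℓ f) with hρ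
  set R := rotU ζ hζ.pow_eq_one h0 (f := f) with hR
  set c : ℕ → (Fn ℓ f)ˣ := fun i => ∏ j ∈ Finset.range i, R^[j] h with hc
  have hRρ : ∀ u : (Fn ℓ f)ˣ, ((R u : (Fn ℓ f)ˣ) : Fn ℓ f) = ρ (u : Fn ℓ f) := fun _ => rfl
  have hcs : ∀ i, c (i + 1) = h * R (c i) := fun i => R11_succ ζ hζ.pow_eq_one h0 h i
  have hcℓ : c ℓ = 1 := hn
  have hc0 : c 0 = 1 := by simp [hc]
  obtain ⟨b, hb⟩ := R11_exists ζ hζ h0 (fun i => (c i : Fn ℓ f)) (by simp [hc0])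
  set w0 := ∑ i ∈ Finset.range ℓ, (c i : Fn ℓ f) * ρ^[i] b with hw0
  have key : (h : Fn ℓ f) * ρ w0 = w0 := by
    have h1 : (h : Fn ℓ f) * ρ w0 = ∑ i ∈ Finset.range ℓ, (c (i + 1) : Fn ℓ f) * ρ^[i + 1] b := by
      rw [hw0, map_sum, Finset.mul_sum]
      apply Finset.sum_congr rfl
      intro i _
      rw [map_mul, hcs, Units.val_mul, hRρ, Function.iterate_succ_apply']
      ring
    have h2 : ∑ i ∈ Finset.range ℓ, (c (i + 1) : Fn ℓ f) * ρ^[i + 1] b +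
        (c 0 : Fn ℓ f) * ρ^[0] b = w0 + (c ℓ : Fn ℓ f) * ρ^[ℓ] b := by
      rw [hw0, ← Finset.sum_range_succ,
        ← Finset.sum_range_succ' (fun i => (c i : Fn ℓ f) * ρ^[i] b)]
    rw [hc0, hcℓ, R11_full, Function.iterate_zero, id] at h2
    rw [h1]
    exact add_right_cancel h2
  set w : (Fn ℓ f)ˣ := Units.mk0 w0 hb with hw
  have hwR : h * R w = w := by
    apply Units.ext
    rw [Units.val_mul, hRρ]
    exact key
  refine ⟨(R w)⁻¹, ?_⟩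
  rw [map_inv, MulEquiv.symm_apply_apply, div_inv_eq_mul, eq_comm, inv_mul_eq_iff_eq_mul,
    mul_comm]
  exact hwR.symm

end Pool.Agent.Lib.MP_89bcae_ag.Sup
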