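import Mathlib
import Pool.Agent.Lib.MP_89bcae_ag.Sup.R04

/-!
ROW R08 (100-200 lines). Every class is the class of a divisor; the classes of divisors of functions,
and only these, vanish.

PROOF. `ClassGroup.equivPic` is an isomorphism and every ideal class is the class `ClassGroup.mk0 I`
of a nonzero ideal `I` (`ClassGroup.mk0_surjective`), which is a product of primes
(`UniqueFactorizationMonoid`/`Ideal.finprod_heightOneSpectrum_factorization`), each of which is some
`P.ideal` (`exists_pt_of_prime`, `Pt.ideal_injective`). So `cl` is surjective.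
Kernel: write `D = D₁ - D₂` with `D₁, D₂ ≥ 0`, `Iᵢ = ∏ P.ideal ^ Dᵢ(P)`. `cl D = 0` iff
`mk0 I₁ = mk0 I₂` iff `(a) I₁ = (b) I₂` for some nonzero `a, b` (`ClassGroup.mk0_eq_mk0_iff`) and
comparing the exponents of `P.ideal` this is `div (b / a) = D`: the exponent of `P.ideal` in
`I₁` is `D₁(P)` and in `(a)` it is `ord P a` (definition of the valuation:
`HeightOneSpectrum.intValuation`, `Associates.count`); an ideal is determined by its exponents.
-/

open Polynomial IsDedekindDomain

open scoped Classical nonZeroDivisors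

namespace Pool.Agent.Lib.MP_89bcae_ag.Sup

universe u

section gen

variable {R : Type*} [CommRing R] [IsDedekindDomain R] {K : Type*} [Field K] [Algebra R K]
  [IsFractionRing R K]

lemma r08_count_span_coe (v : HeightOneSpectrum R) (a : R) (ha : a ≠ 0) :
    FractionalIdeal.count K v (FractionalIdeal.spanSingleton R⁰ (algebraMap R K a)) =
      -(WithZero.log (v.valuation K (algebraMap R K a))) := by
  rw [← FractionalIdeal.coeIdeal_span_singleton, FractionalIdeal.count_coe K v
    (by simpa using ha), HeightOneSpectrum.valuation_of_algebraMap,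
    HeightOneSpectrum.intValuation_if_neg _ ha]
  simp

lemma r08_count_span (v : HeightOneSpectrum R) (x : Kˣ) :
    FractionalIdeal.count K v (FractionalIdeal.spanSingleton R⁰ (x : K)) =
      -(WithZero.log (v.valuation K (x : K))) := by
  obtain ⟨a, b, hb, hab⟩ := IsFractionRing.div_surjective (A := R) (x : K)
  have hb0 : b ≠ 0 := nonZeroDivisors.ne_zero hb
  have hbK : algebraMap R K b ≠ 0 := by
    simpa using hb0
  have ha0 : a ≠ 0 := by
    rintro rfl
    apply x.ne_zero
    rw [← hab]; simp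
  have h1 : FractionalIdeal.spanSingleton R⁰ (algebraMap R K a) =
      FractionalIdeal.spanSingleton R⁰ (x : K) *
        FractionalIdeal.spanSingleton R⁰ (algebraMap R K b) := by
    rw [FractionalIdeal.spanSingleton_mul_spanSingleton, ← hab, div_mul_cancel₀ _ hbK]
  have h2 := FractionalIdeal.count_mul K v (I := FractionalIdeal.spanSingleton R⁰ (x : K))
    (I' := FractionalIdeal.spanSingleton R⁰ (algebraMap R K b))
    (FractionalIdeal.spanSingleton_ne_zero_iff.2 x.ne_zero)
    (FractionalIdeal.spanSingleton_ne_zero_iff.2 hbK)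
  rw [← h1, r08_count_span_coe v a ha0, r08_count_span_coe v b hb0] at h2
  have h3 : v.valuation K (algebraMap R K a) =
      v.valuation K (x : K) * v.valuation K (algebraMap R K b) := by
    rw [← map_mul, ← hab, div_mul_cancel₀ _ hbK]
  rw [h3, WithZero.log_mul (by simp) (by simpa using hb0)] at h2
  linarith

lemma r08_eq_of_count (I J : FractionalIdeal R⁰ K) (hI : I ≠ 0) (hJ : J ≠ 0)
    (h : ∀ v : HeightOneSpectrum R, FractionalIdeal.count K v I = FractionalIdeal.count K v J) :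
    I = J := by
  rw [← FractionalIdeal.finprod_heightOneSpectrum_factorization' K hI,
    ← FractionalIdeal.finprod_heightOneSpectrum_factorization' K hJ]
  exact finprod_congr fun v => by rw [h v]

end gen

variable {ℓ : ℕ} {E : Type u} [Field E] {f : E[X]} [hG : IsGood ℓ f]

lemma r08_hs_injective : Function.Injective (Pt.hs : Pt ℓ f → HeightOneSpectrum (Coord ℓ f)) :=
  fun _ _ h => Pt.ideal_injective (congrArg HeightOneSpectrum.asIdeal h)

lemma r08_hs_surjective : Function.Surjective (Pt.hs : Pt ℓ f → HeightOneSpectrum (Coord ℓ f)) := by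
  intro v
  obtain ⟨P, hP⟩ := exists_pt_of_prime v.asIdeal v.isPrime v.ne_bot
  exact ⟨P, HeightOneSpectrum.ext hP⟩

/-- The fractional ideal of a divisor. -/
noncomputable def r08Ideal :
    (Pt ℓ f →₀ ℤ) →+ Additive (FractionalIdeal (Coord ℓ f)⁰ (Fn ℓ f))ˣ :=
  Finsupp.liftAddHom fun P => zmultiplesHom _ (Additive.ofMul (FractionalIdeal.mk0 (Fn ℓ f)
    ⟨P.ideal, mem_nonZeroDivisors_of_ne_zero P.ideal_ne_bot⟩))

/-- The class of an invertible fractional ideal. -/
noncomputable def r08Class :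
    Additive (FractionalIdeal (Coord ℓ f)⁰ (Fn ℓ f))ˣ →+ Jac ℓ f :=
  MonoidHom.toAdditive ((ClassGroup.equivPic (Coord ℓ f)).toMonoidHom.comp
    (ClassGroup.mk (R := Coord ℓ f) (Fn ℓ f)))

lemma r08_cl_eq (D : Pt ℓ f →₀ ℤ) : cl D = r08Class (r08Ideal D) := by
  have h : (cl : (Pt ℓ f →₀ ℤ) →+ Jac ℓ f) = r08Class.comp r08Ideal := by
    refine Finsupp.addHom_ext' fun P => ?_
    refine AddMonoidHom.ext_int ?_
    simp only [cl, r08Ideal, r08Class, AddMonoidHom.comp_apply, Finsupp.singleAddHom_apply,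
      Finsupp.liftAddHom_apply_single, zmultiplesHom_apply, one_smul, clPt]
    change _ = Additive.ofMul (ClassGroup.equivPic (Coord ℓ f) (ClassGroup.mk (Fn ℓ f)
      (FractionalIdeal.mk0 (Fn ℓ f) _)))
    rw [ClassGroup.mk_mk0]
  rw [h]
  rfl

/-- The exponent of a prime, as a homomorphism. -/
noncomputable def r08Cnt (P : Pt ℓ f) :
    Additive (FractionalIdeal (Coord ℓ f)⁰ (Fn ℓ f))ˣ →+ ℤ :=
  AddMonoidHom.mk' (fun I => FractionalIdeal.count (Fn ℓ f) P.hs (I.toMul : FractionalIdeal _ _))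
    fun I J => FractionalIdeal.count_mul (Fn ℓ f) P.hs I.toMul.ne_zero J.toMul.ne_zero

lemma r08_cnt_ideal (P : Pt ℓ f) (D : Pt ℓ f →₀ ℤ) : r08Cnt P (r08Ideal D) = D P := by
  have h : (r08Cnt P).comp r08Ideal = Finsupp.applyAddHom P := by
    refine Finsupp.addHom_ext' fun Q => ?_
    refine AddMonoidHom.ext_int ?_
    simp only [r08Ideal, AddMonoidHom.comp_apply, Finsupp.singleAddHom_apply,
      Finsupp.liftAddHom_apply_single, zmultiplesHom_apply, one_smul, Finsupp.applyAddHom_apply]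
    change FractionalIdeal.count (Fn ℓ f) P.hs ((Q.hs.asIdeal : Ideal (Coord ℓ f)) :
      FractionalIdeal (Coord ℓ f)⁰ (Fn ℓ f)) = _
    rw [FractionalIdeal.count_maximal, Finsupp.single_apply]
    simp only [r08_hs_injective.eq_iff]
  have := DFunLike.congr_fun h D
  simpa using this

lemma r08_cnt_principal (P : Pt ℓ f) (h : (Fn ℓ f)ˣ) :
    r08Cnt P (Additive.ofMul (toPrincipalIdeal (Coord ℓ f) (Fn ℓ f) h)) = ord P h := by
  change FractionalIdeal.count (Fn ℓ f) P.hs (toPrincipalIdeal (Coord ℓ f) (Fn ℓ f) h :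
    FractionalIdeal (Coord ℓ f)⁰ (Fn ℓ f)) = _
  rw [coe_toPrincipalIdeal, r08_count_span]
  rfl

lemma r08_ext (I J : Additive (FractionalIdeal (Coord ℓ f)⁰ (Fn ℓ f))ˣ)
    (h : ∀ P, r08Cnt P I = r08Cnt P J) : I = J := by
  have : I.toMul = J.toMul := by
    refine Units.ext (r08_eq_of_count _ _ I.toMul.ne_zero J.toMul.ne_zero fun v => ?_)
    obtain ⟨P, rfl⟩ := r08_hs_surjective v
    exact h P
  exact this

lemma r08_ideal_div (h : (Fn ℓ f)ˣ) :
    r08Ideal (div h) = Additive.ofMul (toPrincipalIdeal (Coord ℓ f) (Fn ℓ f) h) :=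
  r08_ext _ _ fun P => by rw [r08_cnt_ideal, r08_cnt_principal, div_apply]


lemma cl_surjective : Function.Surjective (cl : (Pt ℓ f →₀ ℤ) →+ Jac ℓ f) := by
  intro Q
  obtain ⟨I, hI⟩ := ClassGroup.mk0_surjective ((ClassGroup.equivPic (Coord ℓ f)).symm Q.toMul)
  have hfin : (Function.support fun P : Pt ℓ f =>
      FractionalIdeal.count (Fn ℓ f) P.hs ((I : Ideal (Coord ℓ f)) :
        FractionalIdeal (Coord ℓ f)⁰ (Fn ℓ f))).Finite := by
    have := FractionalIdeal.finite_factors (K := Fn ℓ f) ((I : Ideal (Coord ℓ f)) :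
        FractionalIdeal (Coord ℓ f)⁰ (Fn ℓ f))
    rw [Filter.eventually_cofinite] at this
    exact this.preimage r08_hs_injective.injOn
  refine ⟨Finsupp.ofSupportFinite _ hfin, ?_⟩
  have h1 : r08Ideal (Finsupp.ofSupportFinite _ hfin) =
      Additive.ofMul (FractionalIdeal.mk0 (Fn ℓ f) I) :=
    r08_ext _ _ fun P => by
      rw [r08_cnt_ideal]
      rfl
  rw [r08_cl_eq, h1]
  change Additive.ofMul (ClassGroup.equivPic (Coord ℓ f) (ClassGroup.mk (Fn ℓ f)
      (FractionalIdeal.mk0 (Fn ℓ f) I))) = Q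
  rw [ClassGroup.mk_mk0, hI, MulEquiv.apply_symm_apply]
  rfl

lemma cl_div (h : (Fn ℓ f)ˣ) : cl (div h) = 0 := by
  rw [r08_cl_eq, r08_ideal_div]
  change Additive.ofMul (ClassGroup.equivPic (Coord ℓ f) (ClassGroup.mk (Fn ℓ f)
      (toPrincipalIdeal (Coord ℓ f) (Fn ℓ f) h))) = 0
  have : ClassGroup.mk (Fn ℓ f) (toPrincipalIdeal (Coord ℓ f) (Fn ℓ f) h) = 1 := by
    rw [ClassGroup.mk_eq_one_iff, coe_toPrincipalIdeal, FractionalIdeal.coe_spanSingleton]
    exact ⟨⟨_, rfl⟩⟩
  rw [this, map_one]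
  rfl

lemma exists_div_of_cl_eq_zero (D : Pt ℓ f →₀ ℤ) (hD : cl D = 0) :
    ∃ h : (Fn ℓ f)ˣ, div h = D := by
  rw [r08_cl_eq] at hD
  have h1 : ClassGroup.equivPic (Coord ℓ f) (ClassGroup.mk (Fn ℓ f) (r08Ideal D).toMul) = 1 := hD
  rw [map_eq_one_iff _ (ClassGroup.equivPic (Coord ℓ f)).injective,
    ClassGroup.mk_eq_one_iff] at h1
  obtain ⟨x, hx⟩ := h1.principal
  have hx' : ((r08Ideal D).toMul : FractionalIdeal (Coord ℓ f)⁰ (Fn ℓ f)) =
      FractionalIdeal.spanSingleton (Coord ℓ f)⁰ x := by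
    apply Subtype.coe_injective
    simp only [FractionalIdeal.val_eq_coe, hx, FractionalIdeal.coe_spanSingleton]
  have hx0 : x ≠ 0 := by
    rintro rfl
    apply (r08Ideal D).toMul.ne_zero
    rw [hx', FractionalIdeal.spanSingleton_zero]
  refine ⟨Units.mk0 x hx0, ?_⟩
  have h2 : r08Ideal D =
      Additive.ofMul (toPrincipalIdeal (Coord ℓ f) (Fn ℓ f) (Units.mk0 x hx0)) := by
    have : (r08Ideal D).toMul = toPrincipalIdeal (Coord ℓ f) (Fn ℓ f) (Units.mk0 x hx0) := by
      refine Units.ext ?_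
      rw [hx', coe_toPrincipalIdeal, Units.val_mk0]
    exact this
  ext P
  rw [div_apply, ← r08_cnt_principal, ← h2, r08_cnt_ideal]

end Pool.Agent.Lib.MP_89bcae_ag.Sup
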