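import Mathlib
import Pool.Agent.Lib.MP_89bcae_ag.Sup.R07
import Pool.Agent.Lib.MP_89bcae_ag.Sup.R08

/-!
ROW R09 (100-250 lines). Functoriality of the class of a divisor.

PROOF. By additivity it is enough that `jacMap ℓ σ h (clPt P) = clPt (P.map σ h)`. Unfold: with
`A = Coord ℓ f`, `A' = Coord ℓ f'`, `φ = coordMap ℓ σ h`, the left side is the class in `Pic A'` of
`A' ⊗_A P.ideal` (`CommRing.Pic.mapRingHom`, `mapAlgebra_apply`, `ClassGroup.equivPic` applied to
`mk0 I` is the class of `I`; look for a lemma such as `ClassGroup.equivPic_mk0`/`unitsToPic`), so it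
is enough to give an `A'`-linear isomorphism `A' ⊗_A P.ideal ≃ P'.ideal`, `P' = P.map σ h`.
`a' ⊗ x ↦ a' φ(x)`: it is injective because `φ` is flat: `A' = E'[x, y]/(...)` is free over `A`
along `E'/E`: `A' = A ⊗_E E'`; or, more elementary: `P.ideal` is an invertible module, so
`A' ⊗_A P.ideal` is an invertible `A'`-module, hence torsion-free (it is locally free of rank one
over a domain), the map is surjective onto the ideal `φ(P.ideal) A' = P'.ideal` (generators:
`Pt.ideal_eq_span`, `coordMap_ofPoly`, `coordMap_yy`), and a surjection of invertible modules is an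
isomorphism (`Module.Invertible.bijective_of_surjective`).
-/

open Polynomial IsDedekindDomain

open scoped Classical nonZeroDivisors TensorProduct

namespace Pool.Agent.Lib.MP_89bcae_ag.Sup

universe u

/-- The fractional ideal of an ideal is isomorphic to the ideal. -/
noncomputable def R09_equiv (R : Type u) [CommRing R] [IsDedekindDomain R] (I : (Ideal R)⁰) :
    ((FractionalIdeal.unitsMulEquivSubmodule (FractionalIdeal.mk0 (FractionRing R) I) : 
      (Submodule R (FractionRing R))ˣ) : Submodule R (FractionRing R)) ≃ₗ[R] I.1 := by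
  refine (LinearEquiv.ofBijective ((Algebra.linearMap R (FractionRing R)).restrict (p := I.1) ?_) ⟨?_, ?_⟩).symm
  · intro x hx
    show algebraMap R (FractionRing R) x ∈ ((FractionalIdeal.mk0 (FractionRing R) I : FractionalIdeal R⁰ (FractionRing R)) : Submodule R (FractionRing R))
    rw [FractionalIdeal.coe_mk0]
    exact FractionalIdeal.mem_coeIdeal_of_mem _ hx
  · intro x y h
    have h1 := congrArg Subtype.val h
    exact Subtype.ext (IsFractionRing.injective R (FractionRing R) h1)
  · rintro ⟨y, hy⟩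
    have hy' : y ∈ (FractionalIdeal.mk0 (FractionRing R) I : FractionalIdeal R⁰ (FractionRing R)) := hy
    rw [FractionalIdeal.coe_mk0, FractionalIdeal.mem_coeIdeal] at hy'
    obtain ⟨x, hx, rfl⟩ := hy'
    exact ⟨⟨x, hx⟩, rfl⟩

lemma R09_invertible (R : Type u) [CommRing R] [IsDedekindDomain R] (I : (Ideal R)⁰) :
    Module.Invertible R I.1 := Module.Invertible.congr (R09_equiv R I)

lemma R09_equivPic_mk0 (R : Type u) [CommRing R] [IsDedekindDomain R] (I : (Ideal R)⁰) [Module.Invertible R I.1] :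
    ClassGroup.equivPic R (ClassGroup.mk0 I) = CommRing.Pic.mk R I.1 := by
  rw [ClassGroup.mk0_eq_quotientMk]
  have h : ClassGroup.equivPic R (QuotientGroup.mk (FractionalIdeal.mk0 (FractionRing R) I)) =
    Submodule.unitsToPic R (FractionRing R) 
      (FractionalIdeal.unitsMulEquivSubmodule (FractionalIdeal.mk0 (FractionRing R) I)) := rfl
  refine h.trans ?_
  rw [Submodule.unitsToPic_apply, CommRing.Pic.mk_eq_mk_iff]
  exact ⟨R09_equiv R I⟩

/-- base change of an ideal -/
lemma R09_map {R S : Type u} [CommRing R] [CommRing S] (φ : R →+* S) (I : Ideal R) (J : Ideal S)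
    [Module.Invertible R I] [Module.Invertible S J] (h : I.map φ = J) :
    CommRing.Pic.mapRingHom φ (CommRing.Pic.mk R I) = CommRing.Pic.mk S J := by
  let _ := φ.toAlgebra
  show CommRing.Pic.mapAlgebra R S (CommRing.Pic.mk R I) = CommRing.Pic.mk S J
  rw [CommRing.Pic.mapAlgebra_apply, CommRing.Pic.mk_eq_mk_iff]
  have e1 : S ⊗[R] (CommRing.Pic.mk R I : CommRing.Pic R) ≃ₗ[S] S ⊗[R] I :=
    TensorProduct.AlgebraTensorModule.congr (LinearEquiv.refl S S) (CommRing.Pic.mk.linearEquiv R I)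
  refine ⟨e1 ≪≫ₗ ?_⟩
  -- the multiplication map
  have hmem : ∀ x : I, φ x ∈ J := fun x => h ▸ Ideal.mem_map_of_mem φ x.2
  let g0 : I →ₗ[R] J :=
    { toFun := fun x => ⟨φ x, hmem x⟩
      map_add' := fun x y => Subtype.ext (by simp)
      map_smul' := fun r x => Subtype.ext (by
        show φ (r * x) = ((r • (⟨φ x, hmem x⟩ : J) : J) : S)
        rw [map_mul]
        rfl) }
  let g : S ⊗[R] I →ₗ[S] J := TensorProduct.AlgebraTensorModule.lift
    ((LinearMap.toSpanSingleton S (I →ₗ[R] J) g0))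
  have hg : ∀ (s : S) (x : I), ((g (s ⊗ₜ x) : J) : S) = s * φ x := by
    intro s x
    rfl
  have key : ∀ y ∈ Submodule.span S (φ '' (I : Set R)), ∃ t : S ⊗[R] I, ((g t : J) : S) = y := by
    intro y hy
    induction hy using Submodule.span_induction with
    | mem y hy =>
      obtain ⟨x, hx, rfl⟩ := hy
      exact ⟨1 ⊗ₜ ⟨x, hx⟩, by rw [hg, one_mul]⟩
    | zero => exact ⟨0, by rw [map_zero]; rfl⟩
    | add y z _ _ hy hz =>
      obtain ⟨s, hs⟩ := hy
      obtain ⟨t, ht⟩ := hz
      exact ⟨s + t, by rw [map_add]; show ((g s : J) : S) + ((g t : J) : S) = _; rw [hs, ht]⟩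
    | smul a y _ hy =>
      obtain ⟨s, hs⟩ := hy
      exact ⟨a • s, by rw [map_smul]; show a * ((g s : J) : S) = _; rw [hs]; rfl⟩
  refine LinearEquiv.ofBijective g (Module.Invertible.bijective_of_surjective ?_)
  rintro ⟨y, hy⟩
  have hy2 : y ∈ Submodule.span S (φ '' (I : Set R)) := by
    have h3 : y ∈ I.map φ := by rw [h]; exact hy
    exact h3
  obtain ⟨t, ht⟩ := key y hy2
  exact ⟨t, Subtype.ext ht⟩

variable {ℓ : ℕ} {E E' : Type u} [Field E] [Field E'] {f : E[X]} {f' : E'[X]} [hG : IsGood ℓ f]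
  [hG' : IsGood ℓ f']

lemma R09_clPt (σ : E →+* E') (h : f.map σ = f') (P : Pt ℓ f) :
    jacMap ℓ σ h (clPt P) = clPt (Pt.map σ h P) := by
  have i1 : Module.Invertible (Coord ℓ f) P.ideal := R09_invertible (Coord ℓ f)
    ⟨P.ideal, mem_nonZeroDivisors_of_ne_zero P.ideal_ne_bot⟩
  have i2 : Module.Invertible (Coord ℓ f') (Pt.map σ h P).ideal := R09_invertible (Coord ℓ f')
    ⟨(Pt.map σ h P).ideal, mem_nonZeroDivisors_of_ne_zero (Pt.map σ h P).ideal_ne_bot⟩
  have h1 : CommRing.Pic.mapRingHom (coordMap ℓ σ h) (ClassGroup.equivPic (Coord ℓ f)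
      (ClassGroup.mk0 ⟨P.ideal, mem_nonZeroDivisors_of_ne_zero P.ideal_ne_bot⟩)) =
      ClassGroup.equivPic (Coord ℓ f') (ClassGroup.mk0
        ⟨(Pt.map σ h P).ideal, mem_nonZeroDivisors_of_ne_zero (Pt.map σ h P).ideal_ne_bot⟩) := by
    rw [R09_equivPic_mk0, R09_equivPic_mk0]
    refine R09_map (coordMap ℓ σ h) P.ideal (Pt.map σ h P).ideal ?_
    have e1 : coordMap ℓ σ h (ofPoly (X - C P.x)) = ofPoly (X - C (Pt.map σ h P).x) := by
      rw [coordMap_ofPoly, Polynomial.map_sub, Polynomial.map_X, Polynomial.map_C]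
      rfl
    have e2 : coordMap ℓ σ h ((yy : Coord ℓ f) - ofPoly (C P.y)) =
        yy - ofPoly (C (Pt.map σ h P).y) := by
      rw [map_sub, coordMap_ofPoly, coordMap_yy, Polynomial.map_C]
      rfl
    rw [Pt.ideal_eq_span, Pt.ideal_eq_span, Ideal.map_span, Set.image_pair, e1, e2]
  exact congrArg Additive.ofMul h1

lemma jacMap_cl (σ : E →+* E') (h : f.map σ = f') (D : Pt ℓ f →₀ ℤ) :
    jacMap ℓ σ h (cl D) = cl (D.mapDomain (Pt.map σ h)) := by
  induction D using Finsupp.induction_linear with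
  | zero => rw [map_zero, map_zero, Finsupp.mapDomain_zero, map_zero]
  | add D D' h1 h2 => rw [map_add, map_add, h1, h2, Finsupp.mapDomain_add, map_add]
  | single P n =>
    rw [Finsupp.mapDomain_single]
    have e1 : cl (Finsupp.single P n) = n • clPt P := by
      rw [cl, Finsupp.liftAddHom_apply_single, zmultiplesHom_apply]
    have e2 : cl (Finsupp.single (Pt.map σ h P) n) = n • clPt (Pt.map σ h P) := by
      rw [cl, Finsupp.liftAddHom_apply_single, zmultiplesHom_apply]
    rw [e1, e2, map_zsmul, R09_clPt]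

/-- The action of `Sym f` on the Jacobian. -/
noncomputable def symJ (σ : Sym f) : Jac ℓ f →+ Jac ℓ f :=
  jacMap ℓ ((σ : E ≃+* E) : E →+* E) σ.2

lemma symJ_cl (σ : Sym f) (D : Pt ℓ f →₀ ℤ) :
    symJ σ (cl D) = cl (D.mapDomain (Pt.sym σ)) := jacMap_cl _ _ D

end Pool.Agent.Lib.MP_89bcae_ag.Sup
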