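import Mathlib
import Pool.Agent.Lib.MP_89bcae_ag.Sup.R11
import Pool.Agent.Lib.MP_89bcae_ag.Sup.R14
import Pool.Agent.Lib.MP_89bcae_ag.Sup.R16

/-!
ROW R17 (100-200 lines). The kernel of `π = 1 - Z`.

Notation: `ram e = cl (ramDiv e) = ∑ e(θ) [(θ, 0)]`.

(A) `cl_eq_ram`: if `D - rot_* D = div h` and `nrm h = 1` then `cl D = ram e`, where
`e(θ) = atR D θ - n(θ)` and `lc θ h = ζ^n(θ)`.
PROOF. By Hilbert 90 (R11), `h = v / rot⁻¹ v`, so `div h = div v - rot_* div v` and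
`D₀ = D - div v` is fixed by `rot_*`. A divisor fixed by `rot_*` is the sum of its part at the ramified
points and of multiples of the full fibres `∑_{i<ℓ} (P.rot^i) = div (x - P.x)` of unramified points
(induction on the size of the support, or a sum over the finite set of the `x`-coordinates), so its
class is `ram (atR D₀)`, and `atR D₀ θ = atR D θ - ordR θ v`. By `lc_spec`:
`lc θ (rot v') = ζ^{ordR θ v'} lc θ v'` with `v' = rot⁻¹ v` and `ordR θ v' = ordR θ v`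
(`P.rot = P` for `P = (θ, 0)`), so `lc θ h = ζ^{ordR θ v}`, i.e. `n(θ) ≡ ordR θ v` modulo `ℓ`; and
`ℓ [(θ, 0)] = cl (div (x - θ)) = 0` so exponents matter only modulo `ℓ`.
(B) `zJ Q = Q` iff `Q` is some `ram e`. PROOF. If `Q = cl D` (R08), `D - rot_* D = div h`,
`nrm h = c · xprod (div h) = c` (`exists_nrm_eq`; `xprod (D - rot_* D) = 1` by `xprod_rot`,
`xprod_add`); dividing `h` by a constant whose `ℓ`-th power is `c` (`E` algebraically closed) we may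
assume `nrm h = 1` (`nrm_cstU`); apply (A) — the `lc θ h` are `ℓ`-th roots of unity since
`1 = lc θ (nrm h) = ∏ lc θ (rot^i h) = ζ^{...} lc θ(h)^ℓ` and `ordR θ h = 0`: `ord` of
`D - rot_* D` at a fixed point is zero. The converse: `mapDomain_rot_ramDiv`.
(C) `ram e = 0` iff `e` is constant modulo `ℓ` on the roots of `f`. PROOF. `ram 1 = cl (div y) = 0`
and `ℓ [(θ,0)] = 0` give the direction from right to left. Conversely let `ramDiv e = div h`. Then `rot⁻¹ h / h` has divisor `0`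
(`mapDomain_rot_ramDiv`), so it is a constant `c`: (divisor zero implies constant: R13 lemma
`exists_const_of_dg_eq_zero`: else `dg (div w) < 0` with `w = h - c`, but `ord_P w ≥ 0` for all `P`
by `ord_add`); `c^ℓ = 1` as `rot^ℓ = 1`; `c = ζ^{-j}`; and `lc θ (rot h) = ζ^{ordR θ h} lc θ h`
gives `e(θ) = ordR θ h ≡ j` for all roots `θ`.
-/

open Polynomial IsDedekindDomain

open scoped Classical

namespace Pool.Agent.Lib.MP_89bcae_ag.Sup

universe u

variable {ℓ : ℕ} {E : Type u} [Field E] {f : E[X]} [hG : IsGood ℓ f]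

/-- The class `∑ e(θ) [(θ, 0)]`. -/
noncomputable def ram (e : E → ℤ) : Jac ℓ f := cl (ramDiv e)

lemma r17_eq_of_x_eq {P Q : Pt ℓ f} (hP : P.y = 0) (h : Q.x = P.x) : Q = P := by
  have h1 : Q.y ^ ℓ = 0 := by
    rw [Q.eq, h, ← P.eq, hP, zero_pow hG.prime.ne_zero]
  exact Pt.ext h ((pow_eq_zero_iff hG.prime.ne_zero).1 h1 |>.trans hP.symm)

lemma r17_div_xs_ram (P : Pt ℓ f) (hP : P.y = 0) :
    div (xs P.x : (Fn ℓ f)ˣ) = ℓ • Finsupp.single P 1 := by
  ext Q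
  rw [div_apply, Finsupp.smul_apply, Finsupp.single_apply]
  by_cases h : P = Q
  · subst h
    rw [if_pos rfl, ord_xs_of_ramified P hP]
    simp
  · rw [if_neg h, smul_zero]
    exact ord_xs_of_ne Q fun h1 => h (r17_eq_of_x_eq hP h1).symm

lemma r17_smul_cl (D : Pt ℓ f →₀ ℤ) (hD : ∀ P, P.y ≠ 0 → D P = 0) : ℓ • cl D = 0 := by
  conv_lhs => rw [← Finsupp.sum_single D]
  rw [Finsupp.sum, map_sum, Finset.smul_sum]
  refine Finset.sum_eq_zero fun P hP => ?_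
  have hy : P.y = 0 := by
    by_contra hy
    exact Finsupp.mem_support_iff.1 hP (hD P hy)
  have h1 : (Finsupp.single P (D P) : Pt ℓ f →₀ ℤ) = D P • Finsupp.single P 1 := by
    rw [Finsupp.smul_single, smul_eq_mul, mul_one]
  rw [h1, map_zsmul, smul_comm, ← map_nsmul, ← r17_div_xs_ram P hy, cl_div, smul_zero]

lemma ram_congr (e e' : E → ℤ) (h : ∀ θ, f.eval θ = 0 → (ℓ : ℤ) ∣ e θ - e' θ) :
    (ram e : Jac ℓ f) = ram e' := by
  have hk : ∀ θ, ∃ k : ℤ, f.eval θ = 0 → e θ - e' θ = ℓ * k := by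
    intro θ
    by_cases hθ : f.eval θ = 0
    · obtain ⟨k, hk⟩ := h θ hθ
      exact ⟨k, fun _ => hk⟩
    · exact ⟨0, fun h => absurd h hθ⟩
  choose k hk using hk
  rw [← sub_eq_zero, ram, ram, ← map_sub, ← ramDiv_sub,
    ramDiv_congr (fun θ => e θ - e' θ) (fun θ => ℓ * k θ) hk, ramDiv_smul, map_zsmul,
    natCast_zsmul]
  refine r17_smul_cl _ fun P hP => ?_
  rw [ramDiv_apply, if_neg hP]

omit hG in
lemma r17_rot_injective (ζ : E) (hζ : ζ ^ ℓ = 1) (h0 : ζ ≠ 0) :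
    Function.Injective (Pt.rot ζ hζ : Pt ℓ f → Pt ℓ f) := by
  intro P Q h
  have hx : (Pt.rot ζ hζ P).x = (Pt.rot ζ hζ Q).x := by rw [h]
  have hy : (Pt.rot ζ hζ P).y = (Pt.rot ζ hζ Q).y := by rw [h]
  exact Pt.ext hx (mul_left_cancel₀ h0 hy)

omit hG in
lemma r17_rot_iter (ζ : E) (hζ : ζ ^ ℓ = 1) (P : Pt ℓ f) (i : ℕ) :
    ((Pt.rot ζ hζ)^[i] P).x = P.x ∧ ((Pt.rot ζ hζ)^[i] P).y = ζ ^ i * P.y := by
  induction i with
  | zero => simp
  | succ i ih =>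
    rw [Function.iterate_succ_apply']
    refine ⟨ih.1, ?_⟩
    change ζ * ((Pt.rot ζ hζ)^[i] P).y = _
    rw [ih.2, pow_succ']
    ring

lemma r17_exists_iter (ζ : E) (hζ : IsPrimitiveRoot ζ ℓ) (P Q : Pt ℓ f) (hP : P.y ≠ 0)
    (h : Q.x = P.x) : ∃ i, (Pt.rot ζ hζ.pow_eq_one)^[i] P = Q := by
  have h1 : (Q.y / P.y) ^ ℓ = 1 := by
    rw [div_pow, Q.eq, P.eq, h, div_self]
    rw [← P.eq]
    exact pow_ne_zero _ hP
  have : NeZero ℓ := ⟨hG.prime.ne_zero⟩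
  obtain ⟨i, _, hi⟩ := hζ.eq_pow_of_pow_eq_one h1
  refine ⟨i, Pt.ext ?_ ?_⟩
  · rw [(r17_rot_iter ζ hζ.pow_eq_one P i).1, h]
  · rw [(r17_rot_iter ζ hζ.pow_eq_one P i).2, hi, div_mul_cancel₀ _ hP]

omit hG in
lemma r17_apply_rot (ζ : E) (hζ : ζ ^ ℓ = 1) (h0 : ζ ≠ 0) (D : Pt ℓ f →₀ ℤ)
    (hD : D.mapDomain (Pt.rot ζ hζ) = D) (P : Pt ℓ f) (i : ℕ) :
    D ((Pt.rot ζ hζ)^[i] P) = D P := by
  induction i with
  | zero => rfl
  | succ i ih =>
    rw [Function.iterate_succ_apply', ← ih]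
    conv_lhs => rw [← hD]
    exact Finsupp.mapDomain_apply (r17_rot_injective ζ hζ h0) _ _

lemma r17_cl_unram (ζ : E) (hζ : IsPrimitiveRoot ζ ℓ) (h0 : ζ ≠ 0) (D : Pt ℓ f →₀ ℤ)
    (hD : D.mapDomain (Pt.rot ζ hζ.pow_eq_one) = D) (hr : ∀ P, P.y = 0 → D P = 0) :
    cl D = 0 := by
  have := hG.alg
  have hb : ∀ a : E, ∃ b : E, b ^ ℓ = f.eval a := fun a =>
    IsAlgClosed.exists_pow_nat_eq _ hG.prime.pos
  choose b hb using hb
  have key : D = ∑ a ∈ D.support.image Pt.x, D ⟨a, b a, hb a⟩ • div (xs a : (Fn ℓ f)ˣ) := by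
    ext Q
    rw [Finsupp.finsetSum_apply]
    by_cases hQ : Q.x ∈ D.support.image Pt.x
    · rw [Finset.sum_eq_single Q.x]
      · obtain ⟨P, hP, hPQ⟩ := Finset.mem_image.1 hQ
        have hPy : P.y ≠ 0 := fun h => Finsupp.mem_support_iff.1 hP (hr P h)
        have hQy : Q.y ≠ 0 := by
          intro h
          apply hPy
          rw [r17_eq_of_x_eq h hPQ]
          exact h
        have hby : b Q.x ≠ 0 := by
          intro h
          have h2 := hb Q.x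
          rw [h, zero_pow hG.prime.ne_zero, ← Q.eq] at h2
          exact hQy ((pow_eq_zero_iff hG.prime.ne_zero).1 h2.symm)
        obtain ⟨i, hi⟩ := r17_exists_iter ζ hζ ⟨Q.x, b Q.x, hb Q.x⟩ Q hby rfl
        rw [Finsupp.smul_apply, div_apply, ord_xs_of_unramified Q hQy, smul_eq_mul, mul_one,
          ← r17_apply_rot ζ hζ.pow_eq_one h0 D hD ⟨Q.x, b Q.x, hb Q.x⟩ i, hi]
      · intro a _ ha
        rw [Finsupp.smul_apply, div_apply, ord_xs_of_ne Q ha.symm, smul_zero]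
      · intro h
        exact absurd hQ h
    · have hQ0 : D Q = 0 := by
        by_contra h
        exact hQ (Finset.mem_image.2 ⟨Q, Finsupp.mem_support_iff.2 h, rfl⟩)
      rw [hQ0]
      symm
      refine Finset.sum_eq_zero fun a ha => ?_
      rw [Finsupp.smul_apply, div_apply, ord_xs_of_ne Q (fun h => hQ (h ▸ ha)), smul_zero]
  rw [key, map_sum]
  refine Finset.sum_eq_zero fun a _ => ?_
  rw [map_zsmul, cl_div, smul_zero]

lemma r17_cl_fixed (ζ : E) (hζ : IsPrimitiveRoot ζ ℓ) (h0 : ζ ≠ 0) (D : Pt ℓ f →₀ ℤ)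
    (hD : D.mapDomain (Pt.rot ζ hζ.pow_eq_one) = D) : cl D = ram (atR D) := by
  rw [← sub_eq_zero, ram, ← map_sub]
  refine r17_cl_unram ζ hζ h0 _ ?_ ?_
  · have := (Finsupp.mapDomain.addMonoidHom (M := ℤ) (Pt.rot ζ hζ.pow_eq_one : Pt ℓ f → Pt ℓ f)
      ).map_sub D (ramDiv (atR D))
    change (D - ramDiv (atR D)).mapDomain (Pt.rot ζ hζ.pow_eq_one) =
      D.mapDomain (Pt.rot ζ hζ.pow_eq_one) - (ramDiv (atR D)).mapDomain (Pt.rot ζ hζ.pow_eq_one)
      at this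
    rw [this, hD, mapDomain_rot_ramDiv]
  · intro P hP
    have hθ : f.eval P.x = 0 := by
      rw [← P.eq, hP, zero_pow hG.prime.ne_zero]
    rw [Finsupp.sub_apply, ramDiv_apply, if_pos hP, atR, dif_pos hθ, sub_eq_zero]
    congr 1
    exact Pt.ext rfl hP

lemma cl_eq_ram (ζ : E) (hζ : IsPrimitiveRoot ζ ℓ) (h0 : ζ ≠ 0) (D : Pt ℓ f →₀ ℤ)
    (h : (Fn ℓ f)ˣ) (hD : D - D.mapDomain (Pt.rot ζ hζ.pow_eq_one) = div h)
    (hn : nrm ζ hζ.pow_eq_one h0 h = 1) (n : E → ℤ)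
    (hlc : ∀ θ, f.eval θ = 0 → (lc θ h : E) = ζ ^ n θ) :
    cl D = ram fun θ => atR D θ - n θ := by
  obtain ⟨v, hv⟩ := exists_hilbert ζ hζ h0 h hn
  have hdiv : div h = div v - (div v).mapDomain (Pt.rot ζ hζ.pow_eq_one) := by
    rw [hv, div_eq_mul_inv, div_mul, div_inv, div_rotU_symm, sub_eq_add_neg]
  have hfix : (D - div v).mapDomain (Pt.rot ζ hζ.pow_eq_one) = D - div v := by
    have := (Finsupp.mapDomain.addMonoidHom (M := ℤ) (Pt.rot ζ hζ.pow_eq_one : Pt ℓ f → Pt ℓ f)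
      ).map_sub D (div v)
    change (D - div v).mapDomain (Pt.rot ζ hζ.pow_eq_one) =
      D.mapDomain (Pt.rot ζ hζ.pow_eq_one) - (div v).mapDomain (Pt.rot ζ hζ.pow_eq_one)
      at this
    rw [this]
    rw [hdiv] at hD
    have h2 : D.mapDomain (Pt.rot ζ hζ.pow_eq_one) =
        D - (div v - (div v).mapDomain (Pt.rot ζ hζ.pow_eq_one)) := by
      rw [← hD]
      abel
    rw [h2]
    abel
  have hcl : cl D = cl (D - div v) := by
    rw [map_sub, cl_div, sub_zero]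
  rw [hcl, r17_cl_fixed ζ hζ h0 _ hfix]
  refine ram_congr _ _ fun θ hθ => ?_
  have hrot : (Pt.rot ζ hζ.pow_eq_one (ramPt hG.prime.ne_zero hθ) : Pt ℓ f) =
      ramPt hG.prime.ne_zero hθ := Pt.ext rfl (mul_zero ζ)
  set v' := (rotU ζ hζ.pow_eq_one h0).symm v with hv'
  have hvv : rotU ζ hζ.pow_eq_one h0 v' = v := MulEquiv.apply_symm_apply _ _
  have hord : ordR θ v' = ord (ramPt hG.prime.ne_zero hθ) v := by
    rw [ordR, dif_pos hθ, ← hvv, ord_rotU, hrot]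
  obtain ⟨_, _, _, _, hr, _⟩ := lc_spec (ℓ := ℓ) hθ
  have hl := hr ζ hζ.pow_eq_one h0 v'
  rw [hvv, hord] at hl
  have hl2 : (lc θ h : E) = ζ ^ ord (ramPt hG.prime.ne_zero hθ) v := by
    rw [hv, _root_.map_div, Units.val_div_eq_div_val, hl, mul_div_assoc, div_self (Units.ne_zero _),
      mul_one]
  rw [hlc θ hθ] at hl2
  have hz : ζ ^ (n θ - ord (ramPt hG.prime.ne_zero hθ) v) = 1 := by
    rw [zpow_sub₀ h0, hl2, div_self (zpow_ne_zero _ h0)]
  have hdvd := (hζ.zpow_eq_one_iff_dvd _).1 hz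
  have hat : atR (D - div v) θ = atR D θ - ord (ramPt hG.prime.ne_zero hθ) v := by
    rw [atR, dif_pos hθ, atR, dif_pos hθ, Finsupp.sub_apply, div_apply]
    rfl
  rw [hat]
  have : atR D θ - ord (ramPt hG.prime.ne_zero hθ) v - (atR D θ - n θ) =
      n θ - ord (ramPt hG.prime.ne_zero hθ) v := by ring
  rw [this]
  exact hdvd

end Pool.Agent.Lib.MP_89bcae_ag.Sup
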