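import Mathlib
import Pool.Agent.Lib.MP_89bcae_ag.Sup.L12
import Pool.Agent.Lib.MP_89bcae_ag.Sup.L03
import Pool.Agent.Lib.MP_89bcae_ag.Sup.U01

/-!
# Global part: the group `Aut(Ω/k(t))` and its action

ROW G01 = the lemmas of this file (150-300 lines).
PROOFS. `cOver_eq_locPoly`: unfold `curvePoly`, `base`; `aeval`, `Polynomial.map_map`.
`toSym`: the coefficients of the curve are in the image of `k(t)`: `D(t)⁻¹`, the coefficients of `g`, `t`
are values of `base`. `galA`: `base` has values in the image of `L`.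
`exists_resF`: `F` is the set of the elements of `Ω` algebraic over `k` in the image of `F`
(an algebraic closure of `k`), stable under `γ` : see `exists_restrict_aut` in
`Pool/Agent/Lib/MP_89bcae_ag/Galois.lean`; the map is determined by `γ`, so it is a homomorphism.
`resF_surjective`: see `exists_lift_aut` there, with `exists_extend_alg` (L12): extend
`coefL L U` to `Ω`. If `resF γ = 1` then `γ` fixes the image of `F[X]`, so that of `L`.
`exists_conjG`: `γ σ γ⁻¹` fixes `L` since `γ⁻¹` maps the image of `L` to itself (by `resF_spec`).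
`isGood_cOver`: separability: `f = d⁻¹ (g(x) - t)`, `f' = d⁻¹ g'(x)`; `g' ≠ 0` because `D(g(x))` is
separable and `D` is not constant; a common root of `g(x) - t` and `g'` in `A` would be algebraic over the
image of `F`, hence in it (`F` algebraically closed), but `t` is transcendental; `Polynomial.Separable`
over the algebraically closed `A` means no common root of `f`, `f'`. The degree is `deg g`.

Setting: `k` a field, `F` an algebraic closure of `k`, `L = F(t)`, `Ω` an algebraic closure of `L`;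
`Ω` is an `F`-algebra through `F[X] → L → Ω` (`CompatF`).
-/

open Polynomial IsDedekindDomain

open scoped Classical

namespace Pool.Agent.Lib.MP_89bcae_ag.Sup

universe u

/-- The `F`-algebra structure of `A` is the one coming from `F[X] → L → A`. -/
def CompatF (F L A : Type u) [Field F] [Field L] [Algebra F[X] L] [Field A] [Algebra L A]
    [Algebra F A] : Prop :=
  ∀ c : F, algebraMap F A c = algebraMap L A (algebraMap F[X] L (C c))

/-- The element `t` of `A`. -/
noncomputable def tA (F L A : Type u) [Field F] [Field L] [Algebra F[X] L] [Field A]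
    [Algebra L A] : A :=
  algebraMap L A (algebraMap F[X] L X)

/-- The hypotheses on `ℓ`, `g`, `D`, `ζ`. -/
structure GlobHyp (ℓ : ℕ) {k : Type u} [Field k] (g D : k[X]) (ζ : k) : Prop where
  prime : ℓ.Prime
  ne : (ℓ : k) ≠ 0
  zeta : IsPrimitiveRoot ζ ℓ
  monic : g.Monic
  cop : g.natDegree.Coprime ℓ
  sep : (D.comp g).Separable
  pos : D.natDegree ≠ 0

/-- The group `Aut(Ω/k(t))`. -/
def AutO (k F L Ω : Type u) [Field k] [Field F] [Algebra k F] [Field L] [Algebra F[X] L] [Field Ω]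
    [Algebra L Ω] : Subgroup (Ω ≃+* Ω) where
  carrier := {γ | ∀ p : k[X], γ (base k F L Ω p) = base k F L Ω p}
  mul_mem' {a b} ha hb p := by
    rw [RingAut.mul_apply, hb p, ha p]
  one_mem' p := rfl
  inv_mem' {a} ha p := by
    have h := ha p
    calc a⁻¹ (base k F L Ω p) = a⁻¹ (a (base k F L Ω p)) := by rw [h]
      _ = base k F L Ω p := a.symm_apply_apply _

section

variable {k F L Ω : Type u} [Field k] [Field F] [Algebra k F] [Field L] [Algebra F[X] L]
  [Field Ω] [Algebra L Ω]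

/-- The curve over the extension `A` of `L`. -/
noncomputable abbrev cOver (k F L A : Type u) [Field k] [Field F] [Algebra k F] [Field L]
    [Algebra F[X] L] [Field A] [Algebra L A] (g D : k[X]) : A[X] :=
  (curvePoly k F L g D).map (algebraMap L A)

private lemma gb_aeval {A : Type u} [Field A] [Algebra L A] [Algebra F A] (hF : CompatF F L A)
    (p : F[X]) : algebraMap L A (algebraMap F[X] L p) = aeval (tA F L A) p := by
  induction p using Polynomial.induction_on' with
  | add p q hp hq => rw [map_add, map_add, map_add, hp, hq]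
  | monomial n a =>
    rw [← C_mul_X_pow_eq_monomial, map_mul, map_mul, map_mul, map_pow, map_pow, map_pow, aeval_C,
      aeval_X, hF a]
    rfl

private lemma gb_base (A : Type u) [Field A] [Algebra L A] (p : k[X]) :
    algebraMap L A (base k F L L p) = base k F L A p := rfl

lemma cOver_eq_locPoly {A : Type u} [Field A] [Algebra L A] [Algebra F A] (hF : CompatF F L A)
    (g D : k[X]) : cOver k F L A g D =
      locPoly (g.map (algebraMap k F)) (tA F L A) (aeval (tA F L A) (D.map (algebraMap k F))) := by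
  have h1 : ∀ p : k[X], base k F L A p = aeval (tA F L A) (p.map (algebraMap k F)) := by
    intro p
    rw [← gb_aeval hF]
    rfl
  have h2 : (algebraMap L A).comp ((base k F L L).comp C) = (algebraMap F A).comp (algebraMap k F) := by
    ext c
    rw [RingHom.comp_apply, RingHom.comp_apply, gb_base, h1, map_C, aeval_C, RingHom.comp_apply]
  have h3 : base k F L A X = tA F L A := by
    rw [h1, map_X, aeval_X]
  unfold locPoly
  change (curvePoly k F L g D).map (algebraMap L A) = _
  unfold curvePoly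
  rw [Polynomial.map_mul, map_C, Polynomial.map_sub, map_C, Polynomial.map_map, map_inv₀, gb_base,
    gb_base, h2, ← Polynomial.map_map, h3, h1]

private lemma gb_sym (g D : k[X]) (γ : AutO k F L Ω) :
    (γ : Ω ≃+* Ω) ∈ Sym (cOver k F L Ω g D) := by
  rw [mem_Sym]
  have h0 : ∀ p : k[X], (γ : Ω ≃+* Ω) (algebraMap L Ω (base k F L L p)) =
      algebraMap L Ω (base k F L L p) := fun p => γ.2 p
  have h2 : (((γ : Ω ≃+* Ω) : Ω →+* Ω).comp ((algebraMap L Ω).comp ((base k F L L).comp C))) =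
      (algebraMap L Ω).comp ((base k F L L).comp C) := by
    ext c
    exact h0 (C c)
  have h3 : ∀ p : k[X], ((γ : Ω ≃+* Ω) : Ω →+* Ω) (algebraMap L Ω (base k F L L p)) =
      algebraMap L Ω (base k F L L p) := h0
  change ((curvePoly k F L g D).map (algebraMap L Ω)).map ((γ : Ω ≃+* Ω) : Ω →+* Ω) =
    (curvePoly k F L g D).map (algebraMap L Ω)
  unfold curvePoly
  simp only [Polynomial.map_mul, map_C, Polynomial.map_sub, Polynomial.map_map, map_inv₀]
  rw [h2, h3, h3]

/-- An automorphism over `k(t)` fixes the coefficients of the curve. -/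
def toSym (g D : k[X]) : AutO k F L Ω →* Sym (cOver k F L Ω g D) where
  toFun γ := ⟨(γ : Ω ≃+* Ω), gb_sym g D γ⟩
  map_one' := rfl
  map_mul' _ _ := rfl

@[simp] lemma toSym_coe (g D : k[X]) (γ : AutO k F L Ω) :
    ((toSym g D γ : Sym (cOver k F L Ω g D)) : Ω ≃+* Ω) = (γ : Ω ≃+* Ω) := rfl

/-- An automorphism over `L` is an automorphism over `k(t)`. -/
def galA (k F : Type u) [Field k] [Field F] [Algebra k F] [Algebra F[X] L] :
    (Ω ≃ₐ[L] Ω) →* AutO k F L Ω where
  toFun σ := ⟨(σ : Ω ≃+* Ω), fun p => σ.commutes _⟩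
  map_one' := rfl
  map_mul' _ _ := rfl

@[simp] lemma galA_coe (σ : Ω ≃ₐ[L] Ω) (x : Ω) :
    ((galA k F σ : AutO k F L Ω) : Ω ≃+* Ω) x = σ x := rfl

variable [IsAlgClosure k F] [IsFractionRing F[X] L] [IsAlgClosure L Ω]

omit [IsAlgClosure k F] [IsAlgClosure L Ω] in
private lemma gb_inj {p q : F[X]}
    (h : algebraMap L Ω (algebraMap F[X] L p) = algebraMap L Ω (algebraMap F[X] L q)) : p = q :=
  IsFractionRing.injective F[X] L ((algebraMap L Ω).injective h)

omit [IsAlgClosure k F] [IsAlgClosure L Ω] in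
private lemma gb_unique {γ : Ω ≃+* Ω} {σ τ : F ≃ₐ[k] F}
    (hσ : ∀ p : F[X], γ (algebraMap L Ω (algebraMap F[X] L p)) =
      algebraMap L Ω (algebraMap F[X] L (p.map (σ : F →+* F))))
    (hτ : ∀ p : F[X], γ (algebraMap L Ω (algebraMap F[X] L p)) =
      algebraMap L Ω (algebraMap F[X] L (p.map (τ : F →+* F)))) : σ = τ := by
  ext c
  have h1 := gb_inj ((hσ (C c)).symm.trans (hτ (C c)))
  rw [map_C, map_C] at h1
  exact C_injective h1

omit [IsFractionRing F[X] L] [IsAlgClosure L Ω] in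
private lemma gb_exists (γ : AutO k F L Ω) : ∃ σ : F ≃ₐ[k] F, ∀ p : F[X],
    (γ : Ω ≃+* Ω) (algebraMap L Ω (algebraMap F[X] L p)) =
      algebraMap L Ω (algebraMap F[X] L (p.map (σ : F →+* F))) := by
  let ι : F →+* Ω := (algebraMap L Ω).comp ((algebraMap F[X] L).comp C)
  letI : Algebra F Ω := ι.toAlgebra
  letI : Algebra k Ω := (ι.comp (algebraMap k F)).toAlgebra
  haveI : IsScalarTower k F Ω := IsScalarTower.of_algebraMap_eq fun x => rfl
  haveI : IsAlgClosed F := IsAlgClosure.isAlgClosed k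
  haveI : Algebra.IsAlgebraic k F := IsAlgClosure.isAlgebraic
  haveI : Normal k F := normal_iff.mpr fun x =>
    ⟨Algebra.IsIntegral.isIntegral x, IsAlgClosed.splits _⟩
  have hb : ∀ x : k, algebraMap k Ω x = base k F L Ω (C x) := by
    intro x
    change algebraMap L Ω (algebraMap F[X] L (C (algebraMap k F x))) =
      algebraMap L Ω (algebraMap F[X] L ((C x).map (algebraMap k F)))
    rw [map_C]
  let γ' : Ω ≃ₐ[k] Ω := AlgEquiv.ofRingEquiv (f := (γ : Ω ≃+* Ω)) (by
    intro x
    rw [hb]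
    exact γ.2 (C x))
  let σ := γ'.restrictNormal F
  have hσ : ∀ x : F, (γ : Ω ≃+* Ω) (algebraMap L Ω (algebraMap F[X] L (C x))) =
      algebraMap L Ω (algebraMap F[X] L (C (σ x))) := by
    intro x
    exact (γ'.restrictNormal_commutes F x).symm
  have hX : (γ : Ω ≃+* Ω) (algebraMap L Ω (algebraMap F[X] L X)) =
      algebraMap L Ω (algebraMap F[X] L X) := by
    have h := γ.2 X
    have h1 : base k F L Ω X = algebraMap L Ω (algebraMap F[X] L X) := by
      change algebraMap L Ω (algebraMap F[X] L ((X : k[X]).map (algebraMap k F))) = _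
      rw [map_X]
    rwa [h1] at h
  refine ⟨σ, fun p => ?_⟩
  induction p using Polynomial.induction_on' with
  | add p q hp hq =>
    rw [map_add, map_add, map_add, hp, hq, Polynomial.map_add, map_add, map_add]
  | monomial n a =>
    rw [← C_mul_X_pow_eq_monomial, map_mul, map_mul, map_mul, hσ, map_pow, map_pow, map_pow, hX,
      Polynomial.map_mul, Polynomial.map_C, Polynomial.map_pow, Polynomial.map_X, map_mul, map_mul,
      map_pow, map_pow]
    rfl

omit [Algebra k F] [IsAlgClosure k F] [IsAlgClosure L Ω] in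
private lemma gb_range {γ : Ω ≃+* Ω} {σ : F ≃+* F}
    (h : ∀ p : F[X], γ (algebraMap L Ω (algebraMap F[X] L p)) =
      algebraMap L Ω (algebraMap F[X] L (p.map (σ : F →+* F)))) (y : L) :
    ∃ z : L, γ (algebraMap L Ω y) = algebraMap L Ω z := by
  obtain ⟨p, q, hq, rfl⟩ := IsFractionRing.div_surjective (A := F[X]) y
  refine ⟨algebraMap F[X] L (p.map (σ : F →+* F)) / algebraMap F[X] L (q.map (σ : F →+* F)), ?_⟩
  rw [map_div₀, map_div₀, map_div₀, h, h]

lemma exists_resF : ∃ r : AutO k F L Ω →* (F ≃ₐ[k] F), ∀ (γ : AutO k F L Ω) (p : F[X]),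
    (γ : Ω ≃+* Ω) (algebraMap L Ω (algebraMap F[X] L p)) =
      algebraMap L Ω (algebraMap F[X] L (p.map (r γ : F →+* F))) := by
  refine ⟨{ toFun := fun γ => (gb_exists γ).choose, map_one' := ?_, map_mul' := ?_ }, ?_⟩
  · refine gb_unique (γ := ((1 : AutO k F L Ω) : Ω ≃+* Ω)) (gb_exists (1 : AutO k F L Ω)).choose_spec
      fun p => ?_
    have h1 : p.map ((1 : F ≃ₐ[k] F) : F →+* F) = p := by
      have h2 : ((1 : F ≃ₐ[k] F) : F →+* F) = RingHom.id F := rfl
      rw [h2, Polynomial.map_id]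
    rw [h1]
    rfl
  · intro γ δ
    refine gb_unique (γ := ((γ * δ : AutO k F L Ω) : Ω ≃+* Ω)) (gb_exists (γ * δ)).choose_spec
      fun p => ?_
    have h1 : p.map (((gb_exists γ).choose * (gb_exists δ).choose : F ≃ₐ[k] F) : F →+* F) =
        (p.map ((gb_exists δ).choose : F →+* F)).map ((gb_exists γ).choose : F →+* F) := by
      rw [Polynomial.map_map]
      rfl
    rw [h1, ← (gb_exists γ).choose_spec, ← (gb_exists δ).choose_spec]
    rfl
  · intro γ p
    exact (gb_exists γ).choose_spec p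

/-- The restriction of an automorphism to `F`. -/
noncomputable def resF : AutO k F L Ω →* (F ≃ₐ[k] F) := exists_resF.choose

lemma resF_spec (γ : AutO k F L Ω) (p : F[X]) :
    (γ : Ω ≃+* Ω) (algebraMap L Ω (algebraMap F[X] L p)) =
      algebraMap L Ω (algebraMap F[X] L (p.map (resF γ : F →+* F))) :=
  exists_resF.choose_spec γ p

lemma resF_surjective : Function.Surjective (resF : AutO k F L Ω →* (F ≃ₐ[k] F)) := by
  intro σ
  obtain ⟨w, hw⟩ := exists_extend_alg (K := L) (M := Ω) (coefL L (σ : F ≃+* F))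
  have h1 : ∀ p : F[X], w (algebraMap L Ω (algebraMap F[X] L p)) =
      algebraMap L Ω (algebraMap F[X] L (p.map (σ : F →+* F))) := by
    intro p
    rw [hw, coefL_algebraMap]
    rfl
  have h2 : w ∈ AutO k F L Ω := by
    intro p
    change w (algebraMap L Ω (algebraMap F[X] L (p.map (algebraMap k F)))) =
      algebraMap L Ω (algebraMap F[X] L (p.map (algebraMap k F)))
    rw [h1, Polynomial.map_map]
    congr 3
    ext x
    exact σ.commutes x
  exact ⟨⟨w, h2⟩, gb_unique (γ := w) (resF_spec ⟨w, h2⟩) h1⟩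

lemma exists_galA_of_resF_eq_one (γ : AutO k F L Ω) (h : resF γ = 1) :
    ∃ σ : Ω ≃ₐ[L] Ω, galA k F σ = γ := by
  have h1 : ∀ p : F[X], (γ : Ω ≃+* Ω) (algebraMap L Ω (algebraMap F[X] L p)) =
      algebraMap L Ω (algebraMap F[X] L p) := by
    intro p
    rw [resF_spec, h]
    have h2 : ((1 : F ≃ₐ[k] F) : F →+* F) = RingHom.id F := rfl
    rw [h2, Polynomial.map_id]
  refine ⟨AlgEquiv.ofRingEquiv (f := (γ : Ω ≃+* Ω)) fun y => ?_, ?_⟩
  · obtain ⟨p, q, hq, rfl⟩ := IsFractionRing.div_surjective (A := F[X]) y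
    rw [map_div₀, map_div₀, h1, h1]
  · ext x
    rfl

lemma resF_galA (σ : Ω ≃ₐ[L] Ω) : resF (galA k F σ : AutO k F L Ω) = 1 := by
  refine gb_unique (γ := ((galA k F σ : AutO k F L Ω) : Ω ≃+* Ω)) (resF_spec _) fun p => ?_
  have h2 : ((1 : F ≃ₐ[k] F) : F →+* F) = RingHom.id F := rfl
  rw [h2, Polynomial.map_id]
  exact σ.commutes _

private lemma gb_fix (γ : AutO k F L Ω) (σ : Ω ≃ₐ[L] Ω) (y : L) :
    (((γ : Ω ≃+* Ω).symm.trans (σ : Ω ≃+* Ω)).trans (γ : Ω ≃+* Ω)) (algebraMap L Ω y) =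
      algebraMap L Ω y := by
  obtain ⟨z, hz⟩ := gb_range (γ := ((γ⁻¹ : AutO k F L Ω) : Ω ≃+* Ω))
    (σ := ((resF γ⁻¹ : F ≃ₐ[k] F) : F ≃+* F)) (resF_spec γ⁻¹) y
  have hz' : (γ : Ω ≃+* Ω).symm (algebraMap L Ω y) = algebraMap L Ω z := hz
  change (γ : Ω ≃+* Ω) (σ ((γ : Ω ≃+* Ω).symm (algebraMap L Ω y))) = algebraMap L Ω y
  rw [hz', σ.commutes, ← hz', RingEquiv.apply_symm_apply]

/-- the conjugate -/
private noncomputable def gbConj (γ : AutO k F L Ω) (σ : Ω ≃ₐ[L] Ω) : Ω ≃ₐ[L] Ω :=
  AlgEquiv.ofRingEquiv (f := ((γ : Ω ≃+* Ω).symm.trans (σ : Ω ≃+* Ω)).trans (γ : Ω ≃+* Ω))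
    (gb_fix γ σ)

private lemma gbConj_apply (γ : AutO k F L Ω) (σ : Ω ≃ₐ[L] Ω) (x : Ω) :
    gbConj γ σ x = (γ : Ω ≃+* Ω) (σ ((γ : Ω ≃+* Ω).symm x)) := rfl

private lemma gb_symm (γ : AutO k F L Ω) (x : Ω) :
    ((γ⁻¹ : AutO k F L Ω) : Ω ≃+* Ω) x = (γ : Ω ≃+* Ω).symm x := rfl

private lemma gb_symm' (γ : AutO k F L Ω) (x : Ω) :
    ((γ⁻¹ : AutO k F L Ω) : Ω ≃+* Ω).symm x = (γ : Ω ≃+* Ω) x := rfl

lemma exists_conjG : ∃ c : AutO k F L Ω →* MulAut (Ω ≃ₐ[L] Ω),
    ∀ (γ : AutO k F L Ω) (σ : Ω ≃ₐ[L] Ω) (x : Ω), (c γ σ) ((γ : Ω ≃+* Ω) x) =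
      (γ : Ω ≃+* Ω) (σ x) := by
  refine ⟨{ toFun := fun γ =>
              { toFun := gbConj γ
                invFun := gbConj γ⁻¹
                left_inv := ?_
                right_inv := ?_
                map_mul' := ?_ }
            map_one' := ?_
            map_mul' := ?_ }, ?_⟩
  · intro σ
    ext x
    rw [gbConj_apply, gb_symm', gb_symm, gbConj_apply, RingEquiv.symm_apply_apply,
      RingEquiv.symm_apply_apply]
  · intro σ
    ext x
    rw [gbConj_apply, gbConj_apply, gb_symm', gb_symm, RingEquiv.apply_symm_apply,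
      RingEquiv.apply_symm_apply]
  · intro σ τ
    ext x
    rw [AlgEquiv.mul_apply, gbConj_apply, gbConj_apply, gbConj_apply, RingEquiv.symm_apply_apply,
      AlgEquiv.mul_apply]
  · ext σ x
    rfl
  · intro γ δ
    ext σ x
    rfl
  · intro γ σ x
    change gbConj γ σ ((γ : Ω ≃+* Ω) x) = _
    rw [gbConj_apply, RingEquiv.symm_apply_apply]

/-- Conjugation of `Gal(Ω/L)` by an automorphism over `k(t)`. -/
noncomputable def conjG : AutO k F L Ω →* MulAut (Ω ≃ₐ[L] Ω) := exists_conjG.choose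

lemma conjG_spec (γ : AutO k F L Ω) (σ : Ω ≃ₐ[L] Ω) (x : Ω) :
    (conjG γ σ) ((γ : Ω ≃+* Ω) x) = (γ : Ω ≃+* Ω) (σ x) :=
  exists_conjG.choose_spec γ σ x

lemma galA_conjG (γ : AutO k F L Ω) (σ : Ω ≃ₐ[L] Ω) :
    (galA k F (conjG γ σ) : AutO k F L Ω) = γ * galA k F σ * γ⁻¹ := by
  apply Subtype.ext
  ext x
  have h := conjG_spec γ σ (((γ⁻¹ : AutO k F L Ω) : Ω ≃+* Ω) x)
  rw [gb_symm, RingEquiv.apply_symm_apply] at h
  rw [galA_coe, h]
  rfl

lemma conjG_galA (τ σ : Ω ≃ₐ[L] Ω) : conjG (galA k F τ : AutO k F L Ω) σ = τ * σ * τ⁻¹ := by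
  ext x
  have h := conjG_spec (galA k F τ : AutO k F L Ω) σ (τ⁻¹ x)
  have h1 : τ (τ⁻¹ x) = x := τ.apply_symm_apply x
  rw [galA_coe, galA_coe, h1] at h
  rw [h]
  rfl

private lemma gb_deriv {ℓ : ℕ} {g D : k[X]} {ζ : k} (H : GlobHyp ℓ g D ζ) :
    g.natDegree ≠ 0 ∧ derivative g ≠ 0 := by
  have hm : g.natDegree ≠ 0 := by
    intro h
    have h1 := H.cop
    rw [h, Nat.coprime_zero_left] at h1
    exact H.prime.one_lt.ne' h1
  refine ⟨hm, fun h0 => ?_⟩
  have h1 := H.sep
  rw [separable_def, derivative_comp, h0, zero_mul, isCoprime_zero_right] at h1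
  have h2 := natDegree_eq_zero_of_isUnit h1
  rw [natDegree_comp] at h2
  rcases mul_eq_zero.1 h2 with h3 | h3
  · exact H.pos h3
  · exact hm h3

lemma isGood_cOver {ℓ : ℕ} {g D : k[X]} {ζ : k} (H : GlobHyp ℓ g D ζ) {A : Type u} [Field A]
    [Algebra L A] [IsAlgClosed A] : IsGood ℓ (cOver k F L A g D) := by
  letI : Algebra F A := ((algebraMap L A).comp ((algebraMap F[X] L).comp C)).toAlgebra
  have hF : CompatF F L A := fun c => rfl
  haveI : IsAlgClosed F := IsAlgClosure.isAlgClosed k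
  obtain ⟨hm, hder⟩ := gb_deriv H
  have hg : (g.map (algebraMap k F)).Monic := H.monic.map _
  have hm' : (g.map (algebraMap k F)).natDegree ≠ 0 := by rwa [natDegree_map]
  have hder' : derivative (g.map (algebraMap k F)) ≠ 0 := by
    rw [derivative_map]
    exact (Polynomial.map_ne_zero_iff (algebraMap k F).injective).2 hder
  have hd : aeval (tA F L A) (D.map (algebraMap k F)) ≠ 0 := by
    rw [← gb_aeval hF]
    intro h
    have h1 : (algebraMap L A) (algebraMap F[X] L (D.map (algebraMap k F))) =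
        algebraMap L A (algebraMap F[X] L 0) := by
      rw [h, map_zero, map_zero]
    have h2 := IsFractionRing.injective F[X] L ((algebraMap L A).injective h1)
    rw [Polynomial.map_eq_zero_iff (algebraMap k F).injective] at h2
    exact H.pos (by rw [h2, natDegree_zero])
  refine ⟨inferInstance, H.prime, ?_, ?_, ?_⟩
  · have h1 : ((algebraMap F A).comp (algebraMap k F)) (ℓ : k) = (ℓ : A) := map_natCast _ ℓ
    rw [← h1]
    exact (_root_.map_ne_zero _).2 H.ne
  · rw [cOver_eq_locPoly hF, separable_def, isCoprime_iff_aeval_ne_zero_of_isAlgClosed A A]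
    intro a
    by_contra hcon
    rw [not_or, not_not, not_not] at hcon
    obtain ⟨h1, h2⟩ := hcon
    rw [coe_aeval_eq_eval] at h1 h2
    rw [eval_locPoly_eq_zero hd] at h1
    have h3 : aeval a (derivative (g.map (algebraMap k F))) = 0 := by
      unfold locPoly at h2
      rw [derivative_C_mul, derivative_sub, derivative_C, sub_zero, derivative_map, eval_mul,
        eval_C] at h2
      rcases mul_eq_zero.1 h2 with h4 | h4
      · exact absurd h4 (inv_ne_zero hd)
      · rw [eval_map, ← aeval_def] at h4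
        exact h4
    have h4 : IsAlgebraic F a := ⟨_, hder', h3⟩
    have hi : IsIntegral F a := h4.isIntegral
    have hdeg : (minpoly F a).degree = 1 :=
      IsAlgClosed.degree_eq_one_of_irreducible F (minpoly.irreducible hi)
    have h5 : aeval a (minpoly F a) = 0 := minpoly.aeval F a
    rw [eq_X_add_C_of_degree_eq_one hdeg, (minpoly.monic hi).leadingCoeff, C_1, one_mul, aeval_add,
      aeval_X, aeval_C, add_eq_zero_iff_eq_neg, ← map_neg] at h5
    rw [h5, aeval_algebraMap_apply] at h1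
    have h6 : algebraMap L A (algebraMap F[X] L (C (aeval (-(minpoly F a).coeff 0)
        (g.map (algebraMap k F))))) = algebraMap L A (algebraMap F[X] L X) := h1
    exact X_ne_C _ (IsFractionRing.injective F[X] L ((algebraMap L A).injective h6)).symm
  · rw [cOver_eq_locPoly hF, natDegree_locPoly hg hm' hd, natDegree_map]
    exact H.cop

end

section Cochains

variable {k F L Ω : Type u} [Field k] [Field F] [Algebra k F] [Field L] [Algebra F[X] L]
  [Field Ω] [Algebra L Ω]

/-- The cochains: sequences of maps from `Gal(Ω/L)` to the Jacobian. -/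
abbrev Coch (ℓ : ℕ) (k F L Ω : Type u) [Field k] [Field F] [Algebra k F] [Field L]
    [Algebra F[X] L] [Field Ω] [Algebra L Ω] (g D : k[X]) : Type u :=
  ℕ → (Ω ≃ₐ[L] Ω) → JacOver ℓ (curvePoly k F L g D) Ω

/-- Locally trivial at all the places `t = a`. -/
def LTc [IsFractionRing F[X] L] {ℓ : ℕ} {g D : k[X]} (c : Coch ℓ k F L Ω g D) : Prop :=
  ∀ (a : F) (n : ℕ), IsLocallyTrivial ℓ (curvePoly k F L g D) (c n) ((plc a).adicCompletion L)

variable [IsAlgClosure k F] [IsFractionRing F[X] L] [IsAlgClosure L Ω] {ℓ : ℕ} {g D : k[X]}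

/-- The action of `Aut(Ω/k(t))` on the cochains: `(γ c)(σ) = γ (c (γ⁻¹ σ γ))`. -/
noncomputable def act (γ : AutO k F L Ω) (c : Coch ℓ k F L Ω g D) : Coch ℓ k F L Ω g D :=
  fun n σ => symJ (toSym g D γ) (c n (conjG γ⁻¹ σ))

variable [hG : IsGood ℓ (cOver k F L Ω g D)]

/-- The primitive root of unity in `A`. -/
noncomputable def zA (F L A : Type u) [Field F] [Algebra k F] [Field L] [Algebra F[X] L]
    [Field A] [Algebra L A] (ζ : k) : A :=
  base k F L A (C ζ)

/-- The automorphism `Z` acting on the cochains. -/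
noncomputable def zC (ζ : k) (hζ : (zA F L Ω ζ) ^ ℓ = 1) :
    Coch ℓ k F L Ω g D →+ Coch ℓ k F L Ω g D where
  toFun c := fun n σ => zJ (zA F L Ω ζ) hζ (c n σ)
  map_zero' := by
    funext n σ
    exact map_zero _
  map_add' c c' := by
    funext n σ
    exact map_add _ _ _

/-- The operator `v = ∑_{k<ℓ} ∑_{i<k} Z^i`, with `(1 - Z) v = ℓ`. -/
noncomputable def vJ {E : Type u} [Field E] {f : E[X]} [IsGood ℓ f] (ζ : E) (hζ : ζ ^ ℓ = 1)
    (Q : Jac ℓ f) : Jac ℓ f :=
  ∑ k ∈ Finset.range ℓ, ∑ i ∈ Finset.range k, (zJ ζ hζ)^[i] Q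

end Cochains

end Pool.Agent.Lib.MP_89bcae_ag.Sup
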