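import Mathlib
import Pool.Agent.Lib.MP_89bcae_ag.Sup.R12
import Pool.Agent.Lib.MP_89bcae_ag.Sup.R16

/-!
ROW R19 (60-120 lines). `π = 1 - Z` is surjective on the Jacobian.

PROOF. The classes of points generate the Jacobian (`cl_surjective`) and the image of `π` is a
subgroup, so it is enough to treat `Q = cl (single P 1)`. By R12 there is `h` with
`nrm h = x - P.x`. By `exists_nrm_eq` (R10), `x - P.x = c · xprod (div h)`, so
(`xprod D = ∏ (x - P'.x)^{D P'}`; the exponents of the linear factors are determined: the order of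
`∏ (x - a)^{n_a}` at a point above `a` is `n_a` or `ℓ n_a`) the sum of `div h - single P 1` over each
fibre `{P' | P'.x = a}` is zero. A divisor with sum zero over each fibre is of the form
`D - rot_* D`: a fibre consists of the points `P', P'.rot, ..., P'.rot^(ℓ-1)` and
`single (P'.rot^i) 1 - single P' 1` is `D - rot_* D` for `D = -∑_{j<i} single (P'.rot^j) 1`.
Hence `Q = cl (single P 1) = cl (single P 1 - div h) = π (cl D)`.
-/

open Polynomial IsDedekindDomain

open scoped Classical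

namespace Pool.Agent.Lib.MP_89bcae_ag.Sup

universe u

variable {ℓ : ℕ} {E : Type u} [Field E] {f : E[X]} [hG : IsGood ℓ f]

/-- there is a point above every `a` -/
lemma r19_exists_pt (ℓ : ℕ) (f : E[X]) [hG : IsGood ℓ f] (a : E) : ∃ R : Pt ℓ f, R.x = a := by
  have := hG.alg
  obtain ⟨y, hy⟩ := IsAlgClosed.exists_pow_nat_eq (f.eval a) hG.prime.pos
  exact ⟨⟨a, y, hy⟩, rfl⟩

omit hG in
lemma r19_iter (ζ : E) (hζ : ζ ^ ℓ = 1) (R : Pt ℓ f) (i : ℕ) :
    ((Pt.rot ζ hζ)^[i] R).x = R.x ∧ ((Pt.rot ζ hζ)^[i] R).y = ζ ^ i * R.y := by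
  induction i with
  | zero => simp
  | succ n ih =>
    rw [Function.iterate_succ_apply']
    refine ⟨ih.1, ?_⟩
    change ζ * _ = _
    rw [ih.2, pow_succ]
    ring

/-- two points of a fibre differ by a rotation -/
lemma r19_fibre (ζ : E) (hζ : IsPrimitiveRoot ζ ℓ) (R P : Pt ℓ f) (h : P.x = R.x) :
    ∃ i : ℕ, P = (Pt.rot ζ hζ.pow_eq_one)^[i] R := by
  have he : P.y ^ ℓ = R.y ^ ℓ := by rw [P.eq, R.eq, h]
  by_cases h0 : R.y = 0
  · refine ⟨0, ?_⟩
    rw [h0, zero_pow hG.prime.ne_zero] at he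
    have : P.y = 0 := eq_zero_of_pow_eq_zero he
    ext
    · simpa using h
    · simpa using this.trans h0.symm
  · have h1 : (P.y / R.y) ^ ℓ = 1 := by
      rw [div_pow, he, div_self (pow_ne_zero _ h0)]
    have := NeZero.mk hG.prime.ne_zero
    obtain ⟨i, -, hi⟩ := hζ.eq_pow_of_pow_eq_one h1
    refine ⟨i, ?_⟩
    obtain ⟨a1, a2⟩ := r19_iter ζ hζ.pow_eq_one R i
    ext
    · rw [a1, h]
    · rw [a2, hi, div_mul_cancel₀ _ h0]

/-- the homomorphism `1 - Z` -/
noncomputable def r19_pi (ζ : E) (hζ : IsPrimitiveRoot ζ ℓ) : Jac ℓ f →+ Jac ℓ f :=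
  AddMonoidHom.id _ - zJ ζ hζ.pow_eq_one

lemma r19_pi_apply (ζ : E) (hζ : IsPrimitiveRoot ζ ℓ) (Q : Jac ℓ f) :
    r19_pi ζ hζ Q = Q - zJ ζ hζ.pow_eq_one Q := rfl

lemma r19_step (ζ : E) (hζ : IsPrimitiveRoot ζ ℓ) (R : Pt ℓ f) (i : ℕ) :
    cl (Finsupp.single ((Pt.rot ζ hζ.pow_eq_one)^[i] R) 1) - cl (Finsupp.single R 1) ∈
      (r19_pi ζ hζ : Jac ℓ f →+ Jac ℓ f).range := by
  induction i with
  | zero => simp
  | succ n ih =>
    rw [Function.iterate_succ_apply']
    set S := (Pt.rot ζ hζ.pow_eq_one)^[n] R with hS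
    have h1 : cl (Finsupp.single (Pt.rot ζ hζ.pow_eq_one S) 1) - cl (Finsupp.single S 1) ∈
        (r19_pi ζ hζ : Jac ℓ f →+ Jac ℓ f).range := by
      refine ⟨-cl (Finsupp.single S 1), ?_⟩
      rw [r19_pi_apply, map_neg, zJ_cl, Finsupp.mapDomain_single]
      abel
    have := add_mem h1 ih
    convert this using 1
    abel

/-- every divisor is congruent to the divisor supported on chosen points of the fibres -/
lemma r19_move (ζ : E) (hζ : IsPrimitiveRoot ζ ℓ) (R : E → Pt ℓ f) (hR : ∀ a, (R a).x = a)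
    (D : Pt ℓ f →₀ ℤ) : cl D - cl (D.mapDomain fun P => R P.x) ∈
      (r19_pi ζ hζ : Jac ℓ f →+ Jac ℓ f).range := by
  induction D using Finsupp.induction_linear with
  | zero => simp
  | add D D' h h' =>
    rw [Finsupp.mapDomain_add, map_add, map_add]
    convert add_mem h h' using 1
    abel
  | single P n =>
    rw [Finsupp.mapDomain_single]
    obtain ⟨i, hi⟩ := r19_fibre ζ hζ (R P.x) P (by rw [hR])
    have h1 := r19_step ζ hζ (R P.x) i
    rw [← hi] at h1
    have h2 := zsmul_mem h1 n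
    have e : ∀ S : Pt ℓ f, cl (Finsupp.single S n) = n • cl (Finsupp.single S 1) := by
      intro S
      rw [← map_zsmul, Finsupp.smul_single, smul_eq_mul, mul_one]
    rw [e, e, ← smul_sub]
    exact h2

lemma r19_ord_prod (P : Pt ℓ f) (G : E →₀ ℤ) :
    ord P (G.prod fun a n => (xs a : (Fn ℓ f)ˣ) ^ n) = G P.x * ord P (xs P.x) := by
  have key : ∀ s : Finset E, ord P (∏ a ∈ s, (xs a : (Fn ℓ f)ˣ) ^ (G a)) =
      ∑ a ∈ s, G a * ord P (xs a) := by
    intro s
    induction s using Finset.induction_on with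
    | empty => simp [ord_one]
    | insert a s ha ih => rw [Finset.prod_insert ha, Finset.sum_insert ha, ord_mul, ord_zpow, ih]
  rw [Finsupp.prod, key]
  by_cases h : P.x ∈ G.support
  · rw [Finset.sum_eq_single_of_mem _ h]
    intro b _ hb
    rw [ord_xs_of_ne P (Ne.symm hb), mul_zero]
  · rw [Finset.sum_eq_zero, Finsupp.notMem_support_iff.1 h, zero_mul]
    intro b hb
    have : P.x ≠ b := fun hh => h (hh ▸ hb)
    rw [ord_xs_of_ne P this, mul_zero]

lemma r19_ord_ne_zero (P : Pt ℓ f) : ord P (xs P.x) ≠ 0 := by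
  by_cases h : P.y = 0
  · rw [ord_xs_of_ramified P h]
    exact_mod_cast hG.prime.ne_zero
  · rw [ord_xs_of_unramified P h]
    exact one_ne_zero

/-- a divisor whose `x`-product is constant has sum zero over every fibre -/
lemma r19_zero (D : Pt ℓ f →₀ ℤ) (c : Eˣ) (h : xprod D = cstU c) :
    D.mapDomain Pt.x = 0 := by
  have h1 : xprod D = (D.mapDomain Pt.x).prod fun a n => (xs a : (Fn ℓ f)ˣ) ^ n := by
    rw [Finsupp.prod_mapDomain_index]
    · rfl
    · intro a
      exact zpow_zero _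
    · intro a m n
      exact zpow_add _ _ _
  ext a
  obtain ⟨R, hR⟩ := r19_exists_pt ℓ f a
  have h2 := r19_ord_prod R (D.mapDomain Pt.x)
  rw [← h1, h, ord_cstU] at h2
  have h3 := (mul_eq_zero.1 h2.symm).resolve_right (r19_ord_ne_zero R)
  rw [hR] at h3
  simpa using h3

lemma exists_sub_zJ (ζ : E) (hζ : IsPrimitiveRoot ζ ℓ) (Q : Jac ℓ f) :
    ∃ Q' : Jac ℓ f, Q' - zJ ζ hζ.pow_eq_one Q' = Q := by
  have h0 : ζ ≠ 0 := hζ.ne_zero hG.prime.ne_zero
  choose R hR using r19_exists_pt ℓ f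
  have hpt : ∀ P : Pt ℓ f, cl (Finsupp.single P 1) ∈
      (r19_pi ζ hζ : Jac ℓ f →+ Jac ℓ f).range := by
    intro P
    obtain ⟨h, hh⟩ := exists_nrm_eq_xs (f := f) ζ hζ h0 P.x
    obtain ⟨c, hc⟩ := exists_nrm_eq ζ hζ h0 h
    have h1 : xprod (div h - Finsupp.single P 1) = cstU c⁻¹ := by
      have e1 : xprod (div h - Finsupp.single P 1) * xprod (Finsupp.single P 1) =
          xprod (div h) := by
        rw [← xprod_add, sub_add_cancel]
      have e2 : xprod (Finsupp.single P 1) = (xs P.x : (Fn ℓ f)ˣ) := by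
        unfold xprod
        rw [Finsupp.prod_single_index (zpow_zero _), zpow_one]
      rw [e2, ← hh, hc] at e1
      have e3 : xprod (div h) * (xprod (div h - Finsupp.single P 1) * cstU c) =
          xprod (div h) * 1 := by
        rw [mul_one]
        conv_rhs => rw [← e1]
        rw [mul_comm, mul_assoc]
      have e4 := mul_left_cancel e3
      rw [map_inv]
      exact eq_inv_of_mul_eq_one_left e4
    have h2 := r19_zero _ _ h1
    have h3 := r19_move ζ hζ R hR (div h - Finsupp.single P 1)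
    have h4 : (div h - Finsupp.single P 1).mapDomain (fun P : Pt ℓ f => R P.x) = 0 := by
      have : (fun P : Pt ℓ f => R P.x) = R ∘ Pt.x := rfl
      rw [this, Finsupp.mapDomain_comp, h2, Finsupp.mapDomain_zero]
    rw [h4, map_zero, sub_zero, map_sub, cl_div, zero_sub] at h3
    exact neg_mem_iff.1 h3
  obtain ⟨D, rfl⟩ := cl_surjective (ℓ := ℓ) (f := f) Q
  have hD : cl D ∈ (r19_pi ζ hζ : Jac ℓ f →+ Jac ℓ f).range := by
    induction D using Finsupp.induction_linear with
    | zero => simp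
    | add D D' h h' =>
      rw [map_add]
      exact add_mem h h'
    | single P n =>
      have : cl (Finsupp.single P n) = n • cl (Finsupp.single P 1) := by
        rw [← map_zsmul, Finsupp.smul_single, smul_eq_mul, mul_one]
      rw [this]
      exact zsmul_mem (hpt P) n
  obtain ⟨Q', hQ'⟩ := hD
  exact ⟨Q', by rw [← r19_pi_apply ζ hζ, hQ']⟩

end Pool.Agent.Lib.MP_89bcae_ag.Sup
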