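import Mathlib
import Pool.Agent.Lib.MP_89bcae_ag.Sup.GDefs
import Pool.Agent.Lib.MP_89bcae_ag.Sup.A01
import Pool.Agent.Lib.MP_89bcae_ag.Sup.R19

/-!
ROW G07 (150-280 lines). `Gal(Ω/L)`-invariants; transitivity on the roots; `π` and `v`; continuity.

PROOFS. (1) Transitivity: `g(x) - t` is irreducible over `L = F(t)`: in `F[t][x]` it is of degree one in
`t`, with coefficients `g(x)` and `-1`, so irreducible in `F[x][t] = F[t][x]`, primitive as it is monic in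
`x`, and Gauss's lemma (`Polynomial.IsPrimitive.irreducible_iff_irreducible_map_fraction_map` or
`Monic.irreducible_iff_irreducible_map_fraction_map`). All its roots in `Ω` are conjugate
(`minpoly` = it; `IsConjRoot`, or `Normal` + `exists_algEquiv`).
(2) `ram e` fixed by all `σ`, then it is `0`: by `symJ_ram` and `ram_eq_zero_iff`,
`e(σ⁻¹ θ) - e(θ) ≡ c(σ)` for all roots; summing over the roots `m c(σ) ≡ 0`, so `c(σ) ≡ 0` (`m` prime to
`ℓ`), `e` is constant modulo `ℓ` on the roots, `ram e = 0`.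
(3) `ℓ^n Q = 0` and `Q` fixed implies `Q = 0`: `π^((ℓ-1) n) Q` is `ℓ^n` times something, hence
killed...: by `exists_pi_identity` (A01) `π^(ℓ-1) = ℓ (-1 + π w)` (polynomials in `Z`), so
`π^{(ℓ-1) n} Q = 0`; by descending induction: if `π^(i+1) Q = 0` then `π^i Q` is in the kernel of `π`, so it is
some `ram e` (R18), fixed by `Gal`, so it is `0` by (2).
(4) `vJ` facts: `π (v Q) = ℓ Q` (from `sum_zJ`), `v` additive, commutes with `Z`, `symJ σ` (`σ` fixing
`ζ`) and `jacMap j`. (5) `ℓ`-divisibility: by R19 `Q = π^(ℓ-1) Q' = ℓ (-1 + π w) Q'`.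
(6) `σ ↦ σ Q` is locally constant: `Q = cl D` and `D` is fixed by the automorphisms which fix the
coordinates of the finitely many points of its support.
-/

open Polynomial IsDedekindDomain

open scoped Classical

namespace Pool.Agent.Lib.MP_89bcae_ag.Sup

universe u

section

variable {ℓ : ℕ} {E : Type u} [Field E] {f : E[X]} [hG : IsGood ℓ f]

lemma vJ_add (ζ : E) (hζ : ζ ^ ℓ = 1) (Q Q' : Jac ℓ f) :
    vJ ζ hζ (Q + Q') = vJ ζ hζ Q + vJ ζ hζ Q' := by
  unfold vJ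
  rw [← Finset.sum_add_distrib]
  refine Finset.sum_congr rfl fun k _ => ?_
  rw [← Finset.sum_add_distrib]
  refine Finset.sum_congr rfl fun i _ => ?_
  exact iterate_map_add (zJ ζ hζ) i Q Q'

private lemma G07_vJ_zero (ζ : E) (hζ : ζ ^ ℓ = 1) : vJ ζ hζ (0 : Jac ℓ f) = 0 := by
  have h := vJ_add ζ hζ (0 : Jac ℓ f) 0
  rw [add_zero] at h
  exact left_eq_add.mp h

private noncomputable def G07_vHom (ζ : E) (hζ : ζ ^ ℓ = 1) : Jac ℓ f →+ Jac ℓ f where
  toFun := vJ ζ hζ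
  map_zero' := G07_vJ_zero ζ hζ
  map_add' := vJ_add ζ hζ

lemma vJ_sub (ζ : E) (hζ : ζ ^ ℓ = 1) (Q Q' : Jac ℓ f) :
    vJ ζ hζ (Q - Q') = vJ ζ hζ Q - vJ ζ hζ Q' :=
  map_sub (G07_vHom ζ hζ) Q Q'

lemma vJ_smul (ζ : E) (hζ : ζ ^ ℓ = 1) (n : ℕ) (Q : Jac ℓ f) :
    vJ ζ hζ (n • Q) = n • vJ ζ hζ Q :=
  map_nsmul (G07_vHom ζ hζ) n Q

/-- A homomorphism which commutes with `Z` commutes with `v`. -/
private lemma G07_vJ_semiconj {E' : Type u} [Field E'] {f' : E'[X]} [hG' : IsGood ℓ f'] (ζ : E)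
    (hζ : ζ ^ ℓ = 1) (ζ' : E') (hζ' : ζ' ^ ℓ = 1) (h : Jac ℓ f →+ Jac ℓ f')
    (hh : ∀ Q, zJ ζ' hζ' (h Q) = h (zJ ζ hζ Q)) (Q : Jac ℓ f) :
    vJ ζ' hζ' (h Q) = h (vJ ζ hζ Q) := by
  have hs : Function.Semiconj h (zJ ζ hζ) (zJ ζ' hζ') := fun Q => (hh Q).symm
  unfold vJ
  rw [map_sum]
  refine Finset.sum_congr rfl fun k _ => ?_
  rw [map_sum]
  refine Finset.sum_congr rfl fun i _ => ?_
  exact ((hs.iterate_right i) Q).symm

lemma vJ_zJ (ζ : E) (hζ : ζ ^ ℓ = 1) (Q : Jac ℓ f) :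
    vJ ζ hζ (zJ ζ hζ Q) = zJ ζ hζ (vJ ζ hζ Q) :=
  G07_vJ_semiconj ζ hζ ζ hζ (zJ ζ hζ) (fun _ => rfl) Q

lemma vJ_sub_zJ (ζ : E) (hζ : IsPrimitiveRoot ζ ℓ) (Q : Jac ℓ f) :
    vJ ζ hζ.pow_eq_one Q - zJ ζ hζ.pow_eq_one (vJ ζ hζ.pow_eq_one Q) = ℓ • Q := by
  have h0 := sum_zJ ζ hζ Q
  unfold vJ
  rw [map_sum, ← Finset.sum_sub_distrib]
  have h1 : ∀ k ∈ Finset.range ℓ, (∑ i ∈ Finset.range k, (zJ ζ hζ.pow_eq_one)^[i] Q) -
      zJ ζ hζ.pow_eq_one (∑ i ∈ Finset.range k, (zJ ζ hζ.pow_eq_one)^[i] Q) =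
      Q - (zJ ζ hζ.pow_eq_one)^[k] Q := by
    intro k _
    rw [map_sum, ← Finset.sum_sub_distrib]
    have h2 : ∀ i ∈ Finset.range k, (zJ ζ hζ.pow_eq_one)^[i] Q -
        zJ ζ hζ.pow_eq_one ((zJ ζ hζ.pow_eq_one)^[i] Q) =
        (fun j => (zJ ζ hζ.pow_eq_one)^[j] Q) i - (fun j => (zJ ζ hζ.pow_eq_one)^[j] Q) (i + 1) := by
      intro i _
      simp only [Function.iterate_succ_apply']
    rw [Finset.sum_congr rfl h2, Finset.sum_range_sub']
    rfl
  rw [Finset.sum_congr rfl h1, Finset.sum_sub_distrib, h0, sub_zero, Finset.sum_const,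
    Finset.card_range]

lemma vJ_symJ (ζ : E) (hζ : ζ ^ ℓ = 1) (σ : Sym f) (hσ : (σ : E ≃+* E) ζ = ζ) (Q : Jac ℓ f) :
    vJ ζ hζ (symJ σ Q) = symJ σ (vJ ζ hζ Q) :=
  G07_vJ_semiconj ζ hζ ζ hζ (symJ σ) (fun Q => zJ_symJ ζ hζ σ hσ Q) Q

lemma vJ_jacMap {E' : Type u} [Field E'] {f' : E'[X]} [hG' : IsGood ℓ f'] (σ : E →+* E')
    (h : f.map σ = f') (ζ : E) (hζ : ζ ^ ℓ = 1) (hζ' : (σ ζ) ^ ℓ = 1) (Q : Jac ℓ f) :
    vJ (σ ζ) hζ' (jacMap ℓ σ h Q) = jacMap ℓ σ h (vJ ζ hζ Q) :=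
  G07_vJ_semiconj ζ hζ (σ ζ) hζ' (jacMap ℓ σ h) (fun Q => zJ_jacMap σ h ζ hζ hζ' Q) Q

/-- The operator `π = 1 - Z` in the ring of endomorphisms, with the identity of `A01`. -/
private lemma G07_identity (ζ : E) (hζ : IsPrimitiveRoot ζ ℓ) :
    ∃ p U : AddMonoid.End (Jac ℓ f), (∀ Q, p Q = Q - zJ ζ hζ.pow_eq_one Q) ∧
      p ^ (ℓ - 1) = (ℓ : AddMonoid.End (Jac ℓ f)) * U := by
  let z : AddMonoid.End (Jac ℓ f) := zJ ζ hζ.pow_eq_one
  let S : ℤ[X] := ∑ i ∈ Finset.range ℓ, X ^ i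
  have hS : aeval z S = 0 := by
    refine AddMonoidHom.ext fun Q => ?_
    have h := sum_zJ ζ hζ Q
    have h2 : aeval z S = ∑ i ∈ Finset.range ℓ, z ^ i := by
      simp only [S, map_sum, map_pow, aeval_X]
    rw [h2]
    have h3 : (∑ i ∈ Finset.range ℓ, z ^ i : AddMonoid.End (Jac ℓ f)) Q =
        ∑ i ∈ Finset.range ℓ, (z ^ i) Q := AddMonoidHom.finsetSum_apply _ _ _
    exact h3.trans h
  let B : Type := ℤ[X] ⧸ Ideal.span {S}
  let φ : B →+* AddMonoid.End (Jac ℓ f) :=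
    Ideal.Quotient.lift (Ideal.span {S}) (aeval z : ℤ[X] →ₐ[ℤ] AddMonoid.End (Jac ℓ f)).toRingHom
      (by
        intro a ha
        obtain ⟨b, rfl⟩ := Ideal.mem_span_singleton'.mp ha
        show aeval z (b * S) = 0
        rw [map_mul, hS, mul_zero])
  have hz : ∑ i ∈ Finset.range ℓ, (Ideal.Quotient.mk (Ideal.span {S}) X : B) ^ i = 0 := by
    have h : (Ideal.Quotient.mk (Ideal.span {S}) S : B) = 0 :=
      Ideal.Quotient.eq_zero_iff_mem.mpr (Ideal.mem_span_singleton_self S)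
    rw [← h]
    simp only [S, map_sum, map_pow]
  obtain ⟨v, w, h1, h2⟩ := exists_pi_identity hG.prime (Ideal.Quotient.mk (Ideal.span {S}) X : B) hz
  have hφX : φ (Ideal.Quotient.mk (Ideal.span {S}) X) = z := by
    show aeval z X = z
    exact aeval_X z
  refine ⟨1 - z, φ (-1 + (1 - Ideal.Quotient.mk (Ideal.span {S}) X) * w), fun Q => rfl, ?_⟩
  have h3 := congrArg φ h2
  rw [map_pow, map_mul, map_natCast, map_sub, map_one, hφX] at h3
  exact h3

/-- (5) -/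
lemma exists_smul_eq (ζ : E) (hζ : IsPrimitiveRoot ζ ℓ) (Q : Jac ℓ f) :
    ∃ Q' : Jac ℓ f, ℓ • Q' = Q := by
  obtain ⟨p, U, hp, hU⟩ := G07_identity (f := f) ζ hζ
  have hs : ∀ n : ℕ, ∃ Q' : Jac ℓ f, (p ^ n) Q' = Q := by
    intro n
    induction n with
    | zero => exact ⟨Q, rfl⟩
    | succ n ih =>
      obtain ⟨Q', hQ'⟩ := ih
      obtain ⟨Q'', hQ''⟩ := exists_sub_zJ ζ hζ Q'
      refine ⟨Q'', ?_⟩
      rw [pow_succ]
      show (p ^ n) (p Q'') = Q
      rw [hp, hQ'', hQ']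
  obtain ⟨Q', hQ'⟩ := hs (ℓ - 1)
  refine ⟨U Q', ?_⟩
  rw [hU] at hQ'
  exact hQ'

/-- A class killed by `ℓ` is killed by `(1 - Z)^(ℓ-1)`. -/
lemma iterate_eq_zero_of_smul (ζ : E) (hζ : IsPrimitiveRoot ζ ℓ) (n : ℕ) (Q : Jac ℓ f)
    (hQ : ℓ ^ n • Q = 0) : (fun x => x - zJ ζ hζ.pow_eq_one x)^[(ℓ - 1) * n] Q = 0 := by
  obtain ⟨p, U, hp, hU⟩ := G07_identity (f := f) ζ hζ
  have hfun : (fun x => x - zJ ζ hζ.pow_eq_one x) = (p : Jac ℓ f → Jac ℓ f) := by
    funext x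
    exact (hp x).symm
  have h1 : (fun x => x - zJ ζ hζ.pow_eq_one x)^[(ℓ - 1) * n] Q = (p ^ ((ℓ - 1) * n)) Q := by
    rw [hfun]
    rfl
  rw [h1, pow_mul, hU, (Nat.cast_commute ℓ U).mul_pow, ((Nat.cast_commute ℓ U).pow_pow n n).eq]
  show (U ^ n) (((ℓ : AddMonoid.End (Jac ℓ f)) ^ n) Q) = 0
  rw [← Nat.cast_pow, AddMonoid.End.natCast_apply, hQ, map_zero]

/-- Image of a ramified class under a homomorphism of fields. -/
lemma jacMap_ram {E' : Type u} [Field E'] {f' : E'[X]} [hG' : IsGood ℓ f'] (σ : E →+* E')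
    (h : f.map σ = f') (e : E → ℤ) (e' : E' → ℤ) (he : ∀ θ, f.eval θ = 0 → e' (σ θ) = e θ) :
    jacMap ℓ σ h (ram e) = ram e' := by
  unfold ram
  rw [jacMap_cl]
  congr 1
  have hinj : Function.Injective (Pt.map σ h : Pt ℓ f → Pt ℓ f') := by
    intro P P' hPP
    have h1 : σ P.x = σ P'.x := congrArg Pt.x hPP
    have h2 : σ P.y = σ P'.y := congrArg Pt.y hPP
    exact Pt.ext (σ.injective h1) (σ.injective h2)
  ext P'
  by_cases hP' : P' ∈ Set.range (Pt.map σ h : Pt ℓ f → Pt ℓ f')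
  · obtain ⟨P, rfl⟩ := hP'
    rw [Finsupp.mapDomain_apply hinj, ramDiv_apply, ramDiv_apply]
    by_cases hy : P.y = 0
    · have hy' : (Pt.map σ h P).y = 0 := by
        show σ P.y = 0
        rw [hy, map_zero]
      rw [if_pos hy, if_pos hy']
      exact (he P.x (R15_root P hy)).symm
    · have hy' : (Pt.map σ h P).y ≠ 0 := by
        show σ P.y ≠ 0
        exact fun h0 => hy ((map_eq_zero σ).mp h0)
      rw [if_neg hy, if_neg hy']
  · rw [Finsupp.mapDomain_of_notMem_range _ _ hP', ramDiv_apply]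
    have hy' : P'.y ≠ 0 := by
      intro hy
      apply hP'
      have := hG.alg
      have hr : f'.eval P'.x = 0 := R15_root P' hy
      have hf0 : f ≠ 0 := hG.separable.ne_zero
      have hx : P'.x ∈ σ.range := by
        apply (IsAlgClosed.splits f).mem_range_of_isRoot hf0
        rw [h]
        exact hr
      obtain ⟨x, hx⟩ := hx
      have hfx : f.eval x = 0 := by
        apply σ.injective
        rw [map_zero, ← Polynomial.eval_map_apply, h, hx]
        exact hr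
      refine ⟨⟨x, 0, by rw [hfx, zero_pow hG.prime.ne_zero]⟩, ?_⟩
      refine Pt.ext hx ?_
      show σ 0 = P'.y
      rw [map_zero, hy]
    rw [if_neg hy']

end

/-- The number of roots. -/
private lemma G07_card_rts {ℓ : ℕ} {E : Type u} [Field E] {f : E[X]} (hG : IsGood ℓ f) :
    (rts f).card = f.natDegree := by
  have := hG.alg
  unfold rts
  rw [Multiset.toFinset_card_of_nodup (nodup_roots hG.separable), IsAlgClosed.card_roots_eq_natDegree]

variable {k F L Ω : Type u} [Field k] [Field F] [Algebra k F] [Field L] [Algebra F[X] L]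
  [Field Ω] [Algebra L Ω] [IsAlgClosure k F] [IsFractionRing F[X] L] [IsAlgClosure L Ω]
  {ℓ : ℕ} {g D : k[X]} [hG : IsGood ℓ (cOver k F L Ω g D)] {ζ : k}

/-- The polynomial `g(x) - t` is irreducible. -/
private lemma G07_irreducible {F L : Type u} [Field F] [Field L] [Algebra F[X] L]
    [IsFractionRing F[X] L] (G : F[X]) (hG : G.Monic) (hG0 : G.natDegree ≠ 0) :
    ((G.map (C : F →+* F[X]) - C X).map (algebraMap F[X] L)).Monic ∧
    Irreducible ((G.map (C : F →+* F[X]) - C X).map (algebraMap F[X] L)) := by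
  have hm : (G.map (C : F →+* F[X]) - C X : F[X][X]).Monic := by
    apply (hG.map C).sub_of_left
    refine lt_of_le_of_lt degree_C_le ?_
    rw [← natDegree_pos_iff_degree_pos, hG.natDegree_map]
    exact Nat.pos_of_ne_zero hG0
  refine ⟨hm.map _, (hm.irreducible_iff_irreducible_map_fraction_map).mp ?_⟩
  have h1 : Bivariate.swap (R := F) (G.map (C : F →+* F[X]) - C X) = -(X - C G) := by
    rw [map_sub, Bivariate.swap_map_C, Bivariate.swap_X, neg_sub]
  rw [← MulEquiv.irreducible_iff (Bivariate.swap (R := F))]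
  rw [h1]
  exact (Associated.neg_left (Associated.refl (X - C G))).irreducible_iff.mpr (irreducible_X_sub_C G)

private lemma G07_base_injective {A : Type u} [Field A] [Algebra L A] :
    Function.Injective (base k F L A) := by
  unfold base
  rw [RingHom.coe_comp, RingHom.coe_comp]
  refine (algebraMap L A).injective.comp ((IsFractionRing.injective F[X] L).comp ?_)
  exact Polynomial.map_injective _ (algebraMap k F).injective

private lemma G07_natDegree_ne (H : GlobHyp ℓ g D ζ) : g.natDegree ≠ 0 := by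
  intro h
  have h1 := H.cop
  rw [h, Nat.coprime_zero_left] at h1
  exact H.prime.one_lt.ne' h1

/-- The polynomial `g(x) - t` over `L`. -/
private noncomputable def G07_P (F L : Type u) [Field F] [Algebra k F] [Field L] [Algebra F[X] L]
    (g : k[X]) : L[X] :=
  (((g.map (algebraMap k F)).map (C : F →+* F[X]) - C X).map (algebraMap F[X] L))

omit [Field Ω] [Algebra L Ω] [IsAlgClosure k F] [IsFractionRing F[X] L] [IsAlgClosure L Ω] hG in
private lemma G07_curvePoly (D : k[X]) : curvePoly k F L g D =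
    C ((base k F L L D)⁻¹) * G07_P F L g := by
  unfold curvePoly G07_P
  rw [Polynomial.map_sub, Polynomial.map_map, Polynomial.map_map, Polynomial.map_C]
  have h1 : base k F L L X = algebraMap F[X] L X := by
    unfold base
    rw [RingHom.comp_apply, RingHom.comp_apply, coe_mapRingHom, Polynomial.map_X]
    rfl
  have h2 : (base k F L L).comp C = (algebraMap F[X] L).comp (C.comp (algebraMap k F)) := by
    ext a
    unfold base
    rw [RingHom.comp_apply, RingHom.comp_apply, RingHom.comp_apply, coe_mapRingHom,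
      Polynomial.map_C]
    rfl
  rw [h1, h2, RingHom.comp_assoc]

private lemma G07_root (H : GlobHyp ℓ g D ζ) {θ : Ω} (hθ : θ ∈ rts (cOver k F L Ω g D)) :
    aeval θ (G07_P F L g) = 0 := by
  rw [mem_rts hG.separable.ne_zero] at hθ
  unfold cOver at hθ
  rw [eval_map_algebraMap, G07_curvePoly, map_mul, aeval_C] at hθ
  have hD : D ≠ 0 := by
    intro h
    exact H.pos (by rw [h, natDegree_zero])
  have h1 : base k F L L D ≠ 0 := by
    intro h
    exact hD (G07_base_injective (by rw [h, map_zero]))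
  rcases mul_eq_zero.mp hθ with h | h
  · exact absurd ((map_eq_zero _).mp h) (inv_ne_zero h1)
  · exact h

/-- (1) -/
theorem exists_gal_root (H : GlobHyp ℓ g D ζ) {θ θ' : Ω} (hθ : θ ∈ rts (cOver k F L Ω g D))
    (hθ' : θ' ∈ rts (cOver k F L Ω g D)) : ∃ σ : Ω ≃ₐ[L] Ω, σ θ = θ' := by
  have hN := G07_natDegree_ne H
  obtain ⟨hm, hirr⟩ := G07_irreducible (L := L) (g.map (algebraMap k F)) (H.monic.map _)
    (by rwa [H.monic.natDegree_map])
  have h1 := minpoly.eq_of_irreducible_of_monic hirr (G07_root H hθ) hm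
  have h2 := minpoly.eq_of_irreducible_of_monic hirr (G07_root H hθ') hm
  have : Normal L Ω := IsAlgClosure.normal L Ω
  have h3 : IsConjRoot L θ' θ := by
    show minpoly L θ' = minpoly L θ
    rw [← h1, ← h2]
  obtain ⟨σ, hσ⟩ := h3.exists_algEquiv
  exact ⟨σ, hσ⟩

lemma zA_primitive (H : GlobHyp ℓ g D ζ) {A : Type u} [Field A] [Algebra L A] :
    IsPrimitiveRoot (zA F L A ζ) ℓ := by
  have h := H.zeta.map_of_injective (f := (base k F L A).comp (C : k →+* k[X]))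
    ((base k F L A).comp (C : k →+* k[X])).injective
  exact h

/-- (2) -/
private lemma G07_ram_fixed (H : GlobHyp ℓ g D ζ) (e : Ω → ℤ)
    (hQ : ∀ σ : Ω ≃ₐ[L] Ω, symJ (toSym g D (galA k F σ))
      (ram e : JacOver ℓ (curvePoly k F L g D) Ω) = ram e) :
    (ram e : JacOver ℓ (curvePoly k F L g D) Ω) = 0 := by
  have hz := zA_primitive (F := F) (L := L) H (A := Ω)
  have hf0 : cOver k F L Ω g D ≠ 0 := hG.separable.ne_zero
  have key : ∀ (σ : Ω ≃ₐ[L] Ω) (θ : Ω), θ ∈ rts (cOver k F L Ω g D) →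
      (ℓ : ℤ) ∣ e (σ⁻¹ θ) - e θ := by
    intro σ θ hθ
    have h1 := hQ σ
    rw [symJ_ram] at h1
    have h2 : (ram (fun θ => e (σ⁻¹ θ) - e θ) : JacOver ℓ (curvePoly k F L g D) Ω) = 0 := by
      rw [ram_sub, ← h1]
      rw [sub_eq_zero]
      rfl
    obtain ⟨c, hc⟩ := (ram_eq_zero_iff _ hz _).mp h2
    have h3 : ∑ θ ∈ rts (cOver k F L Ω g D), (e (σ⁻¹ θ) - e θ) = 0 := by
      rw [Finset.sum_sub_distrib, sub_eq_zero]
      have hmaps : ∀ (τ : Ω ≃ₐ[L] Ω) (θ : Ω), θ ∈ rts (cOver k F L Ω g D) →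
          τ θ ∈ rts (cOver k F L Ω g D) := by
        intro τ θ hθ
        rw [mem_rts hf0] at hθ ⊢
        unfold cOver at hθ ⊢
        rw [eval_map_algebraMap] at hθ ⊢
        rw [aeval_algEquiv, AlgHom.comp_apply, hθ]
        exact map_zero τ
      refine Finset.sum_bij' (fun θ _ => σ⁻¹ θ) (fun θ _ => σ θ) (hmaps σ⁻¹) (hmaps σ) ?_ ?_ ?_
      · intro θ _
        exact σ.apply_symm_apply θ
      · intro θ _
        exact σ.symm_apply_apply θ
      · intro θ _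
        rfl
    have h4 : (ℓ : ℤ) ∣ ∑ θ ∈ rts (cOver k F L Ω g D), (e (σ⁻¹ θ) - e θ - c) := by
      refine Finset.dvd_sum fun θ hθ => hc θ ?_
      exact (mem_rts hf0).mp hθ
    rw [Finset.sum_sub_distrib, h3, Finset.sum_const, zero_sub, dvd_neg, G07_card_rts hG,
      nsmul_eq_mul] at h4
    have h5 : IsCoprime (ℓ : ℤ) ((cOver k F L Ω g D).natDegree : ℤ) :=
      (Nat.isCoprime_iff_coprime.mpr hG.coprime).symm
    have h6 : (ℓ : ℤ) ∣ c := h5.dvd_of_dvd_mul_left h4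
    have h7 := dvd_add (hc θ ((mem_rts hf0).mp hθ)) h6
    rwa [sub_add_cancel] at h7
  have hne : (rts (cOver k F L Ω g D)).Nonempty := by
    rw [← Finset.card_pos, G07_card_rts hG, Nat.pos_iff_ne_zero]
    intro h
    have h1 := hG.coprime
    rw [h, Nat.coprime_zero_left] at h1
    exact H.prime.one_lt.ne' h1
  obtain ⟨θ₀, hθ₀⟩ := hne
  refine (ram_eq_zero_iff _ hz _).mpr ⟨e θ₀, fun θ hθ => ?_⟩
  have hθ' : θ ∈ rts (cOver k F L Ω g D) := (mem_rts hf0).mpr hθ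
  obtain ⟨σ, hσ⟩ := exists_gal_root H hθ₀ hθ'
  have h := key σ θ hθ'
  have h1 : σ⁻¹ θ = θ₀ := by
    rw [← hσ]
    exact σ.symm_apply_apply θ₀
  rw [h1] at h
  rw [← dvd_neg, neg_sub]
  exact h

/-- The same for classes killed by `π`. -/
private lemma G07_fixed_ram (H : GlobHyp ℓ g D ζ) (hζ : (zA F L Ω ζ) ^ ℓ = 1)
    (Q : JacOver ℓ (curvePoly k F L g D) Ω) (hn : zJ (zA F L Ω ζ) hζ Q = Q)
    (hQ : ∀ σ : Ω ≃ₐ[L] Ω, symJ (toSym g D (galA k F σ)) Q = Q) : Q = 0 := by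
  have hz := zA_primitive (F := F) (L := L) H (A := Ω)
  obtain ⟨e, rfl⟩ := exists_ram_of_zJ_eq _ hz Q hn
  exact G07_ram_fixed H e hQ

/-- (3) -/
theorem eq_zero_of_fixed (H : GlobHyp ℓ g D ζ) (n : ℕ)
    (Q : JacOver ℓ (curvePoly k F L g D) Ω) (hn : ℓ ^ n • Q = 0)
    (hQ : ∀ σ : Ω ≃ₐ[L] Ω, symJ (toSym g D (galA k F σ)) Q = Q) : Q = 0 := by
  have hz := zA_primitive (F := F) (L := L) H (A := Ω)
  have h0 := iterate_eq_zero_of_smul _ hz n Q hn
  have key : ∀ (m : ℕ) (Q : JacOver ℓ (curvePoly k F L g D) Ω),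
      (∀ σ : Ω ≃ₐ[L] Ω, symJ (toSym g D (galA k F σ)) Q = Q) →
      (fun x => x - zJ (zA F L Ω ζ) hz.pow_eq_one x)^[m] Q = 0 → Q = 0 := by
    intro m
    induction m with
    | zero => exact fun Q _ h => h
    | succ m ih =>
      intro Q hQ h
      rw [Function.iterate_succ_apply] at h
      have h1 := ih _ (fun σ => by
        have hσ : ((toSym g D (galA k F σ) : Sym (cOver k F L Ω g D)) : Ω ≃+* Ω) (zA F L Ω ζ) =
            zA F L Ω ζ := zA_fixed ζ (galA k F σ)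
        rw [map_sub, ← zJ_symJ _ hz.pow_eq_one _ hσ, hQ σ]) h
      exact G07_fixed_ram H hz.pow_eq_one Q (sub_eq_zero.mp h1).symm hQ
  exact key _ Q hQ h0

/-- The same for classes killed by `π`. -/
theorem eq_zero_of_fixed_ram (H : GlobHyp ℓ g D ζ) (hζ : (zA F L Ω ζ) ^ ℓ = 1)
    (Q : JacOver ℓ (curvePoly k F L g D) Ω) (hn : zJ (zA F L Ω ζ) hζ Q = Q)
    (hQ : ∀ σ : Ω ≃ₐ[L] Ω, symJ (toSym g D (galA k F σ)) Q = Q) : Q = 0 :=
  G07_fixed_ram H hζ Q hn hQ

/-- (6) -/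
theorem isLocallyConstant_symJ (Q : JacOver ℓ (curvePoly k F L g D) Ω) :
    IsLocallyConstant fun σ : Ω ≃ₐ[L] Ω => symJ (toSym g D (galA k F σ)) Q := by
  obtain ⟨E, rfl⟩ := cl_surjective Q
  rw [IsLocallyConstant.iff_exists_open]
  intro σ₀
  let S : Set Ω := (fun P : Pt ℓ (cOver k F L Ω g D) => P.x) '' (E.support : Set _) ∪
    (fun P : Pt ℓ (cOver k F L Ω g D) => P.y) '' (E.support : Set _)
  have hSf : S.Finite := (E.support.finite_toSet.image _).union (E.support.finite_toSet.image _)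
  let K : IntermediateField L Ω := IntermediateField.adjoin L S
  have halg : Algebra.IsAlgebraic L Ω := IsAlgClosure.isAlgebraic
  have : FiniteDimensional L K :=
    IntermediateField.finiteDimensional_adjoin fun x _ => Algebra.IsIntegral.isIntegral x
  have hopen : IsOpen (K.fixingSubgroup : Set (Ω ≃ₐ[L] Ω)) := K.fixingSubgroup_isOpen
  refine ⟨(fun σ => σ₀⁻¹ * σ) ⁻¹' (K.fixingSubgroup : Set (Ω ≃ₐ[L] Ω)),
    hopen.preimage (continuous_const_mul σ₀⁻¹), ?_, ?_⟩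
  · show σ₀⁻¹ * σ₀ ∈ K.fixingSubgroup
    rw [inv_mul_cancel]
    exact one_mem _
  · intro σ hσ
    have hσ' : σ₀⁻¹ * σ ∈ K.fixingSubgroup := hσ
    have hS : ∀ x ∈ S, σ x = σ₀ x := by
      intro x hx
      have h1 := (IntermediateField.mem_fixingSubgroup_iff K _).mp hσ' x
        (IntermediateField.subset_adjoin L S hx)
      have h2 : σ₀ ((σ₀⁻¹ * σ) x) = σ x := σ₀.apply_symm_apply (σ x)
      rw [← h2, h1]
    show symJ (toSym g D (galA k F σ)) (cl E) = symJ (toSym g D (galA k F σ₀)) (cl E)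
    rw [symJ_cl, symJ_cl]
    congr 1
    refine Finsupp.mapDomain_congr fun P hP => ?_
    refine Pt.ext ?_ ?_
    · exact hS P.x (Or.inl ⟨P, hP, rfl⟩)
    · exact hS P.y (Or.inr ⟨P, hP, rfl⟩)

end Pool.Agent.Lib.MP_89bcae_ag.Sup
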