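import Mathlib
import Pool.Agent.Lib.MP_89bcae_ag.Sup.G06
import Pool.Agent.Lib.MP_89bcae_ag.Sup.G07

/-!
ROW G08 (150-250 lines). The group of classes is torsion-free and separated.

PROOFS. Write `∂A (σ) = σ A - A`. (i) `c` a Tate cocycle, `c - Z c` trivial: `(c - Zc)_n = ∂ A_n`, `ℓ^n A_n = 0`.
Then `c_n = ℓ c_{n+1} = v π c_{n+1} = ∂ (v A_{n+1})` (`vJ_sub_zJ`). `B = v A_{n+1}`: `ℓ^n B` is killed by
`π` (`π v = ℓ`) and `∂ (ℓ^n B) = ℓ^n c_n = 0`, so it is fixed by `Gal`, so `ℓ^n B = 0`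
(`eq_zero_of_fixed_ram`).
(ii) `m c` trivial, `m > 0`: write `m = ℓ^s m'`. If `m = ℓ`: `ℓ c_{n+1} = c_n = ∂ A`, with
`A = A_{n+1}`, `ℓ^(n+1) A = 0`, and `ℓ^n c_n = 0` gives `ℓ^n A` fixed, so `ℓ^n A = 0` by
`eq_zero_of_fixed`. If `m` is prime to `ℓ`: `c_n = m'' m c_n` with `m'' m ≡ 1` modulo `ℓ^n`. Induction on
`s`.
(iii) separated: suppose that for every `n` there is a Tate cocycle `y` with `c - π^n y` trivial. For
given level `N` take `n = (ℓ-1) N`: `π^(ℓ-1) = ℓ (-1 + π w)` (A01; as operators on the Jacobian), so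
`π^n y` at level `N` is `ℓ^N (...) y_N = 0` (`ℓ^N y_N = 0`). So `c_N` is the coboundary of `A_N`.
(iv) `IsFixedBy` gives triviality of `act γ c - c`: by (ii) and the definitions (with
`h = conjG γ g`).
-/

open Polynomial IsDedekindDomain

open scoped Classical

namespace Pool.Agent.Lib.MP_89bcae_ag.Sup

universe u

variable {k F L Ω : Type u} [Field k] [Field F] [Algebra k F] [Field L] [Algebra F[X] L]
  [Field Ω] [Algebra L Ω] [IsAlgClosure k F] [IsFractionRing F[X] L] [IsAlgClosure L Ω]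
  {ℓ : ℕ} {g D : k[X]} [hG : IsGood ℓ (cOver k F L Ω g D)] {ζ : k}

private lemma g08_smul_coc {c : Coch ℓ k F L Ω g D}
    (hc : IsTateCocycle ℓ (curvePoly k F L g D) c) (m : ℕ) :
    IsTateCocycle ℓ (curvePoly k F L g D) (m • c : Coch ℓ k F L Ω g D) := by
  induction m with
  | zero =>
    rw [zero_nsmul]
    exact IsTateCocycle.zero'
  | succ m ih =>
    rw [succ_nsmul]
    exact ih.add hc

omit [IsAlgClosure k F] [IsFractionRing F[X] L] [IsAlgClosure L Ω] hG in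
private lemma g08_pow_smul_add {c : Coch ℓ k F L Ω g D}
    (hc : IsTateCocycle ℓ (curvePoly k F L g D) c) (t j : ℕ) (σ : Ω ≃ₐ[L] Ω) :
    ℓ ^ t • c (j + t) σ = c j σ := by
  induction t with
  | zero => rw [pow_zero, one_nsmul, add_zero]
  | succ t ih => rw [pow_succ, mul_nsmul', ← add_assoc, hc.smul, ih]

omit [IsAlgClosure k F] [IsFractionRing F[X] L] [IsAlgClosure L Ω] in
private lemma g08_iterate (ζ : k) (hζ : (zA F L Ω ζ) ^ ℓ = 1) (y : Coch ℓ k F L Ω g D) (N : ℕ)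
    (σ : Ω ≃ₐ[L] Ω) (m : ℕ) :
    ((fun x : Coch ℓ k F L Ω g D => x - Sup.zC ζ hζ x)^[m] y) N σ =
      (fun x => x - zJ (zA F L Ω ζ) hζ x)^[m] (y N σ) := by
  induction m with
  | zero => rfl
  | succ m ih =>
    rw [Function.iterate_succ_apply', Function.iterate_succ_apply', ← ih]
    rfl

/-- (i) -/
theorem TTc.of_sub_zC (H : GlobHyp ℓ g D ζ) (hζ : (zA F L Ω ζ) ^ ℓ = 1)
    {c : Coch ℓ k F L Ω g D} (hc : IsTateCocycle ℓ (curvePoly k F L g D) c)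
    (h : TTc (c - Sup.zC ζ hζ c)) : TTc c := by
  refine ⟨hc, fun n => ?_⟩
  obtain ⟨A, hA, hA2⟩ := h.2 (n + 1)
  have hz : IsPrimitiveRoot (zA F L Ω ζ) ℓ := zA_primitive H
  have hv : vJ (zA F L Ω ζ) hζ A - zJ (zA F L Ω ζ) hζ (vJ (zA F L Ω ζ) hζ A) = ℓ • A :=
    vJ_sub_zJ _ hz A
  have key : ∀ σ : Ω ≃ₐ[L] Ω, c n σ = symJ (toSym g D (galA k F σ)) (vJ (zA F L Ω ζ) hζ A) -
      vJ (zA F L Ω ζ) hζ A := by
    intro σ
    have h1 : c (n + 1) σ - zJ (zA F L Ω ζ) hζ (c (n + 1) σ) =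
        symJ (toSym g D (galA k F σ)) A - A := by
      have h2 := hA2 σ
      rw [push_eq] at h2
      exact h2
    have h3 : vJ (zA F L Ω ζ) hζ (c (n + 1) σ) -
        zJ (zA F L Ω ζ) hζ (vJ (zA F L Ω ζ) hζ (c (n + 1) σ)) = ℓ • c (n + 1) σ :=
      vJ_sub_zJ _ hz _
    rw [← vJ_symJ (zA F L Ω ζ) hζ _ (zA_fixed ζ (galA k F σ)), ← vJ_sub, ← h1, vJ_sub, vJ_zJ, h3,
      hc.smul]
  refine ⟨vJ (zA F L Ω ζ) hζ A, ?_, fun σ => ?_⟩
  · refine eq_zero_of_fixed_ram H hζ _ ?_ ?_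
    · have h4 : ℓ ^ n • (vJ (zA F L Ω ζ) hζ A - zJ (zA F L Ω ζ) hζ (vJ (zA F L Ω ζ) hζ A)) =
          ℓ ^ n • ℓ • A := by rw [hv]
      rw [← mul_nsmul', ← pow_succ, hA, nsmul_sub, sub_eq_zero] at h4
      rw [map_nsmul, ← h4]
    · intro σ
      have h5 := hc.pow_smul n σ
      rw [key σ, nsmul_sub, sub_eq_zero] at h5
      rw [map_nsmul, h5]
  · rw [push_eq]
    exact key σ

/-- (ii) -/
theorem TTc.of_smul (H : GlobHyp ℓ g D ζ) {c : Coch ℓ k F L Ω g D}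
    (hc : IsTateCocycle ℓ (curvePoly k F L g D) c) {m : ℕ} (hm : 0 < m) (h : TTc (m • c)) :
    TTc c := by
  refine ⟨hc, fun n => ?_⟩
  obtain ⟨s, m', hm', hmm⟩ := Nat.exists_eq_pow_mul_and_not_dvd hm.ne' ℓ H.prime.ne_one
  obtain ⟨A, hA, hA2⟩ := h.2 (n + s)
  have hcop : IsCoprime (m' : ℤ) ((ℓ ^ n : ℕ) : ℤ) := by
    rw [Nat.isCoprime_iff_coprime]
    exact Nat.Coprime.pow_right n ((Nat.Prime.coprime_iff_not_dvd H.prime).2 hm').symm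
  obtain ⟨a, b, hab⟩ := hcop
  have h1 : ∀ σ : Ω ≃ₐ[L] Ω, m' • c n σ = symJ (toSym g D (galA k F σ)) A - A := by
    intro σ
    have h2 := hA2 σ
    rw [push_eq] at h2
    have h3 : (m • c) (n + s) σ = m' • c n σ := by
      change m • (c (n + s) σ) = m' • c n σ
      rw [hmm, mul_comm, mul_nsmul', g08_pow_smul_add hc]
    rw [← h3]
    exact h2
  have key : ∀ σ : Ω ≃ₐ[L] Ω, c n σ = symJ (toSym g D (galA k F σ)) (a • A) - a • A := by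
    intro σ
    have h4 : (a * (m' : ℤ) + b * ((ℓ ^ n : ℕ) : ℤ)) • c n σ = c n σ := by
      rw [hab, one_zsmul]
    rw [add_zsmul, mul_zsmul, mul_zsmul, natCast_zsmul, natCast_zsmul, hc.pow_smul, zsmul_zero,
      add_zero, h1 σ] at h4
    rw [← h4, zsmul_sub, map_zsmul]
  refine ⟨a • A, ?_, fun σ => ?_⟩
  · refine eq_zero_of_fixed H (n + s) _ ?_ ?_
    · rw [smul_comm, smul_comm (ℓ ^ (n + s)) a A, hA, zsmul_zero, nsmul_zero]
    · intro σ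
      have h5 := hc.pow_smul n σ
      rw [key σ, nsmul_sub, sub_eq_zero] at h5
      rw [map_nsmul, h5]
  · rw [push_eq]
    exact key σ

/-- (iii) -/
theorem TTc.of_separated (H : GlobHyp ℓ g D ζ) (hζ : (zA F L Ω ζ) ^ ℓ = 1)
    {c : Coch ℓ k F L Ω g D} (hc : IsTateCocycle ℓ (curvePoly k F L g D) c)
    (h : ∀ n : ℕ, ∃ y : Coch ℓ k F L Ω g D, IsTateCocycle ℓ (curvePoly k F L g D) y ∧
      TTc (c - (fun x => x - Sup.zC ζ hζ x)^[n] y)) : TTc c := by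
  refine ⟨hc, fun N => ?_⟩
  obtain ⟨y, hy, h1⟩ := h ((ℓ - 1) * N)
  obtain ⟨A, hA, hA2⟩ := h1.2 N
  have hz : IsPrimitiveRoot (zA F L Ω ζ) ℓ := zA_primitive H
  refine ⟨A, hA, fun σ => ?_⟩
  rw [← hA2 σ]
  have h2 : ((fun x : Coch ℓ k F L Ω g D => x - Sup.zC ζ hζ x)^[(ℓ - 1) * N] y) N σ = 0 := by
    rw [g08_iterate]
    exact iterate_eq_zero_of_smul _ hz N _ (hy.pow_smul N σ)
  change c N σ = c N σ - ((fun x : Coch ℓ k F L Ω g D => x - Sup.zC ζ hζ x)^[(ℓ - 1) * N] y) N σ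
  rw [h2, sub_zero]

/-- (iv) -/
theorem TTc.of_isFixedBy (H : GlobHyp ℓ g D ζ) {c : Coch ℓ k F L Ω g D}
    (hc : IsTateCocycle ℓ (curvePoly k F L g D) c) (γ : AutO k F L Ω)
    (h : IsFixedBy ℓ (curvePoly k F L g D) c (γ : Ω ≃+* Ω) (toSym g D γ).2) :
    TTc (Sup.act γ c - c) := by
  obtain ⟨m, hm, h1⟩ := h
  have hcoc : IsTateCocycle ℓ (curvePoly k F L g D) (Sup.act γ c - c) := by
    rw [sub_eq_add_neg]
    exact (hc.act γ).add hc.neg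
  refine TTc.of_smul H hcoc hm ⟨g08_smul_coc hcoc m, fun n => ?_⟩
  obtain ⟨A, hA, hA2⟩ := h1 n
  refine ⟨A, hA, fun σ => ?_⟩
  refine hA2 (conjG γ⁻¹ σ) σ fun x => ?_
  have h2 := conjG_spec γ⁻¹ σ ((γ : Ω ≃+* Ω) x)
  have h3 : ((γ⁻¹ : AutO k F L Ω) : Ω ≃+* Ω) ((γ : Ω ≃+* Ω) x) = x :=
    (γ : Ω ≃+* Ω).symm_apply_apply x
  rw [h3] at h2
  rw [h2]
  exact (γ : Ω ≃+* Ω).apply_symm_apply _

end Pool.Agent.Lib.MP_89bcae_ag.Sup
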