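import Mathlib
import Pool.Agent.Lib.MP_89bcae_ag.Sup.G09
import Pool.Agent.Lib.MP_89bcae_ag.Sup.G10
import Pool.Agent.Lib.MP_89bcae_ag.Sup.G08

/-!
ROW G11 (200-350 lines). The Kummer functions of a Tate cocycle.

Let `c₁(σ) = v (c 1 σ)`. STATEMENT: there are a monic polynomial `P` over `F`, such that the sum of the
multiplicities in `P` of the roots of `g(x) = a` is divisible by `ℓ` for each `a`, and `z : Ω → Ω` with
`(z θ)^ℓ = P(θ)` for the roots `θ` of `g(x) = t`, such that `c₁(σ) = ram n` whenever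
`σ (z θ) = ζ^{n(σθ)} z(σθ)` for all roots `θ`.

PROOF. `ℓ c_1 = c_0 = 0`, so `π c₁(σ) = ℓ c_1(σ) = 0` (`vJ_sub_zJ`) and `c₁(σ) = ram e_σ` (R18 (B)). `m = deg g`
is the number of the roots and is prime to `ℓ`, so, adding a constant (R18 (C)), we may assume
`∑_θ e_σ(θ) ≡ 0` modulo `ℓ`, and then the residues modulo `ℓ` of the `e_σ(θ)`, `θ` a root, are unique.
Cocycle: `c₁(στ) = c₁(σ) + σ c₁(τ)`, so `e_{στ}(θ) ≡ e_σ(θ) + e_τ(σ⁻¹θ)` (`symJ_ram`, uniqueness).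
Locally constant: `c 1` is, so there is a finite set `S` of elements of `Ω` such that `c 1 σ = 0` for all
`σ` fixing `S` (`c 1 1 = 0`, Krull topology). Fix a root `θ₀`, `H` its stabilizer, `χ(σ) = e_σ(θ₀)` mod
`ℓ`, additive on `H`. G09: `z₀ ≠ 0` with `σ z₀ = ζ^{χ(σ)} z₀` for `σ` in `H`. `z₀^ℓ` is fixed by `H`, so
(G10 (2)) `z₀^{ℓ p^s} = A(θ₀)/B(θ₀)`; choose `j` with `p^s j ≡ 1` modulo `ℓ` and replace `z₀` by
`z₀^{p^s j}` (same character), so `z₀^ℓ = A(θ₀)/B(θ₀)` (new `A`, `B`), and then `z₀` by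
`z₀ B(θ₀)` and divide by an `ℓ`-th root of the leading coefficient: `z₀^ℓ = P(θ₀)`, `P` monic.
For each root `θ` choose `σ_θ` with `σ_θ θ₀ = θ` (`exists_gal_root`) and put
`z θ = ζ^{-e_{σ_θ}(θ)} σ_θ(z₀)`. Then for all `σ` and `θ`: `σ (z θ) = ζ^{e_σ(σθ)} z(σθ)`: write
`σ σ_θ = σ_{σθ} h` with `h` in `H` and use the cocycle relation. `(z θ)^ℓ = σ_θ(P(θ₀)) = P(θ)`. If
`σ (z θ) = ζ^{n(σθ)} z(σθ)` for all `θ` then `n ≡ e_σ` on the roots, `c₁(σ) = ram n` (`ram_congr`).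
Fibre sums: `w = ∏_θ z θ` satisfies `σ w = ζ^{∑ e_σ} w = w`, so `w^{p^s}` is in `L`
(`exists_pow_mem_L`), and `w^ℓ = ∏_θ P(θ) = ∏_β (±(g(β) - t))^{mult β}` (`prod_rts_sub`), so
`∏_a (t - a)^{p^s ∑_{g(β)=a} mult β} = ` constant times an `ℓ`-th power in `F(t)`; use
`dvd_of_prod_eq_pow` with `θ := t` (`tA_injective`; elements of `L` are quotients of polynomials in `t`).
-/

open Polynomial IsDedekindDomain

open scoped Classical

namespace Pool.Agent.Lib.MP_89bcae_ag.Sup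

universe u

section

variable {ℓ : ℕ} {E : Type u} [Field E] {f : E[X]} [hG : IsGood ℓ f]

omit hG in
private lemma g11_mem_rts {θ : E} (hG : IsGood ℓ f) : θ ∈ rts f ↔ f.eval θ = 0 :=
  mem_rts hG.separable.ne_zero

omit hG in
private lemma g11_card_ne (hG : IsGood ℓ f) : ((rts f).card : ZMod ℓ) ≠ 0 := by
  have := hG.alg
  have h1 : (rts f).card = f.natDegree := by
    unfold rts
    rw [Multiset.toFinset_card_of_nodup (nodup_roots hG.separable),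
      IsAlgClosed.card_roots_eq_natDegree]
  rw [h1, Ne, ZMod.natCast_eq_zero_iff]
  intro h2
  have h3 := Nat.Coprime.eq_one_of_dvd hG.coprime.symm h2
  exact hG.prime.one_lt.ne' h3

/-- The exponents normalized by their sum are unique modulo `ℓ`. -/
lemma G11_unique {ζ : E} (hζ : IsPrimitiveRoot ζ ℓ) (e e' : E → ℤ)
    (h : (ram e : Jac ℓ f) = ram e')
    (hs : ∑ θ ∈ rts f, (e θ : ZMod ℓ) = ∑ θ ∈ rts f, (e' θ : ZMod ℓ)) :
    ∀ θ ∈ rts f, (e θ : ZMod ℓ) = e' θ := by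
  have hp : Fact ℓ.Prime := ⟨hG.prime⟩
  have h1 : (ram (fun θ => e θ - e' θ) : Jac ℓ f) = 0 := by rw [ram_sub, h, sub_self]
  obtain ⟨c, hc⟩ := (ram_eq_zero_iff ζ hζ _).1 h1
  have h2 : ∀ θ ∈ rts f, (e θ : ZMod ℓ) - e' θ = c := by
    intro θ hθ
    have h3 := (ZMod.intCast_zmod_eq_zero_iff_dvd _ ℓ).2 (hc θ ((g11_mem_rts hG).1 hθ))
    push_cast at h3
    exact sub_eq_zero.1 h3
  have h4 : ((rts f).card : ZMod ℓ) * c = 0 := by
    rw [← nsmul_eq_mul, ← Finset.sum_const, ← Finset.sum_congr rfl h2, Finset.sum_sub_distrib, hs,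
      sub_self]
  have h5 : (c : ZMod ℓ) = 0 := (mul_eq_zero.1 h4).resolve_left (g11_card_ne hG)
  intro θ hθ
  rw [← sub_eq_zero, h2 θ hθ, h5]

/-- Normalized exponents exist. -/
lemma G11_exists {ζ : E} (hζ : IsPrimitiveRoot ζ ℓ) (Q : Jac ℓ f)
    (hQ : zJ ζ hζ.pow_eq_one Q = Q) :
    ∃ e : E → ℤ, Q = ram e ∧ ∑ θ ∈ rts f, (e θ : ZMod ℓ) = 0 := by
  have hp : Fact ℓ.Prime := ⟨hG.prime⟩
  obtain ⟨e, he⟩ := exists_ram_of_zJ_eq ζ hζ Q hQ
  set a : ZMod ℓ := (∑ θ ∈ rts f, (e θ : ZMod ℓ)) / ((rts f).card : ZMod ℓ) with ha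
  refine ⟨fun θ => e θ - (a.val : ℤ), ?_, ?_⟩
  · have h1 : (ram (fun _ => (a.val : ℤ)) : Jac ℓ f) = 0 :=
      (ram_eq_zero_iff ζ hζ _).2 ⟨a.val, fun _ _ => by simp⟩
    have h2 := ram_sub (ℓ := ℓ) (f := f) e (fun _ => (a.val : ℤ))
    rw [h1, sub_zero] at h2
    rw [he, h2]
  · have h3 : ∀ θ ∈ rts f, (((e θ - (a.val : ℤ) : ℤ)) : ZMod ℓ) = (e θ : ZMod ℓ) - a := by
      intro θ _
      rw [Int.cast_sub, Int.cast_natCast, ZMod.natCast_zmod_val]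
    rw [Finset.sum_congr rfl h3, Finset.sum_sub_distrib, Finset.sum_const, nsmul_eq_mul, ha,
      mul_div_cancel₀ _ (g11_card_ne hG), sub_self]

omit hG in
private lemma g11_zpow_eq {ζ : E} (hℓ : ℓ ≠ 0) (hζ : IsPrimitiveRoot ζ ℓ) (a b : ℤ) :
    ζ ^ a = ζ ^ b ↔ (a : ZMod ℓ) = b := by
  have h0 : ζ ≠ 0 := hζ.ne_zero hℓ
  rw [ZMod.intCast_eq_intCast_iff_dvd_sub, ← hζ.zpow_eq_one_iff_dvd, zpow_sub₀ h0,
    div_eq_one_iff_eq (zpow_ne_zero _ h0)]
  exact eq_comm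

end

variable {k F L Ω : Type u} [Field k] [Field F] [Algebra k F] [Field L] [Algebra F[X] L]
  [Field Ω] [Algebra L Ω] [IsAlgClosure k F] [IsFractionRing F[X] L] [IsAlgClosure L Ω]
  [Algebra F Ω] {ℓ : ℕ} {g D : k[X]} [hG : IsGood ℓ (cOver k F L Ω g D)] {ζ : k}

omit [IsAlgClosure k F] [IsFractionRing F[X] L] [IsAlgClosure L Ω] [Algebra F Ω] hG in
private lemma g11_smul_mem (hG : IsGood ℓ (cOver k F L Ω g D)) (σ : Ω ≃ₐ[L] Ω) {θ : Ω} :
    σ θ ∈ rts (cOver k F L Ω g D) ↔ θ ∈ rts (cOver k F L Ω g D) := by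
  rw [g11_mem_rts hG, g11_mem_rts hG, eval_map_algebraMap, eval_map_algebraMap]
  have h1 : aeval (σ θ) (curvePoly k F L g D) = σ (aeval θ (curvePoly k F L g D)) :=
    aeval_algHom_apply (σ : Ω →ₐ[L] Ω) θ _
  rw [h1]
  exact map_eq_zero_iff σ σ.injective

omit [IsAlgClosure k F] [IsFractionRing F[X] L] [IsAlgClosure L Ω] [Algebra F Ω] hG in
private lemma g11_sum {N : Type*} [AddCommMonoid N] (hG : IsGood ℓ (cOver k F L Ω g D))
    (σ : Ω ≃ₐ[L] Ω) (φ : Ω → N) :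
    ∑ θ ∈ rts (cOver k F L Ω g D), φ (σ θ) = ∑ θ ∈ rts (cOver k F L Ω g D), φ θ :=
  Finset.sum_equiv σ.toEquiv (fun _ => (g11_smul_mem hG σ).symm) (fun _ _ => rfl)

omit [IsAlgClosure k F] [IsFractionRing F[X] L] [IsAlgClosure L Ω] [Algebra F Ω] hG in
private lemma g11_prod {N : Type*} [CommMonoid N] (hG : IsGood ℓ (cOver k F L Ω g D))
    (σ : Ω ≃ₐ[L] Ω) (φ : Ω → N) :
    ∏ θ ∈ rts (cOver k F L Ω g D), φ (σ θ) = ∏ θ ∈ rts (cOver k F L Ω g D), φ θ :=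
  Finset.prod_equiv σ.toEquiv (fun _ => (g11_smul_mem hG σ).symm) (fun _ _ => rfl)

omit [IsAlgClosure k F] [IsFractionRing F[X] L] [IsAlgClosure L Ω] [Algebra F Ω] in
private lemma g11_zA (ζ : k) (σ : Ω ≃ₐ[L] Ω) : σ (zA F L Ω ζ) = zA F L Ω ζ :=
  σ.commutes _

omit [IsAlgClosure k F] [IsFractionRing F[X] L] [IsAlgClosure L Ω] in
private lemma g11_const (hF : CompatF F L Ω) (σ : Ω ≃ₐ[L] Ω) (c : F) :
    σ (algebraMap F Ω c) = algebraMap F Ω c := by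
  rw [hF c]
  exact σ.commutes _

omit [IsAlgClosure k F] [IsFractionRing F[X] L] [IsAlgClosure L Ω] in
private lemma g11_aeval (hF : CompatF F L Ω) (σ : Ω ≃ₐ[L] Ω) (θ : Ω) (P : F[X]) :
    σ (aeval θ P) = aeval (σ θ) P := by
  have h1 : (((σ : Ω ≃+* Ω) : Ω →+* Ω).comp (aeval θ : F[X] →ₐ[F] Ω) : F[X] →+* Ω) =
      ((aeval (σ θ) : F[X] →ₐ[F] Ω) : F[X] →+* Ω) := by
    apply Polynomial.ringHom_ext
    · intro c
      simp only [RingHom.comp_apply, RingHom.coe_coe, aeval_C]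
      exact g11_const hF σ c
    · simp only [RingHom.comp_apply, RingHom.coe_coe, aeval_X]
      rfl
  exact RingHom.congr_fun h1 P

omit [IsAlgClosure k F] [IsFractionRing F[X] L] [IsAlgClosure L Ω] in
private lemma g11_poly_t (hF : CompatF F L Ω) (p : F[X]) :
    algebraMap L Ω (algebraMap F[X] L p) = aeval (tA F L Ω) p := by
  have h1 : ((algebraMap L Ω).comp (algebraMap F[X] L) : F[X] →+* Ω) =
      ((aeval (tA F L Ω) : F[X] →ₐ[F] Ω) : F[X] →+* Ω) := by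
    apply Polynomial.ringHom_ext
    · intro c
      simp only [RingHom.comp_apply, RingHom.coe_coe, aeval_C]
      exact (hF c).symm
    · simp only [RingHom.comp_apply, RingHom.coe_coe, aeval_X]
      rfl
  exact RingHom.congr_fun h1 p

private lemma g11_coprime {K : Type*} [Field K] {ℓ : ℕ} (hℓ : ℓ.Prime) (h : (ℓ : K) ≠ 0) :
    ℓ.Coprime (ringExpChar K) := by
  have h1 := ringExpChar.expChar K
  generalize ringExpChar K = q at h1 ⊢
  cases h1 with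
  | zero => exact Nat.coprime_one_right ℓ
  | prime hp =>
    rw [Nat.coprime_primes hℓ hp]
    rintro rfl
    exact h (CharP.cast_eq_zero K _)

/-- The exponents of the cocycle `v(c 1 σ)`. -/
lemma G11_cochain (H : GlobHyp ℓ g D ζ) (hζ : (zA F L Ω ζ) ^ ℓ = 1)
    {c : Coch ℓ k F L Ω g D} (hc : IsTateCocycle ℓ (curvePoly k F L g D) c) :
    ∃ (e : (Ω ≃ₐ[L] Ω) → Ω → ℤ) (S : Finset Ω),
      (∀ σ, vJ (zA F L Ω ζ) hζ (c 1 σ) = ram (e σ)) ∧
      (∀ σ, ∑ θ ∈ rts (cOver k F L Ω g D), (e σ θ : ZMod ℓ) = 0) ∧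
      (∀ σ τ, ∀ θ ∈ rts (cOver k F L Ω g D),
        (e (σ * τ) (σ θ) : ZMod ℓ) = e σ (σ θ) + e τ θ) ∧
      (∀ σ, (∀ x ∈ S, σ x = x) → ∀ θ ∈ rts (cOver k F L Ω g D), (e σ θ : ZMod ℓ) = 0) := by
  have hζ' : IsPrimitiveRoot (zA F L Ω ζ) ℓ := zA_primitive H
  have h1 : ∀ σ, ∃ e : Ω → ℤ, vJ (zA F L Ω ζ) hζ (c 1 σ) = ram e ∧
      ∑ θ ∈ rts (cOver k F L Ω g D), (e θ : ZMod ℓ) = 0 := by
    intro σ
    apply G11_exists hζ'
    have h2 := vJ_sub_zJ (zA F L Ω ζ) hζ' (c 1 σ)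
    have h3 : ℓ • c 1 σ = 0 := by
      have h4 := hc.smul 0 σ
      rw [hc.zero σ] at h4
      exact h4
    rw [h3, sub_eq_zero] at h2
    exact h2.symm
  choose e he hs using h1
  have hc1 : c 1 1 = 0 := by
    have h2 := hc.cocycle 1 1 1
    rw [mul_one] at h2
    have h3 : push ℓ (curvePoly k F L g D) ((1 : Ω ≃ₐ[L] Ω) : Ω →ₐ[L] Ω) (c 1 1) = 0 := by
      have h4 := add_left_cancel ((add_zero (c 1 1)).trans h2)
      exact h4.symm
    rw [push_eq, map_one, map_one, symJ_one] at h3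
    exact h3
  have hopen : {σ : Ω ≃ₐ[L] Ω | c 1 σ = 0} ∈ nhds (1 : Ω ≃ₐ[L] Ω) := by
    apply (((hc.locallyConstant 1).isOpen_fiber 0)).mem_nhds
    exact hc1
  obtain ⟨N, hN, hNS⟩ := (krullTopology_mem_nhds_one_iff L Ω _).1 hopen
  obtain ⟨S, hS⟩ := (IntermediateField.essFiniteType_iff (K := N)).1 inferInstance
  refine ⟨e, S, he, hs, ?_, ?_⟩
  · intro σ τ θ hθ
    have h2 : (ram (e (σ * τ)) : Jac ℓ (cOver k F L Ω g D)) =
        ram (fun θ => e σ θ + e τ (σ⁻¹ θ)) := by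
      rw [← he, hc.cocycle, vJ_add, he, push_eq, vJ_symJ, he, symJ_ram, ram_add]
      · rfl
      · exact g11_zA ζ σ
    have h3 := G11_unique hζ' _ _ h2 (by
      rw [hs]
      have h4 : ∀ θ ∈ rts (cOver k F L Ω g D), (((e σ θ + e τ (σ⁻¹ θ) : ℤ)) : ZMod ℓ) =
          (e σ θ : ZMod ℓ) + e τ (σ⁻¹ θ) := fun θ _ => Int.cast_add _ _
      rw [Finset.sum_congr rfl h4, Finset.sum_add_distrib, hs,
        g11_sum hG σ⁻¹ (fun θ => (e τ θ : ZMod ℓ)), hs, add_zero]) (σ θ) ((g11_smul_mem hG σ).2 hθ)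
    rw [h3, Int.cast_add]
    congr 3
    exact σ.symm_apply_apply θ
  · intro σ hσ θ hθ
    have h2 : c 1 σ = 0 := by
      apply hNS
      rw [SetLike.mem_coe, IntermediateField.mem_fixingSubgroup_iff]
      rw [← hS]
      intro x hx
      induction hx using IntermediateField.adjoin_induction with
      | mem x hx => exact hσ x hx
      | algebraMap x => exact σ.commutes x
      | add x y _ _ h1 h2 => rw [map_add, h1, h2]
      | inv x _ h1 => rw [map_inv₀, h1]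
      | mul x y _ _ h1 h2 => rw [map_mul, h1, h2]
    have h3 : (ram (e σ) : Jac ℓ (cOver k F L Ω g D)) = ram (fun _ => 0) := by
      rw [← he, h2, (ram_eq_zero_iff (zA F L Ω ζ) hζ' _).2 ⟨0, fun _ _ => by simp⟩]
      exact (AddMonoidHom.mk' (vJ (zA F L Ω ζ) hζ) (vJ_add (zA F L Ω ζ) hζ)).map_zero
    have h4 := G11_unique hζ' _ _ h3 (by rw [hs]; simp) θ hθ
    rw [h4, Int.cast_zero]

/-- The Kummer generator of the character of the stabilizer of a root. -/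
lemma G11_exists_z (hF : CompatF F L Ω) (H : GlobHyp ℓ g D ζ) {θ₀ : Ω}
    (hθ : θ₀ ∈ rts (cOver k F L Ω g D)) (χ : (Ω ≃ₐ[L] Ω) → ZMod ℓ)
    (hχ : ∀ σ τ : Ω ≃ₐ[L] Ω, σ θ₀ = θ₀ → τ θ₀ = θ₀ → χ (σ * τ) = χ σ + χ τ) (S : Finset Ω)
    (hS : ∀ σ : Ω ≃ₐ[L] Ω, σ θ₀ = θ₀ → (∀ x ∈ S, σ x = x) → χ σ = 0) :
    ∃ (z : Ω) (P : F[X]), z ≠ 0 ∧ P.Monic ∧ z ^ ℓ = aeval θ₀ P ∧
      ∀ σ : Ω ≃ₐ[L] Ω, σ θ₀ = θ₀ → σ z = zA F L Ω ζ ^ (χ σ).val * z := by
  have hp : Fact ℓ.Prime := ⟨H.prime⟩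
  have hFc : IsAlgClosed F := IsAlgClosure.isAlgClosed k
  have hζ : IsPrimitiveRoot (zA F L Ω ζ) ℓ := zA_primitive H
  have hN : Normal L Ω := IsAlgClosure.normal L Ω
  obtain ⟨z₀, hz₀, hz⟩ := exists_kummer_char hζ (MulAction.stabilizer (Ω ≃ₐ[L] Ω) θ₀)
    (fun σ _ => g11_zA ζ σ) χ (fun σ hσ τ hτ => hχ σ τ hσ hτ) S (fun σ hσ => hS σ hσ)
  have hz' : ∀ σ : Ω ≃ₐ[L] Ω, σ θ₀ = θ₀ → σ z₀ = zA F L Ω ζ ^ (χ σ).val * z₀ :=
    fun σ hσ => hz σ hσ
  obtain ⟨s, A, B, hB, hAB⟩ := exists_pow_eq_quot hF H hθ (z₀ ^ ℓ) (by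
    intro σ hσ
    rw [map_pow, hz' σ hσ, mul_pow, ← pow_mul, mul_comm (χ σ).val, pow_mul, hζ.pow_eq_one,
      one_pow, one_mul])
  generalize hq : ringExpChar k ^ s = q at hAB
  have hcop : ℓ.Coprime q := by
    rw [← hq]
    exact (g11_coprime H.prime H.ne).pow_right s
  obtain ⟨j, -, hj⟩ := Nat.exists_mul_mod_eq_one_of_coprime hcop.symm H.prime.one_lt
  have hζq : ∀ i : ℕ, (zA F L Ω ζ ^ i) ^ (q * j) = zA F L Ω ζ ^ i := by
    intro i
    have h1 := Nat.div_add_mod (q * j) ℓ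
    rw [hj] at h1
    rw [← pow_mul, mul_comm i, pow_mul]
    congr 1
    rw [← h1, pow_succ, pow_mul, hζ.pow_eq_one, one_pow, one_mul]
  have hB0 : aeval θ₀ (B ^ j) ≠ 0 := by
    rw [map_pow]
    apply pow_ne_zero
    rw [Ne, map_eq_zero_iff _ (aeval_root_injective hF H hθ)]
    exact hB
  have hz1 : (z₀ ^ (q * j)) ^ ℓ = aeval θ₀ (A ^ j) / aeval θ₀ (B ^ j) := by
    rw [← pow_mul, mul_comm (q * j) ℓ, ← mul_assoc, pow_mul, pow_mul z₀, hAB, div_pow, map_pow,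
      map_pow]
  set P' : F[X] := A ^ j * (B ^ j) ^ (ℓ - 1) with hP'
  have hz2 : (z₀ ^ (q * j) * aeval θ₀ (B ^ j)) ^ ℓ = aeval θ₀ P' := by
    obtain ⟨n, hn⟩ := Nat.exists_eq_succ_of_ne_zero H.prime.ne_zero
    rw [mul_pow, hz1, hP', map_mul, map_pow _ (B ^ j)]
    rw [hn]
    rw [Nat.succ_sub_one, pow_succ]
    field_simp
  have hz20 : z₀ ^ (q * j) * aeval θ₀ (B ^ j) ≠ 0 := mul_ne_zero (pow_ne_zero _ hz₀) hB0
  have hP0 : P' ≠ 0 := by
    intro h1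
    rw [h1, map_zero] at hz2
    exact pow_ne_zero _ hz20 hz2
  obtain ⟨d, hd⟩ := IsAlgClosed.exists_pow_nat_eq (P'.leadingCoeff⁻¹) H.prime.pos
  have hd0 : d ≠ 0 := by
    rintro rfl
    rw [zero_pow H.prime.ne_zero] at hd
    exact inv_ne_zero (leadingCoeff_ne_zero.2 hP0) hd.symm
  refine ⟨z₀ ^ (q * j) * aeval θ₀ (B ^ j) * algebraMap F Ω d, P' * C (P'.leadingCoeff⁻¹),
    mul_ne_zero hz20 ?_, monic_mul_leadingCoeff_inv hP0, ?_, ?_⟩
  · rwa [Ne, map_eq_zero_iff _ (algebraMap F Ω).injective]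
  · rw [mul_pow, hz2, ← map_pow, hd, map_mul (aeval θ₀) P', aeval_C]
  · intro σ hσ
    rw [map_mul, map_mul, map_pow, hz' σ hσ, mul_pow, hζq, g11_aeval hF, hσ, g11_const hF]
    ring

/-- The sums of the multiplicities over the fibres. -/
lemma G11_fibre (hF : CompatF F L Ω) (H : GlobHyp ℓ g D ζ) {P : F[X]} (hP : P.Monic)
    (z : Ω → Ω) (hz : ∀ θ ∈ rts (cOver k F L Ω g D), z θ ^ ℓ = aeval θ P)
    (hfix : ∀ σ : Ω ≃ₐ[L] Ω, σ (∏ θ ∈ rts (cOver k F L Ω g D), z θ) =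
      ∏ θ ∈ rts (cOver k F L Ω g D), z θ) (a : F) :
    ℓ ∣ ∑ β ∈ (g.map (algebraMap k F) - C a).roots.toFinset, P.rootMultiplicity β := by
  have hFc : IsAlgClosed F := IsAlgClosure.isAlgClosed k
  obtain ⟨s, y, hy⟩ := exists_pow_mem_L _ hfix
  generalize hq : ringExpChar L ^ s = q at hy
  have hLne : (ℓ : L) ≠ 0 := by
    have h1 := H.ne
    intro h2
    apply h1
    have h3 : ((algebraMap F[X] L).comp (C.comp (algebraMap k F))) (ℓ : k) = 0 := by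
      rw [map_natCast, h2]
    exact (map_eq_zero _).1 h3
  have hcop : ℓ.Coprime q := by
    rw [← hq]
    exact (g11_coprime H.prime hLne).pow_right s
  set M : F → ℕ := fun a =>
    ∑ β ∈ (g.map (algebraMap k F) - C a).roots.toFinset, P.rootMultiplicity β with hMdef
  have hmem : ∀ β a, β ∈ (g.map (algebraMap k F) - C a).roots.toFinset ↔ aeval β g = a := by
    intro β a
    have h1 : g.map (algebraMap k F) - C a ≠ 0 := by
      intro h2
      have h3 := congrArg natDegree (sub_eq_zero.1 h2)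
      rw [natDegree_C, natDegree_map] at h3
      have h4 := H.cop
      rw [h3, Nat.coprime_zero_left] at h4
      exact H.prime.one_lt.ne' h4
    rw [Multiset.mem_toFinset, mem_roots h1, IsRoot.def, eval_sub, eval_C, eval_map_algebraMap,
      sub_eq_zero]
  have hM : ∀ a, M a = ∑ β ∈ P.roots.toFinset.filter (fun β => aeval β g = a),
      P.rootMultiplicity β := by
    intro a
    symm
    apply Finset.sum_subset
    · intro β hβ
      rw [Finset.mem_filter] at hβ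
      exact (hmem β a).2 hβ.2
    · intro β hβ hβ'
      rw [Finset.mem_filter, not_and'] at hβ'
      have h1 := hβ' ((hmem β a).1 hβ)
      rw [Multiset.mem_toFinset, ← count_roots, Multiset.count_eq_zero] at *
      exact h1
  change ℓ ∣ M a
  by_cases ha : a ∈ P.roots.toFinset.image (fun β => aeval β g)
  · have hPt : ∀ θ : Ω, aeval θ P = ∏ β ∈ P.roots.toFinset,
        (θ - algebraMap F Ω β) ^ P.rootMultiplicity β := by
      intro θ
      conv_lhs => rw [(IsAlgClosed.splits P).eq_prod_roots_of_monic hP]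
      rw [prod_multiset_root_eq_finset_root, map_prod]
      refine Finset.prod_congr rfl fun β _ => ?_
      rw [map_pow, map_sub, aeval_X, aeval_C]
    have hprod : (∏ θ ∈ rts (cOver k F L Ω g D), z θ) ^ ℓ =
        ∏ β ∈ P.roots.toFinset, ((-1) ^ g.natDegree *
          (algebraMap F Ω (aeval β g) - tA F L Ω)) ^ P.rootMultiplicity β := by
      rw [← Finset.prod_pow, Finset.prod_congr rfl hz, Finset.prod_congr rfl fun θ _ => hPt θ,
        Finset.prod_comm]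
      refine Finset.prod_congr rfl fun β _ => ?_
      rw [Finset.prod_pow, prod_rts_sub hF H]
    set c₀ : F := ∏ β ∈ P.roots.toFinset, ((-1) ^ (g.natDegree + 1)) ^ P.rootMultiplicity β
      with hc₀
    have hc₀0 : c₀ ≠ 0 := by
      rw [hc₀, Finset.prod_ne_zero_iff]
      intro β _
      exact pow_ne_zero _ (pow_ne_zero _ (neg_ne_zero.2 one_ne_zero))
    have hprod2 : (∏ θ ∈ rts (cOver k F L Ω g D), z θ) ^ ℓ = algebraMap F Ω c₀ *
        ∏ a ∈ P.roots.toFinset.image (fun β => aeval β g), (tA F L Ω - algebraMap F Ω a) ^ M a := by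
      rw [hprod]
      have h1 : ∀ β ∈ P.roots.toFinset, ((-1) ^ g.natDegree *
          (algebraMap F Ω (aeval β g) - tA F L Ω)) ^ P.rootMultiplicity β =
          algebraMap F Ω (((-1) ^ (g.natDegree + 1)) ^ P.rootMultiplicity β) *
            (tA F L Ω - algebraMap F Ω (aeval β g)) ^ P.rootMultiplicity β := by
        intro β _
        rw [map_pow, map_pow, map_neg, map_one, ← mul_pow]
        congr 1
        ring
      rw [Finset.prod_congr rfl h1, Finset.prod_mul_distrib, ← map_prod, ← hc₀]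
      congr 1
      rw [← Finset.prod_fiberwise_of_maps_to (g := fun β => aeval β g)
        (fun β hβ => Finset.mem_image_of_mem _ hβ)]
      refine Finset.prod_congr rfl fun a _ => ?_
      rw [hM a, ← Finset.prod_pow_eq_pow_sum]
      refine Finset.prod_congr rfl fun β hβ => ?_
      rw [(Finset.mem_filter.1 hβ).2]
    obtain ⟨p, r, hr, hpr⟩ := IsFractionRing.div_surjective (A := F[X]) y
    have hr0 : r ≠ 0 := nonZeroDivisors.ne_zero hr
    have hfin := dvd_of_prod_eq_pow (tA_injective hF) (ℓ := ℓ)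
      (P.roots.toFinset.image (fun β => aeval β g)) (fun a => ((M a * q : ℕ) : ℤ)) ((c₀ ^ q)⁻¹)
      (inv_ne_zero (pow_ne_zero _ hc₀0)) p r hr0 (by
        have h2 : (aeval (tA F L Ω) p / aeval (tA F L Ω) r : Ω) =
            (∏ θ ∈ rts (cOver k F L Ω g D), z θ) ^ q := by
          rw [hy, ← hpr, map_div₀, g11_poly_t hF, g11_poly_t hF]
        rw [h2, ← pow_mul, mul_comm q ℓ, pow_mul, hprod2, mul_pow, ← map_pow, ← mul_assoc,
          ← map_mul, inv_mul_cancel₀ (pow_ne_zero _ hc₀0), map_one, one_mul, ← Finset.prod_pow]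
        refine Finset.prod_congr rfl fun a _ => ?_
        rw [zpow_natCast, pow_mul])
    have h3 := hfin a ha
    rw [Int.natCast_dvd_natCast] at h3
    exact hcop.dvd_of_dvd_mul_right h3
  · have h1 : M a = 0 := by
      rw [hM a]
      apply Finset.sum_eq_zero
      intro β hβ
      exfalso
      apply ha
      rw [Finset.mem_filter] at hβ
      exact Finset.mem_image.2 ⟨β, hβ.1, hβ.2⟩
    rw [h1]
    exact dvd_zero _

theorem exists_kummer (hF : CompatF F L Ω) (H : GlobHyp ℓ g D ζ) (hζ : (zA F L Ω ζ) ^ ℓ = 1)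
    {c : Coch ℓ k F L Ω g D} (hc : IsTateCocycle ℓ (curvePoly k F L g D) c) :
    ∃ (P : F[X]) (z : Ω → Ω), P.Monic ∧
      (∀ a : F, ℓ ∣ ∑ β ∈ (g.map (algebraMap k F) - C a).roots.toFinset, P.rootMultiplicity β) ∧
      (∀ θ ∈ rts (cOver k F L Ω g D), z θ ^ ℓ = aeval θ P) ∧
      ∀ (σ : Ω ≃ₐ[L] Ω) (n : Ω → ℤ), (∀ θ ∈ rts (cOver k F L Ω g D),
        σ (z θ) = zA F L Ω ζ ^ n (σ θ) * z (σ θ)) →
          vJ (zA F L Ω ζ) hζ (c 1 σ) = ram n := by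
  have hp : Fact ℓ.Prime := ⟨H.prime⟩
  obtain ⟨e, S, he, hs, hcoc, hloc⟩ := G11_cochain H hζ hc
  have hζ' : IsPrimitiveRoot (zA F L Ω ζ) ℓ := zA_primitive H
  have hζ0 : zA F L Ω ζ ≠ 0 := hζ'.ne_zero H.prime.ne_zero
  obtain ⟨θ₀, hθ₀'⟩ := IsGood.exists_root (ℓ := ℓ) (f := cOver k F L Ω g D)
  have hθ₀ : θ₀ ∈ rts (cOver k F L Ω g D) := (g11_mem_rts hG).2 hθ₀'
  obtain ⟨z₀, P, hz₀, hP, hzP, hzσ⟩ := G11_exists_z hF H hθ₀ (fun σ => (e σ θ₀ : ZMod ℓ))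
    (by
      intro σ τ hσ hτ
      have h1 := hcoc σ τ θ₀ hθ₀
      rw [hσ] at h1
      exact h1) S (fun σ _ hσS => hloc σ hσS θ₀ hθ₀)
  have hgal : ∀ θ, ∃ σ : Ω ≃ₐ[L] Ω, θ ∈ rts (cOver k F L Ω g D) → σ θ₀ = θ := by
    intro θ
    by_cases hθ : θ ∈ rts (cOver k F L Ω g D)
    · obtain ⟨σ, hσ⟩ := exists_gal_root H hθ₀ hθ
      exact ⟨σ, fun _ => hσ⟩
    · exact ⟨1, fun h => absurd h hθ⟩
  choose s hsθ using hgal
  set z : Ω → Ω := fun θ => zA F L Ω ζ ^ (-(e (s θ) θ)) * s θ z₀ with hzdef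
  have hz0 : ∀ θ, z θ ≠ 0 := fun θ => mul_ne_zero (zpow_ne_zero _ hζ0)
    ((map_ne_zero_iff (s θ) (s θ).injective).2 hz₀)
  have hkey : ∀ (σ : Ω ≃ₐ[L] Ω), ∀ θ ∈ rts (cOver k F L Ω g D),
      σ (z θ) = zA F L Ω ζ ^ (e σ (σ θ)) * z (σ θ) := by
    intro σ θ hθ
    have hσθ := (g11_smul_mem hG σ).2 hθ
    set h : Ω ≃ₐ[L] Ω := (s (σ θ))⁻¹ * (σ * s θ) with hh
    have hsh : s (σ θ) * h = σ * s θ := mul_inv_cancel_left _ _
    have hhθ : h θ₀ = θ₀ := by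
      have h1 : s (σ θ) (h θ₀) = s (σ θ) θ₀ := by
        have h2 : s (σ θ) (h θ₀) = (s (σ θ) * h) θ₀ := rfl
        rw [h2, hsh, hsθ _ hσθ]
        change σ (s θ θ₀) = σ θ
        rw [hsθ _ hθ]
      exact (s (σ θ)).injective h1
    have h3 : σ (s θ z₀) = zA F L Ω ζ ^ ((e h θ₀ : ZMod ℓ)).val * s (σ θ) z₀ := by
      have h4 : σ (s θ z₀) = (s (σ θ) * h) z₀ := by
        rw [hsh]
        rfl
      have h5 : (s (σ θ) * h) z₀ = s (σ θ) (h z₀) := rfl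
      rw [h4, h5, hzσ h hhθ, map_mul, map_pow, g11_zA]
    have h6 : σ (z θ) = zA F L Ω ζ ^ (-(e (s θ) θ)) * σ (s θ z₀) := by
      rw [hzdef]
      simp only
      rw [map_mul, map_zpow₀, g11_zA]
    rw [h6, h3, hzdef]
    simp only
    rw [← mul_assoc, ← mul_assoc, ← zpow_natCast, ← zpow_add₀ hζ0, ← zpow_add₀ hζ0]
    congr 1
    rw [g11_zpow_eq H.prime.ne_zero hζ']
    push_cast
    rw [ZMod.natCast_zmod_val]
    have h7 := hcoc σ (s θ) θ hθ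
    have h8 := hcoc (s (σ θ)) h θ₀ hθ₀
    rw [hsh, hsθ _ hσθ] at h8
    rw [h8] at h7
    linear_combination h7
  have hzℓ : ∀ θ ∈ rts (cOver k F L Ω g D), z θ ^ ℓ = aeval θ P := by
    intro θ hθ
    rw [hzdef]
    simp only
    have h1 : (zA F L Ω ζ ^ (-(e (s θ) θ))) ^ ℓ = 1 := by
      rw [← zpow_natCast, ← zpow_mul, mul_comm, zpow_mul, zpow_natCast, hζ, one_zpow]
    rw [mul_pow, h1, one_mul, ← map_pow, hzP, g11_aeval hF, hsθ _ hθ]
  refine ⟨P, z, hP, ?_, hzℓ, ?_⟩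
  · refine G11_fibre hF H hP z hzℓ ?_
    intro σ
    rw [map_prod, Finset.prod_congr rfl (hkey σ), Finset.prod_mul_distrib,
      g11_prod hG σ (fun θ => z θ), g11_prod hG σ (fun θ => zA F L Ω ζ ^ (e σ θ))]
    have h1 : ∏ θ ∈ rts (cOver k F L Ω g D), zA F L Ω ζ ^ (e σ θ) = 1 := by
      have h2 : ∏ θ ∈ rts (cOver k F L Ω g D), zA F L Ω ζ ^ (e σ θ) =
          zA F L Ω ζ ^ (∑ θ ∈ rts (cOver k F L Ω g D), e σ θ) := by
        induction rts (cOver k F L Ω g D) using Finset.induction_on with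
        | empty => simp
        | insert a T ha ih => rw [Finset.prod_insert ha, Finset.sum_insert ha, zpow_add₀ hζ0, ih]
      rw [h2, ← zpow_zero (zA F L Ω ζ), g11_zpow_eq H.prime.ne_zero hζ']
      push_cast
      exact hs σ
    rw [h1, one_mul]
  · intro σ n hn
    rw [he σ]
    apply ram_congr
    intro θ hθ
    have h1 := hn (σ⁻¹ θ) ((g11_smul_mem hG σ⁻¹).2 ((g11_mem_rts hG).2 hθ))
    have h2 : σ (σ⁻¹ θ) = θ := σ.apply_symm_apply θ
    rw [hkey σ _ ((g11_smul_mem hG σ⁻¹).2 ((g11_mem_rts hG).2 hθ)), h2] at h1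
    have h3 := mul_right_cancel₀ (hz0 θ) h1
    rw [g11_zpow_eq H.prime.ne_zero hζ', ZMod.intCast_eq_intCast_iff_dvd_sub] at h3
    rw [← dvd_neg, neg_sub]
    exact h3

end Pool.Agent.Lib.MP_89bcae_ag.Sup
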