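import Mathlib
import Pool.Agent.Lib.MP_89bcae_ag.Sup.L03

/-!
ROW L04 (120-220 lines). The roots of `g(x) = t` near a point `r` of the residue field.

`near v f r` is the set of the roots `θ` of `f` with `v (θ - r) < 1`.
PROOFS. (5) `∏_θ (X - θ) = g - t` has coefficients of absolute value `≤ 1`; reducing
coefficientwise, `∏_θ (X - res θ) = g - a` in `F[X]` (e.g.: both sides are monic polynomials over the
infinite field `F`; for `c` in `F` the value `g(c) - a` is the residue of `g(c) - t = ∏ (c - θ)`,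
which is `∏ (c - res θ)` (`residue_mul`)), so the multiplicity of `r` in `g - a` is the number of `θ`
with residue `r`.
(7) `aeval x g - t = ∏ (x - θ)` and `v (x - θ) = 1` if the residues of `x` and `θ` are different.
(6) Take `x = r` in (7): if `g(r) = a`, then `∏_{θ near r} v (r - θ) = v (a - t)`. That all the factors
are equal: write `g - a = (X - r)^μ G`, `G(r) ≠ 0`: `t - a = g(θ) - a = (θ - r)^μ G(θ)` and
`v (G(θ)) = 1`.
-/

open Polynomial

open scoped Classical

namespace Pool.Agent.Lib.MP_89bcae_ag.Sup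

universe u

variable {F M : Type u} [Field F] [Field M] [Algebra F M] {v : AbsoluteValue M ℝ} {a : F} {t : M}

/-- The roots of `f` with residue `r`. -/
noncomputable def near (v : AbsoluteValue M ℝ) (f : M[X]) (r : F) : Finset M :=
  (rts f).filter fun θ => v (θ - algebraMap F M r) < 1

variable [IsAlgClosed M]

omit [IsAlgClosed M] in
private lemma LocCtx.L04_sub_lt (h : LocCtx v a t) {x y : M} {c d : F}
    (hc : v (x - algebraMap F M c) < 1) (hd : v (y - algebraMap F M d) < 1) :
    v (x - y - algebraMap F M (c - d)) < 1 := by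
  have h1 : x - y - algebraMap F M (c - d)
      = (x - algebraMap F M c) + (-(y - algebraMap F M d)) := by
    rw [map_sub]; ring
  rw [h1]
  refine (h.nonarch _ _).trans_lt ?_
  rw [v.map_neg]
  exact max_lt hc hd

omit [IsAlgClosed M] in
private lemma LocCtx.L04_t (h : LocCtx v a t) : v (t - algebraMap F M a) < 1 := h.lt_one

omit [IsAlgClosed M] in
/-- Roots which are not near `r`. -/
lemma LocCtx.L04_not_near (h : LocCtx v a t) {g : F[X]} (hg : g.Monic)
    (hm : g.natDegree ≠ 0) {r : F} {x θ : M}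
    (hx : v (x - algebraMap F M r) < 1) (hθ : aeval θ g = t)
    (hn : ¬ v (θ - algebraMap F M r) < 1) : v (x - θ) = 1 := by
  obtain ⟨s, hs⟩ := h.residue θ (h.v_root_le hg hm hθ)
  have hrs : r - s ≠ 0 := by
    intro h0
    have : r = s := by linear_combination h0
    rw [this] at hn
    exact hn hs
  exact h.v_eq_one (h.L04_sub_lt hx hs) hrs

omit [IsAlgClosed M] in
private lemma L04_mem_rts {g : F[X]} (hg : g.Monic) (hm : g.natDegree ≠ 0) {d : M}
    (hd : d ≠ 0) {θ : M} : θ ∈ rts (locPoly g t d) ↔ aeval θ g = t := by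
  rw [mem_rts (locPoly_ne_zero hg hm hd), eval_locPoly_eq_zero hd]

omit [IsAlgClosed M] in
private lemma LocCtx.L04_prod (h : LocCtx v a t) (S : Finset M) (w : M → M) (ρ : M → F)
    (hρ : ∀ θ ∈ S, v (w θ - algebraMap F M (ρ θ)) < 1) :
    v (∏ θ ∈ S, w θ - algebraMap F M (∏ θ ∈ S, ρ θ)) < 1 := by
  classical
  induction S using Finset.induction_on with
  | empty => simp
  | insert b S hb ih =>
    rw [Finset.prod_insert hb, Finset.prod_insert hb]
    exact h.residue_mul (hρ b (Finset.mem_insert_self b S))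
      (ih fun θ hθ => hρ θ (Finset.mem_insert_of_mem hθ))

/-- (5) -/
lemma LocCtx.card_near (h : LocCtx v a t) {g : F[X]} (hg : g.Monic) (hm : g.natDegree ≠ 0) {d : M}
    (hd : d ≠ 0) (hs : (locPoly g t d).Separable) (r : F) :
    (near v (locPoly g t d) r).card = (g - C a).rootMultiplicity r := by
  haveI := h.alg
  haveI : Infinite F := IsAlgClosed.instInfinite
  have hex : ∀ θ : M, ∃ c : F, v θ ≤ 1 → v (θ - algebraMap F M c) < 1 := by
    intro θ
    by_cases hθ : v θ ≤ 1
    · obtain ⟨c, hc⟩ := h.residue θ hθ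
      exact ⟨c, fun _ => hc⟩
    · exact ⟨0, fun h' => absurd h' hθ⟩
  choose res hres using hex
  have hres' : ∀ θ ∈ rts (locPoly g t d), v (θ - algebraMap F M (res θ)) < 1 := by
    intro θ hθ
    exact hres θ (h.v_root_le hg hm ((L04_mem_rts hg hm hd).mp hθ))
  have hpoly : g - C a = (((rts (locPoly g t d)).val.map res).map (fun c => X - C c)).prod := by
    apply Polynomial.funext
    intro c
    have h1 := eval_sub_eq_prod hg hm hd hs (algebraMap F M c)
    have h2 : v (aeval (algebraMap F M c) g - t - algebraMap F M (g.eval c - a)) < 1 := by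
      apply h.L04_sub_lt _ h.lt_one
      rw [aeval_algebraMap_apply, Polynomial.aeval_def, Polynomial.eval₂_eq_eval_map,
        Algebra.algebraMap_self, Polynomial.map_id, sub_self, map_zero]
      exact one_pos
    have h3 : v (∏ θ ∈ rts (locPoly g t d), (algebraMap F M c - θ)
        - algebraMap F M (∏ θ ∈ rts (locPoly g t d), (c - res θ))) < 1 := by
      apply h.L04_prod
      intro θ hθ
      apply h.L04_sub_lt _ (hres' θ hθ)
      rw [sub_self, map_zero]
      exact one_pos
    rw [← h1] at h3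
    have h4 := h.residue_unique h2 h3
    rw [eval_sub, eval_C, h4, Multiset.map_map, Polynomial.eval_multiset_prod, Multiset.map_map]
    simp only [Function.comp_def, eval_sub, eval_X, eval_C]
    rfl
  rw [← Polynomial.count_roots, hpoly, Polynomial.roots_multiset_prod_X_sub_C,
    Multiset.count_map, near, Finset.card_def, Finset.filter_val]
  congr 1
  apply Multiset.filter_congr
  intro θ hθ
  constructor
  · intro h1
    exact h.residue_unique h1 (hres' θ hθ)
  · intro h1
    rw [h1]
    exact hres' θ hθ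

/-- (6) -/
lemma LocCtx.v_sub_pow (h : LocCtx v a t) {g : F[X]} (hg : g.Monic) (hm : g.natDegree ≠ 0) {d : M}
    (hd : d ≠ 0) (hs : (locPoly g t d).Separable) {r : F} {θ : M}
    (hθ : θ ∈ near v (locPoly g t d) r) :
    v (θ - algebraMap F M r) ^ (near v (locPoly g t d) r).card = v (t - algebraMap F M a) := by
  rw [h.card_near hg hm hd hs r]
  rw [near, Finset.mem_filter] at hθ
  obtain ⟨hθ1, hθ2⟩ := hθ
  have hθ3 := (L04_mem_rts hg hm hd).mp hθ1
  have hne : g - C a ≠ 0 := by
    intro h0
    apply hm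
    have : g = C a := by linear_combination h0
    rw [this, natDegree_C]
  obtain ⟨q, hq, hq'⟩ := Polynomial.exists_eq_pow_rootMultiplicity_mul_and_not_dvd (g - C a) hne r
  have hqr : q.eval r ≠ 0 := by
    intro h0
    exact hq' (Polynomial.dvd_iff_isRoot.mpr h0)
  have hv : v (aeval θ q) = 1 := h.v_eq_one (h.residue_eval hθ2 q) hqr
  have h1 : t - algebraMap F M a = aeval θ (g - C a) := by
    rw [map_sub, hθ3, aeval_C]
  have h2 : aeval θ (g - C a)
      = (θ - algebraMap F M r) ^ rootMultiplicity r (g - C a) * aeval θ q := by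
    conv_lhs => rw [hq]
    rw [map_mul, map_pow, map_sub (aeval θ) X (C r), aeval_X, aeval_C]
  rw [h1, h2, map_mul, map_pow, hv, mul_one]

/-- (7) -/
lemma LocCtx.prod_near (h : LocCtx v a t) {g : F[X]} (hg : g.Monic) (hm : g.natDegree ≠ 0) {d : M}
    (hd : d ≠ 0) (hs : (locPoly g t d).Separable) {r : F} {x : M}
    (hx : v (x - algebraMap F M r) < 1) :
    v (aeval x g - t) = ∏ θ ∈ near v (locPoly g t d) r, v (x - θ) := by
  rw [eval_sub_eq_prod hg hm hd hs x, map_prod]
  symm
  apply Finset.prod_subset (Finset.filter_subset _ _)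
  intro θ hθ hn
  refine h.L04_not_near hg hm hx ((L04_mem_rts hg hm hd).mp hθ) ?_
  intro h1
  exact hn (Finset.mem_filter.mpr ⟨hθ, h1⟩)

/-- Roots which are not near `r`. -/
lemma LocCtx.v_sub_of_not_near (h : LocCtx v a t) {g : F[X]} (hg : g.Monic)
    (hm : g.natDegree ≠ 0) {d : M} (hd : d ≠ 0) {r : F} {x θ : M}
    (hx : v (x - algebraMap F M r) < 1) (hθ : aeval θ g = t)
    (hn : ¬ v (θ - algebraMap F M r) < 1) : v (x - θ) = 1 :=
  h.L04_not_near hg hm hx hθ hn

/-- (9) -/
lemma LocCtx.v_derivative (h : LocCtx v a t) {g : F[X]} (hg : g.Monic) (hm : g.natDegree ≠ 0)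
    {d : M} (hd : d ≠ 0) (hs : (locPoly g t d).Separable) {r : F} {θ : M}
    (hθ : θ ∈ near v (locPoly g t d) r) :
    v ((derivative (locPoly g t d)).eval θ) =
      (v d)⁻¹ * ∏ θ' ∈ (near v (locPoly g t d) r).erase θ, v (θ - θ') := by
  have hθ' := hθ
  rw [near, Finset.mem_filter] at hθ'
  obtain ⟨hθ1, hθ2⟩ := hθ'
  rw [derivative_locPoly_eval hg hm hd hs hθ1, map_mul, map_prod, map_inv₀]
  congr 1
  symm
  apply Finset.prod_subset (Finset.erase_subset_erase _ (Finset.filter_subset _ _))
  intro θ' hθ' hn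
  rw [Finset.mem_erase] at hθ'
  refine h.L04_not_near hg hm hθ2 ((L04_mem_rts hg hm hd).mp hθ'.2) ?_
  intro h1
  exact hn (Finset.mem_erase.mpr ⟨hθ'.1, Finset.mem_filter.mpr ⟨hθ'.2, h1⟩⟩)

end Pool.Agent.Lib.MP_89bcae_ag.Sup
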