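import Mathlib
import Pool.Agent.Lib.MP_89bcae_ag.Sup.L04

/-!
ROW L11 (120-220 lines). The group `Γ = Aut(M/K)`: fixed elements, and the roots of `g(x) = t` with the
same residue are conjugate.

PROOFS. `galSym` is clear: `σ` fixes the coefficients of `f`.
`LocGrp`: the fixed elements of `Aut(M/K)`, `M` an algebraic closure of `K`, are purely inseparable
over `K`: if `x` is fixed, all roots of its minimal polynomial are conjugates of `x` (normality), so
equal to `x`, so `x ^ p^s ∈ K` for some `s`, where `p` is the characteristic exponent (Mathlib: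
`IsPurelyInseparable`, `perfectClosure`, `minpoly.natSepDegree_eq_one_iff...`,
`mem_perfectClosure_iff`). So `v(x)^{p^s}` is an integral power of `ϖ = v (t - a)`.
Conjugacy: let `θ`, `θ'` be roots near `r`, `μ` the number of the roots near `r`, `q` the minimal
polynomial of `θ` over `K`; it divides `g(x) - t` (coefficients in `K`), so it is separable and all its
roots in `M` are conjugates of `θ` under `Aut(M/K)` (`IsConjRoot`, `isConjRoot_iff_exists_algEquiv`), so
they are near `r` (`σ` preserves `v` and fixes `r`). By `v_sub_pow`, `v (q(r)) = ∏ v (r - θ_i)` satisfies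
`v (q(r))^μ = ϖ^{deg q}`, and `q(r)` is a nonzero element of `K` (`r` comes from `K`), so
`v (q(r)) = ϖ^i`, `i μ = deg q ≤ μ`, `i ≥ 1` (as `deg q ≥ 1`): `deg q = μ` and all the `μ` roots near
`r` are roots of `q`.
-/

open Polynomial

open scoped Classical

namespace Pool.Agent.Lib.MP_89bcae_ag.Sup

universe u

variable {F K M : Type u} [Field F] [Field K] [Field M] [Algebra F M] [Algebra K M]

/-- The automorphisms of `M` over `K` fix the coefficients of a polynomial over `K`. -/
def galSym {f₀ : K[X]} {f : M[X]} (hf : f₀.map (algebraMap K M) = f) :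
    (M ≃ₐ[K] M) →* Sym f where
  toFun σ := ⟨(σ : M ≃+* M), by
    rw [mem_Sym, ← hf, Polynomial.map_map]
    congr 1
    ext x
    exact σ.commutes x⟩
  map_one' := by
    apply Subtype.ext
    rfl
  map_mul' σ τ := by
    apply Subtype.ext
    rfl

lemma galSym_apply {f₀ : K[X]} {f : M[X]} (hf : f₀.map (algebraMap K M) = f) (σ : M ≃ₐ[K] M)
    (x : M) : ((galSym hf σ : Sym f) : M ≃+* M) x = σ x := rfl

private lemma L11_pow_mem [IsAlgClosure K M] {x : M} (hx : ∀ σ : M ≃ₐ[K] M, σ x = x) :
    ∃ n : ℕ, x ^ (ringExpChar K) ^ n ∈ (algebraMap K M).range := by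
  have hN : Normal K M := IsAlgClosure.normal K M
  have hA : IsAlgClosed M := IsAlgClosure.isAlgClosed K
  have hint : IsIntegral K x := (IsAlgClosure.isAlgebraic.isAlgebraic x).isIntegral
  rw [← minpoly.natSepDegree_eq_one_iff_pow_mem (ringExpChar K),
    natSepDegree_eq_of_isAlgClosed M, Finset.card_eq_one]
  refine ⟨x, ?_⟩
  ext y
  rw [Multiset.mem_toFinset, Finset.mem_singleton, ← isConjRoot_iff_mem_minpoly_aroots hint]
  constructor
  · intro h
    obtain ⟨σ, hσ⟩ := h.exists_algEquiv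
    have h2 := hx σ.symm
    rw [← hσ, AlgEquiv.symm_apply_apply] at h2
    rw [h2, hσ]
  · rintro rfl
    exact IsConjRoot.refl

variable {v : AbsoluteValue M ℝ} {a : F} {t : M} [IsAlgClosure K M]

theorem LocCtx.locGrp (h : LocCtx v a t) {f₀ : K[X]} {f : M[X]}
    (hf : f₀.map (algebraMap K M) = f) (hinv : ∀ (σ : M ≃ₐ[K] M) x, v (σ x) = v x)
    (hval : ∀ x : K, x ≠ 0 → ∃ i : ℤ, v (algebraMap K M x) = v (t - algebraMap F M a) ^ i)
    (hF : ∀ c : F, ∃ x : K, algebraMap K M x = algebraMap F M c)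
    (ht : ∃ x : K, algebraMap K M x = t) :
    LocGrp (ringExpChar K) F v t (v (t - algebraMap F M a)) (galSym hf).range where
  pos := v.pos (sub_ne_zero.2 h.ne)
  lt_one := h.lt_one
  inv := by
    rintro _ ⟨τ, rfl⟩ x
    exact hinv τ x
  fix := by
    rintro _ ⟨τ, rfl⟩ c
    obtain ⟨x, hx⟩ := hF c
    rw [galSym_apply, ← hx, τ.commutes]
  fixt := by
    rintro _ ⟨τ, rfl⟩
    obtain ⟨x, hx⟩ := ht
    rw [galSym_apply, ← hx, τ.commutes]
  disc := by
    intro x hx0 hx
    obtain ⟨n, y, hy⟩ := L11_pow_mem (K := K) (x := x) (fun σ => by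
      have := hx (galSym hf σ) ⟨σ, rfl⟩
      rwa [galSym_apply] at this)
    have hy0 : y ≠ 0 := by
      rintro rfl
      rw [map_zero] at hy
      exact pow_ne_zero _ hx0 hy.symm
    obtain ⟨i, hi⟩ := hval y hy0
    refine ⟨n, i, ?_⟩
    rw [← map_pow, ← hy, hi]

theorem LocCtx.exists_conj_near (h : LocCtx v a t) {g : F[X]} (hg : g.Monic)
    (hm : g.natDegree ≠ 0) {d : M} (hd : d ≠ 0) (hs : (locPoly g t d).Separable)
    (hinv : ∀ (σ : M ≃ₐ[K] M) x, v (σ x) = v x)
    (hval : ∀ x : K, x ≠ 0 → ∃ i : ℤ, v (algebraMap K M x) = v (t - algebraMap F M a) ^ i)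
    (hF : ∀ c : F, ∃ x : K, algebraMap K M x = algebraMap F M c)
    (ht : ∃ x : K, algebraMap K M x = t) {r : F} {θ θ' : M}
    (hθ : θ ∈ near v (locPoly g t d) r) (hθ' : θ' ∈ near v (locPoly g t d) r) :
    ∃ σ : M ≃ₐ[K] M, σ θ = θ' := by
  have hN : Normal K M := IsAlgClosure.normal K M
  have hA : IsAlgClosed M := IsAlgClosure.isAlgClosed K
  have hint : IsIntegral K θ := (IsAlgClosure.isAlgebraic.isAlgebraic θ).isIntegral
  have hf0 : locPoly g t d ≠ 0 := locPoly_ne_zero hg hm hd
  have hϖ0 : 0 < v (t - algebraMap F M a) := v.pos (sub_ne_zero.2 h.ne)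
  obtain ⟨ϖ, hϖ⟩ : ∃ ϖ, ϖ = v (t - algebraMap F M a) := ⟨_, rfl⟩
  have hmemN : ∀ {x : M}, x ∈ near v (locPoly g t d) r ↔
      (locPoly g t d).eval x = 0 ∧ v (x - algebraMap F M r) < 1 := by
    intro x
    rw [near, Finset.mem_filter, mem_rts hf0]
  -- the polynomial over `K`
  have hlift : g.map (algebraMap F M) - C t ∈ Polynomial.lifts (algebraMap K M) := by
    rw [Polynomial.lifts_iff_coeff_lifts]
    intro n
    rw [coeff_sub, coeff_map, coeff_C]
    obtain ⟨x, hx⟩ := hF (g.coeff n)
    obtain ⟨y, hy⟩ := ht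
    split_ifs
    · exact ⟨x - y, by rw [map_sub, hx, hy]⟩
    · exact ⟨x, by rw [hx, sub_zero]⟩
  rw [Polynomial.mem_lifts] at hlift
  obtain ⟨P, hP⟩ := hlift
  have hevP : ∀ x : M, aeval x P = aeval x g - t := by
    intro x
    rw [aeval_def, ← eval_map, hP, eval_sub, eval_map, ← aeval_def, eval_C]
  have hqP : minpoly K θ ∣ P := by
    refine minpoly.dvd K θ ?_
    rw [hevP, sub_eq_zero]
    exact (eval_locPoly_eq_zero hd).1 (hmemN.1 hθ).1
  have hqf : (minpoly K θ).map (algebraMap K M) ∣ locPoly g t d := by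
    have h1 := Polynomial.map_dvd (algebraMap K M) hqP
    rw [hP] at h1
    exact h1.mul_left _
  have hqs : ((minpoly K θ).map (algebraMap K M)).Separable := hs.of_dvd hqf
  have hq0 : (minpoly K θ).map (algebraMap K M) ≠ 0 := hqs.ne_zero
  have hqm : ((minpoly K θ).map (algebraMap K M)).Monic := (minpoly.monic hint).map _
  obtain ⟨R, hR⟩ : ∃ R, R = ((minpoly K θ).map (algebraMap K M)).roots.toFinset := ⟨_, rfl⟩
  have hRm : ∀ {x : M}, x ∈ R ↔ IsConjRoot K θ x := by
    intro x
    rw [hR, Multiset.mem_toFinset, isConjRoot_iff_mem_minpoly_aroots hint]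
  have hRc : R.card = (minpoly K θ).natDegree := by
    rw [hR, Multiset.toFinset_card_of_nodup (nodup_roots hqs), ← natDegree_map (algebraMap K M)]
    exact (splits_iff_card_roots.1 (IsAlgClosed.splits _))
  have hRN : R ⊆ near v (locPoly g t d) r := by
    intro x hx
    rw [hRm] at hx
    have hx1 : (locPoly g t d).eval x = 0 := by
      have h1 : ((minpoly K θ).map (algebraMap K M)).eval x = 0 := by
        rw [eval_map, ← aeval_def]
        exact hx.aeval_eq_zero
      obtain ⟨k, hk⟩ := hqf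
      rw [hk, eval_mul, h1, zero_mul]
    obtain ⟨σ, hσ⟩ := hx.exists_algEquiv
    obtain ⟨y, hy⟩ := hF r
    refine hmemN.2 ⟨hx1, ?_⟩
    rw [← hinv σ, map_sub, hσ, ← hy, σ.commutes, hy]
    exact (hmemN.1 hθ).2
  -- the value of `q(r)`
  obtain ⟨y, hy⟩ := hF r
  have hqr : algebraMap K M ((minpoly K θ).eval y) = ∏ x ∈ R, (algebraMap F M r - x) := by
    have h1 : (minpoly K θ).map (algebraMap K M) = ∏ x ∈ R, (X - C x) := by
      have h2 : ((minpoly K θ).map (algebraMap K M)) =
          (((minpoly K θ).map (algebraMap K M)).roots.map (fun x => X - C x)).prod :=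
        (IsAlgClosed.splits _).eq_prod_roots_of_monic hqm
      rw [hR, Finset.prod_eq_multiset_prod, Multiset.toFinset_val,
        Multiset.dedup_eq_self.2 (nodup_roots hqs)]
      exact h2
    have h3 : algebraMap K M ((minpoly K θ).eval y) =
        ((minpoly K θ).map (algebraMap K M)).eval (algebraMap F M r) := by
      rw [← hy, eval_map, eval₂_at_apply]
    rw [h3, h1, eval_prod]
    simp only [eval_sub, eval_X, eval_C]
  have hpow : v (algebraMap K M ((minpoly K θ).eval y)) ^ (near v (locPoly g t d) r).card =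
      ϖ ^ (minpoly K θ).natDegree := by
    rw [hqr, map_prod, ← Finset.prod_pow, ← hRc]
    rw [Finset.prod_congr rfl (g := fun _ => ϖ), Finset.prod_const]
    intro x hx
    rw [v.map_sub, hϖ]
    exact h.v_sub_pow hg hm hd hs (hRN hx)
  have hϖ0' : 0 < ϖ := hϖ ▸ hϖ0
  have hϖ1 : ϖ < 1 := hϖ ▸ h.lt_one
  have hμ : 0 < (near v (locPoly g t d) r).card := Finset.card_pos.2 ⟨θ, hθ⟩
  have hne : (minpoly K θ).eval y ≠ 0 := by
    intro h0
    rw [h0, map_zero, map_zero, zero_pow hμ.ne'] at hpow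
    exact (pow_pos hϖ0' _).ne hpow
  obtain ⟨i, hi⟩ := hval _ hne
  rw [hi, ← hϖ, ← zpow_natCast, ← zpow_mul, ← zpow_natCast] at hpow
  have hinj := zpow_right_injective₀ hϖ0' hϖ1.ne hpow
  have hdeg : 0 < (minpoly K θ).natDegree := minpoly.natDegree_pos hint
  have hle : R.card ≤ (near v (locPoly g t d) r).card := Finset.card_le_card hRN
  have hi1 : 1 ≤ i := by
    by_contra hcon
    push Not at hcon
    have h1 : i * ((near v (locPoly g t d) r).card : ℤ) ≤ 0 :=
      mul_nonpos_of_nonpos_of_nonneg (by linarith) (by positivity)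
    rw [hinj] at h1
    have : (0 : ℤ) < (minpoly K θ).natDegree := by exact_mod_cast hdeg
    linarith
  have hge : (near v (locPoly g t d) r).card ≤ R.card := by
    rw [hRc]
    have h1 : ((near v (locPoly g t d) r).card : ℤ) ≤ i * (near v (locPoly g t d) r).card :=
      le_mul_of_one_le_left (by positivity) hi1
    rw [hinj] at h1
    exact_mod_cast h1
  have hReq : R = near v (locPoly g t d) r := Finset.eq_of_subset_of_card_le hRN hge
  rw [← hReq, hRm] at hθ'
  exact hθ'.symm.exists_algEquiv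

end Pool.Agent.Lib.MP_89bcae_ag.Sup
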