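import Mathlib
import Pool.Agent.Lib.MP_89bcae_ag.Sup.L04
import Pool.Agent.Lib.MP_89bcae_ag.Sup.U01

/-!
ROW L05 (200-350 lines). THE LOCAL DIVISIBILITY LEMMA.

STATEMENT. Let `Γ` be a group of automorphisms as in `LocGrp` with uniformizer value `ϖ`, let `D`
be a divisor fixed by `Γ`, suppose `v d` is in `ϖ ^ (ℓ ℤ[1/p])`, and that the roots near `r` form one
orbit under `Γ`, `μ` their number, `θ` one of them. Then `v (uval D θ) ^ μ` is in
`ϖ ^ (ℓ ℤ[1/p])`.

PROOF. Notation: `f = d⁻¹ ∏ (X - θ')`, `m = deg f` prime to `ℓ`, `N = near r`. For a point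
`P = (x, b)`, `b^ℓ = f(x)`:
 (i) `v x > 1`: `v (b)^ℓ = v(d)⁻¹ v(x)^m` (`v_eval_of_large`), and `v (θ - x) = v x`;
 (ii) `v x ≤ 1` with residue different from `r`: `v (θ - x) = 1` for `θ` in `N`;
 (iii) residue `r`, `b ≠ 0`: `v(b)^ℓ = v(d)⁻¹ ∏_{θ' ∈ N} v (x - θ')` (`prod_near`);
 (iv) `b = 0`, `x = θ'` in `N`. All `D(θ', 0)`, `θ'` in `N`, are equal to one integer `n`, because
`D` is fixed by `Γ` which permutes `N` transitively. The contribution of these points to `uval D θ`
has absolute value `v(f'(θ))^{-n} ∏_{θ' ∈ N, ≠ θ} v (θ - θ')^n = v(d)^n` (`v_derivative`).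
(Points with `b = 0` whose `x` is not in `N` are in case (ii).)
So `v (uval D θ) = v(d)^n · v(X) · ∏_{(iii)} v (θ - x(P))^{D(P)}`, `X = ∏_{(i)} x(P)^{D(P)}`.
The left side is the same for all `θ` in `N` (`σ (uval D θ) = uval D (σ θ)` for `σ` in `Γ`), so its
`μ`-th power is the product over `N`:
`v(d)^{μ n} v(X)^μ ∏_{(iii)} (v(b_P)^ℓ v(d))^{D(P)} = v(d)^{..} v(X)^μ v(B)^ℓ`, where
`B = ∏_{(iii)} b_P^{D(P)}` is fixed by `Γ` (which permutes the points of type (iii), as it preserves `v`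
and fixes `r`): `v(B)` is in `ϖ^{ℤ[1/p]}` so `v(B)^ℓ` is fine; `v(d)` is fine; `X` is fixed by `Γ` and
`v(X)^m = v(B')^ℓ v(d)^{..}` with `B' = ∏_{(i)} b_P^{D(P)}` fixed by `Γ`, so `v(X)` is in
`ϖ ^ (ℓ ℤ[1/p])` by `Val.of_pow`.
-/

open Polynomial

open scoped Classical

namespace Pool.Agent.Lib.MP_89bcae_ag.Sup

universe u

variable {F M : Type u} [Field F] [Field M] [Algebra F M] {v : AbsoluteValue M ℝ} {a : F} {t : M}

private lemma L05_v_sub_comm (x y : M) : v (x - y) = v (y - x) := by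
  rw [← neg_sub, map_neg_eq_map]

private lemma L05_sym_injective {ℓ : ℕ} {f : M[X]} (σ : Sym f) :
    Function.Injective (Pt.sym σ : Pt ℓ f → Pt ℓ f) := by
  intro P Q hPQ
  have hx : (σ : M ≃+* M) P.x = (σ : M ≃+* M) Q.x := congrArg Pt.x hPQ
  have hy : (σ : M ≃+* M) P.y = (σ : M ≃+* M) Q.y := congrArg Pt.y hPQ
  exact Pt.ext ((σ : M ≃+* M).injective hx) ((σ : M ≃+* M).injective hy)

/-- A product over an invariant divisor of equivariant quantities is invariant. -/
private lemma L05_prod_fixed {ℓ : ℕ} {f : M[X]} (σ : Sym f) (D : Pt ℓ f →₀ ℤ)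
    (hD : D.mapDomain (Pt.sym σ) = D) (φ : Pt ℓ f → M)
    (hφ : ∀ P, (σ : M ≃+* M) (φ P) = φ (P.sym σ)) :
    (σ : M ≃+* M) (D.prod fun P n => φ P ^ n) = D.prod fun P n => φ P ^ n := by
  conv_rhs => rw [← hD, Finsupp.prod_mapDomain_index_inj (L05_sym_injective σ)]
  rw [map_finsuppProd]
  refine Finsupp.prod_congr ?_
  intro P _
  rw [map_zpow₀, hφ]

private lemma L05_prod_ne_zero {ℓ : ℕ} {f : M[X]} (D : Pt ℓ f →₀ ℤ) (φ : Pt ℓ f → M)
    (hφ : ∀ P, φ P ≠ 0) : (D.prod fun P n => φ P ^ n) ≠ 0 :=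
  Finset.prod_ne_zero_iff.2 fun P _ => zpow_ne_zero _ (hφ P)

private lemma L05_v_prod {ℓ : ℕ} {f : M[X]} (D : Pt ℓ f →₀ ℤ) (φ : Pt ℓ f → M) :
    v (D.prod fun P n => φ P ^ n) = ∏ P ∈ D.support, v (φ P) ^ D P := by
  rw [Finsupp.prod, map_prod]
  refine Finset.prod_congr rfl ?_
  intro P _
  rw [map_zpow₀]

/-- The values of `∏ φ(P) ^ D(P)` for an equivariant function `φ`. -/
private lemma L05_val {ℓ p : ℕ} {f : M[X]} {ϖ : ℝ} {Γ : Subgroup (Sym f)}
    (hΓ : LocGrp p F v t ϖ Γ) (D : Pt ℓ f →₀ ℤ) (hD : ∀ σ ∈ Γ, D.mapDomain (Pt.sym σ) = D)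
    (φ : Pt ℓ f → M) (h0 : ∀ P, φ P ≠ 0)
    (hφ : ∀ σ ∈ Γ, ∀ P, (σ : M ≃+* M) (φ P) = φ (P.sym σ)) :
    Val p ϖ (∏ P ∈ D.support, v (φ P) ^ D P) := by
  rw [← L05_v_prod]
  exact hΓ.disc _ (L05_prod_ne_zero D φ h0) fun σ hσ => L05_prod_fixed σ D (hD σ hσ) φ (hφ σ hσ)

private lemma L05_v_eq {ℓ : ℕ} {g : F[X]} {d : M} (hd : d ≠ 0) (P : Pt ℓ (locPoly g t d)) :
    v (aeval P.x g - t) = v d * v P.y ^ ℓ := by
  rw [← map_pow, P.eq, eval_locPoly, ← map_mul, mul_inv_cancel_left₀ hd]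

private lemma L05_factor (h : LocCtx v a t) {ℓ : ℕ} {g : F[X]} (hg : g.Monic)
    (hm : g.natDegree ≠ 0) {d : M} (hd : d ≠ 0) [hG : IsGood ℓ (locPoly g t d)] (r : F)
    (P : Pt ℓ (locPoly g t d)) :
    ∏ θ ∈ near v (locPoly g t d) r,
      v (if P.x = θ then ((derivative (locPoly g t d)).eval θ)⁻¹ else θ - P.x) =
    v (if 1 < v P.x then P.x else 1) ^ (near v (locPoly g t d) r).card *
      ((if v (P.x - algebraMap F M r) < 1 then v d else 1) *
        v (if v (P.x - algebraMap F M r) < 1 ∧ P.y ≠ 0 then P.y else 1) ^ ℓ) := by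
  have hAM : IsAlgClosed M := hG.alg
  have hs := hG.separable
  have hf0 := locPoly_ne_zero (t := t) hg hm hd
  have hnear : ∀ θ ∈ near v (locPoly g t d) r, (locPoly g t d).eval θ = 0 ∧
      aeval θ g = t ∧ v θ ≤ 1 ∧ v (θ - algebraMap F M r) < 1 := by
    intro θ hθ
    unfold near at hθ
    rw [Finset.mem_filter, mem_rts hf0] at hθ
    have h1 := (eval_locPoly_eq_zero hd).1 hθ.1
    exact ⟨hθ.1, h1, h.v_root_le hg hm h1, hθ.2⟩
  by_cases hbig : 1 < v P.x
  · have hnr : ¬ v (P.x - algebraMap F M r) < 1 := by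
      intro h1
      have h2 : P.x = (P.x - algebraMap F M r) + algebraMap F M r := by ring
      have h3 : v P.x ≤ 1 := by
        rw [h2]
        exact (h.nonarch _ _).trans (max_le h1.le (h.v_const_le r))
      exact absurd hbig (not_lt.2 h3)
    rw [if_pos hbig, if_neg hnr, if_neg (fun hh => hnr hh.1), map_one, one_pow, mul_one, mul_one,
      Finset.prod_congr rfl (g := fun _ => v P.x), Finset.prod_const]
    intro θ hθ
    obtain ⟨-, -, hθ1, -⟩ := hnear θ hθ
    rw [if_neg (by rintro rfl; exact absurd hbig (not_lt.2 hθ1))]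
    apply le_antisymm
    · have : θ - P.x = θ + -P.x := by ring
      rw [this]
      refine (h.nonarch _ _).trans (max_le (hθ1.trans hbig.le) ?_)
      rw [map_neg_eq_map]
    · have : P.x = -(θ - P.x) + θ := by ring
      have h1 := h.nonarch (-(θ - P.x)) θ
      rw [← this, map_neg_eq_map] at h1
      rcases le_max_iff.1 h1 with h2 | h2
      · exact h2
      · exact absurd (h2.trans hθ1) (not_le.2 hbig)
  · rw [if_neg hbig, map_one, one_pow, one_mul]
    by_cases hr : v (P.x - algebraMap F M r) < 1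
    · rw [if_pos hr]
      by_cases hy : P.y = 0
      · rw [if_neg (fun hh => hh.2 hy), map_one, one_pow, mul_one]
        have hPx : (locPoly g t d).eval P.x = 0 := by
          rw [← P.eq, hy, zero_pow hG.prime.ne_zero]
        have hmem : P.x ∈ near v (locPoly g t d) r := by
          unfold near
          rw [Finset.mem_filter, mem_rts hf0]
          exact ⟨hPx, hr⟩
        rw [← Finset.mul_prod_erase _ _ hmem, if_pos rfl, map_inv₀, h.v_derivative hg hm hd hs hmem]
        have e1 : ∏ θ ∈ (near v (locPoly g t d) r).erase P.x,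
            v (if P.x = θ then ((derivative (locPoly g t d)).eval θ)⁻¹ else θ - P.x) =
            ∏ θ ∈ (near v (locPoly g t d) r).erase P.x, v (P.x - θ) := by
          refine Finset.prod_congr rfl ?_
          intro θ hθ
          rw [if_neg (Finset.ne_of_mem_erase hθ).symm, L05_v_sub_comm]
        rw [e1]
        have h2 : ∏ θ ∈ (near v (locPoly g t d) r).erase P.x, v (P.x - θ) ≠ 0 := by
          refine Finset.prod_ne_zero_iff.2 ?_
          intro θ hθ
          exact (v.ne_zero_iff).2 (sub_ne_zero.2 (Finset.ne_of_mem_erase hθ).symm)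
        rw [mul_inv, inv_inv, mul_assoc, inv_mul_cancel₀ h2, mul_one]
      · rw [if_pos ⟨hr, hy⟩, ← L05_v_eq hd P, h.prod_near hg hm hd hs hr]
        refine Finset.prod_congr rfl ?_
        intro θ hθ
        rw [if_neg, L05_v_sub_comm]
        rintro rfl
        apply hy
        have h1 := P.eq
        rw [(hnear _ hθ).1] at h1
        exact pow_eq_zero_iff hG.prime.ne_zero |>.1 h1
    · rw [if_neg hr, if_neg (fun hh => hr hh.1), map_one, one_pow, mul_one]
      refine Finset.prod_eq_one ?_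
      intro θ hθ
      obtain ⟨-, -, hθ1, hθr⟩ := hnear θ hθ
      rw [if_neg (by rintro rfl; exact hr hθr)]
      apply le_antisymm
      · have : θ - P.x = θ + -P.x := by ring
        rw [this]
        refine (h.nonarch _ _).trans (max_le hθ1 ?_)
        rw [map_neg_eq_map]
        exact not_lt.1 hbig
      · by_contra hlt
        apply hr
        have : P.x - algebraMap F M r = -(θ - P.x) + (θ - algebraMap F M r) := by ring
        rw [this]
        refine lt_of_le_of_lt (h.nonarch _ _) (max_lt ?_ hθr)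
        rw [map_neg_eq_map]
        exact not_le.1 hlt

theorem LocCtx.val_uval (h : LocCtx v a t) {ℓ p : ℕ} {g : F[X]} (hg : g.Monic)
    (hm : g.natDegree ≠ 0) {d : M} (hd : d ≠ 0) [hG : IsGood ℓ (locPoly g t d)]
    (hmℓ : g.natDegree.Coprime ℓ) {ϖ : ℝ} {Γ : Subgroup (Sym (locPoly g t d))}
    (hΓ : LocGrp p F v t ϖ Γ) (hdv : Val p (ϖ ^ ℓ) (v d))
    (D : Pt ℓ (locPoly g t d) →₀ ℤ) (hD : ∀ σ ∈ Γ, D.mapDomain (Pt.sym σ) = D) {r : F}
    (horb : ∀ θ ∈ near v (locPoly g t d) r, ∀ θ' ∈ near v (locPoly g t d) r,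
      ∃ σ ∈ Γ, (σ : M ≃+* M) θ = θ') {θ : M} (hθ : θ ∈ near v (locPoly g t d) r) :
    Val p (ϖ ^ ℓ) (v (uval D θ) ^ (near v (locPoly g t d) r).card) := by
  have hsymx : ∀ (σ : Sym (locPoly g t d)) (P : Pt ℓ (locPoly g t d)),
      (P.sym σ).x = (σ : M ≃+* M) P.x := fun σ P => rfl
  have hsymy : ∀ (σ : Sym (locPoly g t d)) (P : Pt ℓ (locPoly g t d)),
      (P.sym σ).y = (σ : M ≃+* M) P.y := fun σ P => rfl
  -- the product over the roots near `r`
  have hconst : ∀ θ' ∈ near v (locPoly g t d) r, v (uval D θ') = v (uval D θ) := by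
    intro θ' hθ'
    obtain ⟨σ, hσ, hσθ⟩ := horb θ hθ θ' hθ'
    rw [← hσθ, ← sym_uval σ D (hD σ hσ), hΓ.inv σ hσ]
  have hprod : v (uval D θ) ^ (near v (locPoly g t d) r).card =
      ∏ θ' ∈ near v (locPoly g t d) r, v (uval D θ') := by
    rw [Finset.prod_congr rfl hconst, Finset.prod_const]
  have hprod2 : ∏ θ' ∈ near v (locPoly g t d) r, v (uval D θ') =
      (∏ P ∈ D.support, v (if 1 < v P.x then P.x else 1) ^ D P) ^
        (near v (locPoly g t d) r).card *
      ((∏ P ∈ D.support, (if v (P.x - algebraMap F M r) < 1 then v d else 1) ^ D P) *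
        (∏ P ∈ D.support,
          v (if v (P.x - algebraMap F M r) < 1 ∧ P.y ≠ 0 then P.y else 1) ^ D P) ^ ℓ) := by
    have e1 : ∀ θ' ∈ near v (locPoly g t d) r, v (uval D θ') = ∏ P ∈ D.support,
        v (if P.x = θ' then ((derivative (locPoly g t d)).eval θ')⁻¹ else θ' - P.x) ^ D P := by
      intro θ' _
      unfold uval
      rw [Finsupp.prod, map_prod]
      refine Finset.prod_congr rfl ?_
      intro P _
      rw [map_zpow₀]
    rw [Finset.prod_congr rfl e1, Finset.prod_comm, ← Finset.prod_pow, ← Finset.prod_pow,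
      ← Finset.prod_mul_distrib, ← Finset.prod_mul_distrib]
    refine Finset.prod_congr rfl ?_
    intro P _
    rw [Finset.prod_zpow, L05_factor h hg hm hd r P, mul_zpow, mul_zpow]
    congr 1
    · rw [← zpow_natCast, ← zpow_natCast, ← zpow_mul, ← zpow_mul, mul_comm]
    · congr 1
      rw [← zpow_natCast, ← zpow_natCast, ← zpow_mul, ← zpow_mul, mul_comm]
  rw [hprod, hprod2]
  -- the big part
  have hX : Val p ϖ (∏ P ∈ D.support, v (if 1 < v P.x then P.x else 1) ^ D P) := by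
    refine L05_val hΓ D hD (fun P => if 1 < v P.x then P.x else 1) ?_ ?_
    · intro P
      show (if 1 < v P.x then P.x else 1) ≠ 0
      split_ifs with h1
      · intro h0
        rw [h0, map_zero] at h1
        exact absurd h1 (not_lt.2 zero_le_one)
      · exact one_ne_zero
    · intro σ hσ P
      simp only [hsymx, hΓ.inv σ hσ]
      split_ifs
      · rfl
      · exact map_one _
  have hX' : Val p ϖ (∏ P ∈ D.support, v (if 1 < v P.x then P.y else 1) ^ D P) := by
    refine L05_val hΓ D hD (fun P => if 1 < v P.x then P.y else 1) ?_ ?_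
    · intro P
      show (if 1 < v P.x then P.y else 1) ≠ 0
      split_ifs with h1
      · intro h0
        have h2 := h.v_eval_of_large hg hm h1
        rw [L05_v_eq hd P, h0, map_zero, zero_pow hG.prime.ne_zero, mul_zero] at h2
        have h3 : 0 < v P.x ^ g.natDegree := pow_pos (zero_lt_one.trans h1) _
        exact absurd h2 h3.ne
      · exact one_ne_zero
    · intro σ hσ P
      simp only [hsymx, hsymy, hΓ.inv σ hσ]
      split_ifs
      · rfl
      · exact map_one _
  have hXm : (∏ P ∈ D.support, v (if 1 < v P.x then P.x else 1) ^ D P) ^ g.natDegree =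
      (∏ P ∈ D.support, (if 1 < v P.x then v d else 1) ^ D P) *
        (∏ P ∈ D.support, v (if 1 < v P.x then P.y else 1) ^ D P) ^ ℓ := by
    rw [← Finset.prod_pow, ← Finset.prod_pow, ← Finset.prod_mul_distrib]
    refine Finset.prod_congr rfl ?_
    intro P _
    have e1 : ∀ (x : ℝ) (m : ℕ), (x ^ D P) ^ m = (x ^ m) ^ D P := by
      intro x m
      rw [← zpow_natCast, ← zpow_natCast, ← zpow_mul, ← zpow_mul, mul_comm]
    rw [e1, e1, ← mul_zpow]
    congr 1
    split_ifs with h1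
    · rw [← h.v_eval_of_large hg hm h1, L05_v_eq hd P]
    · simp
  have hXpos : 0 < ∏ P ∈ D.support, v (if 1 < v P.x then P.x else 1) ^ D P := by
    refine Finset.prod_pos ?_
    intro P _
    refine zpow_pos ?_ _
    split_ifs with h1
    · exact zero_lt_one.trans h1
    · rw [map_one]; exact one_pos
  have hXval : Val p (ϖ ^ ℓ) (∏ P ∈ D.support, v (if 1 < v P.x then P.x else 1) ^ D P) := by
    refine Val.of_pow hΓ.pos hΓ.lt_one hmℓ hXpos hX ?_
    rw [hXm]
    refine Val.mul (Val.prod _ _ ?_) (Val.pow_self ℓ hX')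
    intro P _
    refine Val.zpow ?_ _
    split_ifs
    · exact hdv
    · exact Val.one _ _
  -- the part near `r`
  have hB : Val p ϖ (∏ P ∈ D.support,
      v (if v (P.x - algebraMap F M r) < 1 ∧ P.y ≠ 0 then P.y else 1) ^ D P) := by
    refine L05_val hΓ D hD
      (fun P => if v (P.x - algebraMap F M r) < 1 ∧ P.y ≠ 0 then P.y else 1) ?_ ?_
    · intro P
      show (if v (P.x - algebraMap F M r) < 1 ∧ P.y ≠ 0 then P.y else 1) ≠ 0
      split_ifs with h1
      · exact h1.2
      · exact one_ne_zero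
    · intro σ hσ P
      have e1 : v ((σ : M ≃+* M) P.x - algebraMap F M r) = v (P.x - algebraMap F M r) := by
        rw [← hΓ.inv σ hσ (P.x - algebraMap F M r), map_sub (σ : M ≃+* M), hΓ.fix σ hσ]
      have e2 : ((σ : M ≃+* M) P.y ≠ 0) = (P.y ≠ 0) := by
        rw [ne_eq, map_eq_zero_iff _ (σ : M ≃+* M).injective]
      simp only [hsymx, hsymy, e1, e2]
      split_ifs
      · rfl
      · exact map_one _
  refine Val.mul (Val.pow hXval _) (Val.mul (Val.prod _ _ ?_) (Val.pow_self ℓ hB))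
  intro P _
  refine Val.zpow ?_ _
  split_ifs
  · exact hdv
  · exact Val.one _ _

end Pool.Agent.Lib.MP_89bcae_ag.Sup
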