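import Mathlib
import Pool.Agent.Lib.MP_89bcae_ag.Sup.R13
import Pool.Agent.Lib.MP_89bcae_ag.Sup.R16

/-!
ROW R20 (100-200 lines). A class fixed by a set of automorphisms contains a divisor fixed by them.

PROOF. Every class contains an effective divisor: `-[P] = ∑_{0<i<ℓ} [P.rot^i]` by
`cl (div (x - P.x)) = 0` and `div_xs`, so negative coefficients can be replaced by positive ones.
Let `D` be an effective divisor of minimal degree (`dg`) in the class. It is the only one: let `D'`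
be another effective divisor of the same degree in the class, `D - D' = div h` (R08). Then
`dg (div h) = 0`, so by R13 there is a constant `c` with `h = c`, whence `D = D'`, or
`w = h - c ≠ 0` with `dg (div w) < 0`; then `D' + div w` is effective: `ord_P w ≥ min (ord_P h, 0)`
(`ord_add` with `u = h`, `v = -c`; if `c = 0` then `w = h`) and
`ord_P h = D(P) - D'(P) ≥ -D'(P)`, `0 ≥ -D'(P)`; it is in the same class and has smaller degree:
contradiction. For `σ` in `Γ`: `D.mapDomain (Pt.sym σ)` is effective of the same degree, and its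
class is `symJ σ x = x`, so it is equal to `D`.
-/

open Polynomial IsDedekindDomain

open scoped Classical

namespace Pool.Agent.Lib.MP_89bcae_ag.Sup

universe u

variable {ℓ : ℕ} {E : Type u} [Field E] {f : E[X]} [hG : IsGood ℓ f]

omit hG in
lemma r20_dg_add (D D' : Pt ℓ f →₀ ℤ) : dg (D + D') = dg D + dg D' :=
  Finsupp.sum_add_index' (fun _ => rfl) fun _ _ _ => rfl

omit hG in
lemma r20_dg_nonneg (D : Pt ℓ f →₀ ℤ) (hD : ∀ P, 0 ≤ D P) : 0 ≤ dg D :=
  Finset.sum_nonneg fun P _ => hD P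

omit hG in
lemma r20_mapDomain_nonneg (D : Pt ℓ f →₀ ℤ) (hD : ∀ P, 0 ≤ D P) (g : Pt ℓ f → Pt ℓ f) :
    ∀ P, 0 ≤ D.mapDomain g P := by
  intro P
  rw [Finsupp.mapDomain, Finsupp.sum_apply]
  refine Finset.sum_nonneg fun Q _ => ?_
  change 0 ≤ (Finsupp.single (g Q) (D Q) : Pt ℓ f →₀ ℤ) P
  rw [Finsupp.single_apply]
  split_ifs
  · exact hD Q
  · exact le_rfl

omit hG in
lemma r20_dg_mapDomain (D : Pt ℓ f →₀ ℤ) (g : Pt ℓ f → Pt ℓ f) : dg (D.mapDomain g) = dg D :=
  Finsupp.sum_mapDomain_index (fun _ => rfl) fun _ _ _ => rfl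

lemma r20_exists_effective (ζ : E) (hζ : IsPrimitiveRoot ζ ℓ) (D : Pt ℓ f →₀ ℤ) :
    ∃ D' : Pt ℓ f →₀ ℤ, (∀ P, 0 ≤ D' P) ∧ cl D' = cl D := by
  induction D using Finsupp.induction_linear with
  | zero => exact ⟨0, fun _ => le_rfl, rfl⟩
  | add D₁ D₂ h₁ h₂ =>
    obtain ⟨D₁', h₁, h₁'⟩ := h₁
    obtain ⟨D₂', h₂, h₂'⟩ := h₂
    refine ⟨D₁' + D₂', fun P => add_nonneg (h₁ P) (h₂ P), ?_⟩
    rw [map_add, map_add, h₁', h₂']
  | single P n =>
    rcases le_or_gt 0 n with hn | hn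
    · refine ⟨Finsupp.single P n, fun Q => ?_, rfl⟩
      rw [Finsupp.single_apply]
      split_ifs
      · exact hn
      · exact le_rfl
    · refine ⟨Finsupp.single P n + (-n) • div (xs P.x : (Fn ℓ f)ˣ), fun Q => ?_, ?_⟩
      · have hx : (Finsupp.single P 1 : Pt ℓ f →₀ ℤ) Q ≤ div (xs P.x : (Fn ℓ f)ˣ) Q := by
          rw [div_xs ζ hζ P, Finsupp.finsetSum_apply]
          have h0 : 0 ∈ Finset.range ℓ := Finset.mem_range.2 hG.prime.pos
          refine Finset.single_le_sum (f := fun i =>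
            (Finsupp.single ((Pt.rot ζ hζ.pow_eq_one)^[i] P) 1 : Pt ℓ f →₀ ℤ) Q)
            (fun i _ => ?_) h0
          rw [Finsupp.single_apply]
          split_ifs <;> norm_num
        rw [Finsupp.add_apply, Finsupp.smul_apply, smul_eq_mul]
        have hs : (Finsupp.single P n : Pt ℓ f →₀ ℤ) Q =
            n * (Finsupp.single P 1 : Pt ℓ f →₀ ℤ) Q := by
          rw [Finsupp.single_apply, Finsupp.single_apply]
          split_ifs <;> simp
        rw [hs]
        nlinarith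
      · rw [map_add, map_zsmul, cl_div, smul_zero, add_zero]

lemma r20_unique (ζ : E) (hζ : IsPrimitiveRoot ζ ℓ) (D D' : Pt ℓ f →₀ ℤ)
    (h : ∀ P, 0 ≤ D P) (h' : ∀ P, 0 ≤ D' P) (hc : cl D = cl D') (hd : dg D = dg D')
    (hmin : ∀ D'' : Pt ℓ f →₀ ℤ, (∀ P, 0 ≤ D'' P) → cl D'' = cl D' → dg D' ≤ dg D'') :
    D = D' := by
  obtain ⟨u, hu⟩ := exists_div_of_cl_eq_zero (D - D') (by rw [map_sub, hc, sub_self])
  have hdg : dg (div u) = 0 := by
    have := r20_dg_add (D - D') D'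
    rw [sub_add_cancel, hd] at this
    rw [hu]
    linarith
  have hord : ∀ P, ord P u = D P - D' P := fun P => by
    rw [← div_apply, hu, Finsupp.sub_apply]
  obtain ⟨c, hc' | ⟨w, hw, hwd⟩⟩ := exists_const_of_dg_eq_zero ζ hζ u hdg
  · have hc0 : c ≠ 0 := by
      rintro rfl
      exact u.ne_zero (by rw [hc', map_zero])
    have hu' : u = cstU (Units.mk0 c hc0) := Units.ext hc'
    rw [hu', div_cstU] at hu
    exact (sub_eq_zero.1 hu.symm)
  · exfalso
    have heff : ∀ P, 0 ≤ (D' + div w) P := by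
      intro P
      rw [Finsupp.add_apply, div_apply]
      by_cases hc0 : c = 0
      · have hwu : w = u := Units.ext (by rw [hw, hc0, map_zero, sub_zero])
        rw [hwu, hord]
        linarith [h P]
      · have := ord_add P u (cstU (Units.mk0 (-c) (neg_ne_zero.2 hc0))) w (by
          rw [hw, sub_eq_add_neg, ← map_neg]
          rfl)
        rw [ord_cstU, hord] at this
        rcases min_le_iff.1 this with h1 | h1
        · linarith [h P]
        · linarith [h' P]
    have h1 := hmin (D' + div w) heff (by rw [map_add, cl_div, add_zero])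
    rw [r20_dg_add] at h1
    linarith

lemma exists_stable (ζ : E) (hζ : IsPrimitiveRoot ζ ℓ) (Γ : Set (Sym f)) (x : Jac ℓ f)
    (hx : ∀ σ ∈ Γ, symJ σ x = x) :
    ∃ D : Pt ℓ f →₀ ℤ, cl D = x ∧ ∀ σ ∈ Γ, D.mapDomain (Pt.sym σ) = D := by
  obtain ⟨D₀, hD₀⟩ := cl_surjective x
  have hex : ∃ n : ℕ, ∃ D : Pt ℓ f →₀ ℤ, (∀ P, 0 ≤ D P) ∧ cl D = x ∧ dg D = n := by
    obtain ⟨D, h1, h2⟩ := r20_exists_effective ζ hζ D₀
    exact ⟨(dg D).toNat, D, h1, h2.trans hD₀, (Int.toNat_of_nonneg (r20_dg_nonneg D h1)).symm⟩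
  obtain ⟨D, h1, h2, h3⟩ := Nat.find_spec hex
  refine ⟨D, h2, fun σ hσ => ?_⟩
  refine r20_unique ζ hζ _ _ (r20_mapDomain_nonneg D h1 _) h1 ?_ (r20_dg_mapDomain _ _) ?_
  · rw [← symJ_cl, h2, hx σ hσ]
  · intro D'' h1'' h2''
    have := Nat.find_min' hex ⟨D'', h1'', h2''.trans h2,
      (Int.toNat_of_nonneg (r20_dg_nonneg D'' h1'')).symm⟩
    have h0 := r20_dg_nonneg D'' h1''
    omega

end Pool.Agent.Lib.MP_89bcae_ag.Sup
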