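import Mathlib
import Pool.Agent.Lib.MP_89bcae_ag.Sup.L05
import Pool.Agent.Lib.MP_89bcae_ag.Sup.R20

/-!
ROW L06 (150-300 lines). A place `t = a` with `v d = 1`: the exponents are divisible by `ℓ`.

Setting: `f = d⁻¹ (g(x) - t)`, `v d = 1`, `ϖ = v (t - a)`, `Γ` as in `LocGrp`, the roots of `f` near any
`r` form one orbit (if any). `R` is a nonzero polynomial over `F`, `z θ ^ ℓ = R(θ)` for the roots `θ`
of `f`; `Q` a class such that for all `σ` in `Γ`, `σ Q - Q = ram n` with `σ (z θ) = ζ^{n(σθ)} z(σθ)`;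
and the sum of the multiplicities in `R` of the roots of `g(x) = a` is divisible by `ℓ`. Then each of
these multiplicities is divisible by `ℓ`.

PROOF. `m = deg g` is prime to `ℓ`. `π Q := Q - Z Q` is fixed by `Γ` (`σ Q - Q` is killed by `π`,
`zJ_ram`, `zJ_symJ`). By R20, `π Q = cl D` with `D` fixed by `Γ`; by the Kummer formula R21 there are
`z' θ`, `(z' θ)^ℓ = ε^{..} uval D θ` with, for `σ` in `Γ` (write `σ (z' θ) = ζ^{n'(σθ)} z'(σθ)`, possible as
the `ℓ`-th powers agree: `σ (uval D θ) = uval D (σθ)`, `σ` permutes the roots),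
`σ Q - Q = ram n'`. So by `ram_eq_zero_iff` `n - n' ≡ c(σ)` constant on the roots. Let
`q_θ = z θ / z' θ`, `Q̃ = ∏_θ q_θ`, `x_θ = q_θ^m / Q̃`: `σ q_θ = ζ^{c(σ)} q_{σθ}`,
`σ Q̃ = ζ^{m c(σ)} Q̃` and `σ x_θ = x_{σθ}`. Fix `r` with `g(r) = a`, `N = near r`, `μ = #N ≥ 1`
(`card_near`), `θ ∈ N`, `ε = ` multiplicity of `r` in `R`. All values are positive reals:
 `v(x_θ)` is the same for all `θ` in `N` and `∏_{θ∈N} x_θ` is fixed by `Γ`: `v(x_θ)^μ ∈ ϖ^{Z[1/p]}`;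
 `v(R(θ)) = v(θ - r)^ε` (the other factors `θ - β` are units), `v(θ - r)^μ = ϖ` (`v_sub_pow`);
 `v(z' θ)^{ℓ μ} = v(uval D θ)^μ ∈ ϖ^{ℓ Z[1/p]}` (L05; the sign has absolute value one);
 `v(Q̃)^ℓ = ∏_θ v(R(θ)) / ∏_θ v(uval D θ)`: the numerator is `ϖ^{∑ ε_β}` over the fibre (group the
roots by residues: `∏_{θ∈near β} v(θ-β)^{ε_β} = ϖ^{ε_β}`), a power of `ϖ^ℓ` by hypothesis; the
denominator is a product of `v(uval D θ)^μ`'s. So `v(Q̃) ∈ ϖ^{Z[1/p]}` (`Val.root`).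
Hence `(v(x_θ)^μ)^ℓ = v(q_θ)^{m ℓ μ} / v(Q̃)^{ℓ μ} = ϖ^{m ε} / (...)` with `(...)` in `ϖ^{ℓ Z[1/p]}`, and
the left side is in `ϖ^{ℓ Z[1/p]}`, so `ℓ ∣ m ε` (`Val.dvd_of_zpow`), `ℓ ∣ ε`.
-/

open Polynomial

open scoped Classical

namespace Pool.Agent.Lib.MP_89bcae_ag.Sup

universe u

variable {F M : Type u} [Field F] [Field M] [Algebra F M] {v : AbsoluteValue M ℝ} {a : F} {t : M}

lemma LocCtx.L06_v_aeval (h : LocCtx v a t) {R : F[X]} (hR : R ≠ 0) {θ : M} {r : F}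
    (hr : v (θ - algebraMap F M r) < 1) :
    v (aeval θ R) = v (θ - algebraMap F M r) ^ R.rootMultiplicity r := by
  obtain ⟨q, hq, hqr⟩ := exists_eq_pow_rootMultiplicity_mul_and_not_dvd R hR r
  have h1 : q.eval r ≠ 0 := fun h0 => hqr (dvd_iff_isRoot.mpr h0)
  have h2 : v (aeval θ q) = 1 := h.v_eq_one (h.residue_eval hr q) h1
  have h3 : aeval θ R = (θ - algebraMap F M r) ^ R.rootMultiplicity r * aeval θ q := by
    conv_lhs => rw [hq]
    rw [map_mul, map_pow, map_sub, aeval_X, aeval_C]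
  rw [h3, map_mul, map_pow, h2, mul_one]

lemma L06_prod_perm {N : Type*} [CommMonoid N] (σ : M ≃+* M) (S : Finset M)
    (hS : ∀ θ ∈ S, σ θ ∈ S) (φ : M → N) :
    ∏ θ ∈ S, φ (σ θ) = ∏ θ ∈ S, φ θ := by
  have h1 : S.image σ = S := by
    apply Finset.eq_of_subset_of_card_le
    · intro x hx
      obtain ⟨y, hy, rfl⟩ := Finset.mem_image.mp hx
      exact hS y hy
    · rw [Finset.card_image_of_injective _ σ.injective]
  conv_rhs => rw [← h1]
  rw [Finset.prod_image (fun x _ y _ h => σ.injective h)]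

lemma L06_zpow_congr {ℓ : ℕ} {ξ : M} (hξ : IsPrimitiveRoot ξ ℓ) (hξ0 : ξ ≠ 0) {i j : ℤ}
    (hij : (ℓ : ℤ) ∣ i - j) : ξ ^ i = ξ ^ j := by
  have h1 : ξ ^ (i - j) = 1 := (hξ.zpow_eq_one_iff_dvd _).mpr hij
  have h2 : ξ ^ i = ξ ^ (i - j) * ξ ^ j := by
    rw [← zpow_add₀ hξ0, sub_add_cancel]
  rw [h2, h1, one_mul]

theorem LocCtx.good_place (h : LocCtx v a t) {ℓ p : ℕ} (hp : p.Coprime ℓ) {g : F[X]}
    (hg : g.Monic) (hm : g.natDegree ≠ 0) (hmℓ : g.natDegree.Coprime ℓ) {d : M} (hd : d ≠ 0)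
    [hG : IsGood ℓ (locPoly g t d)] {ζ : F} (hζ : IsPrimitiveRoot ζ ℓ)
    (hζ' : IsPrimitiveRoot (algebraMap F M ζ) ℓ)
    {Γ : Subgroup (Sym (locPoly g t d))} (hΓ : LocGrp p F v t (v (t - algebraMap F M a)) Γ)
    (hdv : v d = 1)
    (horb : ∀ r : F, ∀ θ ∈ near v (locPoly g t d) r, ∀ θ' ∈ near v (locPoly g t d) r,
      ∃ σ ∈ Γ, (σ : M ≃+* M) θ = θ')
    {R : F[X]} (hR : R ≠ 0) {z : M → M}
    (hz : ∀ θ ∈ rts (locPoly g t d), z θ ^ ℓ = aeval θ R) (Q : Jac ℓ (locPoly g t d))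
    (hQ : ∀ σ ∈ Γ, ∃ n : M → ℤ, symJ σ Q - Q = ram n ∧ ∀ θ ∈ rts (locPoly g t d),
      (σ : M ≃+* M) (z θ) = algebraMap F M ζ ^ n ((σ : M ≃+* M) θ) * z ((σ : M ≃+* M) θ))
    (hsum : ℓ ∣ ∑ r ∈ (g - C a).roots.toFinset, R.rootMultiplicity r)
    {r : F} (hr : g.eval r = a) : ℓ ∣ R.rootMultiplicity r := by
  have hAC : IsAlgClosed M := hG.alg
  have hs : (locPoly g t d).Separable := hG.separable
  have hℓ0 : ℓ ≠ 0 := hG.prime.ne_zero
  have hNZ : NeZero ℓ := ⟨hℓ0⟩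
  have hf0 : locPoly g t d ≠ 0 := locPoly_ne_zero hg hm hd
  have hϖ0 : 0 < v (t - algebraMap F M a) := hΓ.pos
  have hϖ1 : v (t - algebraMap F M a) < 1 := hΓ.lt_one
  have hζ0 : algebraMap F M ζ ≠ 0 := hζ'.ne_zero hℓ0
  have hga : g - C a ≠ 0 := by
    intro h0
    apply hm
    rw [← natDegree_sub_C (p := g) (a := a), h0, natDegree_zero]
  have hrts : ∀ θ, θ ∈ rts (locPoly g t d) ↔ (locPoly g t d).eval θ = 0 := fun θ => mem_rts hf0
  have hev : ∀ θ ∈ rts (locPoly g t d), aeval θ g = t := fun θ hθ =>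
    (eval_locPoly_eq_zero hd).mp ((hrts θ).mp hθ)
  have hnear : ∀ r' : F, ∀ θ, θ ∈ near v (locPoly g t d) r' ↔
      θ ∈ rts (locPoly g t d) ∧ v (θ - algebraMap F M r') < 1 := by
    intro r' θ
    unfold near
    rw [Finset.mem_filter]
  -- residues
  have hres : ∀ θ ∈ rts (locPoly g t d), ∃ r' : F, v (θ - algebraMap F M r') < 1 ∧
      g.eval r' = a := by
    intro θ hθ
    obtain ⟨c, hc⟩ := h.residue θ (h.v_root_le hg hm (hev θ hθ))
    exact ⟨c, hc, h.eval_residue (hev θ hθ) hc⟩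
  choose! res hres1 hres2 using hres
  have hgroup : ∀ φ : M → ℝ, ∏ θ ∈ rts (locPoly g t d), φ θ =
      ∏ r' ∈ (g - C a).roots.toFinset, ∏ θ ∈ near v (locPoly g t d) r', φ θ := by
    intro φ
    rw [← Finset.prod_fiberwise_of_maps_to (t := (g - C a).roots.toFinset) (g := res) ?_ φ]
    · refine Finset.prod_congr rfl fun r' _ => ?_
      refine Finset.prod_congr ?_ fun _ _ => rfl
      unfold near
      apply Finset.filter_congr
      intro θ hθ
      constructor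
      · rintro rfl
        exact hres1 θ hθ
      · intro h'
        exact h.residue_unique (hres1 θ hθ) h'
    · intro θ hθ
      rw [Multiset.mem_toFinset, mem_roots hga, IsRoot.def, eval_sub, eval_C, hres2 θ hθ, sub_self]
  have hroot : ∀ r' ∈ (g - C a).roots.toFinset, g.eval r' = a := by
    intro r' hr'
    rw [Multiset.mem_toFinset, mem_roots hga, IsRoot.def, eval_sub, eval_C, sub_eq_zero] at hr'
    exact hr'
  -- the action of `Γ`
  have hσrts : ∀ σ ∈ Γ, ∀ θ ∈ rts (locPoly g t d), (σ : M ≃+* M) θ ∈ rts (locPoly g t d) := by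
    intro σ _ θ hθ
    rw [hrts] at hθ ⊢
    exact (eval_sym_eq_zero σ).mpr hθ
  have hσnear : ∀ r' : F, ∀ σ ∈ Γ, ∀ θ ∈ near v (locPoly g t d) r',
      (σ : M ≃+* M) θ ∈ near v (locPoly g t d) r' := by
    intro r' σ hσ θ hθ
    rw [hnear] at hθ ⊢
    refine ⟨hσrts σ hσ θ hθ.1, ?_⟩
    have e1 : (σ : M ≃+* M) θ - algebraMap F M r' = (σ : M ≃+* M) (θ - algebraMap F M r') := by
      rw [map_sub, hΓ.fix σ hσ]
    rw [e1, hΓ.inv σ hσ]
    exact hθ.2
  have hfixζ : ∀ σ ∈ Γ, (σ : M ≃+* M) (algebraMap F M ζ) = algebraMap F M ζ :=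
    fun σ hσ => hΓ.fix σ hσ ζ
  have hstab : ∀ σ ∈ (Γ : Set (Sym (locPoly g t d))),
      symJ σ (Q - zJ (algebraMap F M ζ) hζ'.pow_eq_one Q) =
        Q - zJ (algebraMap F M ζ) hζ'.pow_eq_one Q := by
    intro σ hσ
    obtain ⟨n, hn, -⟩ := hQ σ hσ
    have e1 : symJ σ Q = Q + ram n := by
      rw [← hn]
      abel
    rw [map_sub, ← zJ_symJ _ _ σ (hfixζ σ hσ), e1, map_add, zJ_ram]
    abel
  obtain ⟨D, hDcl, hDfix⟩ := exists_stable (algebraMap F M ζ) hζ'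
    (Γ : Set (Sym (locPoly g t d))) _ hstab
  obtain ⟨z', hz', hkum⟩ := kummer_formula (algebraMap F M ζ) hζ' Q D hDcl.symm
  have hc : ∀ σ ∈ Γ, ∃ c : ℤ, ∀ θ ∈ rts (locPoly g t d), (σ : M ≃+* M) (z θ / z' θ) =
      algebraMap F M ζ ^ c * (z ((σ : M ≃+* M) θ) / z' ((σ : M ≃+* M) θ)) := by
    intro σ hσ
    obtain ⟨n, hn, hnz⟩ := hQ σ hσ
    have hDσ := hDfix σ hσ
    have hex : ∀ θ ∈ rts (locPoly g t d), ∃ i : ℤ, (σ : M ≃+* M) (z' θ) =
        algebraMap F M ζ ^ i * z' ((σ : M ≃+* M) θ) := by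
      intro θ hθ
      have hθ0 : (locPoly g t d).eval θ = 0 := (hrts θ).mp hθ
      have hσθ0 : (locPoly g t d).eval ((σ : M ≃+* M) θ) = 0 :=
        (hrts _).mp (hσrts σ hσ θ hθ)
      have h0 : z' ((σ : M ≃+* M) θ) ≠ 0 := (hz' _ hσθ0).1
      have h1 : ((σ : M ≃+* M) (z' θ) / z' ((σ : M ≃+* M) θ)) ^ ℓ = 1 := by
        rw [div_pow, ← map_pow, (hz' θ hθ0).2, (hz' _ hσθ0).2, map_mul, sym_uval σ D hDσ,
          sym_atR σ D hDσ, map_zpow₀, map_pow, map_neg, map_one]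
        apply div_self
        apply mul_ne_zero
        · apply zpow_ne_zero
          apply pow_ne_zero
          exact neg_ne_zero.mpr one_ne_zero
        · exact uval_ne_zero D hσθ0
      obtain ⟨i, _, hi⟩ := hζ'.eq_pow_of_pow_eq_one h1
      exact ⟨i, by rw [zpow_natCast, hi, div_mul_cancel₀ _ h0]⟩
    let n' : M → ℤ := fun θ'' =>
      if h : (σ : M ≃+* M).symm θ'' ∈ rts (locPoly g t d) then (hex _ h).choose else 0
    have hn' : ∀ θ, (locPoly g t d).eval θ = 0 → (σ : M ≃+* M) (z' θ) =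
        algebraMap F M ζ ^ n' ((σ : M ≃+* M) θ) * z' ((σ : M ≃+* M) θ) := by
      intro θ hθ
      have hθ' : θ ∈ rts (locPoly g t d) := (hrts θ).mpr hθ
      have key : ∀ θ₁ (h₁ : θ₁ ∈ rts (locPoly g t d)), θ₁ = θ → (σ : M ≃+* M) (z' θ) =
          algebraMap F M ζ ^ (hex θ₁ h₁).choose * z' ((σ : M ≃+* M) θ) := by
        rintro θ₁ h₁ rfl
        exact (hex θ₁ h₁).choose_spec
      have e1 : (σ : M ≃+* M).symm ((σ : M ≃+* M) θ) = θ := RingEquiv.symm_apply_apply _ _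
      have e2 : (σ : M ≃+* M).symm ((σ : M ≃+* M) θ) ∈ rts (locPoly g t d) := by
        rw [e1]
        exact hθ'
      have e3 : n' ((σ : M ≃+* M) θ) = (hex _ e2).choose := dif_pos e2
      rw [e3]
      exact key _ e2 e1
    have hk := hkum σ (hfixζ σ hσ) hDσ n' hn'
    have h0 : (ram (fun θ => n θ - n' θ) : Jac ℓ (locPoly g t d)) = 0 := by
      rw [ram_sub, ← hn, ← hk, sub_self]
    obtain ⟨c, hc⟩ := (ram_eq_zero_iff (algebraMap F M ζ) hζ' _).mp h0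
    refine ⟨c, fun θ hθ => ?_⟩
    have h1 := hc ((σ : M ≃+* M) θ) ((hrts _).mp (hσrts σ hσ θ hθ))
    rw [map_div₀, hnz θ hθ, hn' θ ((hrts θ).mp hθ), mul_div_mul_comm, ← zpow_sub₀ hζ0,
      L06_zpow_congr hζ' hζ0 h1]
  -- values
  have hvθ : ∀ r' : F, ∀ θ ∈ near v (locPoly g t d) r', v (θ - algebraMap F M r') ≠ 0 := by
    intro r' θ hθ h0
    have h1 := h.v_sub_pow hg hm hd hs hθ
    rw [h0, zero_pow (Finset.card_ne_zero_of_mem hθ)] at h1
    exact hϖ0.ne h1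
  have hz0 : ∀ θ ∈ rts (locPoly g t d), z θ ≠ 0 := by
    intro θ hθ h0
    have h1 := hz θ hθ
    rw [h0, zero_pow hℓ0] at h1
    have h2 := h.L06_v_aeval hR (hres1 θ hθ)
    rw [← h1, map_zero] at h2
    exact pow_ne_zero _ (hvθ (res θ) θ ((hnear _ _).mpr ⟨hθ, hres1 θ hθ⟩)) h2.symm
  have hq0 : ∀ θ ∈ rts (locPoly g t d), z θ / z' θ ≠ 0 := fun θ hθ =>
    div_ne_zero (hz0 θ hθ) (hz' θ ((hrts θ).mp hθ)).1
  obtain ⟨Qt, hQt⟩ : ∃ Qt, Qt = ∏ θ ∈ rts (locPoly g t d), (z θ / z' θ) := ⟨_, rfl⟩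
  have hQt0 : Qt ≠ 0 := by
    rw [hQt]
    exact Finset.prod_ne_zero_iff.mpr hq0
  have hx : ∀ σ ∈ Γ, ∀ θ ∈ rts (locPoly g t d),
      (σ : M ≃+* M) ((z θ / z' θ) ^ g.natDegree / Qt) =
        (z ((σ : M ≃+* M) θ) / z' ((σ : M ≃+* M) θ)) ^ g.natDegree / Qt := by
    intro σ hσ θ hθ
    obtain ⟨c, hc⟩ := hc σ hσ
    have h1 : (σ : M ≃+* M) Qt = (algebraMap F M ζ ^ c) ^ g.natDegree * Qt := by
      rw [hQt, map_prod, Finset.prod_congr rfl (fun θ hθ => hc θ hθ), Finset.prod_mul_distrib,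
        Finset.prod_const, card_rts hg hm hd hs]
      congr 1
      exact L06_prod_perm (σ : M ≃+* M) _ (hσrts σ hσ) (fun θ => z θ / z' θ)
    rw [map_div₀, map_pow, hc θ hθ, h1, mul_pow,
      mul_div_mul_left _ _ (pow_ne_zero _ (zpow_ne_zero _ hζ0))]
  have hvx : ∀ θ ∈ near v (locPoly g t d) r, Val p (v (t - algebraMap F M a))
      (v ((z θ / z' θ) ^ g.natDegree / Qt) ^ (near v (locPoly g t d) r).card) := by
    intro θ hθ
    have h1 : ∏ θ' ∈ near v (locPoly g t d) r, v ((z θ' / z' θ') ^ g.natDegree / Qt) =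
        v ((z θ / z' θ) ^ g.natDegree / Qt) ^ (near v (locPoly g t d) r).card := by
      apply Finset.prod_eq_pow_card
      intro θ' hθ'
      obtain ⟨σ, hσ, rfl⟩ := horb r θ hθ θ' hθ'
      rw [← hx σ hσ θ ((hnear _ _).mp hθ).1, hΓ.inv σ hσ]
    rw [← h1, ← map_prod]
    apply hΓ.disc
    · exact Finset.prod_ne_zero_iff.mpr fun θ' hθ' =>
        div_ne_zero (pow_ne_zero _ (hq0 θ' ((hnear _ _).mp hθ').1)) hQt0
    · intro σ hσ
      rw [map_prod, Finset.prod_congr rfl (fun θ' hθ' => hx σ hσ θ' ((hnear _ _).mp hθ').1)]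
      exact L06_prod_perm (σ : M ≃+* M) _ (hσnear r σ hσ)
        (fun θ => (z θ / z' θ) ^ g.natDegree / Qt)
  have hvq : ∀ θ ∈ rts (locPoly g t d), v (z θ / z' θ) ^ ℓ = v (aeval θ R) / v (uval D θ) := by
    intro θ hθ
    have h1 : v (z' θ) ^ ℓ = v (uval D θ) := by
      rw [← map_pow, (hz' θ ((hrts θ).mp hθ)).2, map_mul, map_zpow₀, map_pow, AbsoluteValue.map_neg,
        map_one, one_pow, one_zpow, one_mul]
    rw [map_div₀, div_pow, h1, ← map_pow, hz θ hθ]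
  have hdv' : Val p (v (t - algebraMap F M a) ^ ℓ) (v d) := by
    rw [hdv]
    exact Val.one _ _
  have huv : ∀ r' : F, Val p (v (t - algebraMap F M a) ^ ℓ)
      (∏ θ ∈ near v (locPoly g t d) r', v (uval D θ)) := by
    intro r'
    rcases (near v (locPoly g t d) r').eq_empty_or_nonempty with he | ⟨θ, hθ⟩
    · rw [he, Finset.prod_empty]
      exact Val.one _ _
    · have h1 : ∏ θ' ∈ near v (locPoly g t d) r', v (uval D θ') =
          v (uval D θ) ^ (near v (locPoly g t d) r').card := by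
        apply Finset.prod_eq_pow_card
        intro θ' hθ'
        obtain ⟨σ, hσ, rfl⟩ := horb r' θ hθ θ' hθ'
        rw [← sym_uval σ D (hDfix σ hσ), hΓ.inv σ hσ]
      rw [h1]
      exact h.val_uval hg hm hd hmℓ hΓ hdv' D hDfix (horb r') hθ
  have hRv : ∀ r' : F, g.eval r' = a → ∏ θ ∈ near v (locPoly g t d) r', v (aeval θ R) =
      v (t - algebraMap F M a) ^ R.rootMultiplicity r' := by
    intro r' hr'
    rw [Finset.prod_congr rfl (fun θ hθ => h.L06_v_aeval hR ((hnear _ _).mp hθ).2),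
      Finset.prod_pow]
    congr 1
    have h1 := h.prod_near hg hm hd hs (r := r') (x := algebraMap F M r')
      (by rw [sub_self, map_zero]; exact one_pos)
    have h2 : aeval (algebraMap F M r') g = algebraMap F M a := by
      rw [aeval_algebraMap_apply, coe_aeval_eq_eval, hr']
    rw [h2, AbsoluteValue.map_sub] at h1
    rw [h1]
    exact Finset.prod_congr rfl fun θ _ => AbsoluteValue.map_sub _ _ _
  have hQv : Val p (v (t - algebraMap F M a) ^ ℓ) (v Qt ^ ℓ) := by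
    have h1 : v Qt ^ ℓ = (v (t - algebraMap F M a) ^
        ∑ r' ∈ (g - C a).roots.toFinset, R.rootMultiplicity r') *
        (∏ r' ∈ (g - C a).roots.toFinset,
          ∏ θ ∈ near v (locPoly g t d) r', v (uval D θ))⁻¹ := by
      rw [hQt, map_prod, ← Finset.prod_pow, Finset.prod_congr rfl hvq, Finset.prod_div_distrib,
        hgroup (fun θ => v (aeval θ R)), hgroup (fun θ => v (uval D θ)), div_eq_mul_inv,
        Finset.prod_congr rfl (fun r' hr' => hRv r' (hroot r' hr')), Finset.prod_pow_eq_pow_sum]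
    rw [h1]
    obtain ⟨k, hk⟩ := hsum
    apply Val.mul
    · rw [hk, pow_mul]
      exact ⟨0, k, by rw [pow_zero, pow_one, zpow_natCast]⟩
    · exact (Val.prod _ _ fun r' _ => huv r').inv
  -- conclusion
  have hne : (near v (locPoly g t d) r).Nonempty := by
    rw [← Finset.card_pos, h.card_near hg hm hd hs r, rootMultiplicity_pos hga, IsRoot.def,
      eval_sub, eval_C, hr, sub_self]
  obtain ⟨θ, hθ⟩ := hne
  have hθr := ((hnear _ _).mp hθ).1
  have hUθ : Val p (v (t - algebraMap F M a) ^ ℓ)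
      (v (uval D θ) ^ (near v (locPoly g t d) r).card) :=
    h.val_uval hg hm hd hmℓ hΓ hdv' D hDfix (horb r) hθ
  have hRθ : v (aeval θ R) ^ (near v (locPoly g t d) r).card =
      v (t - algebraMap F M a) ^ R.rootMultiplicity r := by
    rw [h.L06_v_aeval hR ((hnear _ _).mp hθ).2, ← pow_mul, mul_comm, pow_mul,
      h.v_sub_pow hg hm hd hs hθ]
  have hU0 : v (uval D θ) ≠ 0 := by
    rw [AbsoluteValue.ne_zero_iff]
    exact uval_ne_zero D ((hrts θ).mp hθr)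
  have hQ0 : v Qt ≠ 0 := by
    rw [AbsoluteValue.ne_zero_iff]
    exact hQt0
  have hmain : v (t - algebraMap F M a) ^ ((g.natDegree * R.rootMultiplicity r : ℕ) : ℤ) =
      (v ((z θ / z' θ) ^ g.natDegree / Qt) ^ (near v (locPoly g t d) r).card) ^ ℓ *
        ((v (uval D θ) ^ (near v (locPoly g t d) r).card) ^ g.natDegree *
        (v Qt ^ ℓ) ^ (near v (locPoly g t d) r).card) := by
    have e1 : v ((z θ / z' θ) ^ g.natDegree / Qt) ^ (near v (locPoly g t d) r).card =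
        (v (z θ / z' θ) ^ g.natDegree) ^ (near v (locPoly g t d) r).card /
          v Qt ^ (near v (locPoly g t d) r).card := by
      rw [map_div₀, map_pow, div_pow]
    have e2 : ((v (z θ / z' θ) ^ g.natDegree) ^ (near v (locPoly g t d) r).card) ^ ℓ =
        ((v (z θ / z' θ) ^ ℓ) ^ (near v (locPoly g t d) r).card) ^ g.natDegree := by
      rw [← pow_mul, ← pow_mul, ← pow_mul, ← pow_mul]
      congr 1
      ring
    have e3 : (v (uval D θ) ^ (near v (locPoly g t d) r).card) ^ g.natDegree ≠ 0 :=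
      pow_ne_zero _ (pow_ne_zero _ hU0)
    have e4 : (v Qt ^ ℓ) ^ (near v (locPoly g t d) r).card ≠ 0 :=
      pow_ne_zero _ (pow_ne_zero _ hQ0)
    have e5 : (v Qt ^ (near v (locPoly g t d) r).card) ^ ℓ =
        (v Qt ^ ℓ) ^ (near v (locPoly g t d) r).card := by
      rw [← pow_mul, ← pow_mul, mul_comm]
    rw [e1, div_pow, e2, hvq θ hθr, div_pow, hRθ, zpow_natCast, div_pow, e5,
      mul_comm g.natDegree, pow_mul]
    rw [div_mul_eq_mul_div, div_mul_eq_mul_div, div_div, eq_div_iff (mul_ne_zero e3 e4)]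
  have hfin : Val p (v (t - algebraMap F M a) ^ ℓ)
      (v (t - algebraMap F M a) ^ ((g.natDegree * R.rootMultiplicity r : ℕ) : ℤ)) := by
    rw [hmain]
    exact (Val.pow_self ℓ (hvx θ hθ)).mul ((hUθ.pow _).mul (hQv.pow _))
  have hdvd := Val.dvd_of_zpow hp hϖ0 hϖ1 _ hfin
  rw [Int.natCast_dvd_natCast] at hdvd
  exact hmℓ.symm.dvd_of_dvd_mul_left hdvd

end Pool.Agent.Lib.MP_89bcae_ag.Sup
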