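import Mathlib
import Pool.Agent.Lib.MP_89bcae_ag.Sup.L04
import Pool.Agent.Lib.MP_89bcae_ag.Sup.U01

/-!
ROW L07. A place `t = a` where `D` has a simple zero and `g(x) = a` has simple roots (bad place): first facts.
-/

open Polynomial

open scoped Classical

namespace Pool.Agent.Lib.MP_89bcae_ag.Sup

universe u

variable {F M : Type u} [Field F] [Field M] [Algebra F M] {v : AbsoluteValue M ℝ} {a : F} {t : M}

/-- The hypotheses at a bad place. -/
structure BadCtx (g D : F[X]) (a : F) (t δ : M) (ℓ : ℕ) : Prop where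
  monic : g.Monic
  deg : g.natDegree ≠ 0
  cop : g.natDegree.Coprime ℓ
  zero : D.eval a = 0
  simple : (derivative D).eval a ≠ 0
  roots : ∀ r, g.eval r = a → (derivative g).eval r ≠ 0
  delta : δ ^ ℓ = aeval t D
  ne : aeval t D ≠ 0

/-- The residue of an element of `M`. -/
noncomputable def rs (F : Type u) {M : Type u} [Field F] [Field M] [Algebra F M]
    (v : AbsoluteValue M ℝ) (x : M) : F :=
  if h : ∃ c : F, v (x - algebraMap F M c) < 1 then h.choose else 0

lemma LocCtx.rs_eq (h : LocCtx v a t) {x : M} {c : F} (hc : v (x - algebraMap F M c) < 1) :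
    rs F v x = c := by
  have hex : ∃ c : F, v (x - algebraMap F M c) < 1 := ⟨c, hc⟩
  unfold rs
  rw [dif_pos hex]
  exact h.residue_unique hex.choose_spec hc

lemma LocCtx.v_sub_rs (h : LocCtx v a t) {x : M} (hx : v x ≤ 1) :
    v (x - algebraMap F M (rs F v x)) < 1 := by
  have hex := h.residue x hx
  unfold rs
  rw [dif_pos hex]
  exact hex.choose_spec

/-- the residue of `t` is `a` -/
private lemma L07_quot (h : LocCtx v a t) {P : F[X]} {x : M} {c : F}
    (hx : v (x - algebraMap F M c) < 1) (hP : P.eval c = 0) :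
    ∃ Q : F[X], aeval x P = (x - algebraMap F M c) * aeval x Q ∧ Q.eval c = (derivative P).eval c ∧
      v (aeval x Q - algebraMap F M ((derivative P).eval c)) < 1 := by
  obtain ⟨Q, hQ⟩ : (X - C c) ∣ P := by
    rw [dvd_iff_isRoot]
    exact hP
  have hd : Q.eval c = (derivative P).eval c := by
    rw [hQ]
    simp
  refine ⟨Q, ?_, hd, ?_⟩
  · rw [hQ, map_mul, map_sub, aeval_X, aeval_C]
  · rw [← hd]
    exact h.residue_eval hx Q

lemma LocCtx.v_bad (h : LocCtx v a t) {g D : F[X]} {δ : M} {ℓ : ℕ} (hB : BadCtx g D a t δ ℓ) :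
    v (aeval t D) = v (t - algebraMap F M a) ∧
      v (aeval t D / (t - algebraMap F M a) - algebraMap F M ((derivative D).eval a)) < 1 := by
  obtain ⟨Q, h1, h2, h3⟩ := L07_quot h h.lt_one hB.zero
  have hta : t - algebraMap F M a ≠ 0 := sub_ne_zero.mpr h.ne
  constructor
  · rw [h1, map_mul, h.v_eq_one h3 hB.simple, mul_one]
  · rw [h1, mul_div_cancel_left₀ _ hta]
    exact h3

lemma LocCtx.eval_rs (h : LocCtx v a t) {g D : F[X]} {δ : M} {ℓ : ℕ} (hB : BadCtx g D a t δ ℓ)
    {θ : M} (hθ : aeval θ g = t) : g.eval (rs F v θ) = a :=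
  h.eval_residue hθ (h.v_sub_rs (h.v_root_le hB.monic hB.deg hθ))

/-- the valuation ring -/
private def L07_ring (h : LocCtx v a t) : Subring M where
  carrier := {x | v x ≤ 1}
  mul_mem' {x y} hx hy := by
    have hx' : v x ≤ 1 := hx
    have hy' : v y ≤ 1 := hy
    show v (x * y) ≤ 1
    rw [map_mul]
    exact mul_le_one₀ hx' (v.nonneg y) hy'
  one_mem' := by
    show v 1 ≤ 1
    rw [map_one]
  add_mem' {x y} hx hy := (h.nonarch x y).trans (max_le hx hy)
  zero_mem' := by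
    show v 0 ≤ 1
    rw [map_zero]
    exact zero_le_one
  neg_mem' {x} hx := by
    show v (-x) ≤ 1
    rw [v.map_neg]
    exact hx

/-- divided differences -/
private lemma L07_taylor (h : LocCtx v a t) (g : F[X]) {x y : M} (hx : v x ≤ 1) (hy : v y ≤ 1) :
    ∃ k : M, v k ≤ 1 ∧ aeval (x + y) g = aeval x g + aeval x (derivative g) * y + k * y ^ 2 := by
  set R := L07_ring h with hR
  set φ : F →+* R := (algebraMap F M).codRestrict R (fun c => h.v_const_le c) with hφ
  set x' : R := ⟨x, hx⟩ with hx'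
  set y' : R := ⟨y, hy⟩ with hy'
  obtain ⟨k, hk⟩ := (g.map φ).binomExpansion x' y'
  refine ⟨(k : M), k.2, ?_⟩
  have key : ∀ (p : F[X]) (z : R), (((p.map φ).eval z : R) : M) = aeval (z : M) p := by
    intro p z
    rw [eval_map]
    have e := hom_eval₂ p φ R.subtype z
    rw [aeval_def]
    exact e
  have h1 := congrArg (fun r : R => (r : M)) hk
  simp only [Subring.coe_add, Subring.coe_mul, SubmonoidClass.coe_pow, derivative_map, key] at h1
  exact h1

/-- Two roots with the same residue are equal. -/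
lemma LocCtx.rs_injOn (h : LocCtx v a t) {g D : F[X]} {δ : M} {ℓ : ℕ} (hB : BadCtx g D a t δ ℓ)
    {θ θ' : M} (hθ : aeval θ g = t) (hθ' : aeval θ' g = t) (he : rs F v θ = rs F v θ') :
    θ = θ' := by
  have hv := h.v_root_le hB.monic hB.deg hθ
  have hv' := h.v_root_le hB.monic hB.deg hθ'
  have hr := h.v_sub_rs hv
  have hr' := h.v_sub_rs hv'
  rw [← he] at hr'
  have hd : v (θ' - θ) < 1 := by
    have e : θ' - θ = (θ' - algebraMap F M (rs F v θ)) + -(θ - algebraMap F M (rs F v θ)) := by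
      ring
    rw [e]
    refine (h.nonarch _ _).trans_lt (max_lt hr' ?_)
    rw [v.map_neg]
    exact hr
  obtain ⟨k, hk, hkt⟩ := L07_taylor h g hv hd.le
  rw [add_sub_cancel, hθ', hθ] at hkt
  have h0 : (θ' - θ) * (aeval θ (derivative g) + k * (θ' - θ)) = 0 := by
    linear_combination -hkt
  rcases mul_eq_zero.mp h0 with h1 | h1
  · exact (sub_eq_zero.mp h1).symm
  · exfalso
    have h2 := h.residue_eval hr (derivative g)
    have h3 : v (aeval θ (derivative g)) = 1 := h.v_eq_one h2 (hB.roots _ (h.eval_rs hB hθ))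
    have h4 : aeval θ (derivative g) = -(k * (θ' - θ)) := by linear_combination h1
    rw [h4, v.map_neg, map_mul] at h3
    have h5 : v k * v (θ' - θ) < 1 := by
      calc v k * v (θ' - θ) ≤ 1 * v (θ' - θ) := mul_le_mul_of_nonneg_right hk (v.nonneg _)
        _ < 1 := by rw [one_mul]; exact hd
    linarith

lemma LocCtx.exists_root (h : LocCtx v a t) [IsAlgClosed M] {g D : F[X]} {δ : M} {ℓ : ℕ}
    (hB : BadCtx g D a t δ ℓ) {β : F} (hβ : g.eval β = a) :
    ∃ θ : M, aeval θ g = t ∧ rs F v θ = β := by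
  set P : M[X] := g.map (algebraMap F M) - C t with hP
  have hgm : (g.map (algebraMap F M)).Monic := hB.monic.map _
  have hdeg : (g.map (algebraMap F M)).natDegree = g.natDegree := natDegree_map _
  have hPm : P.Monic := by
    apply hgm.sub_of_left
    rw [degree_eq_natDegree hgm.ne_zero, hdeg]
    refine (degree_C_le).trans_lt ?_
    have := hB.deg
    exact_mod_cast Nat.pos_of_ne_zero this
  have hsp : P.Splits := IsAlgClosed.splits P
  have hev := hsp.eval_eq_prod_roots_of_monic hPm (algebraMap F M β)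
  have hevβ : P.eval (algebraMap F M β) = -(t - algebraMap F M a) := by
    rw [hP, eval_sub, eval_C, eval_map_algebraMap, aeval_algebraMap_apply]
    have e : (aeval β g : F) = a := by
      rw [← hβ]
      exact coe_aeval_eq_eval β ▸ rfl
    rw [e]
    ring
  have hprod : v ((P.roots.map (fun θ => algebraMap F M β - θ)).prod) < 1 := by
    rw [← hev, hevβ, v.map_neg]
    exact h.lt_one
  have hex : ∃ θ ∈ P.roots, v (algebraMap F M β - θ) < 1 := by
    by_contra hcon
    push Not at hcon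
    have h1 : 1 ≤ v ((P.roots.map (fun θ => algebraMap F M β - θ)).prod) := by
      rw [map_multiset_prod, Multiset.map_map]
      have h2 : ∀ s : Multiset M, (∀ θ ∈ s, 1 ≤ v (algebraMap F M β - θ)) →
          1 ≤ (Multiset.map (⇑v ∘ fun θ => algebraMap F M β - θ) s).prod := by
        intro s
        induction s using Multiset.induction_on with
        | empty => intro _; simp
        | cons b s ih =>
          intro hs
          rw [Multiset.map_cons, Multiset.prod_cons]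
          have h3 := hs b (Multiset.mem_cons_self b s)
          have h4 := ih fun θ hθ => hs θ (Multiset.mem_cons_of_mem hθ)
          exact one_le_mul_of_one_le_of_one_le h3 h4
      exact h2 _ hcon
    linarith
  obtain ⟨θ, hθ, hv⟩ := hex
  have hroot : aeval θ g = t := by
    have h1 := (mem_roots hPm.ne_zero).mp hθ
    rw [IsRoot.def, hP, eval_sub, eval_C, eval_map_algebraMap] at h1
    exact sub_eq_zero.mp h1
  refine ⟨θ, hroot, h.rs_eq ?_⟩
  rw [← v.map_neg, neg_sub]
  exact hv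

/-- `(t - a) / (θ - β)` has residue `g'(β)`, where `β` is the residue of `θ`. -/
lemma LocCtx.residue_quot (h : LocCtx v a t) {g D : F[X]} {δ : M} {ℓ : ℕ}
    (hB : BadCtx g D a t δ ℓ) {θ : M} (hθ : aeval θ g = t) :
    v ((t - algebraMap F M a) / (θ - algebraMap F M (rs F v θ)) -
      algebraMap F M ((derivative g).eval (rs F v θ))) < 1 := by
  have hr := h.v_sub_rs (h.v_root_le hB.monic hB.deg hθ)
  have he := h.eval_rs hB hθ
  obtain ⟨Q, h1, h2, h3⟩ := L07_quot h (P := g - C a) hr (by rw [eval_sub, eval_C, he, sub_self])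
  rw [map_sub, aeval_C, hθ] at h1
  have hta : t - algebraMap F M a ≠ 0 := sub_ne_zero.mpr h.ne
  have hne : θ - algebraMap F M (rs F v θ) ≠ 0 := by
    intro h0
    rw [h0, zero_mul] at h1
    exact hta h1
  rw [h1, mul_div_cancel_left₀ _ hne]
  simpa using h3

lemma LocCtx.fix_root (h : LocCtx v a t) {g D : F[X]} {δ : M} {ℓ : ℕ}
    (hB : BadCtx g D a t δ ℓ) (τ : M ≃+* M) (hτ : ∀ x, v (τ x) = v x)
    (hc : ∀ c : F, τ (algebraMap F M c) = algebraMap F M c) (ht : τ t = t) {θ : M}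
    (hθ : aeval θ g = t) : τ θ = θ := by
  have h1 : aeval (τ θ) g = t := by
    have e : (τ : M →+* M).comp (algebraMap F M) = algebraMap F M := by
      ext c
      exact hc c
    have h2 := hom_eval₂ g (algebraMap F M) (τ : M →+* M) θ
    rw [e] at h2
    rw [aeval_def]
    have h3 : (τ : M →+* M) θ = τ θ := rfl
    rw [h3] at h2
    rw [← h2, ← aeval_def, hθ]
    exact ht
  apply h.rs_injOn hB h1 hθ
  apply h.rs_eq
  have hr := h.v_sub_rs (h.v_root_le hB.monic hB.deg hθ)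
  have e : τ θ - algebraMap F M (rs F v θ) = τ (θ - algebraMap F M (rs F v θ)) := by
    rw [map_sub, hc]
  rw [e, hτ]
  exact hr

lemma LocCtx.char_of_unit (h : LocCtx v a t) {δ : M} {ℓ : ℕ} (hℓ : ℓ ≠ 0) (hδ : δ ≠ 0) {ζ : F}
    (hζ : IsPrimitiveRoot ζ ℓ) (τ : M ≃+* M) (hτ : ∀ x, v (τ x) = v x)
    (hc : ∀ c : F, τ (algebraMap F M c) = algebraMap F M c) {z w : M} (i j : ℤ)
    (hj : τ δ = algebraMap F M ζ ^ j * δ) (hz : z ^ ℓ = (δ ^ ℓ) ^ i * w) (hw : τ w = w)
    (hw1 : v w = 1) : τ z = algebraMap F M ζ ^ (j * i) * z := by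
  have hδi : δ ^ i ≠ 0 := zpow_ne_zero _ hδ
  set y := z / δ ^ i with hy
  have hyℓ : y ^ ℓ = w := by
    rw [hy, div_pow, hz, ← zpow_natCast, ← zpow_natCast, ← zpow_mul, ← zpow_mul, mul_comm (ℓ : ℤ) i,
      mul_div_cancel_left₀ _ (zpow_ne_zero _ hδ)]
  have hvy : v y = 1 := by
    have h1 : v y ^ ℓ = 1 := by rw [← map_pow, hyℓ, hw1]
    exact (pow_eq_one_iff_of_nonneg (v.nonneg y) hℓ).mp h1
  have hfix := h.root_of_unit_fixed hℓ hζ τ hτ hc hvy (by rw [hyℓ, hw])
  have hzy : z = y * δ ^ i := by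
    rw [hy, div_mul_cancel₀ _ hδi]
  have e1 : τ z = y * (algebraMap F M ζ ^ j * δ) ^ i := by
    rw [hzy, map_mul, hfix, map_zpow₀, hj]
  rw [e1, mul_zpow, ← zpow_mul]
  conv_rhs => rw [hzy]
  ring

theorem LocCtx.bad_J2 (h : LocCtx v a t) {g D : F[X]} {δ : M} {ℓ : ℕ} (hB : BadCtx g D a t δ ℓ)
    [hG : IsGood ℓ (locPoly g t (aeval t D))] {ζ : F} (hζ : IsPrimitiveRoot ζ ℓ)
    (hζ' : IsPrimitiveRoot (algebraMap F M ζ) ℓ)
    (τ : Sym (locPoly g t (aeval t D))) (hτ : ∀ x, v ((τ : M ≃+* M) x) = v x)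
    (hc : ∀ c : F, (τ : M ≃+* M) (algebraMap F M c) = algebraMap F M c)
    (ht : (τ : M ≃+* M) t = t) (j : ℤ) (hj : (τ : M ≃+* M) δ = algebraMap F M ζ ^ j * δ)
    (Q : Jac ℓ (locPoly g t (aeval t D))) (r : M → ℤ)
    (hQ : Q - zJ (algebraMap F M ζ) hζ'.pow_eq_one Q = ram r) :
    symJ τ Q - Q = ram fun θ => j * r θ := by
  have := hG.alg
  have hd0 : aeval t D ≠ 0 := hB.ne
  have hf0 : (locPoly g t (aeval t D)) ≠ 0 := locPoly_ne_zero hB.monic hB.deg hd0
  have hsep : (locPoly g t (aeval t D)).Separable := hG.separable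
  have hℓ : ℓ ≠ 0 := hG.prime.ne_zero
  have hδ0 : δ ≠ 0 := by
    intro h0
    apply hd0
    rw [← hB.delta, h0, zero_pow hℓ]
  have hroot : ∀ θ : M, (locPoly g t (aeval t D)).eval θ = 0 → aeval θ g = t := fun θ hθ =>
    (eval_locPoly_eq_zero hd0).mp hθ
  have hfixr : ∀ θ : M, (locPoly g t (aeval t D)).eval θ = 0 → (τ : M ≃+* M) θ = θ := fun θ hθ =>
    h.fix_root hB (τ : M ≃+* M) hτ hc ht (hroot θ hθ)
  obtain ⟨z, hz1, hz2⟩ := kummer_formula (algebraMap F M ζ) hζ' Q (ramDiv r) hQ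
  have hmap : (ramDiv r : Pt ℓ (locPoly g t (aeval t D)) →₀ ℤ).mapDomain (Pt.sym τ) = ramDiv r := by
    rw [mapDomain_sym_ramDiv]
    apply ramDiv_congr
    intro θ hθ
    have e : ((τ⁻¹ : Sym (locPoly g t (aeval t D))) : M ≃+* M) θ = θ := by
      have h1 := hfixr θ hθ
      have h2 : ((τ⁻¹ : Sym (locPoly g t (aeval t D))) : M ≃+* M) ((τ : M ≃+* M) θ) = θ := by
        have h3 : ((τ⁻¹ : Sym (locPoly g t (aeval t D))) : M ≃+* M) = (τ : M ≃+* M)⁻¹ := rfl
        rw [h3]
        exact (τ : M ≃+* M).symm_apply_apply θ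
      rw [h1] at h2
      exact h2
    rw [e]
  apply hz2 τ (hc ζ) hmap
  intro θ hθ
  rw [hfixr θ hθ]
  obtain ⟨hz0, hzp⟩ := hz1 θ hθ
  rw [atR_ramDiv r hθ, uval_ramDiv r hθ] at hzp
  have hθr : θ ∈ rts (locPoly g t (aeval t D)) := (mem_rts hf0).mpr hθ
  have hder := derivative_locPoly_eval hB.monic hB.deg hd0 hsep hθr
  have hrts : (locPoly g t (aeval t D)).roots.toFinset = rts (locPoly g t (aeval t D)) := rfl
  rw [hder, hrts] at hzp
  have hvdiff : ∀ θ' ∈ (rts (locPoly g t (aeval t D))).erase θ, v (θ - θ') = 1 := by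
    intro θ' hθ'
    obtain ⟨hne, hmem⟩ := Finset.mem_erase.mp hθ'
    have h1 := hroot θ hθ
    have h2 := hroot θ' ((mem_rts hf0).mp hmem)
    have hr1 := h.v_sub_rs (h.v_root_le hB.monic hB.deg h1)
    have hr2 := h.v_sub_rs (h.v_root_le hB.monic hB.deg h2)
    have hne2 : rs F v θ - rs F v θ' ≠ 0 := by
      intro h0
      exact hne (h.rs_injOn hB h1 h2 (sub_eq_zero.mp h0)).symm
    apply h.v_eq_one (c := rs F v θ - rs F v θ') ?_ hne2
    have e : θ - θ' - algebraMap F M (rs F v θ - rs F v θ') =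
        (θ - algebraMap F M (rs F v θ)) + -(θ' - algebraMap F M (rs F v θ')) := by
      rw [map_sub]
      ring
    rw [e]
    refine (h.nonarch _ _).trans_lt (max_lt hr1 ?_)
    rw [v.map_neg]
    exact hr2
  have hτdiff : ∀ θ' ∈ (rts (locPoly g t (aeval t D))).erase θ, (τ : M ≃+* M) (θ - θ') = θ - θ' := by
    intro θ' hθ'
    obtain ⟨hne, hmem⟩ := Finset.mem_erase.mp hθ'
    rw [map_sub, hfixr θ hθ, hfixr θ' ((mem_rts hf0).mp hmem)]
  set w : M := ((-1) ^ (ℓ + 1)) ^ r θ * ((∏ θ' ∈ (rts (locPoly g t (aeval t D))).erase θ, (θ - θ'))⁻¹ ^ r θ *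
    ∏ θ' ∈ (rts (locPoly g t (aeval t D))).erase θ, (θ - θ') ^ r θ') with hw
  have hzw : z θ ^ ℓ = (δ ^ ℓ) ^ r θ * w := by
    rw [hzp, hw, hB.delta, mul_inv, inv_inv, mul_zpow]
    ring
  have hprod1 : v (∏ θ' ∈ (rts (locPoly g t (aeval t D))).erase θ, (θ - θ')) = 1 := by
    rw [map_prod]
    exact Finset.prod_eq_one hvdiff
  have hprod2 : v (∏ θ' ∈ (rts (locPoly g t (aeval t D))).erase θ, (θ - θ') ^ r θ') = 1 := by
    rw [map_prod]
    apply Finset.prod_eq_one
    intro θ' hθ'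
    rw [map_zpow₀, hvdiff θ' hθ', one_zpow]
  have hw1 : v w = 1 := by
    rw [hw, map_mul, map_mul, map_zpow₀, map_zpow₀, map_pow, map_inv₀, hprod1, hprod2, v.map_neg,
      map_one]
    simp
  have hτw : (τ : M ≃+* M) w = w := by
    rw [hw, map_mul, map_mul, map_zpow₀, map_zpow₀, map_pow, map_inv₀, map_prod, map_prod, map_neg,
      map_one]
    congr 2
    · rw [Finset.prod_congr rfl hτdiff]
    · apply Finset.prod_congr rfl
      intro θ' hθ'
      rw [map_zpow₀, hτdiff θ' hθ']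
  exact h.char_of_unit hℓ hδ0 hζ (τ : M ≃+* M) hτ hc (r θ) j hj hzw hτw hw1

end Pool.Agent.Lib.MP_89bcae_ag.Sup
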