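import Mathlib
import Pool.Agent.Lib.MP_89bcae_ag.Sup.L05
import Pool.Agent.Lib.MP_89bcae_ag.Sup.L07
import Pool.Agent.Lib.MP_89bcae_ag.Sup.R20

/-!
ROW L08 (120-220 lines). Bad place: the part of the local class over `F((t - a))(δ)`.

PROOF. `Γ₀ = {κ ∈ Γ | κ δ = δ}` is a subgroup.
(1) `LocGrp p F v t (v δ) Γ₀`: only the field `disc` is not clear. There is `τ₁` in `Γ` with
`τ₁ δ = ζ δ`: for `τ` in `Γ`, `(τ δ)^ℓ = τ d = d = δ^ℓ` (`τ` fixes `t` and `F`), so `τ δ = ζ^j δ` with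
`0 ≤ j < ℓ`; if `j = 0` for all `τ`, then `δ` is fixed by `Γ` so `v(δ)^{p^s} = v(t - a)^i =
v(δ)^{ℓ i}` (`v d = v (t - a)`, `v_bad`), `p^s = ℓ i`, impossible as `p` is prime to `ℓ > 1`
(`Val.dvd_of_zpow`); so some `j ≠ 0`, and a power of that `τ` has `j = 1` (`ℓ` prime). Let `x ≠ 0` be
fixed by `Γ₀` and `N = ∏_{i<ℓ} τ₁^i x`. `N` is fixed by `Γ`: for `κ` in `Γ₀`,
`κ τ₁^i x = τ₁^i (τ₁^{-i} κ τ₁^i) x = τ₁^i x` (`Γ₀` is normal in `Γ`: `ζ` is fixed by `Γ`), `τ₁` permutes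
the factors cyclically as `τ₁^ℓ ∈ Γ₀`, and every `σ` in `Γ` is `τ₁^j κ`. So
`v(x)^ℓ = v(N)` is in `ϖ^{Z[1/p]}`, `ϖ = v(t-a) = v(δ)^ℓ`, and `Val.root` gives `Val p (v δ) (v x)`.
(2) By hypothesis with `j = 0`, `π Q = Q - Z Q` is fixed by `Γ₀` (`ram 0 = 0`). By R20 `π Q = cl D`,
`D` fixed by `Γ₀`. Kummer formula R21: `(z θ)^ℓ = ε^{atR D θ} uval D θ`, fixed by `κ` in `Γ₀` (`sym_uval`,
`fix_root`). L05 with `Γ₀`, `ϖ := v δ`, `v d = (v δ)^ℓ`, `μ = 1` (`card_near`, simple roots):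
`v ((z θ)^ℓ) = v(uval D θ)` is in `Val p ((v δ)^ℓ)`, so `κ (z θ) = z θ` by `root_fixed_of_val` with
`π' = δ`. Hence `n = 0` in R21 and `κ Q - Q = ram 0 = 0`.
-/

open Polynomial

open scoped Classical

namespace Pool.Agent.Lib.MP_89bcae_ag.Sup

universe u

variable {F M : Type u} [Field F] [Field M] [Algebra F M] {v : AbsoluteValue M ℝ} {a : F} {t : M}

private lemma l08_pow (τ : M ≃+* M) {δ z : M} (hτ : τ δ = z * δ) (hz : τ z = z) (n : ℕ) :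
    (τ ^ n) δ = z ^ n * δ := by
  induction n with
  | zero => simp
  | succ n ih =>
    rw [pow_succ', RingAut.mul_apply, ih, map_mul, map_pow, hz, hτ]
    ring

private lemma l08_aeval (τ : M ≃+* M) (hc : ∀ c : F, τ (algebraMap F M c) = algebraMap F M c)
    (ht : τ t = t) (D : F[X]) : τ (aeval t D) = aeval t D := by
  have h3 : τ (aeval t D) = aeval (τ t) D := by
    rw [aeval_def, aeval_def]
    have h4 := hom_eval₂ D (algebraMap F M) (τ : M →+* M) t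
    have h5 : (τ : M →+* M).comp (algebraMap F M) = algebraMap F M := RingHom.ext hc
    rw [h5] at h4
    exact h4
  rw [h3, ht]

/-- There is an element of `Γ` which maps `δ` to `ζ δ`. -/
theorem LocCtx.exists_tame (h : LocCtx v a t) {g D : F[X]} {δ : M} {ℓ p : ℕ} (hp : p.Coprime ℓ)
    (hB : BadCtx g D a t δ ℓ) [hG : IsGood ℓ (locPoly g t (aeval t D))] {ζ : F}
    (hζ : IsPrimitiveRoot ζ ℓ) (hζ' : IsPrimitiveRoot (algebraMap F M ζ) ℓ)
    {Γ : Subgroup (Sym (locPoly g t (aeval t D)))}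
    (hΓ : LocGrp p F v t (v (t - algebraMap F M a)) Γ) :
    ∃ τ ∈ Γ, (τ : M ≃+* M) δ = algebraMap F M ζ * δ := by
  have hM : IsAlgClosed M := hG.alg
  have hℓ := hG.prime
  have hδ0 : δ ≠ 0 := by
    rintro rfl
    apply hB.ne
    rw [← hB.delta, zero_pow hℓ.ne_zero]
  have hd := (h.v_bad hB).1
  have hvδ : v δ ^ ℓ = v (t - algebraMap F M a) := by rw [← map_pow, hB.delta, hd]
  have hv0 : 0 < v δ := v.pos hδ0
  have hv1 : v δ < 1 := by
    by_contra hcon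
    push Not at hcon
    have h1 : 1 ≤ v δ ^ ℓ := one_le_pow₀ hcon
    rw [hvδ] at h1
    exact absurd h.lt_one (not_lt.mpr h1)
  -- the values of the automorphisms at `δ`
  have hval : ∀ τ ∈ Γ, ∃ j < ℓ, (τ : M ≃+* M) δ = algebraMap F M ζ ^ j * δ := by
    intro τ hτ
    have h1 : ((τ : M ≃+* M) δ) ^ ℓ = δ ^ ℓ := by
      rw [← map_pow, hB.delta]
      exact l08_aeval (τ : M ≃+* M) (hΓ.fix τ hτ) (hΓ.fixt τ hτ) D
    have h3 : ((τ : M ≃+* M) δ / δ) ^ ℓ = 1 := by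
      rw [div_pow, h1, div_self (pow_ne_zero ℓ hδ0)]
    have : NeZero ℓ := ⟨hℓ.ne_zero⟩
    obtain ⟨j, hj, hj'⟩ := hζ'.eq_pow_of_pow_eq_one h3
    exact ⟨j, hj, by rw [hj', div_mul_cancel₀ _ hδ0]⟩
  obtain ⟨τ, hτ, j, hj, hj0, hτj⟩ : ∃ τ ∈ Γ, ∃ j < ℓ, j ≠ 0 ∧
      (τ : M ≃+* M) δ = algebraMap F M ζ ^ j * δ := by
    by_contra hcon
    push Not at hcon
    have h1 : ∀ σ ∈ Γ, (σ : M ≃+* M) δ = δ := by
      intro σ hσ
      obtain ⟨j, hj, hj'⟩ := hval σ hσ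
      by_cases hj0 : j = 0
      · rw [hj', hj0, pow_zero, one_mul]
      · exact absurd hj' (hcon σ hσ j hj hj0)
    have h3 := hΓ.disc δ hδ0 h1
    rw [← hvδ] at h3
    have h4 := Val.dvd_of_zpow hp hv0 hv1 1 (by rw [zpow_one]; exact h3)
    have h5 : (ℓ : ℤ) ≤ 1 := Int.le_of_dvd one_pos h4
    have h6 := hℓ.one_lt
    omega
  -- a power
  have hcop : Nat.Coprime j ℓ :=
    Nat.Coprime.symm ((Nat.Prime.coprime_iff_not_dvd hℓ).mpr
      (fun h0 => absurd (Nat.le_of_dvd (Nat.pos_of_ne_zero hj0) h0) (not_le.mpr hj)))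
  obtain ⟨i, -, hi⟩ := Nat.exists_mul_mod_eq_one_of_coprime hcop hℓ.one_lt
  refine ⟨τ ^ i, Subgroup.pow_mem _ hτ i, ?_⟩
  have h1 : ((τ ^ i : Sym (locPoly g t (aeval t D))) : M ≃+* M) = (τ : M ≃+* M) ^ i := rfl
  rw [h1, l08_pow (τ : M ≃+* M) hτj (by rw [map_pow, hΓ.fix τ hτ]), ← pow_mul]
  congr 1
  rw [← Nat.div_add_mod (j * i) ℓ, hi, pow_add, pow_mul, hζ'.pow_eq_one, one_pow, one_mul,
    pow_one]


theorem LocCtx.bad_kernel (h : LocCtx v a t) {g D : F[X]} {δ : M} {ℓ p : ℕ} (hp : p.Coprime ℓ)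
    (hB : BadCtx g D a t δ ℓ) [hG : IsGood ℓ (locPoly g t (aeval t D))] {ζ : F}
    (hζ : IsPrimitiveRoot ζ ℓ) (hζ' : IsPrimitiveRoot (algebraMap F M ζ) ℓ)
    {Γ : Subgroup (Sym (locPoly g t (aeval t D)))}
    (hΓ : LocGrp p F v t (v (t - algebraMap F M a)) Γ)
    (Q : Jac ℓ (locPoly g t (aeval t D))) (r : M → ℤ)
    (hQ : ∀ τ ∈ Γ, ∀ j : ℤ, (τ : M ≃+* M) δ = algebraMap F M ζ ^ j * δ →
      (symJ τ Q - Q) - zJ (algebraMap F M ζ) hζ'.pow_eq_one (symJ τ Q - Q) =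
        ram fun θ => j * r θ)
    {κ : Sym (locPoly g t (aeval t D))} (hκ : κ ∈ Γ) (hκδ : (κ : M ≃+* M) δ = δ) :
    symJ κ Q = Q := by
  have hM : IsAlgClosed M := hG.alg
  have hℓ := hG.prime
  have hδ0 : δ ≠ 0 := by
    rintro rfl
    apply hB.ne
    rw [← hB.delta, zero_pow hℓ.ne_zero]
  have hd := (h.v_bad hB).1
  have hvδ : v δ ^ ℓ = v (t - algebraMap F M a) := by rw [← map_pow, hB.delta, hd]
  have hv0 : 0 < v δ := v.pos hδ0
  have hv1 : v δ < 1 := by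
    by_contra hcon
    push Not at hcon
    have h1 : 1 ≤ v δ ^ ℓ := one_le_pow₀ hcon
    rw [hvδ] at h1
    exact absurd h.lt_one (not_lt.mpr h1)
  have hsep := hG.separable
  -- the subgroup
  let Γ₀ : Subgroup (Sym (locPoly g t (aeval t D))) :=
    { carrier := {κ | κ ∈ Γ ∧ (κ : M ≃+* M) δ = δ}
      mul_mem' := by
        rintro x y ⟨hx, hx'⟩ ⟨hy, hy'⟩
        refine ⟨Γ.mul_mem hx hy, ?_⟩
        show (x : M ≃+* M) ((y : M ≃+* M) δ) = δ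
        rw [hy', hx']
      one_mem' := ⟨Γ.one_mem, rfl⟩
      inv_mem' := by
        rintro x ⟨hx, hx'⟩
        refine ⟨Γ.inv_mem hx, ?_⟩
        show (x : M ≃+* M).symm δ = δ
        rw [RingEquiv.symm_apply_eq, hx'] }
  have hΓ₀ : ∀ κ ∈ Γ₀, κ ∈ Γ ∧ (κ : M ≃+* M) δ = δ := fun κ hκ => hκ
  obtain ⟨τ, hτ, hτδ⟩ := h.exists_tame hp hB hζ hζ' hΓ
  have hτζ : (τ : M ≃+* M) (algebraMap F M ζ) = algebraMap F M ζ := hΓ.fix τ hτ ζ
  have hτi : ∀ i : ℕ, ((τ ^ i : Sym (locPoly g t (aeval t D))) : M ≃+* M) δ =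
      algebraMap F M ζ ^ i * δ := fun i => l08_pow (τ : M ≃+* M) hτδ hτζ i
  have hfixζ : ∀ σ ∈ Γ, ∀ i : ℕ, (σ : M ≃+* M) (algebraMap F M ζ ^ i) =
      algebraMap F M ζ ^ i := fun σ hσ i => by rw [map_pow, hΓ.fix σ hσ]
  have hζ0 : algebraMap F M ζ ≠ 0 := hζ'.ne_zero hℓ.ne_zero
  -- the values of the automorphisms at `δ`
  have hval : ∀ σ ∈ Γ, ∃ j : ℕ, (σ : M ≃+* M) δ = algebraMap F M ζ ^ j * δ := by
    intro σ hσ
    have h1 : ((σ : M ≃+* M) δ) ^ ℓ = δ ^ ℓ := by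
      rw [← map_pow, hB.delta]
      exact l08_aeval (σ : M ≃+* M) (hΓ.fix σ hσ) (hΓ.fixt σ hσ) D
    have h3 : ((σ : M ≃+* M) δ / δ) ^ ℓ = 1 := by
      rw [div_pow, h1, div_self (pow_ne_zero ℓ hδ0)]
    have : NeZero ℓ := ⟨hℓ.ne_zero⟩
    obtain ⟨j, hj, hj'⟩ := hζ'.eq_pow_of_pow_eq_one h3
    exact ⟨j, by rw [hj', div_mul_cancel₀ _ hδ0]⟩
  have hgrp : LocGrp p F v t (v δ) Γ₀ := by
    refine ⟨hv0, hv1, fun σ hσ => hΓ.inv σ hσ.1, fun σ hσ => hΓ.fix σ hσ.1,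
      fun σ hσ => hΓ.fixt σ hσ.1, fun x hx0 hx => ?_⟩
    -- the norm
    have hinv : ∀ (σ : Sym (locPoly g t (aeval t D))) (y : M),
        ((σ⁻¹ : Sym (locPoly g t (aeval t D))) : M ≃+* M) ((σ : M ≃+* M) y) = y := fun σ y =>
      (σ : M ≃+* M).symm_apply_apply y
    have hκx : ∀ κ ∈ Γ₀, ∀ i : ℕ, (κ : M ≃+* M)
        (((τ ^ i : Sym (locPoly g t (aeval t D))) : M ≃+* M) x) =
          ((τ ^ i : Sym (locPoly g t (aeval t D))) : M ≃+* M) x := by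
      intro κ hκ i
      have h1 : (τ ^ i)⁻¹ * κ * τ ^ i ∈ Γ₀ := by
        refine ⟨Γ.mul_mem (Γ.mul_mem (Γ.inv_mem (Γ.pow_mem hτ i)) (hΓ₀ κ hκ).1)
          (Γ.pow_mem hτ i), ?_⟩
        show (((τ ^ i)⁻¹ : Sym (locPoly g t (aeval t D))) : M ≃+* M) ((κ : M ≃+* M)
          (((τ ^ i : Sym (locPoly g t (aeval t D))) : M ≃+* M) δ)) = δ
        rw [hτi, map_mul, hfixζ κ (hΓ₀ κ hκ).1, (hΓ₀ κ hκ).2, ← hτi, hinv]
      have h3 := hx _ h1
      change (((τ ^ i)⁻¹ : Sym (locPoly g t (aeval t D))) : M ≃+* M) ((κ : M ≃+* M)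
          (((τ ^ i : Sym (locPoly g t (aeval t D))) : M ≃+* M) x)) = x at h3
      have h4 := congrArg (((τ ^ i : Sym (locPoly g t (aeval t D))) : M ≃+* M)) h3
      exact ((((τ ^ i : Sym (locPoly g t (aeval t D))) : M ≃+* M)).apply_symm_apply _).symm.trans h4
    have hN : ∀ σ ∈ Γ, (σ : M ≃+* M) (∏ i ∈ Finset.range ℓ,
        ((τ ^ i : Sym (locPoly g t (aeval t D))) : M ≃+* M) x) =
          ∏ i ∈ Finset.range ℓ, ((τ ^ i : Sym (locPoly g t (aeval t D))) : M ≃+* M) x := by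
      have hN0 : ∀ σ ∈ Γ₀, (σ : M ≃+* M) (∏ i ∈ Finset.range ℓ,
          ((τ ^ i : Sym (locPoly g t (aeval t D))) : M ≃+* M) x) =
            ∏ i ∈ Finset.range ℓ, ((τ ^ i : Sym (locPoly g t (aeval t D))) : M ≃+* M) x := by
        intro σ hσ
        rw [map_prod]
        exact Finset.prod_congr rfl fun i _ => hκx σ hσ i
      have hτN : (τ : M ≃+* M) (∏ i ∈ Finset.range ℓ,
          ((τ ^ i : Sym (locPoly g t (aeval t D))) : M ≃+* M) x) =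
            ∏ i ∈ Finset.range ℓ, ((τ ^ i : Sym (locPoly g t (aeval t D))) : M ≃+* M) x := by
        rw [map_prod]
        have h1 : ∀ i ∈ Finset.range ℓ, (τ : M ≃+* M)
            (((τ ^ i : Sym (locPoly g t (aeval t D))) : M ≃+* M) x) =
              ((τ ^ (i + 1) : Sym (locPoly g t (aeval t D))) : M ≃+* M) x := by
          intro i _
          rw [pow_succ']
          rfl
        rw [Finset.prod_congr rfl h1]
        have h3 : ((τ ^ ℓ : Sym (locPoly g t (aeval t D))) : M ≃+* M) x = x := by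
          refine hx _ ⟨Γ.pow_mem hτ ℓ, ?_⟩
          rw [hτi, hζ'.pow_eq_one, one_mul]
        obtain ⟨m, hm⟩ : ∃ m, ℓ = m + 1 := ⟨ℓ - 1, by have := hℓ.pos; omega⟩
        have h4 : ((τ ^ (m + 1) : Sym (locPoly g t (aeval t D))) : M ≃+* M) x = x := by
          rw [← hm]; exact h3
        have h5 : ∏ i ∈ Finset.range ℓ,
            ((τ ^ (i + 1) : Sym (locPoly g t (aeval t D))) : M ≃+* M) x =
            (∏ i ∈ Finset.range m,
              ((τ ^ (i + 1) : Sym (locPoly g t (aeval t D))) : M ≃+* M) x) * x := by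
          rw [hm, Finset.prod_range_succ, h4]
        have h6 : ∏ i ∈ Finset.range ℓ,
            ((τ ^ i : Sym (locPoly g t (aeval t D))) : M ≃+* M) x =
            (∏ i ∈ Finset.range m,
              ((τ ^ (i + 1) : Sym (locPoly g t (aeval t D))) : M ≃+* M) x) * x := by
          rw [hm, Finset.prod_range_succ']
          rfl
        rw [h5, h6]
      have hτN' : ∀ i : ℕ, (((τ ^ i : Sym (locPoly g t (aeval t D))) : M ≃+* M))
          (∏ i ∈ Finset.range ℓ,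
            ((τ ^ i : Sym (locPoly g t (aeval t D))) : M ≃+* M) x) =
            ∏ i ∈ Finset.range ℓ, ((τ ^ i : Sym (locPoly g t (aeval t D))) : M ≃+* M) x := by
        intro i
        induction i with
        | zero => rfl
        | succ i ih =>
          rw [pow_succ]
          show ((τ ^ i : Sym (locPoly g t (aeval t D))) : M ≃+* M) ((τ : M ≃+* M)
            (∏ i ∈ Finset.range ℓ,
              ((τ ^ i : Sym (locPoly g t (aeval t D))) : M ≃+* M) x)) = _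
          rw [hτN, ih]
      intro σ hσ
      obtain ⟨j, hj⟩ := hval σ hσ
      have h1 : (τ ^ j)⁻¹ * σ ∈ Γ₀ := by
        refine ⟨Γ.mul_mem (Γ.inv_mem (Γ.pow_mem hτ j)) hσ, ?_⟩
        show (((τ ^ j)⁻¹ : Sym (locPoly g t (aeval t D))) : M ≃+* M) ((σ : M ≃+* M) δ) = δ
        rw [hj, ← hτi, hinv]
      have h3 := hN0 _ h1
      change (((τ ^ j)⁻¹ : Sym (locPoly g t (aeval t D))) : M ≃+* M) ((σ : M ≃+* M) _) = _ at h3
      have h4 := congrArg (((τ ^ j : Sym (locPoly g t (aeval t D))) : M ≃+* M)) h3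
      rw [hτN' j] at h4
      exact ((((τ ^ j : Sym (locPoly g t (aeval t D))) : M ≃+* M)).apply_symm_apply _).symm.trans h4
    have hN1 : v (∏ i ∈ Finset.range ℓ,
        ((τ ^ i : Sym (locPoly g t (aeval t D))) : M ≃+* M) x) = v x ^ ℓ := by
      rw [map_prod, Finset.prod_congr rfl fun i _ => hΓ.inv _ (Γ.pow_mem hτ i) x,
        Finset.prod_const, Finset.card_range]
    have hN2 := hΓ.disc _ (Finset.prod_ne_zero_iff.mpr fun i _ =>
      (EmbeddingLike.map_ne_zero_iff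
        (f := ((τ ^ i : Sym (locPoly g t (aeval t D))) : M ≃+* M))).mpr hx0) hN
    rw [hN1, ← hvδ] at hN2
    exact Val.root hℓ.ne_zero hv0 (v.pos hx0) hN2
  -- the class `Q - Z Q`
  have hram0 : ∀ r : M → ℤ, (ram fun θ => 0 * r θ : Jac ℓ (locPoly g t (aeval t D))) = 0 := by
    intro r
    rw [ram_eq_zero_iff (algebraMap F M ζ) hζ']
    exact ⟨0, fun θ _ => by simp⟩
  have hstab : ∀ σ ∈ (Γ₀ : Set (Sym (locPoly g t (aeval t D)))),
      symJ σ (Q - zJ (algebraMap F M ζ) hζ'.pow_eq_one Q) =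
        Q - zJ (algebraMap F M ζ) hζ'.pow_eq_one Q := by
    intro σ hσ
    have h1 := hQ σ (hΓ₀ σ hσ).1 0 (by rw [zpow_zero, one_mul]; exact (hΓ₀ σ hσ).2)
    rw [hram0, map_sub, zJ_symJ _ _ σ (hΓ.fix σ (hΓ₀ σ hσ).1 ζ)] at h1
    rw [map_sub, ← sub_eq_zero, ← h1]
    abel
  obtain ⟨D', hD', hD'σ⟩ := exists_stable (algebraMap F M ζ) hζ'
    (Γ₀ : Set (Sym (locPoly g t (aeval t D))))
    (Q - zJ (algebraMap F M ζ) hζ'.pow_eq_one Q) hstab
  obtain ⟨z, hz, hkum⟩ := kummer_formula (algebraMap F M ζ) hζ' Q D' hD'.symm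
  have hκ₀ : κ ∈ Γ₀ := ⟨hκ, hκδ⟩
  have hfin := hkum κ (hΓ.fix κ hκ ζ) (hD'σ κ hκ₀) (fun _ => 0) (by
    intro θ hθ
    rw [zpow_zero, one_mul]
    have hθg : aeval θ g = t := (eval_locPoly_eq_zero hB.ne).mp hθ
    have hκθ : (κ : M ≃+* M) θ = θ := h.fix_root hB (κ : M ≃+* M) (hΓ.inv κ hκ) (hΓ.fix κ hκ)
      (hΓ.fixt κ hκ) hθg
    rw [hκθ]
    obtain ⟨hz0, hzℓ⟩ := hz θ hθ
    -- the only root near the residue
    have hle : v θ ≤ 1 := h.v_root_le hB.monic hB.deg hθg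
    have hne : locPoly g t (aeval t D) ≠ 0 := locPoly_ne_zero hB.monic hB.deg hB.ne
    have hmem : θ ∈ near v (locPoly g t (aeval t D)) (rs F v θ) := by
      unfold near
      rw [Finset.mem_filter, mem_rts hne]
      exact ⟨hθ, h.v_sub_rs hle⟩
    have huniq : ∀ θ' ∈ near v (locPoly g t (aeval t D)) (rs F v θ), θ' = θ := by
      intro θ' hθ'
      unfold near at hθ'
      rw [Finset.mem_filter, mem_rts hne] at hθ'
      exact h.rs_injOn hB ((eval_locPoly_eq_zero hB.ne).mp hθ'.1) hθg (h.rs_eq hθ'.2)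
    have hcard : (near v (locPoly g t (aeval t D)) (rs F v θ)).card = 1 := by
      rw [Finset.card_eq_one]
      exact ⟨θ, Finset.eq_singleton_iff_unique_mem.mpr ⟨hmem, huniq⟩⟩
    have hdv : Val p (v δ ^ ℓ) (v (aeval t D)) :=
      ⟨0, 1, by rw [pow_zero, pow_one, zpow_one, hd, hvδ]⟩
    have hval' := h.val_uval hB.monic hB.deg hB.ne hB.cop hgrp hdv D' hD'σ
      (fun θ₁ h1 θ₂ h2 => ⟨1, Γ₀.one_mem, by
        rw [huniq θ₁ h1, huniq θ₂ h2]; rfl⟩) hmem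
    rw [hcard, pow_one] at hval'
    have hsgn : ∀ n : ℤ, v (((-1 : M) ^ (ℓ + 1)) ^ n) = 1 := by
      intro n
      rw [map_zpow₀, map_pow, AbsoluteValue.map_neg, map_one, one_pow, one_zpow]
    apply h.root_fixed_of_val hℓ.ne_zero hp hζ (κ : M ≃+* M) (hΓ.inv κ hκ) (hΓ.fix κ hκ) hz0 hδ0
      hκδ
    · rw [hzℓ, map_mul, sym_uval κ D' (hD'σ κ hκ₀), hκθ, map_zpow₀, map_pow, map_neg, map_one]
    · rw [hzℓ, map_mul, hsgn, one_mul]
      exact hval')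
  have h0 : (ram (fun _ => 0) : Jac ℓ (locPoly g t (aeval t D))) = 0 := by
    rw [ram_eq_zero_iff (algebraMap F M ζ) hζ']
    exact ⟨0, fun θ _ => by simp⟩
  rw [h0, sub_eq_zero] at hfin
  exact hfin

end Pool.Agent.Lib.MP_89bcae_ag.Sup
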