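import Mathlib
import Pool.Agent.Lib.MP_89bcae_ag.Sup.L08

/-!
ROW L09 (200-350 lines). THE LOCAL FORMULA at a bad place.

Setting: `u` in `Sym f` is an automorphism of `M` preserving `v` and `t`, acting on `F` by `U`, where
`U` fixes `ζ` and every element of the finite set `R`, which contains the fibre `g(x) = a`; `u` fixes
`a`, and normalizes `Γ`. `C τ = τ Q - Q` for `τ` in `Γ`, with `π (C τ) = ram (j e)` if
`τ δ = ζ^j δ` (`e` a function on `F`, extended to the roots `θ` of `f` by their residues). `A` is a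
class with `π A = ram (-q)`, where `u (z θ) = ζ^{q(θ)} z θ`, `(z θ)^ℓ = ∏_{β∈R} (θ - β)^{e(β)}`. Finally
`ram (j e') = u (C τ) - C (u τ u⁻¹) + (u τ u⁻¹) A - A` whenever `τ δ = ζ^j δ`.
CONCLUSION: there is `c` such that for all `β` with `g(β) = a` and all `y` in `F` with
`y^ℓ = (ε D'(a))^{e(β)} ∏_{β' ∈ R, g(β') ≠ a} (β - β')^{-e(β')}`, `ε = (-1)^(ℓ+1)`:
`U(y) = ζ^{e'(β) + c} y`.

PROOF. Take `τ` in `Γ` with `τ δ = ζ δ` (`exists_tame`), `τ' = u τ u⁻¹`. `u δ = ζ^i δ` for some `i`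
(`(u δ)^ℓ = u d = d`: `d = D(t)` is fixed by `u`: it is given that `u ∈ Sym f` and `u` fixes `t`; see
`hud`), so `τ' δ = ζ δ`. `κ = τ⁻¹ τ'` is in `Γ` and fixes `δ`, so `κ Q = Q` (L08), so
`C τ' = τ κ Q - Q = C τ`. By `bad_J2` applied to `A`, `r = -q`, `τ'`: `τ' A - A = ram (-q)`. So
`ram e' = (u (C τ) - C τ) - ram q`. By R21 for the class `C τ` with `π (C τ) = ram e = cl (ramDiv e)`
(`e` through residues) and `σ = u`, which fixes `ζ` and all the roots `θ` (`u θ` is a root of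
`g(x) = t` with the same residue: `U β = β`; so it fixes `ramDiv e`): there are `w θ` with
`(w θ)^ℓ = ε^{e(θ)} uval (ramDiv e) θ` and `u (C τ) - C τ = ram n`, `u (w θ) = ζ^{n(θ)} w θ` (such `n`
exists since `u` fixes `(w θ)^ℓ`). So by `ram_eq_zero_iff`: `e'(θ) ≡ n(θ) - q(θ) - c` for a constant `c`.
Let `Y = w θ / z θ`: `u Y = ζ^{n - q} Y = ζ^{e'(β) + c} Y`, and (`uval_ramDiv`,
`derivative_locPoly_eval`, `β = ` residue of `θ`)
`Y^ℓ = ε^{e(β)} (d / (G θ (θ - β)))^{e(β)} ∏_{θ' ≠ θ} ((θ - θ') / (θ - β'))^{e(β')} ·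
∏_{β' ∈ R, g(β') ≠ a} (θ - β')^{-e(β')}` where `G θ = ∏_{θ' ≠ θ} (θ - θ')`, `β' = ` residue of `θ'`. The
residues are: `d/(t-a) → D'(a)` (`v_bad`), `(t-a)/(θ-β) → g'(β)` (`residue_quot`),
`G θ → g'(β)` (product of the `β - β'`, `g - a = ∏ (X - β')`), `(θ-θ')/(θ-β') → 1`,
`θ - β' → β - β'`. So `Y` is a unit whose residue `y₀` satisfies the equation of `y`, and
`u Y = ζ^{..} Y` gives `U y₀ = ζ^{e'(β)+c} y₀` (the residue of `u Y` is `U y₀`), and `y / y₀` is a power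
of `ζ`, fixed by `U`.
-/

open Polynomial

open scoped Classical

namespace Pool.Agent.Lib.MP_89bcae_ag.Sup

universe u

variable {F M : Type u} [Field F] [Field M] [Algebra F M] {v : AbsoluteValue M ℝ} {a : F} {t : M}

private lemma L09_exists_zpow {K : Type*} [Field K] {ℓ : ℕ} (hℓ : ℓ ≠ 0) {ζ : K}
    (hζ : IsPrimitiveRoot ζ ℓ) {x y : K} (hy : y ≠ 0) (h : x ^ ℓ = y ^ ℓ) :
    ∃ k : ℤ, x = ζ ^ k * y := by
  have : NeZero ℓ := ⟨hℓ⟩
  have h1 : (x / y) ^ ℓ = 1 := by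
    rw [div_pow, h, div_self (pow_ne_zero _ hy)]
  obtain ⟨i, _, hi⟩ := hζ.eq_pow_of_pow_eq_one h1
  refine ⟨i, ?_⟩
  rw [zpow_natCast, hi, div_mul_cancel₀ _ hy]

private lemma L09_zpow_eq {K : Type*} [Field K] {ℓ : ℕ} (hℓ : ℓ ≠ 0) {ζ : K}
    (hζ : IsPrimitiveRoot ζ ℓ) {i j : ℤ} (h : (ℓ : ℤ) ∣ i - j) : ζ ^ i = ζ ^ j := by
  obtain ⟨k, hk⟩ := h
  have h0 : ζ ≠ 0 := hζ.ne_zero hℓ
  have : i = j + ℓ * k := by omega
  rw [this, zpow_add₀ h0, zpow_mul, zpow_natCast, hζ.pow_eq_one, one_zpow, mul_one]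

private lemma L09_symJ_mul {ℓ : ℕ} {E : Type u} [Field E] {f : E[X]} [hG : IsGood ℓ f]
    (σ τ : Sym f) (Q : Jac ℓ f) : symJ (σ * τ) Q = symJ σ (symJ τ Q) := by
  obtain ⟨D, rfl⟩ := cl_surjective Q
  rw [symJ_cl, symJ_cl, symJ_cl, ← Finsupp.mapDomain_comp]
  rfl

private lemma L09_res_const (x : F) : v (algebraMap F M x - algebraMap F M x) < 1 := by
  rw [sub_self, map_zero]; exact one_pos

private lemma L09_res_sub (h : LocCtx v a t) {x y : M} {c d : F}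
    (hc : v (x - algebraMap F M c) < 1) (hd : v (y - algebraMap F M d) < 1) :
    v (x - y - algebraMap F M (c - d)) < 1 := by
  have e : x - y - algebraMap F M (c - d) =
      (x - algebraMap F M c) + -(y - algebraMap F M d) := by
    rw [map_sub]; ring
  rw [e]
  refine lt_of_le_of_lt (h.nonarch _ _) (max_lt hc ?_)
  rw [map_neg_eq_map]
  exact hd

private lemma L09_res_prod (h : LocCtx v a t) {ι : Type*} (s : Finset ι) (x : ι → M) (c : ι → F)
    (hx : ∀ i ∈ s, v (x i - algebraMap F M (c i)) < 1) :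
    v (∏ i ∈ s, x i - algebraMap F M (∏ i ∈ s, c i)) < 1 := by
  induction s using Finset.induction_on with
  | empty => simp
  | insert i s hi ih =>
    rw [Finset.prod_insert hi, Finset.prod_insert hi]
    exact h.residue_mul (hx i (Finset.mem_insert_self _ _))
      (ih fun j hj => hx j (Finset.mem_insert_of_mem hj))

private lemma L09_res_div (h : LocCtx v a t) {x y : M} {c d : F}
    (hc : v (x - algebraMap F M c) < 1) (hd : v (y - algebraMap F M d) < 1) (h0 : d ≠ 0) :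
    v (x / y - algebraMap F M (c / d)) < 1 := by
  rw [div_eq_mul_inv, div_eq_mul_inv]
  exact h.residue_mul hc (h.residue_inv hd h0)

private lemma L09_res_pow (h : LocCtx v a t) {x : M} {c : F}
    (hc : v (x - algebraMap F M c) < 1) (n : ℕ) :
    v (x ^ n - algebraMap F M (c ^ n)) < 1 := by
  have := h.residue_eval hc (X ^ n)
  simpa using this

/-- the derivative of `locPoly` -/
private lemma L09_deriv (g : F[X]) (t d θ : M) :
    (derivative (locPoly g t d)).eval θ = d⁻¹ * aeval θ (derivative g) := by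
  unfold locPoly
  rw [derivative_mul, derivative_C, zero_mul, zero_add, derivative_sub, derivative_C, sub_zero,
    eval_mul, eval_C, derivative_map, eval_map, aeval_def]

section key

variable {g D : F[X]} {δ : M} {ℓ : ℕ}

private lemma L09_mem_rts (hB : BadCtx g D a t δ ℓ) {θ : M} :
    θ ∈ rts (locPoly g t (aeval t D)) ↔ aeval θ g = t := by
  rw [mem_rts (locPoly_ne_zero hB.monic hB.deg hB.ne), eval_locPoly_eq_zero hB.ne]

private lemma L09_sub_ne (h : LocCtx v a t) (hB : BadCtx g D a t δ ℓ) {θ : M}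
    (hθ : aeval θ g = t) : θ - algebraMap F M (rs F v θ) ≠ 0 := by
  intro h0
  have h1 := h.residue_quot hB hθ
  rw [h0, div_zero, zero_sub, map_neg_eq_map] at h1
  rw [h.const _ (hB.roots _ (h.eval_rs hB hθ))] at h1
  exact lt_irrefl _ h1

private lemma L09_v_sub_rs (h : LocCtx v a t) (hB : BadCtx g D a t δ ℓ) {θ : M}
    (hθ : aeval θ g = t) : v (θ - algebraMap F M (rs F v θ)) < 1 :=
  h.v_sub_rs (h.v_root_le hB.monic hB.deg hθ)

private lemma L09_filter_eq (h : LocCtx v a t) [IsAlgClosed M] (hB : BadCtx g D a t δ ℓ)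
    (R : Finset F) (hR : ∀ β, g.eval β = a → β ∈ R) :
    (R.filter fun β => g.eval β = a) = (rts (locPoly g t (aeval t D))).image (rs F v) := by
  ext β
  rw [Finset.mem_filter, Finset.mem_image]
  constructor
  · rintro ⟨_, hβ⟩
    obtain ⟨θ, hθ, hr⟩ := h.exists_root hB hβ
    exact ⟨θ, (L09_mem_rts hB).2 hθ, hr⟩
  · rintro ⟨θ, hθ, rfl⟩
    have := h.eval_rs hB ((L09_mem_rts hB).1 hθ)
    exact ⟨hR _ this, this⟩

private lemma L09_prod (h : LocCtx v a t) [IsAlgClosed M] (hB : BadCtx g D a t δ ℓ)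
    (R : Finset F) (hR : ∀ β, g.eval β = a → β ∈ R) (e : F → ℤ) {θ : M}
    (hθ : aeval θ g = t) :
    ∏ β ∈ R, (θ - algebraMap F M β) ^ e β =
      (θ - algebraMap F M (rs F v θ)) ^ e (rs F v θ) *
      (∏ θ' ∈ (rts (locPoly g t (aeval t D))).erase θ,
        (θ - algebraMap F M (rs F v θ')) ^ e (rs F v θ')) *
      ∏ β ∈ R.filter fun β => g.eval β ≠ a, (θ - algebraMap F M β) ^ e β := by
  rw [← Finset.prod_filter_mul_prod_filter_not R (fun β => g.eval β = a),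
    L09_filter_eq h hB R hR, Finset.prod_image, ← Finset.mul_prod_erase _ _ ((L09_mem_rts hB).2 hθ)]
  intro x hx y hy hxy
  exact h.rs_injOn hB ((L09_mem_rts hB).1 hx) ((L09_mem_rts hB).1 hy) hxy

private lemma L09_key (h : LocCtx v a t) (hB : BadCtx g D a t δ ℓ)
    [hG : IsGood ℓ (locPoly g t (aeval t D))] (R : Finset F) (hR : ∀ β, g.eval β = a → β ∈ R)
    (e : F → ℤ) {θ : M} (hθ : aeval θ g = t) :
    v ((((-1) ^ (ℓ + 1)) ^ (e (rs F v θ)) *
        uval (ramDiv (fun θ' => e (rs F v θ')) : Pt ℓ (locPoly g t (aeval t D)) →₀ ℤ) θ) /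
        ∏ β ∈ R, (θ - algebraMap F M β) ^ (e β) -
      algebraMap F M (((-1) ^ (ℓ + 1) * (derivative D).eval a) ^ e (rs F v θ) *
        ∏ β' ∈ R.filter fun β' => g.eval β' ≠ a, (rs F v θ - β') ^ (-e β'))) < 1 := by
  have hA : IsAlgClosed M := hG.alg
  have hmem := (L09_mem_rts hB).2 hθ
  have hev : (locPoly g t (aeval t D)).eval θ = 0 := (eval_locPoly_eq_zero hB.ne).2 hθ
  have hta : t - algebraMap F M a ≠ 0 := sub_ne_zero.2 h.ne
  have hsub := L09_sub_ne h hB hθ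
  have hr := L09_v_sub_rs h hB hθ
  have hg' : (derivative g).eval (rs F v θ) ≠ 0 := hB.roots _ (h.eval_rs hB hθ)
  rw [uval_ramDiv _ hev, L09_deriv, L09_prod h hB R hR e hθ]
  have e1 : ((-1) ^ (ℓ + 1)) ^ e (rs F v θ) *
      (((aeval t D)⁻¹ * aeval θ (derivative g))⁻¹ ^ e (rs F v θ) *
        ∏ θ' ∈ (locPoly g t (aeval t D)).roots.toFinset.erase θ, (θ - θ') ^ e (rs F v θ')) /
      ((θ - algebraMap F M (rs F v θ)) ^ e (rs F v θ) *
        (∏ θ' ∈ (rts (locPoly g t (aeval t D))).erase θ,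
          (θ - algebraMap F M (rs F v θ')) ^ e (rs F v θ')) *
        ∏ β ∈ R.filter fun β => g.eval β ≠ a, (θ - algebraMap F M β) ^ e β) =
      (((-1) ^ (ℓ + 1)) * ((aeval t D / (t - algebraMap F M a)) *
        ((t - algebraMap F M a) / (θ - algebraMap F M (rs F v θ))) *
        (aeval θ (derivative g))⁻¹)) ^ e (rs F v θ) *
      (∏ θ' ∈ (rts (locPoly g t (aeval t D))).erase θ,
        ((θ - θ') / (θ - algebraMap F M (rs F v θ'))) ^ e (rs F v θ')) *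
      ∏ β ∈ R.filter fun β => g.eval β ≠ a, (θ - algebraMap F M β) ^ (-e β) := by
    have e2 : (aeval t D / (t - algebraMap F M a)) *
        ((t - algebraMap F M a) / (θ - algebraMap F M (rs F v θ))) *
        (aeval θ (derivative g))⁻¹ =
        ((aeval t D)⁻¹ * aeval θ (derivative g))⁻¹ / (θ - algebraMap F M (rs F v θ)) := by
      rw [mul_inv, inv_inv]
      field_simp
    rw [e2]
    simp only [zpow_neg, div_zpow, mul_zpow, Finset.prod_inv_distrib, Finset.prod_div_distrib]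
    unfold rts
    simp only [div_eq_mul_inv, mul_inv]
    ring
  rw [e1]
  have e3 : ((-1) ^ (ℓ + 1) * (derivative D).eval a) ^ e (rs F v θ) *
        ∏ β' ∈ R.filter fun β' => g.eval β' ≠ a, (rs F v θ - β') ^ (-e β') =
      ((-1) ^ (ℓ + 1) * ((derivative D).eval a * (derivative g).eval (rs F v θ) *
        ((derivative g).eval (rs F v θ))⁻¹)) ^ e (rs F v θ) *
      (∏ θ' ∈ (rts (locPoly g t (aeval t D))).erase θ,
        ((rs F v θ - rs F v θ') / (rs F v θ - rs F v θ')) ^ e (rs F v θ')) *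
      ∏ β' ∈ R.filter fun β' => g.eval β' ≠ a, (rs F v θ - β') ^ (-e β') := by
    have e4 : (∏ θ' ∈ (rts (locPoly g t (aeval t D))).erase θ,
        ((rs F v θ - rs F v θ') / (rs F v θ - rs F v θ')) ^ e (rs F v θ')) = 1 := by
      refine Finset.prod_eq_one ?_
      intro θ' hθ'
      have hne : rs F v θ - rs F v θ' ≠ 0 := by
        intro h0
        exact (Finset.ne_of_mem_erase hθ').symm (h.rs_injOn hB hθ
          ((L09_mem_rts hB).1 (Finset.mem_of_mem_erase hθ')) (sub_eq_zero.1 h0))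
      rw [div_self hne, one_zpow]
    rw [e4, mul_inv_cancel_right₀ hg', mul_one]
  rw [e3]
  refine h.residue_mul (h.residue_mul ?_ ?_) ?_
  · refine h.residue_zpow ?_ ?_ _
    · refine h.residue_mul ?_ (h.residue_mul (h.residue_mul (h.v_bad hB).2 (h.residue_quot hB hθ)) ?_)
      · have : ((-1 : M) ^ (ℓ + 1)) = algebraMap F M ((-1) ^ (ℓ + 1)) := by
          rw [map_pow, map_neg, map_one]
        rw [this]
        exact L09_res_const _
      · exact h.residue_inv (h.residue_eval hr _) hg'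
    · rw [mul_inv_cancel_right₀ hg']
      exact mul_ne_zero (pow_ne_zero _ (neg_ne_zero.2 one_ne_zero)) hB.simple
  · refine L09_res_prod h _ _ _ ?_
    intro θ' hθ'
    have hθ'' := (L09_mem_rts hB).1 (Finset.mem_of_mem_erase hθ')
    have hne : rs F v θ - rs F v θ' ≠ 0 := by
      intro h0
      exact (Finset.ne_of_mem_erase hθ').symm (h.rs_injOn hB hθ hθ'' (sub_eq_zero.1 h0))
    refine h.residue_zpow (L09_res_div h (L09_res_sub h hr (L09_v_sub_rs h hB hθ''))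
      (L09_res_sub h hr (L09_res_const _)) hne) (div_ne_zero hne hne) _
  · refine L09_res_prod h _ _ _ ?_
    intro β hβ
    refine h.residue_zpow (L09_res_sub h hr (L09_res_const _)) ?_ _
    intro h0
    rw [Finset.mem_filter] at hβ
    apply hβ.2
    rw [← sub_eq_zero.1 h0]
    exact h.eval_rs hB hθ

end key

theorem LocCtx.bad_formula (h : LocCtx v a t) {g D : F[X]} {δ : M} {ℓ p : ℕ} (hp : p.Coprime ℓ)
    (hB : BadCtx g D a t δ ℓ) [hG : IsGood ℓ (locPoly g t (aeval t D))] {ζ : F}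
    (hζ : IsPrimitiveRoot ζ ℓ) (hζ' : IsPrimitiveRoot (algebraMap F M ζ) ℓ)
    {Γ : Subgroup (Sym (locPoly g t (aeval t D)))}
    (hΓ : LocGrp p F v t (v (t - algebraMap F M a)) Γ)
    -- the automorphism `u`
    (u : Sym (locPoly g t (aeval t D))) (U : F ≃+* F) (huv : ∀ x, v ((u : M ≃+* M) x) = v x)
    (huF : ∀ c : F, (u : M ≃+* M) (algebraMap F M c) = algebraMap F M (U c))
    (hut : (u : M ≃+* M) t = t) (hug : g.map (U : F →+* F) = g)
    (hud : (u : M ≃+* M) (aeval t D) = aeval t D)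
    (hUζ : U ζ = ζ) (hnorm : ∀ τ ∈ Γ, u * τ * u⁻¹ ∈ Γ)
    -- the exponents
    (R : Finset F) (hR : ∀ β, g.eval β = a → β ∈ R) (hUR : ∀ β ∈ R, U β = β) (hUa : U a = a)
    (e : F → ℤ) (Q : Jac ℓ (locPoly g t (aeval t D)))
    (hC : ∀ τ ∈ Γ, ∀ j : ℤ, (τ : M ≃+* M) δ = algebraMap F M ζ ^ j * δ →
      (symJ τ Q - Q) - zJ (algebraMap F M ζ) hζ'.pow_eq_one (symJ τ Q - Q) =
        ram fun θ => j * e (rs F v θ))
    (z : M → M) (hz : ∀ θ ∈ rts (locPoly g t (aeval t D)),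
      z θ ^ ℓ = ∏ β ∈ R, (θ - algebraMap F M β) ^ e β)
    (q : M → ℤ) (hq : ∀ θ ∈ rts (locPoly g t (aeval t D)),
      (u : M ≃+* M) (z θ) = algebraMap F M ζ ^ q θ * z θ)
    (A : Jac ℓ (locPoly g t (aeval t D)))
    (hA : A - zJ (algebraMap F M ζ) hζ'.pow_eq_one A = ram fun θ => -q θ)
    (e' : F → ℤ)
    (he' : ∀ τ ∈ Γ, ∀ j : ℤ, (τ : M ≃+* M) δ = algebraMap F M ζ ^ j * δ →
      (ram fun θ => j * e' (rs F v θ)) =
        symJ u (symJ τ Q - Q) - (symJ (u * τ * u⁻¹) Q - Q) + (symJ (u * τ * u⁻¹) A - A)) :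
    ∃ c : ℤ, ∀ β, g.eval β = a → ∀ y : F,
      y ^ ℓ = ((-1) ^ (ℓ + 1) * (derivative D).eval a) ^ e β *
        ∏ β' ∈ R.filter fun β' => g.eval β' ≠ a, (β - β') ^ (-e β') →
      U y = ζ ^ (e' β + c) * y := by
  have hAM : IsAlgClosed M := hG.alg
  have hℓ0 : ℓ ≠ 0 := hG.prime.ne_zero
  have hζ0 : ζ ≠ 0 := hζ.ne_zero hℓ0
  have hζ0' : algebraMap F M ζ ≠ 0 := hζ'.ne_zero hℓ0
  have hδ0 : δ ≠ 0 := by
    intro h0
    apply hB.ne
    rw [← hB.delta, h0, zero_pow hℓ0]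
  have huζ : (u : M ≃+* M) (algebraMap F M ζ) = algebraMap F M ζ := by rw [huF, hUζ]
  -- the automorphisms `τ`, `τ'`, `κ`
  obtain ⟨τ, hτΓ, hτδ⟩ := h.exists_tame hp hB hζ hζ' hΓ
  have hτ'Γ : u * τ * u⁻¹ ∈ Γ := hnorm τ hτΓ
  obtain ⟨i, hi⟩ : ∃ i : ℤ, (u : M ≃+* M) δ = algebraMap F M ζ ^ i * δ := by
    refine L09_exists_zpow hℓ0 hζ' hδ0 ?_
    rw [← map_pow, hB.delta, hud]
  have hτζ : (τ : M ≃+* M) (algebraMap F M ζ) = algebraMap F M ζ := hΓ.fix τ hτΓ ζ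
  have huinv : ((u⁻¹ : Sym _) : M ≃+* M) δ = algebraMap F M ζ ^ (-i) * δ := by
    have h1 : (u : M ≃+* M) (algebraMap F M ζ ^ (-i) * δ) = δ := by
      rw [map_mul, map_zpow₀, huζ, hi, ← mul_assoc, ← zpow_add₀ hζ0', neg_add_cancel, zpow_zero,
        one_mul]
    have h2 : ((u⁻¹ : Sym _) : M ≃+* M) ((u : M ≃+* M) (algebraMap F M ζ ^ (-i) * δ)) =
        algebraMap F M ζ ^ (-i) * δ := (u : M ≃+* M).symm_apply_apply _
    rw [h1] at h2
    exact h2
  have hτ'δ : ((u * τ * u⁻¹ : Sym _) : M ≃+* M) δ = algebraMap F M ζ * δ := by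
    have h1 : ((u * τ * u⁻¹ : Sym _) : M ≃+* M) δ =
        (u : M ≃+* M) ((τ : M ≃+* M) (((u⁻¹ : Sym _) : M ≃+* M) δ)) := rfl
    rw [h1, huinv, map_mul, map_zpow₀, hτζ, hτδ, map_mul, map_zpow₀, huζ, map_mul, huζ, hi]
    have : algebraMap F M ζ ^ (-i) * (algebraMap F M ζ * (algebraMap F M ζ ^ i * δ)) =
        (algebraMap F M ζ ^ (-i) * algebraMap F M ζ ^ i) * (algebraMap F M ζ * δ) := by ring
    rw [this, ← zpow_add₀ hζ0', neg_add_cancel, zpow_zero, one_mul]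
  have hκΓ : τ⁻¹ * (u * τ * u⁻¹) ∈ Γ := Γ.mul_mem (Γ.inv_mem hτΓ) hτ'Γ
  have hκδ : ((τ⁻¹ * (u * τ * u⁻¹) : Sym _) : M ≃+* M) δ = δ := by
    have h1 : ((τ⁻¹ * (u * τ * u⁻¹) : Sym _) : M ≃+* M) δ =
        (τ : M ≃+* M).symm (((u * τ * u⁻¹ : Sym _) : M ≃+* M) δ) := rfl
    rw [h1, hτ'δ, ← hτδ, RingEquiv.symm_apply_apply]
  have hκQ : symJ (τ⁻¹ * (u * τ * u⁻¹)) Q = Q :=
    h.bad_kernel hp hB hζ hζ' hΓ Q (fun θ => e (rs F v θ)) hC hκΓ hκδ
  have hτ'Q : symJ (u * τ * u⁻¹) Q = symJ τ Q := by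
    have h1 : u * τ * u⁻¹ = τ * (τ⁻¹ * (u * τ * u⁻¹)) := by group
    rw [h1, L09_symJ_mul, hκQ]
  have hτ'A : symJ (u * τ * u⁻¹) A - A = ram fun θ => (1 : ℤ) * -q θ := by
    refine h.bad_J2 hB hζ hζ' (u * τ * u⁻¹) (hΓ.inv _ hτ'Γ) (hΓ.fix _ hτ'Γ) (hΓ.fixt _ hτ'Γ) 1
      ?_ A _ hA
    rw [zpow_one]; exact hτ'δ
  have hE' := he' τ hτΓ 1 (by rw [zpow_one]; exact hτδ)
  have hCτ := hC τ hτΓ 1 (by rw [zpow_one]; exact hτδ)
  rw [hτ'Q, hτ'A] at hE'
  -- `u` fixes the roots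
  have hroot : ∀ {θ : M}, (locPoly g t (aeval t D)).eval θ = 0 ↔ aeval θ g = t := fun {θ} =>
    eval_locPoly_eq_zero hB.ne
  have hufix : ∀ θ : M, (locPoly g t (aeval t D)).eval θ = 0 → (u : M ≃+* M) θ = θ := by
    intro θ hθ
    have hθt := hroot.1 hθ
    have huθ : aeval ((u : M ≃+* M) θ) g = t := hroot.1 ((eval_sym_eq_zero u).2 hθ)
    refine h.rs_injOn hB huθ hθt ?_
    apply h.rs_eq
    have h1 := L09_v_sub_rs h hB hθt
    have h2 : U (rs F v θ) = rs F v θ := hUR _ (hR _ (h.eval_rs hB hθt))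
    rw [← huv, map_sub, huF, h2] at h1
    exact h1
  have hufix' : ∀ θ : M, (locPoly g t (aeval t D)).eval θ = 0 →
      ((u⁻¹ : Sym _) : M ≃+* M) θ = θ := by
    intro θ hθ
    have h1 : ((u⁻¹ : Sym _) : M ≃+* M) ((u : M ≃+* M) θ) = θ :=
      (u : M ≃+* M).symm_apply_apply θ
    rwa [hufix θ hθ] at h1
  -- the Kummer formula
  obtain ⟨w, hw, hker⟩ := kummer_formula (algebraMap F M ζ) hζ' (symJ τ Q - Q)
    (ramDiv fun θ => (1 : ℤ) * e (rs F v θ)) hCτ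
  have hDfix : (ramDiv (fun θ => (1 : ℤ) * e (rs F v θ)) :
      Pt ℓ (locPoly g t (aeval t D)) →₀ ℤ).mapDomain (Pt.sym u) =
      ramDiv fun θ => (1 : ℤ) * e (rs F v θ) := by
    rw [mapDomain_sym_ramDiv]
    refine ramDiv_congr _ _ ?_
    intro θ hθ
    rw [hufix' θ hθ]
  have hn : ∀ θ : M, ∃ n : ℤ, (locPoly g t (aeval t D)).eval θ = 0 →
      (u : M ≃+* M) (w θ) = algebraMap F M ζ ^ n * w θ := by
    intro θ
    by_cases hθ : (locPoly g t (aeval t D)).eval θ = 0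
    · obtain ⟨n, hn⟩ : ∃ n : ℤ, (u : M ≃+* M) (w θ) = algebraMap F M ζ ^ n * w θ := by
        refine L09_exists_zpow hℓ0 hζ' (hw θ hθ).1 ?_
        rw [← map_pow, (hw θ hθ).2, map_mul, map_zpow₀, map_pow, map_neg, map_one,
          sym_uval u _ hDfix, hufix θ hθ]
      exact ⟨n, fun _ => hn⟩
    · exact ⟨0, fun h0 => absurd h0 hθ⟩
  choose n hn using hn
  have hkn : symJ u (symJ τ Q - Q) - (symJ τ Q - Q) = ram n := by
    refine hker u huζ hDfix n ?_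
    intro θ hθ
    rw [hufix θ hθ]
    exact hn θ hθ
  have hzero : (ram fun θ => (e' (rs F v θ)) - (n θ - q θ) :
      Jac ℓ (locPoly g t (aeval t D))) = 0 := by
    have e1 : (ram fun θ => (1 : ℤ) * e' (rs F v θ) : Jac ℓ (locPoly g t (aeval t D))) =
        ram fun θ => e' (rs F v θ) := by
      congr 1; funext θ; rw [one_mul]
    have e2 : (ram fun θ => (1 : ℤ) * -q θ : Jac ℓ (locPoly g t (aeval t D))) =
        ram fun θ => 0 - q θ := by
      congr 1; funext θ; ring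
    have e3 : (ram fun θ => (0 : ℤ) - q θ : Jac ℓ (locPoly g t (aeval t D))) = - ram q := by
      rw [ram_sub]
      have : (ram fun _ => (0 : ℤ) : Jac ℓ (locPoly g t (aeval t D))) = 0 :=
        (ram_eq_zero_iff (algebraMap F M ζ) hζ' _).2 ⟨0, fun _ _ => by simp⟩
      rw [this, zero_sub]
    rw [e1, e2, e3, hkn] at hE'
    rw [ram_sub (fun θ => e' (rs F v θ)) (fun θ => n θ - q θ), ram_sub, hE']
    abel
  obtain ⟨c, hc⟩ := (ram_eq_zero_iff (algebraMap F M ζ) hζ' _).1 hzero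
  refine ⟨-c, ?_⟩
  intro β hβ y hy
  obtain ⟨θ, hθt, hrs⟩ := h.exists_root hB hβ
  subst hrs
  have hθ := hroot.2 hθt
  have hθm := (L09_mem_rts hB).2 hθt
  -- the unit `Y`
  have hkey := L09_key h hB R hR e hθt
  have hYℓ : (w θ / z θ) ^ ℓ = (((-1) ^ (ℓ + 1)) ^ (e (rs F v θ)) *
        uval (ramDiv (fun θ' => e (rs F v θ')) : Pt ℓ (locPoly g t (aeval t D)) →₀ ℤ) θ) /
        ∏ β ∈ R, (θ - algebraMap F M β) ^ (e β) := by
    rw [div_pow, (hw θ hθ).2, hz θ hθm, atR_ramDiv _ hθ]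
    simp only [one_mul]
  rw [← hYℓ, ← hy] at hkey
  have hy0 : y ≠ 0 := by
    intro h0
    rw [h0, zero_pow hℓ0] at hy
    have h1 : (((-1) ^ (ℓ + 1) * (derivative D).eval a) ^ e (rs F v θ) : F) ≠ 0 :=
      zpow_ne_zero _ (mul_ne_zero (pow_ne_zero _ (neg_ne_zero.2 one_ne_zero)) hB.simple)
    have h2 : (∏ β' ∈ R.filter fun β' => g.eval β' ≠ a, (rs F v θ - β') ^ (-e β') : F) ≠ 0 := by
      refine Finset.prod_ne_zero_iff.2 ?_
      intro β' hβ'
      refine zpow_ne_zero _ ?_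
      intro h3
      rw [Finset.mem_filter] at hβ'
      apply hβ'.2
      rw [← sub_eq_zero.1 h3]
      exact hβ
    exact mul_ne_zero h1 h2 hy.symm
  have hvY : v (w θ / z θ) = 1 := by
    have h1 := h.v_eq_one hkey (pow_ne_zero ℓ hy0)
    rw [map_pow] at h1
    exact (pow_eq_one_iff_of_nonneg (v.nonneg _) hℓ0).1 h1
  obtain ⟨y₀, hy₀⟩ := h.residue _ hvY.le
  have hpow : y₀ ^ ℓ = y ^ ℓ := h.residue_unique (L09_res_pow h hy₀ ℓ) hkey
  obtain ⟨k, hk⟩ := L09_exists_zpow hℓ0 hζ hy0 hpow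
  -- the action of `u`
  have huY : (u : M ≃+* M) (w θ / z θ) = algebraMap F M ζ ^ (n θ - q θ) * (w θ / z θ) := by
    rw [map_div₀, hn θ hθ, hq θ hθm, zpow_sub₀ hζ0']
    simp only [div_eq_mul_inv, mul_inv]
    ring
  have hr1 : v ((u : M ≃+* M) (w θ / z θ) - algebraMap F M (U y₀)) < 1 := by
    rw [← huF, ← map_sub, huv]
    exact hy₀
  have hr2 : v ((u : M ≃+* M) (w θ / z θ) - algebraMap F M (ζ ^ (n θ - q θ) * y₀)) < 1 := by
    rw [huY, ← map_zpow₀]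
    exact h.residue_mul (L09_res_const _) hy₀
  have hU : U y₀ = ζ ^ (n θ - q θ) * y₀ := h.residue_unique hr1 hr2
  have hexp : ζ ^ (n θ - q θ) = ζ ^ (e' (rs F v θ) + -c) := by
    refine L09_zpow_eq hℓ0 hζ ?_
    obtain ⟨m, hm⟩ := hc θ hθ
    refine ⟨-m, ?_⟩
    rw [mul_neg, ← hm]
    ring
  rw [hk, map_mul, map_zpow₀, hUζ, hexp] at hU
  have hζk : ζ ^ k ≠ 0 := zpow_ne_zero _ hζ0
  have : ζ ^ k * U y = ζ ^ k * (ζ ^ (e' (rs F v θ) + -c) * y) := by
    rw [hU]; ring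
  exact mul_left_cancel₀ hζk this

end Pool.Agent.Lib.MP_89bcae_ag.Sup
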