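import Mathlib
import Pool.Agent.Lib.MP_89bcae_ag.Sup.L06
import Pool.Agent.Lib.MP_89bcae_ag.Sup.L09

/-!
# The local theorems for a polynomial `f` which is equal to `d⁻¹ (g(x) - t)`
-/

open Polynomial

open scoped Classical

namespace Pool.Agent.Lib.MP_89bcae_ag.Sup

universe u

variable {F M : Type u} [Field F] [Field M] [Algebra F M] {v : AbsoluteValue M ℝ} {a : F} {t : M}

theorem LocCtx.good_place' (h : LocCtx v a t) {ℓ p : ℕ} (hp : p.Coprime ℓ) {g : F[X]}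
    (hg : g.Monic) (hm : g.natDegree ≠ 0) (hmℓ : g.natDegree.Coprime ℓ) {d : M} (hd : d ≠ 0)
    {f : M[X]} (hf : f = locPoly g t d)
    [hG : IsGood ℓ f] {ζ : F} (hζ : IsPrimitiveRoot ζ ℓ)
    (hζ' : IsPrimitiveRoot (algebraMap F M ζ) ℓ)
    {Γ : Subgroup (Sym f)} (hΓ : LocGrp p F v t (v (t - algebraMap F M a)) Γ)
    (hdv : v d = 1)
    (horb : ∀ r : F, ∀ θ ∈ near v f r, ∀ θ' ∈ near v f r, ∃ σ ∈ Γ, (σ : M ≃+* M) θ = θ')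
    {R : F[X]} (hR : R ≠ 0) {z : M → M}
    (hz : ∀ θ ∈ rts f, z θ ^ ℓ = aeval θ R) (Q : Jac ℓ f)
    (hQ : ∀ σ ∈ Γ, ∃ n : M → ℤ, symJ σ Q - Q = ram n ∧ ∀ θ ∈ rts f,
      (σ : M ≃+* M) (z θ) = algebraMap F M ζ ^ n ((σ : M ≃+* M) θ) * z ((σ : M ≃+* M) θ))
    (hsum : ℓ ∣ ∑ r ∈ (g - C a).roots.toFinset, R.rootMultiplicity r)
    {r : F} (hr : g.eval r = a) : ℓ ∣ R.rootMultiplicity r := by
  subst hf
  exact h.good_place hp hg hm hmℓ hd hζ hζ' hΓ hdv horb hR hz Q hQ hsum hr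

theorem LocCtx.bad_formula' (h : LocCtx v a t) {g D : F[X]} {δ : M} {ℓ p : ℕ} (hp : p.Coprime ℓ)
    (hB : BadCtx g D a t δ ℓ) {f : M[X]} (hf : f = locPoly g t (aeval t D))
    [hG : IsGood ℓ f] {ζ : F}
    (hζ : IsPrimitiveRoot ζ ℓ) (hζ' : IsPrimitiveRoot (algebraMap F M ζ) ℓ)
    {Γ : Subgroup (Sym f)}
    (hΓ : LocGrp p F v t (v (t - algebraMap F M a)) Γ)
    (u : Sym f) (U : F ≃+* F) (huv : ∀ x, v ((u : M ≃+* M) x) = v x)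
    (huF : ∀ c : F, (u : M ≃+* M) (algebraMap F M c) = algebraMap F M (U c))
    (hut : (u : M ≃+* M) t = t) (hug : g.map (U : F →+* F) = g)
    (hud : (u : M ≃+* M) (aeval t D) = aeval t D)
    (hUζ : U ζ = ζ) (hnorm : ∀ τ ∈ Γ, u * τ * u⁻¹ ∈ Γ)
    (R : Finset F) (hR : ∀ β, g.eval β = a → β ∈ R) (hUR : ∀ β ∈ R, U β = β) (hUa : U a = a)
    (e : F → ℤ) (Q : Jac ℓ f)
    (hC : ∀ τ ∈ Γ, ∀ j : ℤ, (τ : M ≃+* M) δ = algebraMap F M ζ ^ j * δ →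
      (symJ τ Q - Q) - zJ (algebraMap F M ζ) hζ'.pow_eq_one (symJ τ Q - Q) =
        ram fun θ => j * e (rs F v θ))
    (z : M → M) (hz : ∀ θ ∈ rts f,
      z θ ^ ℓ = ∏ β ∈ R, (θ - algebraMap F M β) ^ e β)
    (q : M → ℤ) (hq : ∀ θ ∈ rts f,
      (u : M ≃+* M) (z θ) = algebraMap F M ζ ^ q θ * z θ)
    (A : Jac ℓ f)
    (hA : A - zJ (algebraMap F M ζ) hζ'.pow_eq_one A = ram fun θ => -q θ)
    (e' : F → ℤ)
    (he' : ∀ τ ∈ Γ, ∀ j : ℤ, (τ : M ≃+* M) δ = algebraMap F M ζ ^ j * δ →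
      (ram fun θ => j * e' (rs F v θ)) =
        symJ u (symJ τ Q - Q) - (symJ (u * τ * u⁻¹) Q - Q) + (symJ (u * τ * u⁻¹) A - A)) :
    ∃ c : ℤ, ∀ β, g.eval β = a → ∀ y : F,
      y ^ ℓ = ((-1) ^ (ℓ + 1) * (derivative D).eval a) ^ e β *
        ∏ β' ∈ R.filter fun β' => g.eval β' ≠ a, (β - β') ^ (-e β') →
      U y = ζ ^ (e' β + c) * y := by
  subst hf
  exact h.bad_formula hp hB hζ hζ' hΓ u U huv huF hut hug hud hUζ hnorm R hR hUR hUa e Q hC z hz q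
    hq A hA e' he'

end Pool.Agent.Lib.MP_89bcae_ag.Sup
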