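import Mathlib
import Pool.Agent.Lib.MP_89bcae_ag.Sup.G12

/-!
ROW G16 (120-220 lines). The global relation between `c`, `γ c` and `y`, where `π y = γ c - c` up to a
trivial cocycle.

Notation: `C₁(σ) = v (c 1 σ)`, `C₂(σ) = v (v (c 2 σ))`, `Y₁(σ) = v (y 1 σ)`; `π C₂ = ℓ v (c 2 σ) = C₁`,
`π (v v (y 2 σ)) = Y₁(σ)` (`vJ_sub_zJ`, `vJ_smul`, `IsTateCocycle.smul`).
STATEMENT: if `act γ c - c - (y - Z y)` is trivial, `HasExp c e`, and `γ` fixes `RR` pointwise, then there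
are `A` in the Jacobian and `q`, with `(z θ)^ℓ = E_e(θ)`, `γ (z (γ⁻¹θ)) = ζ^{q θ} z θ`,
`A - Z A = ram (-q)` and for all `σ`: `Y₁(σ) = γ C₂(γ⁻¹σγ) - C₂(σ) + σ A - A`.

PROOF. At level `2` the trivial cocycle is `σ A₂ - A₂`, `ℓ² A₂ = 0`. Apply `v v`:
`γ C₂(γ⁻¹σγ) - C₂(σ) - Y₁(σ) = σ B - B`, `B = v v A₂`; put `A = -B`. Let `z` be as in `HasExp`;
`γ (z (γ⁻¹ θ))` and `z θ` have the same `ℓ`-th power, which defines `q`. Apply `1 - Z` to the relation: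
`(1 - Z) Y₁ = ℓ y_1 = y_0 = 0`, so `0 = γ C₁(γ⁻¹σγ) - C₁(σ) + σ A' - A'`, `A' = A - ZA`. By the computation
in `HasExp.act` (G12): `γ C₁(γ⁻¹σγ) = ram n'`, `C₁(σ) = ram n` with
`σ (z' θ) = ζ^{n'(σθ)} z'(σθ)`, `z' θ = γ (z (γ⁻¹θ)) = ζ^{q θ} z θ`; so `n' ≡ n + q ∘ σ⁻¹ - q` and
`γ C₁ - C₁ = σ (ram q) - ram q` (`symJ_ram`). So `A' + ram q` is fixed by `Gal(Ω/L)`; it is killed by `ℓ^2`
(`ℓ² A₂ = 0`), hence `0` (`eq_zero_of_fixed`). (`Z`, `v` commute with `symJ` of elements of `AutO`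
because they fix `ζ`: `zA_fixed`.)
-/

open Polynomial IsDedekindDomain

open scoped Classical

namespace Pool.Agent.Lib.MP_89bcae_ag.Sup

universe u

variable {k F L Ω : Type u} [Field k] [Field F] [Algebra k F] [Field L] [Algebra F[X] L]
  [Field Ω] [Algebra L Ω] [IsAlgClosure k F] [IsFractionRing F[X] L] [IsAlgClosure L Ω]
  [Algebra F Ω] {ℓ : ℕ} {g D : k[X]} [hG : IsGood ℓ (cOver k F L Ω g D)] {ζ : k}
  {hζ : (zA F L Ω ζ) ^ ℓ = 1}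

private lemma g16_root {E : Type u} [Field E] {f : E[X]} (hf : f ≠ 0) (w : Sym f) {θ : E}
    (hθ : θ ∈ rts f) : (w : E ≃+* E) θ ∈ rts f := by
  rw [mem_rts hf] at hθ ⊢
  have h1 : f.map ((w : E ≃+* E) : E →+* E) = f := w.2
  have h2 : (f.map ((w : E ≃+* E) : E →+* E)).eval (((w : E ≃+* E) : E →+* E) θ) = 0 := by
    rw [Polynomial.eval_map, Polynomial.eval₂_hom, hθ, map_zero]
  rw [h1] at h2
  exact h2

private lemma g16_exists_zpow {E : Type u} [Field E] {ξ a b : E} {ℓ : ℕ} (hℓ : ℓ ≠ 0)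
    (hξ : IsPrimitiveRoot ξ ℓ) (h : a ^ ℓ = b ^ ℓ) : ∃ n : ℤ, a = ξ ^ n * b := by
  by_cases hb : b = 0
  · rw [hb, zero_pow hℓ, pow_eq_zero_iff hℓ] at h
    exact ⟨0, by rw [h, hb, mul_zero]⟩
  · have : NeZero ℓ := ⟨hℓ⟩
    have h1 : (a / b) ^ ℓ = 1 := by
      rw [div_pow, h, div_self (pow_ne_zero _ hb)]
    obtain ⟨i, _, hi⟩ := hξ.eq_pow_of_pow_eq_one h1
    exact ⟨i, by rw [zpow_natCast, hi, div_mul_cancel₀ _ hb]⟩

private lemma g16_alg {A : Type*} [AddCommGroup A] {a b c d R r t p q' m v : A}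
    (h3 : 0 = a - c + (p - q') - (b - d + (m - v))) (h7 : a - b = R)
    (h5 : c - d = R + r - t) : p - m + t - (q' - v + r) = 0 := by
  have h : p - m + t - (q' - v + r) = (a - c + (p - q') - (b - d + (m - v))) - (a - b - R) +
      (c - d - (R + r - t)) := by abel
  rw [h, ← h3, h7, h5]
  abel

private lemma g16_ram_neg {ℓ : ℕ} {E : Type u} [Field E] {f : E[X]} [IsGood ℓ f] (e : E → ℤ) :
    (ram fun θ => -e θ : Jac ℓ f) = -ram e := by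
  have h1 := ram_add (ℓ := ℓ) (f := f) (fun θ => -e θ) e
  have h2 := ram_sub (ℓ := ℓ) (f := f) e e
  have h3 : (fun θ => -e θ + e θ) = fun θ => e θ - e θ := by
    funext θ
    ring
  rw [h3, h2, sub_self] at h1
  exact eq_neg_of_add_eq_zero_left h1.symm

lemma vJ_level_two {c : Coch ℓ k F L Ω g D} (H : GlobHyp ℓ g D ζ)
    (hc : IsTateCocycle ℓ (curvePoly k F L g D) c) (σ : Ω ≃ₐ[L] Ω) :
    vJ (zA F L Ω ζ) hζ (vJ (zA F L Ω ζ) hζ (c 2 σ)) -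
      zJ (zA F L Ω ζ) hζ (vJ (zA F L Ω ζ) hζ (vJ (zA F L Ω ζ) hζ (c 2 σ))) =
        vJ (zA F L Ω ζ) hζ (c 1 σ) := by
  have h1 := vJ_sub_zJ (f := cOver k F L Ω g D) (zA F L Ω ζ) (zA_primitive (A := Ω) H)
    (vJ (zA F L Ω ζ) hζ (c 2 σ))
  rw [h1, ← vJ_smul]
  congr 1
  exact hc.smul 1 σ

theorem exists_relation (hF : CompatF F L Ω) (H : GlobHyp ℓ g D ζ) {c y : Coch ℓ k F L Ω g D}
    (hc : IsTateCocycle ℓ (curvePoly k F L g D) c)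
    (hy : IsTateCocycle ℓ (curvePoly k F L g D) y) {e : F → ℤ} (h : HasExp hζ c e)
    (γ : AutO k F L Ω) (hγ : ∀ β ∈ RR F g D, resF γ β = β)
    (hrel : TTc (act γ c - c - (y - Sup.zC ζ hζ y))) :
    ∃ (A : JacOver ℓ (curvePoly k F L g D) Ω) (z : Ω → Ω) (q : Ω → ℤ),
      (∀ θ ∈ rts (cOver k F L Ω g D),
        z θ ^ ℓ = ∏ β ∈ RR F g D, (θ - algebraMap F Ω β) ^ e β) ∧
      (∀ θ ∈ rts (cOver k F L Ω g D), (γ : Ω ≃+* Ω) (z θ) =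
        zA F L Ω ζ ^ q ((γ : Ω ≃+* Ω) θ) * z ((γ : Ω ≃+* Ω) θ)) ∧
      A - zJ (zA F L Ω ζ) hζ A = ram (fun θ => -q θ) ∧
      ∀ σ : Ω ≃ₐ[L] Ω, vJ (zA F L Ω ζ) hζ (y 1 σ) =
        symJ (toSym g D γ) (vJ (zA F L Ω ζ) hζ (vJ (zA F L Ω ζ) hζ (c 2 (conjG γ⁻¹ σ)))) -
          vJ (zA F L Ω ζ) hζ (vJ (zA F L Ω ζ) hζ (c 2 σ)) +
          (symJ (toSym g D (galA k F σ)) A - A) := by
  have hf0 : cOver k F L Ω g D ≠ 0 := hG.separable.ne_zero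
  have hprim : IsPrimitiveRoot (zA F L Ω ζ) ℓ := zA_primitive (A := Ω) H
  have hγζ : ((toSym g D γ : Sym (cOver k F L Ω g D)) : Ω ≃+* Ω) (zA F L Ω ζ) = zA F L Ω ζ :=
    zA_fixed ζ γ
  have hσζ : ∀ σ : Ω ≃ₐ[L] Ω, ((toSym g D (galA k F σ) : Sym (cOver k F L Ω g D)) : Ω ≃+* Ω)
      (zA F L Ω ζ) = zA F L Ω ζ := fun σ => zA_fixed ζ (galA k F σ)
  obtain ⟨A₂, hA₂, hA₂'⟩ := hrel.2 2
  obtain ⟨B, hB⟩ : ∃ B : Jac ℓ (cOver k F L Ω g D),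
    B = vJ (zA F L Ω ζ) hζ (vJ (zA F L Ω ζ) hζ A₂) := ⟨_, rfl⟩
  -- the relation
  have hR : ∀ σ : Ω ≃ₐ[L] Ω, vJ (zA F L Ω ζ) hζ (y 1 σ) =
        symJ (toSym g D γ) (vJ (zA F L Ω ζ) hζ (vJ (zA F L Ω ζ) hζ (c 2 (conjG γ⁻¹ σ)))) -
          vJ (zA F L Ω ζ) hζ (vJ (zA F L Ω ζ) hζ (c 2 σ)) +
          (symJ (toSym g D (galA k F σ)) (-B) - (-B)) := by
    intro σ
    have h1 : symJ (toSym g D γ) (c 2 (conjG γ⁻¹ σ)) - c 2 σ -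
        (y 2 σ - zJ (zA F L Ω ζ) hζ (y 2 σ)) = symJ (toSym g D (galA k F σ)) A₂ - A₂ := by
      have h2 := hA₂' σ
      rw [push_eq] at h2
      exact h2
    have h2 := congrArg (fun Q => vJ (zA F L Ω ζ) hζ (vJ (zA F L Ω ζ) hζ Q)) h1
    simp only [vJ_sub, vJ_zJ, vJ_symJ _ _ _ hγζ, vJ_symJ _ _ _ (hσζ σ)] at h2
    rw [vJ_level_two H hy σ, ← hB] at h2
    rw [map_neg, ← sub_eq_zero]
    rw [← sub_eq_zero] at h2
    rw [← neg_eq_zero, ← h2]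
    abel
  obtain ⟨z, hz, hz2⟩ := h.ex
  -- the automorphism fixes the constants in `RR`
  have hγβ : ∀ β ∈ RR F g D, (γ : Ω ≃+* Ω) (algebraMap F Ω β) = algebraMap F Ω β := by
    intro β hβ
    rw [hF β, resF_spec, Polynomial.map_C, RingHom.coe_coe, hγ β hβ]
  have hγinv : ∀ x, (γ : Ω ≃+* Ω) (((γ⁻¹ : AutO k F L Ω) : Ω ≃+* Ω) x) = x := by
    intro x
    have h1 : (γ : Ω ≃+* Ω) * ((γ⁻¹ : AutO k F L Ω) : Ω ≃+* Ω) = 1 := by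
      rw [← Subgroup.coe_mul, mul_inv_cancel, Subgroup.coe_one]
    have h2 := congrArg (fun s : Ω ≃+* Ω => s x) h1
    exact h2
  have hγinv' : ∀ x, ((γ⁻¹ : AutO k F L Ω) : Ω ≃+* Ω) ((γ : Ω ≃+* Ω) x) = x := by
    intro x
    have h1 : ((γ⁻¹ : AutO k F L Ω) : Ω ≃+* Ω) * (γ : Ω ≃+* Ω) = 1 := by
      rw [← Subgroup.coe_mul, inv_mul_cancel, Subgroup.coe_one]
    have h2 := congrArg (fun s : Ω ≃+* Ω => s x) h1
    exact h2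
  have hroot : ∀ (γ' : AutO k F L Ω) (θ : Ω), θ ∈ rts (cOver k F L Ω g D) →
      (γ' : Ω ≃+* Ω) θ ∈ rts (cOver k F L Ω g D) := fun γ' θ hθ =>
    g16_root hf0 (toSym g D γ') hθ
  have hq : ∀ θ : Ω, ∃ n : ℤ, θ ∈ rts (cOver k F L Ω g D) →
      (γ : Ω ≃+* Ω) (z (((γ⁻¹ : AutO k F L Ω) : Ω ≃+* Ω) θ)) = zA F L Ω ζ ^ n * z θ := by
    intro θ
    by_cases hθ : θ ∈ rts (cOver k F L Ω g D)
    · have h1 : ((γ : Ω ≃+* Ω) (z (((γ⁻¹ : AutO k F L Ω) : Ω ≃+* Ω) θ))) ^ ℓ = z θ ^ ℓ := by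
        rw [hz θ hθ, ← map_pow, hz _ (hroot γ⁻¹ θ hθ), map_prod]
        refine Finset.prod_congr rfl fun β hβ => ?_
        rw [map_zpow₀, map_sub, hγinv, hγβ β hβ]
      obtain ⟨n, hn⟩ := g16_exists_zpow H.prime.ne_zero hprim h1
      exact ⟨n, fun _ => hn⟩
    · exact ⟨0, fun h => absurd h hθ⟩
  choose q hq using hq
  refine ⟨-B, z, q, hz, ?_, ?_, hR⟩
  · intro θ hθ
    have h1 := hq _ (hroot γ θ hθ)
    rw [hγinv'] at h1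
    exact h1
  -- the class of `A`
  set A' : Jac ℓ (cOver k F L Ω g D) := -B - zJ (zA F L Ω ζ) hζ (-B) with hA'
  have hkey : ∀ σ : Ω ≃ₐ[L] Ω, symJ (toSym g D (galA k F σ)) (A' + ram q) = A' + ram q := by
    intro σ
    set σ' : Ω ≃ₐ[L] Ω := conjG γ⁻¹ σ with hσ'
    have hcomm : ∀ x, σ ((γ : Ω ≃+* Ω) x) = (γ : Ω ≃+* Ω) (σ' x) := by
      intro x
      rw [← conjG_spec γ σ' x, hσ', ← MulAut.mul_apply, ← map_mul, mul_inv_cancel, map_one,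
        MulAut.one_apply]
    have hcomm' : ∀ x, σ' (((γ⁻¹ : AutO k F L Ω) : Ω ≃+* Ω) x) =
        ((γ⁻¹ : AutO k F L Ω) : Ω ≃+* Ω) (σ x) := by
      intro x
      rw [← hγinv' (σ' (((γ⁻¹ : AutO k F L Ω) : Ω ≃+* Ω) x)), ← hcomm, hγinv]
    obtain ⟨n', hn'⟩ := exists_n_of_pow hF H e hz σ'
    have hc1' := hz2 σ' n' hn'
    have hσinv : ∀ x, ((galA k F σ⁻¹ : AutO k F L Ω) : Ω ≃+* Ω) (σ x) = x := by
      intro x
      rw [galA_coe]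
      exact σ.symm_apply_apply x
    have hc1 : vJ (zA F L Ω ζ) hζ (c 1 σ) = ram (fun θ =>
        n' (((γ⁻¹ : AutO k F L Ω) : Ω ≃+* Ω) θ) + q θ -
          q (((galA k F σ⁻¹ : AutO k F L Ω) : Ω ≃+* Ω) θ)) := by
      refine hz2 σ _ ?_
      intro θ hθ
      have hz0 : zA F L Ω ζ ≠ 0 := hprim.ne_zero H.prime.ne_zero
      have hσζ' : σ (zA F L Ω ζ) = zA F L Ω ζ := hσζ σ
      have hγζ' : (γ : Ω ≃+* Ω) (zA F L Ω ζ) = zA F L Ω ζ := hγζ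
      have h1 : σ ((γ : Ω ≃+* Ω) (z (((γ⁻¹ : AutO k F L Ω) : Ω ≃+* Ω) θ))) =
          zA F L Ω ζ ^ n' (((γ⁻¹ : AutO k F L Ω) : Ω ≃+* Ω) (σ θ)) *
            (zA F L Ω ζ ^ q (σ θ) * z (σ θ)) := by
        rw [hcomm, hn' _ (hroot γ⁻¹ θ hθ), hcomm', map_mul, map_zpow₀, hγζ',
          hq (σ θ) (hroot (galA k F σ) θ hθ)]
      rw [hq θ hθ, map_mul, map_zpow₀, hσζ'] at h1
      rw [hσinv]
      have h2 : σ (z θ) = zA F L Ω ζ ^ (-q θ) * (zA F L Ω ζ ^ q θ * σ (z θ)) := by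
        rw [← mul_assoc, ← zpow_add₀ hz0, neg_add_cancel, zpow_zero, one_mul]
      rw [h2, h1, ← mul_assoc, ← mul_assoc, ← zpow_add₀ hz0, ← zpow_add₀ hz0]
      congr 2
      ring
    -- apply `1 - Z` to the relation
    have h3 := congrArg (fun Q => Q - zJ (zA F L Ω ζ) hζ Q) (hR σ)
    simp only [map_add, map_sub] at h3
    have h4 : vJ (zA F L Ω ζ) hζ (y 1 σ) - zJ (zA F L Ω ζ) hζ (vJ (zA F L Ω ζ) hζ (y 1 σ)) = 0 := by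
      have h5 := vJ_sub_zJ (f := cOver k F L Ω g D) (zA F L Ω ζ) hprim (y 1 σ)
      rw [h5]
      exact (hy.smul 0 σ).trans (hy.zero σ)
    rw [h4] at h3
    have h5 := vJ_level_two (hζ := hζ) H hc σ
    have h6 := vJ_level_two (hζ := hζ) H hc σ'
    have h7 := congrArg (symJ (toSym g D γ)) h6
    rw [map_sub, ← zJ_symJ _ _ _ hγζ, hc1', symJ_ram] at h7
    rw [hc1] at h5
    have h8 : (ram (fun θ => n' (((γ⁻¹ : AutO k F L Ω) : Ω ≃+* Ω) θ) + q θ -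
          q (((galA k F σ⁻¹ : AutO k F L Ω) : Ω ≃+* Ω) θ)) : Jac ℓ (cOver k F L Ω g D)) =
        ram (fun θ => n' ((((toSym g D γ)⁻¹ : Sym (cOver k F L Ω g D)) : Ω ≃+* Ω) θ)) + ram q -
          symJ (toSym g D (galA k F σ)) (ram q) := by
      rw [symJ_ram, ← ram_add, ← ram_sub]
      congr 1
    rw [h8] at h5
    rw [map_add, hA', map_sub, ← zJ_symJ _ _ _ (hσζ σ), ← sub_eq_zero]
    exact g16_alg h3 h7 h5
  have hBk : ℓ ^ 2 • (-B) = 0 := by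
    rw [smul_neg, hB, ← vJ_smul, ← vJ_smul, hA₂, neg_eq_zero]
    have h1 : vJ (zA F L Ω ζ) hζ (0 : Jac ℓ (cOver k F L Ω g D)) = 0 := by
      have h2 := vJ_smul (f := cOver k F L Ω g D) (zA F L Ω ζ) hζ 0 0
      rwa [zero_smul, zero_smul] at h2
    rw [h1, h1]
  have hkill : ℓ ^ 2 • (A' + ram q) = 0 := by
    rw [smul_add, hA', smul_sub, ← map_nsmul, hBk, map_zero, sub_zero, zero_add, pow_two,
      mul_smul, smul_ram, smul_zero]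
  have hzero := eq_zero_of_fixed H 2 (A' + ram q) hkill hkey
  rw [g16_ram_neg]
  exact eq_neg_of_add_eq_zero_left hzero

end Pool.Agent.Lib.MP_89bcae_ag.Sup
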