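import Mathlib
import Pool.Agent.Lib.MP_89bcae_ag.Sup.G15
import Pool.Agent.Lib.MP_89bcae_ag.Sup.G16
import Pool.Agent.Lib.MP_89bcae_ag.Sup.L10
import Pool.Agent.Lib.MP_89bcae_ag.Sup.L11
import Pool.Agent.Lib.MP_89bcae_ag.Sup.L13

/-!
ROW G17 (200-350 lines). THE FORMULA FOR `N_U`, up to a constant on each fibre.

STATEMENT. `c`, `y` Tate cocycles, `c` locally trivial, `HasExp c e`, `HasExp y e'`, `γ` in `Aut(Ω/k(t))` with
restriction `U` to `F` fixing `RR` pointwise, `act γ c - c - (y - Z y)` trivial. Let `D(a) = 0`. There is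
`cst` such that for all `β` with `g(β) = a` and all `x` in `F` with
`x^ℓ = (ε D'(a))^{e β} ∏_{β'∈RR, g(β') ≠ a} (β - β')^{-e β'}`: `U x = ζ^{e' β + cst} x`.

PROOF. `K = (plc a).adicCompletion L`, `M = AlgebraicClosure K` (`letI` the `F`-algebra structure through
`L`), `j₀ : Ω → M` over `L`, `v` from L10. `U a = a` since `a = g(β)` for some `β` in `RR` (`F` is
algebraically closed). `φ : K ≃ K` from `exists_adic_equiv` (Plc.lean; `U a = a`: generalize `U a`), `w` an
extension of `φ` to `M` (`exists_extend_alg`, L12), `v (w x) = v x` (L10). `exists_compat` (L12) with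
`j = j₀`, `ψ = coefL L U`: `γ'` with `j (γ' x) = w (j x)`; `γ'` is in `AutO` with `resF γ' = U`. By
`act_sub_act_of_resF_eq` (GDefs) we may replace `γ` by `γ'` in the hypothesis: so assume
`j (γ x) = w (j x)`. Take `A`, `z`, `q` from `exists_relation` (G16).
Let `f_M = cOver k F L M g D = locPoly ...` (`cOver_eq_locPoly`), `u ∈ Sym f_M` given by `w` (it fixes `D(t)`, `t`,
the coefficients of `g`), `Γ = (galSym ..).range`, `LocGrp` by L11. `u τ u⁻¹ ∈ Γ` since `w K = K`.
Local triviality of `c 2`: `Q₂` with `j (c 2 τ') = τ Q₂ - Q₂`; `Q = v v Q₂`, so `j (C₂(τ')) = τ Q - Q`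
(`vJ_jacMap`, `vJ_symJ`). `δ` an `ℓ`-th root of `D(t)` in `M`.
`hC`: for `τ δ = ζ^i δ`, `τ'` its restriction to `Ω` (`exists_restrict`): `(1 - Z)(τ Q - Q) = j (C₁(τ')) =
ram (i e(res θ))` by `vJ_level_two` and `HasExp.local_char` (G15).
`zM (j θ₀) = j (z θ₀)`, `qM (j θ₀) = q θ₀` (every root over `M` is `j θ₀`; `w` fixes every root `θ`: `w θ` is a
root with residue `U β = β`, see `rs_injOn`, so `γ θ₀ = θ₀`). `hA`: apply `j` (`jacMap_ram`, `zJ_jacMap`).
`he'`: for `τ` with restriction `τ'`, the restriction of `u τ u⁻¹` is `γ τ' γ⁻¹ = conjG γ τ'`; apply `j` to the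
relation of G16 at `σ = γ τ' γ⁻¹`: `j (Y₁(σ)) = u (τQ - Q) - ((uτu⁻¹) Q - Q) + ((uτu⁻¹) jA - jA)`, and the
left side is `ram (i e'(res θ))` by G15 for `y`, as `(u τ u⁻¹) δ = ζ^i δ` (`w δ = ζ^s δ` for some `s`).
Now apply `LocCtx.bad_formula'` (L13).
-/

open Polynomial IsDedekindDomain

open scoped Classical

namespace Pool.Agent.Lib.MP_89bcae_ag.Sup

universe u

private lemma g17_sq {A B : Type u} [Field A] [Field B] {ℓ : ℕ} (σ : A →+* A) (j : A →+* B)
    (w : B →+* B) {f : A[X]} {f' : B[X]} (hσ : f.map σ = f) (hj : f.map j = f')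
    (hw : f'.map w = f') (hc : ∀ x, j (σ x) = w (j x)) (Q : Jac ℓ f) :
    jacMap ℓ j hj (jacMap ℓ σ hσ Q) = jacMap ℓ w hw (jacMap ℓ j hj Q) := by
  have h0 : j.comp σ = w.comp j := RingHom.ext hc
  have h1 : f.map (j.comp σ) = f' := by rw [← Polynomial.map_map, hσ, hj]
  have h2 : f.map (w.comp j) = f' := by rw [← Polynomial.map_map, hj, hw]
  rw [jacMap_jacMap ℓ σ j hσ hj h1, jacMap_jacMap ℓ j w hj hw h2]
  congr 1
  simp only [h0]

private lemma g17_vJ {A B : Type u} [Field A] [Field B] {ℓ : ℕ} (j : A →+* B)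
    {f : A[X]} {f' : B[X]} [IsGood ℓ f] [IsGood ℓ f'] (hj : f.map j = f') (ζ : A) (ζ' : B)
    (hζ : ζ ^ ℓ = 1) (hζ' : ζ' ^ ℓ = 1) (h : j ζ = ζ') (Q : Jac ℓ f) :
    jacMap ℓ j hj (vJ ζ hζ Q) = vJ ζ' hζ' (jacMap ℓ j hj Q) := by
  subst h
  exact (vJ_jacMap j hj ζ hζ hζ' Q).symm

private lemma g17_zJ {A B : Type u} [Field A] [Field B] {ℓ : ℕ} (j : A →+* B)
    {f : A[X]} {f' : B[X]} [IsGood ℓ f] [IsGood ℓ f'] (hj : f.map j = f') (ζ : A) (ζ' : B)
    (hζ : ζ ^ ℓ = 1) (hζ' : ζ' ^ ℓ = 1) (h : j ζ = ζ') (Q : Jac ℓ f) :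
    jacMap ℓ j hj (zJ ζ hζ Q) = zJ ζ' hζ' (jacMap ℓ j hj Q) := by
  subst h
  exact (zJ_jacMap j hj ζ hζ hζ' Q).symm

variable {k F L Ω : Type u} [Field k] [Field F] [Algebra k F] [Field L] [Algebra F[X] L]
  [Field Ω] [Algebra L Ω]

private lemma g17_aeval {M : Type u} [Field M] [Algebra L M] [Algebra F M]
    (hFM : CompatF F L M) (P : F[X]) :
    aeval (tA F L M) P = algebraMap L M (algebraMap F[X] L P) := by
  have h : ((aeval (tA F L M) : F[X] →ₐ[F] M) : F[X] →+* M) =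
      (algebraMap L M).comp (algebraMap F[X] L) := by
    apply Polynomial.ringHom_ext
    · intro c
      change aeval (tA F L M) (C c) = algebraMap L M (algebraMap F[X] L (C c))
      rw [aeval_C]
      exact hFM c
    · change aeval (tA F L M) X = algebraMap L M (algebraMap F[X] L X)
      rw [aeval_X]
      rfl
  exact RingHom.congr_fun h P

private lemma g17_z {M : Type u} [Field M] [Algebra L M] [Algebra F M]
    (hFM : CompatF F L M) (ζ : k) : zA F L M ζ = algebraMap F M (algebraMap k F ζ) := by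
  rw [hFM]
  unfold zA base
  rw [RingHom.comp_apply, RingHom.comp_apply, coe_mapRingHom, Polynomial.map_C]

variable [IsAlgClosure k F] [IsFractionRing F[X] L] [IsAlgClosure L Ω]
  [Algebra F Ω] {ℓ : ℕ} {g D : k[X]} [hG : IsGood ℓ (cOver k F L Ω g D)] {ζ : k}
  {hζ : (zA F L Ω ζ) ^ ℓ = 1}

omit [Algebra F Ω] hG in
private lemma g17_poly {M : Type u} [Field M] [Algebra L M] (j : Ω →ₐ[L] M) (γ : AutO k F L Ω)
    (w : M ≃+* M) (hw : ∀ x, j ((γ : Ω ≃+* Ω) x) = w (j x)) (P : F[X]) :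
    w (algebraMap L M (algebraMap F[X] L P)) =
      algebraMap L M (algebraMap F[X] L (P.map (resF γ : F →+* F))) := by
  rw [← j.commutes, ← hw, resF_spec, j.commutes]

omit [Algebra F Ω] hG in
private lemma g17_map {M : Type u} [Field M] [Algebra L M] (j : Ω →ₐ[L] M) :
    (cOver k F L Ω g D).map (j : Ω →+* M) = cOver k F L M g D := by
  rw [Polynomial.map_map]
  congr 1
  exact j.comp_algebraMap

omit [Algebra F Ω] hG in
private lemma g17_sym {M : Type u} [Field M] [Algebra L M] (j : Ω →ₐ[L] M) (γ : AutO k F L Ω)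
    (w : M ≃+* M) (hw : ∀ x, j ((γ : Ω ≃+* Ω) x) = w (j x)) : w ∈ Sym (cOver k F L M g D) := by
  rw [mem_Sym, ← g17_map j, Polynomial.map_map]
  have h2 : (w : M →+* M).comp (j : Ω →+* M) =
      (j : Ω →+* M).comp (((γ : Ω ≃+* Ω)) : Ω →+* Ω) := by
    ext x
    exact (hw x).symm
  rw [h2, ← Polynomial.map_map]
  congr 1
  exact (toSym g D γ).2

omit [Algebra F Ω] hG in
private lemma g17_Ua (H : GlobHyp ℓ g D ζ) (γ : AutO k F L Ω)
    (hγ : ∀ β ∈ RR F g D, resF γ β = β) {a : F} (ha : aeval a D = 0) : resF γ a = a := by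
  have hFc : IsAlgClosed F := IsAlgClosure.isAlgClosed k
  have hdeg : (g.map (algebraMap k F)).natDegree ≠ 0 := by
    rw [natDegree_map]
    intro h0
    have h1 := H.cop
    rw [h0, Nat.coprime_zero_left] at h1
    exact H.prime.one_lt.ne' h1
  obtain ⟨β, hβ⟩ := IsAlgClosed.exists_root (g.map (algebraMap k F) - C a) (by
    rw [degree_sub_C (natDegree_pos_iff_degree_pos.mp (Nat.pos_of_ne_zero hdeg))]
    exact (natDegree_pos_iff_degree_pos.mp (Nat.pos_of_ne_zero hdeg)).ne')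
  rw [IsRoot.def, eval_sub, eval_C, sub_eq_zero, eval_map_algebraMap] at hβ
  have h1 := hγ β (by
    rw [mem_RR H, hβ]
    exact ha)
  rw [← hβ, ← aeval_algHom_apply, h1]

set_option linter.unusedSectionVars false in
private theorem g17_local (hF : CompatF F L Ω) (H : GlobHyp ℓ g D ζ) {c y : Coch ℓ k F L Ω g D}
    (hc : IsTateCocycle ℓ (curvePoly k F L g D) c)
    (hy : IsTateCocycle ℓ (curvePoly k F L g D) y) {e e' : F → ℤ} (h : HasExp hζ c e)
    (h' : HasExp hζ y e') (γ : AutO k F L Ω) (hγ : ∀ β ∈ RR F g D, resF γ β = β)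
    (hrel : TTc (act γ c - c - (y - Sup.zC ζ hζ y))) {a : F} (ha : aeval a D = 0)
    {K M : Type u} [Field K] [Algebra L K] [Field M] [Algebra K M] [IsAlgClosure K M]
    [Algebra L M] [IsScalarTower L K M] [Algebra F M] (hFM : CompatF F L M)
    {v : AbsoluteValue M ℝ}
    (hv : LocCtx v a (tA F L M)) (hinv : ∀ (σ : M ≃ₐ[K] M) x, v (σ x) = v x)
    (hval : ∀ x : K, x ≠ 0 → ∃ i : ℤ,
      v (algebraMap K M x) = v (tA F L M - algebraMap F M a) ^ i)
    (j : Ω →ₐ[L] M) (w : M ≃+* M) (φ : K ≃+* K)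
    (hwφ : ∀ x, w (algebraMap K M x) = algebraMap K M (φ x))
    (hvw : ∀ x, v (w x) = v x) (hjw : ∀ x, j ((γ : Ω ≃+* Ω) x) = w (j x))
    (Q₂ : JacOver ℓ (curvePoly k F L g D) M)
    (hQ₂ : ∀ (τ : M ≃ₐ[K] M) (τ' : Ω ≃ₐ[L] Ω), (∀ x, j (τ' x) = τ (j x)) →
      push ℓ (curvePoly k F L g D) j (c 2 τ') =
        push ℓ (curvePoly k F L g D) (τ.restrictScalars L : M →ₐ[L] M) Q₂ - Q₂) :
    ∃ cst : ℤ, ∀ β, aeval β g = a → ∀ x : F,
      x ^ ℓ = ((-1) ^ (ℓ + 1) * aeval a (derivative D)) ^ e β *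
        ∏ β' ∈ (RR F g D).filter fun β' => aeval β' g ≠ a, (β - β') ^ (-e β') →
      resF γ x = algebraMap k F ζ ^ (e' β + cst) * x := by
  have hFc : IsAlgClosed F := IsAlgClosure.isAlgClosed k
  have hMc : IsAlgClosed M := IsAlgClosure.isAlgClosed K
  have hGM : IsGood ℓ (cOver k F L M g D) := isGood_cOver H
  have hjm := g17_map (k := k) (F := F) (g := g) (D := D) j
  have hℓ0 : ℓ ≠ 0 := H.prime.ne_zero
  have hNe : NeZero ℓ := ⟨hℓ0⟩
  have hζM0 : IsPrimitiveRoot (zA F L M ζ) ℓ := zA_primitive H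
  have hζM : (zA F L M ζ) ^ ℓ = 1 := hζM0.pow_eq_one
  have hjz : (j : Ω →+* M) (zA F L Ω ζ) = zA F L M ζ := map_zA j ζ
  have hzF : zA F L M ζ = algebraMap F M (algebraMap k F ζ) := g17_z hFM ζ
  have hζF : IsPrimitiveRoot (algebraMap k F ζ) ℓ :=
    H.zeta.map_of_injective (algebraMap k F).injective
  set g' : F[X] := g.map (algebraMap k F) with hg'
  set D' : F[X] := D.map (algebraMap k F) with hD'
  -- the element `δ`
  obtain ⟨δ, hδ⟩ := IsAlgClosed.exists_pow_nat_eq (aeval (tA F L M) D') (Nat.pos_of_ne_zero hℓ0)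
  have hB : BadCtx g' D' a (tA F L M) δ ℓ := H.badCtx hFM ha hδ
  have hf : cOver k F L M g D = locPoly g' (tA F L M) (aeval (tA F L M) D') :=
    cOver_eq_locPoly hFM g D
  have hf0 : cOver k F L M g D ≠ 0 := by
    rw [hf]
    exact locPoly_ne_zero hB.monic hB.deg hB.ne
  have hδ0 : δ ≠ 0 := by
    rintro rfl
    rw [zero_pow hℓ0] at hδ
    exact hB.ne hδ.symm
  -- the group `Γ`
  have hfK : ((curvePoly k F L g D).map (algebraMap L K)).map (algebraMap K M) =
      cOver k F L M g D := by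
    rw [Polynomial.map_map, ← IsScalarTower.algebraMap_eq]
  have hFK : ∀ c : F, ∃ x : K, algebraMap K M x = algebraMap F M c := fun c =>
    ⟨algebraMap L K (algebraMap F[X] L (C c)), by
      rw [← IsScalarTower.algebraMap_apply, ← hFM]⟩
  have htK : ∃ x : K, algebraMap K M x = tA F L M :=
    ⟨algebraMap L K (algebraMap F[X] L X), by
      rw [← IsScalarTower.algebraMap_apply]
      rfl⟩
  have hΓ := hv.locGrp hfK hinv hval hFK htK
  have hp : (ringExpChar K).Coprime ℓ := by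
    have hℓK : (ℓ : K) ≠ 0 := by
      intro h0
      apply H.ne
      let ι : k →+* K := (algebraMap L K).comp ((algebraMap F[X] L).comp
        ((C : F →+* F[X]).comp (algebraMap k F)))
      apply ι.injective
      rw [map_natCast, map_zero]
      exact h0
    rcases expChar_is_prime_or_one K (ringExpChar K) with h1 | h1
    · rw [Nat.coprime_primes h1 H.prime]
      intro h2
      apply hℓK
      rw [← h2]
      have h3 : ringExpChar K = ringChar K := by
        have h4 : 1 < ringExpChar K := h1.one_lt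
        unfold ringExpChar at h4 ⊢
        rcases max_cases (ringChar K) 1 with h5 | h5
        · exact h5.1
        · rw [h5.1] at h4
          exact absurd h4 (lt_irrefl _)
      rw [h3]
      exact ringChar.Nat.cast_ringChar
    · rw [h1]
      exact Nat.coprime_one_left ℓ
  -- the automorphism `u`
  let u : Sym (cOver k F L M g D) := ⟨w, g17_sym j γ w hjw⟩
  have hwP := g17_poly j γ w hjw
  have huF : ∀ c : F, w (algebraMap F M c) = algebraMap F M (resF γ c) := by
    intro c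
    rw [hFM, hwP, Polynomial.map_C, hFM]
    rfl
  have hut : w (tA F L M) = tA F L M := by
    have := hwP X
    rwa [Polynomial.map_X] at this
  have hmapk : ∀ P : k[X], (P.map (algebraMap k F)).map (resF γ : F →+* F) =
      P.map (algebraMap k F) := by
    intro P
    rw [Polynomial.map_map]
    congr 1
    exact (resF γ : F →ₐ[k] F).comp_algebraMap
  have hud : w (aeval (tA F L M) D') = aeval (tA F L M) D' := by
    rw [g17_aeval hFM, hwP, hD', hmapk]
  have hwζ : w (zA F L M ζ) = zA F L M ζ := by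
    rw [hzF, huF, AlgEquiv.commutes]
  -- the roots
  have hroot : ∀ θ, θ ∈ rts (cOver k F L M g D) ↔ aeval θ g' = tA F L M := by
    intro θ
    rw [mem_rts hf0, hf, eval_locPoly_eq_zero hB.ne]
  have hRRmem : ∀ β, g'.eval β = a → β ∈ RR F g D := by
    intro β hβ
    rw [mem_RR H]
    rw [hg', eval_map_algebraMap] at hβ
    rw [hβ]
    exact ha
  have hUa : resF γ a = a := g17_Ua H γ hγ ha
  have hwθ : ∀ θ ∈ rts (cOver k F L M g D), w θ = θ := by
    intro θ hθ
    rw [hroot] at hθ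
    have h1 : aeval (w θ) g' = tA F L M := by
      have e1 : (w : M →+* M).comp (algebraMap F M) =
          (algebraMap F M).comp (resF γ : F →+* F) := RingHom.ext huF
      have h2 := hom_eval₂ g' (algebraMap F M) (w : M →+* M) θ
      rw [e1, ← eval₂_map, hg', hmapk, ← aeval_def, ← aeval_def] at h2
      have h3 : (w : M →+* M) θ = w θ := rfl
      rw [h3] at h2
      rw [← hut, ← hθ]
      exact h2.symm
    have h4 := hv.eval_rs hB hθ
    apply hv.rs_injOn hB h1 hθ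
    apply hv.rs_eq
    have hr := hv.v_sub_rs (hv.v_root_le hB.monic hB.deg hθ)
    have e2 : w θ - algebraMap F M (rs F v θ) = w (θ - algebraMap F M (rs F v θ)) := by
      rw [map_sub, huF, hγ _ (hRRmem _ h4)]
    rw [e2, hvw]
    exact hr
  have hγθ : ∀ θ ∈ rts (cOver k F L Ω g D), (γ : Ω ≃+* Ω) θ = θ := by
    intro θ hθ
    apply (j : Ω →+* M).injective
    have h1 := hwθ _ (map_root_mem (k := k) (F := F) H j hθ)
    rw [← hjw] at h1
    exact h1
  -- conjugation by `w`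
  have hwinv : ∀ x : K, w.symm (algebraMap K M x) = algebraMap K M (φ.symm x) := by
    intro x
    rw [RingEquiv.symm_apply_eq, hwφ, RingEquiv.apply_symm_apply]
  let cw : (M ≃ₐ[K] M) → (M ≃ₐ[K] M) := fun τ =>
    AlgEquiv.ofRingEquiv (f := (w.symm.trans (τ : M ≃+* M)).trans w) (by
      intro x
      change w (τ (w.symm (algebraMap K M x))) = algebraMap K M x
      rw [hwinv, τ.commutes, hwφ, RingEquiv.apply_symm_apply])
  have hcw : ∀ τ x, cw τ x = w (τ (w.symm x)) := fun _ _ => rfl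
  have hcwS : ∀ τ, u * galSym hfK τ * u⁻¹ = galSym hfK (cw τ) := by
    intro τ
    apply Subtype.ext
    ext x
    rfl
  have hτz : ∀ τ : M ≃ₐ[K] M, τ (zA F L M ζ) = zA F L M ζ := by
    intro τ
    rw [hzF]
    obtain ⟨x, hx⟩ := hFK (algebraMap k F ζ)
    rw [← hx, τ.commutes]
  have hz0 : zA F L M ζ ≠ 0 := hζM0.ne_zero hℓ0
  have hcwδ : ∀ (τ : M ≃ₐ[K] M) (i : ℤ), τ δ = zA F L M ζ ^ i * δ →
      cw τ δ = zA F L M ζ ^ i * δ := by
    intro τ i hi
    have h1 : (w δ / δ) ^ ℓ = 1 := by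
      rw [div_pow, ← map_pow, hδ, hud, div_self hB.ne]
    obtain ⟨s, -, hs⟩ := hζM0.eq_pow_of_pow_eq_one h1
    have h2 : w δ = zA F L M ζ ^ s * δ := by
      rw [hs, div_mul_cancel₀ _ hδ0]
    have h3 : w.symm δ = (zA F L M ζ ^ s)⁻¹ * δ := by
      rw [RingEquiv.symm_apply_eq, map_mul, map_inv₀, map_pow, hwζ, h2, ← mul_assoc,
        inv_mul_cancel₀ (pow_ne_zero _ hz0), one_mul]
    rw [hcw, h3, map_mul, map_inv₀, map_pow, hτz, hi, map_mul, map_inv₀, map_pow, hwζ, map_mul,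
      map_zpow₀, hwζ, h2]
    have h4 := pow_ne_zero s hz0
    field_simp
  -- the class `Q`
  set Q : JacOver ℓ (curvePoly k F L g D) M :=
    vJ (zA F L M ζ) hζM (vJ (zA F L M ζ) hζM Q₂) with hQ
  have hQc : ∀ (τ : M ≃ₐ[K] M) (τ' : Ω ≃ₐ[L] Ω), (∀ x, j (τ' x) = τ (j x)) →
      push ℓ (curvePoly k F L g D) j
        (vJ (zA F L Ω ζ) hζ (vJ (zA F L Ω ζ) hζ (c 2 τ'))) = symJ (galSym hfK τ) Q - Q := by
    intro τ τ' hτ
    have hτζ : ((galSym hfK τ : Sym (cOver k F L M g D)) : M ≃+* M) (zA F L M ζ) =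
        zA F L M ζ := hτz τ
    have h1 : push ℓ (curvePoly k F L g D) j
        (vJ (zA F L Ω ζ) hζ (vJ (zA F L Ω ζ) hζ (c 2 τ'))) =
        vJ (zA F L M ζ) hζM (vJ (zA F L M ζ) hζM (push ℓ (curvePoly k F L g D) j (c 2 τ'))) := by
      have e1 : ∀ X : JacOver ℓ (curvePoly k F L g D) Ω,
          jacMap ℓ (j : Ω →+* M) hjm (vJ (zA F L Ω ζ) hζ X) =
            vJ (zA F L M ζ) hζM (jacMap ℓ (j : Ω →+* M) hjm X) := fun X =>
        g17_vJ (j : Ω →+* M) hjm (zA F L Ω ζ) (zA F L M ζ) hζ hζM hjz X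
      have e2 := e1 (vJ (zA F L Ω ζ) hζ (c 2 τ'))
      rw [e1 (c 2 τ')] at e2
      exact e2
    rw [h1, hQ₂ τ τ' hτ, vJ_sub, vJ_sub]
    have h2 : push ℓ (curvePoly k F L g D) (τ.restrictScalars L : M →ₐ[L] M) Q₂ =
        symJ (galSym hfK τ) Q₂ := rfl
    rw [h2, vJ_symJ _ _ _ hτζ, vJ_symJ _ _ _ hτζ]
  obtain ⟨A, z, q, hz, hzq, hA, hR⟩ := exists_relation hF H hc hy h γ hγ hrel
  have hres : ∀ τ : M ≃ₐ[K] M, ∃ τ' : Ω ≃ₐ[L] Ω, ∀ x, j (τ' x) = τ (j x) := fun τ =>
    exists_restrict j (τ.restrictScalars L)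
  have hji : Function.Injective j := (j : Ω →+* M).injective
  -- the functions over `M`
  let zM : M → M := Function.extend j (fun x => j (z x)) 0
  let qM : M → ℤ := Function.extend j q 0
  have hzM : ∀ x, zM (j x) = j (z x) := fun x => hji.extend_apply _ _ x
  have hqM : ∀ x, qM (j x) = q x := fun x => hji.extend_apply _ _ x
  have hzJ : ∀ (x : M) (hx : x ^ ℓ = 1) (P : JacOver ℓ (curvePoly k F L g D) M),
      x = zA F L M ζ → zJ x hx P = zJ (zA F L M ζ) hζM P := by
    rintro _ _ _ rfl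
    rfl
  have key := hv.bad_formula' (ℓ := ℓ) (p := ringExpChar K) hp hB hf hζF (by
      rw [← hzF]
      exact hζM0) hΓ u (resF γ : F ≃+* F) hvw huF hut (hmapk g) hud ((resF γ).commutes ζ)
    (by
      rintro _ ⟨τ, rfl⟩
      exact ⟨cw τ, (hcwS τ).symm⟩)
    (RR F g D) hRRmem hγ hUa e Q
    (by
      rintro _ ⟨τ, rfl⟩ i hi
      obtain ⟨τ', hτ'⟩ := hres τ
      rw [← hQc τ τ' hτ', hzJ _ _ _ hzF.symm]
      have e1 := g17_zJ (j : Ω →+* M) hjm (zA F L Ω ζ) (zA F L M ζ) hζ hζM hjz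
        (vJ (zA F L Ω ζ) hζ (vJ (zA F L Ω ζ) hζ (c 2 τ')))
      have e2 : zJ (zA F L M ζ) hζM (push ℓ (curvePoly k F L g D) j
          (vJ (zA F L Ω ζ) hζ (vJ (zA F L Ω ζ) hζ (c 2 τ')))) =
          push ℓ (curvePoly k F L g D) j (zJ (zA F L Ω ζ) hζ
            (vJ (zA F L Ω ζ) hζ (vJ (zA F L Ω ζ) hζ (c 2 τ')))) := e1.symm
      rw [e2, ← map_sub, vJ_level_two H hc]
      rw [← hzF] at hi
      exact h.local_char hF H ha hFM hv hinv j hδ τ τ' hτ' i hi)
    zM
    (by
      intro θ hθ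
      obtain ⟨θ₀, hθ₀, rfl⟩ := exists_root_eq (k := k) (F := F) H j hθ
      rw [hzM, ← map_pow, hz θ₀ hθ₀, map_prod]
      refine Finset.prod_congr rfl fun β _ => ?_
      rw [map_zpow₀, map_sub, hF, j.commutes, ← hFM])
    qM
    (by
      intro θ hθ
      obtain ⟨θ₀, hθ₀, rfl⟩ := exists_root_eq (k := k) (F := F) H j hθ
      have h1 := hzq θ₀ hθ₀
      rw [hγθ θ₀ hθ₀] at h1
      rw [hzM, hqM, ← hzF]
      change w (j (z θ₀)) = _
      rw [← hjw, h1, map_mul, map_zpow₀]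
      congr 2)
    (push ℓ (curvePoly k F L g D) j A)
    (by
      rw [hzJ _ _ _ hzF.symm]
      have e1 := g17_zJ (j : Ω →+* M) hjm (zA F L Ω ζ) (zA F L M ζ) hζ hζM hjz A
      have e2 : zJ (zA F L M ζ) hζM (push ℓ (curvePoly k F L g D) j A) =
          push ℓ (curvePoly k F L g D) j (zJ (zA F L Ω ζ) hζ A) := e1.symm
      rw [e2, ← map_sub, hA]
      exact jacMap_ram (j : Ω →+* M) hjm (fun θ => -q θ) (fun θ => -qM θ)
        (fun θ _ => congrArg Neg.neg (hqM θ)))
    e'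
    (by
      rintro _ ⟨τ, rfl⟩ i hi
      rw [← hzF] at hi
      obtain ⟨τ', hτ'⟩ := hres τ
      have hσ : ∀ x, j (conjG γ τ' x) = cw τ (j x) := by
        intro x
        obtain ⟨x, rfl⟩ := (γ : Ω ≃+* Ω).surjective x
        rw [conjG_spec, hjw, hτ', hjw, hcw, RingEquiv.symm_apply_apply]
      have hinvc : conjG γ⁻¹ (conjG γ τ') = τ' := by
        rw [map_inv, MulAut.inv_apply_self]
      have h1 := hR (conjG γ τ')
      rw [hinvc] at h1
      have h2 := h'.local_char hF H ha hFM hv hinv j hδ (cw τ) (conjG γ τ') hσ i (hcwδ τ i hi)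
      rw [h1, map_add, map_sub, map_sub, hQc (cw τ) (conjG γ τ') hσ] at h2
      rw [← h2, hcwS τ, ← hQc τ τ' hτ']
      have e1 : push ℓ (curvePoly k F L g D) j (symJ (toSym g D γ)
          (vJ (zA F L Ω ζ) hζ (vJ (zA F L Ω ζ) hζ (c 2 τ')))) =
          symJ u (push ℓ (curvePoly k F L g D) j
          (vJ (zA F L Ω ζ) hζ (vJ (zA F L Ω ζ) hζ (c 2 τ')))) :=
        g17_sq _ (j : Ω →+* M) _ _ hjm _ hjw _
      have e2 : push ℓ (curvePoly k F L g D) j
          (symJ (toSym g D (galA k F (conjG γ τ'))) A) =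
          symJ (galSym hfK (cw τ)) (push ℓ (curvePoly k F L g D) j A) :=
        g17_sq _ (j : Ω →+* M) _ _ hjm _ hσ _
      rw [e1, e2])
  obtain ⟨cst, hcst⟩ := key
  refine ⟨cst, fun β hβ x hx => hcst β ?_ x ?_⟩
  · rw [hg', eval_map_algebraMap]
    exact hβ
  · rw [hx, hD', derivative_map, eval_map_algebraMap]
    congr 1
    refine Finset.prod_congr ?_ fun _ _ => rfl
    refine Finset.filter_congr fun β' _ => ?_
    rw [hg', eval_map_algebraMap]

theorem exists_formula (hF : CompatF F L Ω) (H : GlobHyp ℓ g D ζ) {c y : Coch ℓ k F L Ω g D}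
    (hc : IsTateCocycle ℓ (curvePoly k F L g D) c) (hLT : LTc c)
    (hy : IsTateCocycle ℓ (curvePoly k F L g D) y) {e e' : F → ℤ} (h : HasExp hζ c e)
    (h' : HasExp hζ y e') (γ : AutO k F L Ω) (hγ : ∀ β ∈ RR F g D, resF γ β = β)
    (hrel : TTc (act γ c - c - (y - Sup.zC ζ hζ y))) {a : F} (ha : aeval a D = 0) :
    ∃ cst : ℤ, ∀ β, aeval β g = a → ∀ x : F,
      x ^ ℓ = ((-1) ^ (ℓ + 1) * aeval a (derivative D)) ^ e β *
        ∏ β' ∈ (RR F g D).filter fun β' => aeval β' g ≠ a, (β - β') ^ (-e β') →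
      resF γ x = algebraMap k F ζ ^ (e' β + cst) * x := by
  have hFc : IsAlgClosed F := IsAlgClosure.isAlgClosed k
  have hΩalg : Algebra.IsAlgebraic L Ω := IsAlgClosure.isAlgebraic
  have hUa : resF γ a = a := g17_Ua H γ hγ ha
  have hφ : ∃ φ : (plc a).adicCompletion L ≃+* (plc a).adicCompletion L,
      (∀ x : L, φ (algebraMap L _ x) = algebraMap L _ (coefL L (resF γ : F ≃+* F) x)) ∧
      ∀ x, Valued.v (φ x) = Valued.v x := by
    have h1 := exists_adic_equiv L (resF γ : F ≃+* F) a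
    have h2 : (resF γ : F ≃+* F) a = a := hUa
    rwa [h2] at h1
  obtain ⟨φ, hφL, hφv⟩ := hφ
  let _ : Algebra F (AlgebraicClosure ((plc a).adicCompletion L)) :=
    ((algebraMap L (AlgebraicClosure ((plc a).adicCompletion L))).comp
      ((algebraMap F[X] L).comp (C : F →+* F[X]))).toAlgebra
  have hFM : CompatF F L (AlgebraicClosure ((plc a).adicCompletion L)) := fun _ => rfl
  have hXL : ∀ P : F[X], algebraMap ((plc a).adicCompletion L)
      (AlgebraicClosure ((plc a).adicCompletion L))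
      (algebraMap F[X] ((plc a).adicCompletion L) P) =
      algebraMap L (AlgebraicClosure ((plc a).adicCompletion L)) (algebraMap F[X] L P) := by
    intro P
    rw [IsScalarTower.algebraMap_apply F[X] L ((plc a).adicCompletion L),
      ← IsScalarTower.algebraMap_apply L ((plc a).adicCompletion L)]
  obtain ⟨v, hv, hval, hinv, hsemi⟩ := exists_locCtx (L := L)
    (M := AlgebraicClosure ((plc a).adicCompletion L)) a (fun c => by rw [hXL, hFM])
  rw [hXL] at hv hval
  obtain ⟨w, hw⟩ := exists_extend_alg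
    (M := AlgebraicClosure ((plc a).adicCompletion L)) φ
  have hwL : ∀ x : L, w (algebraMap L (AlgebraicClosure ((plc a).adicCompletion L)) x) =
      algebraMap L (AlgebraicClosure ((plc a).adicCompletion L))
        (coefL L (resF γ : F ≃+* F) x) := by
    intro x
    rw [IsScalarTower.algebraMap_apply L ((plc a).adicCompletion L), hw, hφL,
      ← IsScalarTower.algebraMap_apply L ((plc a).adicCompletion L)]
  let j : Ω →ₐ[L] AlgebraicClosure ((plc a).adicCompletion L) := IsAlgClosed.lift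
  obtain ⟨γ₀, hγ₀, hjγ₀⟩ := exists_compat j (coefL L (resF γ : F ≃+* F)) w hwL
  have hγP : ∀ P : F[X], γ₀ (algebraMap L Ω (algebraMap F[X] L P)) =
      algebraMap L Ω (algebraMap F[X] L (P.map (resF γ : F →+* F))) := by
    intro P
    rw [hγ₀, coefL_algebraMap]
    rfl
  let γ' : AutO k F L Ω := ⟨γ₀, fun p => by
    have h1 := hγP (p.map (algebraMap k F))
    have h2 : (p.map (algebraMap k F)).map (resF γ : F →+* F) = p.map (algebraMap k F) := by
      rw [Polynomial.map_map]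
      congr 1
      exact (resF γ : F →ₐ[k] F).comp_algebraMap
    rw [h2] at h1
    exact h1⟩
  have hres : resF γ' = resF γ := by
    ext x
    have h1 := resF_spec γ' (C x)
    have h2 := hγP (C x)
    have h3 : (γ' : Ω ≃+* Ω) (algebraMap L Ω (algebraMap F[X] L (C x))) =
      γ₀ (algebraMap L Ω (algebraMap F[X] L (C x))) := rfl
    rw [h3, h2] at h1
    have h4 := IsFractionRing.injective F[X] L ((algebraMap L Ω).injective h1)
    rw [Polynomial.map_C, Polynomial.map_C] at h4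
    exact (C_injective h4).symm
  have hrel' : TTc (act γ' c - c - (y - Sup.zC ζ hζ y)) := by
    have h1 := hrel.sub (act_sub_act_of_resF_eq hc hres.symm)
    have h2 : act γ c - c - (y - Sup.zC ζ hζ y) - (act γ c - act γ' c) =
        act γ' c - c - (y - Sup.zC ζ hζ y) := by abel
    rwa [h2] at h1
  obtain ⟨Q₂, hQ₂⟩ := hLT a 2 (AlgebraicClosure ((plc a).adicCompletion L)) j
  have key := g17_local hF H hc hy h h' γ' (by rw [hres]; exact hγ) hrel' ha
    (K := (plc a).adicCompletion L) hFM hv hinv hval j w φ hw (hsemi w φ hφv hw) hjγ₀ Q₂ hQ₂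
  rwa [hres] at key

end Pool.Agent.Lib.MP_89bcae_ag.Sup
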