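import Mathlib
import Pool.Agent.Lib.MP_89bcae_ag.Sup.G12

/-!
ROW G14 (120-220 lines). A class with exponents divisible by `ℓ` is divisible by `π`.

PROOF. By `HasExp.congr` we may assume `e = 0`. Then `(z θ)^ℓ = 1`, `z θ = ζ^{m₀(θ)}` on the roots, and
`σ (z θ) = z θ = ζ^{m₀(θ) - m₀(σθ)} z(σθ)`, so `v (c 1 σ) = ram (m₀ ∘ σ⁻¹ - m₀) = σ B - B`, `B = ram m₀`,
`Z B = B` (`zJ_ram`, `symJ_ram`, `ram_sub`). Choose `Q_0 = B`, `ℓ Q_{n+1} = Q_n` (`exists_smul_eq`). Let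
`y_n(σ) = v (c_{n+1} σ) - (σ Q_n - Q_n)`. Tate cocycle: `y_0 = v c_1 - ∂B = 0`,
`ℓ y_{n+1} = v c_{n+1} - ∂ Q_n = y_n`; cocycle relation clear; locally constant
(`isLocallyConstant_symJ`). Locally trivial: `LTc.shift`, `LTc.of_coboundary`, `v` is a sum of powers of
`Z` (`LTc.add`, `LTc.zC`). `π y_n = ℓ c_{n+1} - ∂ (π Q_n) = c_n - ∂(π Q_n)`, where
`ℓ^n π Q_n = π B = 0`: so `c - (y - Z y)` is trivial. Invariance: for `γ` take `M` with
`act (γ^M) c - c` trivial; with `x = act (γ^M) y - y`: `x - Z x = act (γ^M) (y - Zy) - (y - Zy)` is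
trivial, since `y - Zy - c` and its image are, so `x` is trivial by `TTc.of_sub_zC` (G08).
-/

open Polynomial IsDedekindDomain

open scoped Classical

set_option linter.unusedSectionVars false

namespace Pool.Agent.Lib.MP_89bcae_ag.Sup

universe u

variable {k F L Ω : Type u} [Field k] [Field F] [Algebra k F] [Field L] [Algebra F[X] L]
  [Field Ω] [Algebra L Ω] [IsAlgClosure k F] [IsFractionRing F[X] L] [IsAlgClosure L Ω]
  [Algebra F Ω] {ℓ : ℕ} {g D : k[X]} [hG : IsGood ℓ (cOver k F L Ω g D)] {ζ : k}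
  {hζ : (zA F L Ω ζ) ^ ℓ = 1}

private lemma G14_iter (ζ : k) (hζ : (zA F L Ω ζ) ^ ℓ = 1) (c : Coch ℓ k F L Ω g D) (i n : ℕ)
    (σ : Ω ≃ₐ[L] Ω) :
    ((Sup.zC ζ hζ)^[i] c) n σ = (zJ (zA F L Ω ζ) hζ)^[i] (c n σ) := by
  induction i with
  | zero => rfl
  | succ i ih =>
    rw [Function.iterate_succ_apply', Function.iterate_succ_apply', ← ih]
    rfl

private lemma G14_lt_sum {c : ℕ → Coch ℓ k F L Ω g D} (s : Finset ℕ)
    (h : ∀ i ∈ s, LTc (c i)) : LTc (∑ i ∈ s, c i) := by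
  induction s using Finset.induction_on with
  | empty =>
    rw [Finset.sum_empty]
    exact (TTc.zero : TTc (0 : Coch ℓ k F L Ω g D)).lt
  | insert a s ha ih =>
    rw [Finset.sum_insert ha]
    exact (h a (Finset.mem_insert_self a s)).add
      (ih fun i hi => h i (Finset.mem_insert_of_mem hi))

private lemma G14_lt_iter (H : GlobHyp ℓ g D ζ) (hζ : (zA F L Ω ζ) ^ ℓ = 1)
    {c : Coch ℓ k F L Ω g D} (hc : LTc c) (i : ℕ) : LTc ((Sup.zC ζ hζ)^[i] c) := by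
  induction i with
  | zero => exact hc
  | succ i ih =>
    rw [Function.iterate_succ_apply']
    exact ih.zC H hζ

private lemma G14_lt_v (H : GlobHyp ℓ g D ζ) (hζ : (zA F L Ω ζ) ^ ℓ = 1)
    {c : Coch ℓ k F L Ω g D} (hc : LTc c) :
    LTc (fun n σ => vJ (zA F L Ω ζ) hζ (c n σ) : Coch ℓ k F L Ω g D) := by
  have h1 : (fun n σ => vJ (zA F L Ω ζ) hζ (c n σ) : Coch ℓ k F L Ω g D) =
      ∑ j ∈ Finset.range ℓ, ∑ i ∈ Finset.range j, (Sup.zC ζ hζ)^[i] c := by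
    funext n σ
    rw [Finset.sum_apply, Finset.sum_apply]
    unfold vJ
    apply Finset.sum_congr rfl
    intro j _
    rw [Finset.sum_apply, Finset.sum_apply]
    apply Finset.sum_congr rfl
    intro i _
    rw [G14_iter]
  rw [h1]
  exact G14_lt_sum _ fun j _ => G14_lt_sum _ fun i _ => G14_lt_iter H hζ hc i

private lemma G14_rts_map (hne : cOver k F L Ω g D ≠ 0) {θ : Ω} (σ : Ω ≃ₐ[L] Ω)
    (hθ : θ ∈ rts (cOver k F L Ω g D)) : σ θ ∈ rts (cOver k F L Ω g D) := by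
  rw [mem_rts hne] at hθ ⊢
  have h1 : (cOver k F L Ω g D).map (((toSym g D (galA k F σ) :
      Sym (cOver k F L Ω g D)) : Ω ≃+* Ω) : Ω →+* Ω) = cOver k F L Ω g D :=
    (toSym g D (galA k F σ)).2
  have h2 := Polynomial.eval₂_at_apply (p := cOver k F L Ω g D)
    (((toSym g D (galA k F σ) : Sym (cOver k F L Ω g D)) : Ω ≃+* Ω) : Ω →+* Ω) θ
  rw [← Polynomial.eval_map, h1, hθ, map_zero] at h2
  exact h2

theorem exists_division (hF : CompatF F L Ω) (H : GlobHyp ℓ g D ζ) {c : Coch ℓ k F L Ω g D}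
    (hc : WWc c) {e : F → ℤ} (h : HasExp hζ c e) (he : ∀ β ∈ RR F g D, (ℓ : ℤ) ∣ e β) :
    ∃ y : Coch ℓ k F L Ω g D, WWc y ∧ TTc (c - (y - Sup.zC ζ hζ y)) := by
  have Hζ : IsPrimitiveRoot (zA F L Ω ζ) ℓ := zA_primitive H
  have hz0 : zA F L Ω ζ ≠ 0 := Hζ.ne_zero H.prime.ne_zero
  have : NeZero ℓ := ⟨H.prime.ne_zero⟩
  have h' : HasExp hζ c (fun _ => 0) := h.congr hF H (by
    intro β hβ
    rw [zero_sub, dvd_neg]
    exact he β hβ)
  obtain ⟨z, hz, hzσ⟩ := h'.ex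
  have hroot : ∀ θ : Ω, ∃ m : ℤ, θ ∈ rts (cOver k F L Ω g D) → z θ = zA F L Ω ζ ^ m := by
    intro θ
    by_cases hθ : θ ∈ rts (cOver k F L Ω g D)
    · have h1 := hz θ hθ
      simp only [zpow_zero, Finset.prod_const_one] at h1
      obtain ⟨i, _, hi⟩ := Hζ.eq_pow_of_pow_eq_one h1
      exact ⟨i, fun _ => by rw [zpow_natCast, hi]⟩
    · exact ⟨0, fun h => absurd h hθ⟩
  choose m₀ hm₀ using hroot
  set B : JacOver ℓ (curvePoly k F L g D) Ω := (ram m₀ : Jac ℓ (cOver k F L Ω g D)) with hB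
  have hfix : ∀ σ : Ω ≃ₐ[L] Ω, σ (zA F L Ω ζ) = zA F L Ω ζ := fun σ => zA_fixed ζ (galA k F σ)
  have hfix' : ∀ σ : Ω ≃ₐ[L] Ω, ((toSym g D (galA k F σ) : Sym (cOver k F L Ω g D)) : Ω ≃+* Ω)
      (zA F L Ω ζ) = zA F L Ω ζ := fun σ => hfix σ
  -- the first level
  have hv1 : ∀ σ : Ω ≃ₐ[L] Ω, vJ (zA F L Ω ζ) hζ (c 1 σ) =
      symJ (toSym g D (galA k F σ)) B - B := by
    intro σ
    have h1 := hzσ σ (fun η => m₀ (σ.symm η) - m₀ η) (by
      intro θ hθ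
      rw [hm₀ θ hθ, hm₀ (σ θ) (G14_rts_map hG.separable.ne_zero σ hθ), map_zpow₀, hfix σ, ← zpow_add₀ hz0]
      congr 1
      rw [AlgEquiv.symm_apply_apply]
      ring)
    rw [h1, ram_sub, hB, symJ_ram]
    rfl
  -- the divisions of B
  choose dv hdv using fun Q : JacOver ℓ (curvePoly k F L g D) Ω =>
    exists_smul_eq (zA F L Ω ζ) Hζ Q
  set Q : ℕ → JacOver ℓ (curvePoly k F L g D) Ω := fun n => dv^[n] B with hQ
  have hQ0 : Q 0 = B := rfl
  have hQs : ∀ n, ℓ • Q (n + 1) = Q n := by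
    intro n
    simp only [hQ]
    rw [Function.iterate_succ_apply']
    exact hdv _
  set y : Coch ℓ k F L Ω g D := fun n σ => vJ (zA F L Ω ζ) hζ (c (n + 1) σ) -
    (symJ (toSym g D (galA k F σ)) (Q n) - Q n) with hy
  have hyTC : IsTateCocycle ℓ (curvePoly k F L g D) y := by
    refine ⟨?_, ?_, ?_, ?_⟩
    · intro σ
      simp only [hy]
      rw [Nat.zero_add, hv1 σ, hQ0, sub_self]
    · intro n σ
      simp only [hy]
      rw [smul_sub, smul_sub, ← vJ_smul, hc.1.smul, ← map_nsmul, hQs]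
    · intro n σ τ
      simp only [hy]
      rw [hc.1.cocycle, vJ_add, push_eq, push_eq, vJ_symJ _ _ _ (hfix' σ), map_mul, map_mul,
        symJ_mul, map_sub, map_sub]
      abel
    · intro n
      have h1 : IsLocallyConstant fun σ : Ω ≃ₐ[L] Ω => vJ (zA F L Ω ζ) hζ (c (n + 1) σ) :=
        (hc.1.locallyConstant (n + 1)).comp (fun Q => vJ (zA F L Ω ζ) hζ Q)
      have h2 := isLocallyConstant_symJ (g := g) (D := D) (k := k) (F := F) (L := L) (Ω := Ω) (Q n)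
      have h3 : IsLocallyConstant fun σ : Ω ≃ₐ[L] Ω =>
          symJ (toSym g D (galA k F σ)) (Q n) - Q n := h2.sub (IsLocallyConstant.const (Q n))
      exact h1.sub h3
  have hyLT : LTc y := by
    have h1 : LTc (fun n σ => vJ (zA F L Ω ζ) hζ ((fun n => c (n + 1)) n σ) :
        Coch ℓ k F L Ω g D) := G14_lt_v H hζ (hc.2.1.shift fun n => n + 1)
    have h2 : LTc (fun n σ => symJ (toSym g D (galA k F σ)) (Q n) - Q n :
        Coch ℓ k F L Ω g D) := LTc.of_coboundary fun n => ⟨Q n, fun σ => rfl⟩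
    have h3 := h1.add h2.neg
    have h4 : y = (fun n σ => vJ (zA F L Ω ζ) hζ ((fun n => c (n + 1)) n σ) :
        Coch ℓ k F L Ω g D) + -(fun n σ => symJ (toSym g D (galA k F σ)) (Q n) - Q n :
        Coch ℓ k F L Ω g D) := by
      funext n σ
      simp only [hy, Pi.add_apply, Pi.neg_apply]
      abel
    rw [h4]
    exact h3
  have hyZ : IsTateCocycle ℓ (curvePoly k F L g D) (c - (y - Sup.zC ζ hζ y)) := by
    have h1 : c - (y - Sup.zC ζ hζ y) = c + -(y + -(Sup.zC ζ hζ y)) := by abel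
    rw [h1]
    exact hc.1.add (hyTC.add (hyTC.zC ζ hζ).neg).neg
  have hQn : ∀ n, ℓ ^ n • Q n = B := by
    intro n
    induction n with
    | zero => rw [pow_zero, one_smul, hQ0]
    | succ n ih =>
      rw [pow_succ, mul_smul, hQs, ih]
  have hT : TTc (c - (y - Sup.zC ζ hζ y)) := by
    refine ⟨hyZ, ?_⟩
    intro n
    refine ⟨Q n - zJ (zA F L Ω ζ) hζ (Q n), ?_, ?_⟩
    · rw [smul_sub, ← map_nsmul, hQn, hB, zJ_ram, sub_self]
    · intro σ
      rw [push_eq, map_sub, ← zJ_symJ _ _ _ (hfix' σ)]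
      have h1 : (c - (y - Sup.zC ζ hζ y)) n σ =
          c n σ - (y n σ - zJ (zA F L Ω ζ) hζ (y n σ)) := rfl
      rw [h1]
      simp only [hy]
      rw [map_sub, map_sub]
      have h2 := vJ_sub_zJ (zA F L Ω ζ) Hζ (c (n + 1) σ)
      rw [hc.1.smul] at h2
      rw [← h2]
      abel
  refine ⟨y, ⟨hyTC, hyLT, ?_⟩, hT⟩
  intro γ
  obtain ⟨M, hM, hMT⟩ := hc.2.2 γ
  refine ⟨M, hM, ?_⟩
  have hx : IsTateCocycle ℓ (curvePoly k F L g D) (Sup.act (γ ^ M) y - y) := by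
    have h1 : Sup.act (γ ^ M) y - y = Sup.act (γ ^ M) y + -y := by abel
    rw [h1]
    exact (hyTC.act (γ ^ M)).add hyTC.neg
  apply TTc.of_sub_zC H hζ hx
  have h1 : Sup.act (γ ^ M) y - y - Sup.zC ζ hζ (Sup.act (γ ^ M) y - y) =
      (Sup.act (γ ^ M) c - c) - (Sup.act (γ ^ M) (c - (y - Sup.zC ζ hζ y)) -
        (c - (y - Sup.zC ζ hζ y))) := by
    rw [act_sub, act_sub, act_zC, map_sub]
    abel
  rw [h1]
  exact hMT.sub ((hT.act (γ ^ M)).sub hT)

end Pool.Agent.Lib.MP_89bcae_ag.Sup
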