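import Mathlib
import Pool.Agent.Lib.MP_89bcae_ag.Sup.G17

/-!
ROW G18 (120-220 lines). THE FORMULA FOR `N_U`.

STATEMENT: as G17, with `cst = 0`, in the symmetric form: for all `β` in `RR` and `x` with
`x^ℓ = (ε lc(D))^{e β} ∏_{β'∈RR, g(β') ≠ g(β)} (β - β')^{e β - e β'}`: `U x = ζ^{e' β} x`.

PROOF. (1) `D'(a) = lc(D) ∏_{a' ≠ a} (a - a')` over the other roots of `D` and, for `g(β) = a`,
`a - a' = g(β) - a' = ∏_{g(β') = a'} (β - β')` (`g` monic, simple roots). So
`D'(a) = lc(D) ∏_{β'∈RR, g(β') ≠ a} (β - β')` and the two forms agree.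
(2) `cst ≡ 0`: choose for each `β` over `a` an `x_β` as in G17; `∏_β x_β^ℓ =
(ε D'(a))^{∑ e β} ∏_{β'} (∏_{g(β)=a} (β - β'))^{-e β'}`, and `∏_{g(β)=a} (β - β') =
(-1)^m (g(β') - a)` depends only on `a' = g(β')`; so this is
`(ε D'(a))^{∑_{g(β)=a} e β} ∏_{a'} ((-1)^m (a' - a))^{-∑_{g(β')=a'} e β'}`, and all the sums are divisible
by `ℓ` (`HasExp.sum`): it is the `ℓ`-th power of an element fixed by `U` (`U` fixes `a`, `a'`, `D'(a)`).
So `∏ x_β` is a power of `ζ` times a fixed element: `U (∏ x_β) = ∏ x_β`, whence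
`∑_{g(β)=a} e' β + m cst ≡ 0`, and `∑ e' β ≡ 0`, `m = deg g` is prime to `ℓ`: `ℓ ∣ cst`.
-/

open Polynomial IsDedekindDomain

open scoped Classical

namespace Pool.Agent.Lib.MP_89bcae_ag.Sup

universe u

private lemma g18_prod_toFinset {F : Type u} [Field F] {p : F[X]} (h : p.roots.Nodup) :
    ∏ β ∈ p.roots.toFinset, (X - C β : F[X]) = (p.roots.map fun β => X - C β).prod := by
  rw [Finset.prod, Multiset.toFinset_val, Multiset.dedup_eq_self.2 h]

private lemma g18_sub_eq {F : Type u} [Field F] [IsAlgClosed F] {g D : F[X]} (hg : g.Monic)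
    (hm : g.natDegree ≠ 0) (hsep : (D.comp g).Separable) {a : F} (ha : D.eval a = 0) :
    g - C a = ∏ β ∈ ((D.comp g).roots.toFinset).filter (fun β => g.eval β = a), (X - C β) := by
  obtain ⟨E, hE⟩ := dvd_iff_isRoot.2 ha
  have h1 : D.comp g = (g - C a) * E.comp g := by
    conv_lhs => rw [hE]
    rw [mul_comp, sub_comp, X_comp, C_comp]
  have hsep' : (g - C a).Separable := by
    rw [h1] at hsep
    exact hsep.of_mul_left
  have hmon : (g - C a).Monic := by
    refine hg.sub_of_left ?_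
    refine lt_of_le_of_lt degree_C_le ?_
    rw [← natDegree_pos_iff_degree_pos]
    exact Nat.pos_of_ne_zero hm
  have h2 := (IsAlgClosed.splits (g - C a)).eq_prod_roots_of_monic hmon
  rw [← g18_prod_toFinset (nodup_roots hsep')] at h2
  conv_lhs => rw [h2]
  refine Finset.prod_congr ?_ fun _ _ => rfl
  ext β
  rw [Multiset.mem_toFinset, mem_roots hmon.ne_zero, Finset.mem_filter, Multiset.mem_toFinset,
    mem_roots hsep.ne_zero, IsRoot.def, IsRoot.def, eval_sub, eval_C, sub_eq_zero, eval_comp]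
  constructor
  · intro h
    exact ⟨by rw [h, ha], h⟩
  · exact fun h => h.2

private lemma g18_derivative {F : Type u} [Field F] [IsAlgClosed F] {g D : F[X]} (hg : g.Monic)
    (hm : g.natDegree ≠ 0) (hsep : (D.comp g).Separable) {a β : F} (ha : D.eval a = 0)
    (hβ : g.eval β = a) :
    (derivative D).eval a = D.leadingCoeff *
      ∏ β' ∈ ((D.comp g).roots.toFinset).filter (fun β' => g.eval β' ≠ a), (β - β') := by
  obtain ⟨E, hE⟩ := dvd_iff_isRoot.2 ha
  have h1 : D.comp g = (g - C a) * E.comp g := by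
    conv_lhs => rw [hE]
    rw [mul_comp, sub_comp, X_comp, C_comp]
  have h2 := (IsAlgClosed.splits (D.comp g)).eq_prod_roots
  rw [← g18_prod_toFinset (nodup_roots hsep), leadingCoeff_comp hm, hg.leadingCoeff, one_pow,
    mul_one, ← Finset.prod_filter_mul_prod_filter_not _ (fun β => g.eval β = a),
    ← g18_sub_eq hg hm hsep ha] at h2
  have h0 : g - C a ≠ 0 := by
    intro h0
    rw [h1, h0, zero_mul] at hsep
    exact hsep.ne_zero rfl
  have h3 : E.comp g = C D.leadingCoeff *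
      ∏ β ∈ ((D.comp g).roots.toFinset).filter (fun β => ¬ g.eval β = a), (X - C β) := by
    apply mul_left_cancel₀ h0
    rw [← h1]
    exact h2.trans (mul_left_comm _ _ _)
  have h4 := congrArg (eval β) h3
  rw [eval_comp, hβ, eval_mul, eval_C, eval_prod] at h4
  simp only [eval_sub, eval_X, eval_C] at h4
  rw [← h4]
  conv_lhs => rw [hE]
  rw [derivative_mul, derivative_sub, derivative_X, derivative_C, sub_zero, one_mul, eval_add,
    eval_mul, eval_sub, eval_X, eval_C, sub_self, zero_mul, add_zero]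

private lemma g18_zpow_sum {F : Type u} [Field F] {d : F} (hd : d ≠ 0) (s : Finset F)
    (e : F → ℤ) : ∏ β ∈ s, d ^ e β = d ^ ∑ β ∈ s, e β := by
  induction s using Finset.induction_on with
  | empty => simp
  | insert b s hb ih => rw [Finset.prod_insert hb, Finset.sum_insert hb, zpow_add₀ hd, ih]

private lemma g18_cst {F : Type u} [Field F] [IsAlgClosed F] {ℓ : ℕ} (hℓ : ℓ.Prime)
    {R : Finset F} {G : F → F} {a d z : F} {U : F →+* F} {e e' : F → ℤ} {cst : ℤ} {m : ℕ}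
    (hz : IsPrimitiveRoot z ℓ) (hUz : U z = z) (hUG : ∀ β ∈ R, U (G β) = G β) (hUa : U a = a)
    (hUd : U d = d) (hd : d ≠ 0)
    (hprod : ∀ β' ∈ R, ∏ β ∈ R.filter (fun β => G β = a), (β - β') = (-1) ^ m * (G β' - a))
    (hm : (R.filter (fun β => G β = a)).card = m) (hcop : m.Coprime ℓ)
    (hs : ∀ b, (ℓ : ℤ) ∣ ∑ β ∈ R.filter (fun β => G β = b), e β)
    (hs' : (ℓ : ℤ) ∣ ∑ β ∈ R.filter (fun β => G β = a), e' β)
    (H : ∀ β, G β = a → ∀ x : F, x ^ ℓ = d ^ e β *
      ∏ β' ∈ R.filter (fun β' => G β' ≠ a), (β - β') ^ (-e β') →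
        U x = z ^ (e' β + cst) * x) : (ℓ : ℤ) ∣ cst := by
  choose x hx using fun β : F => IsAlgClosed.exists_pow_nat_eq (d ^ e β *
      ∏ β' ∈ R.filter (fun β' => G β' ≠ a), (β - β') ^ (-e β')) hℓ.pos
  choose n hn using hs
  have hz0 : z ≠ 0 := hz.ne_zero hℓ.ne_zero
  set T := R.filter (fun β' => G β' ≠ a) with hT
  set S := R.filter (fun β => G β = a) with hS
  have hneg : ((-1 : F) ^ m) ≠ 0 := pow_ne_zero _ (neg_ne_zero.2 one_ne_zero)
  have h1 : (∏ β ∈ S, x β) ^ ℓ = (d ^ n a * ∏ b ∈ T.image G, ((-1) ^ m * (b - a)) ^ (-n b)) ^ ℓ := by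
    rw [← Finset.prod_pow, Finset.prod_congr rfl fun β _ => hx β, Finset.prod_mul_distrib,
      g18_zpow_sum hd, hn a, mul_pow, Finset.prod_comm]
    congr 1
    · rw [mul_comm, zpow_mul, zpow_natCast]
    · rw [← Finset.prod_pow, ← Finset.prod_fiberwise_of_maps_to
        (fun β' hβ' => Finset.mem_image_of_mem G hβ')]
      refine Finset.prod_congr rfl fun b hb => ?_
      obtain ⟨β₀, hβ₀, hβb⟩ := Finset.mem_image.1 hb
      have hba : b ≠ a := by
        rw [← hβb]
        exact (Finset.mem_filter.1 hβ₀).2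
      have h2 : T.filter (fun β' => G β' = b) = R.filter fun β' => G β' = b := by
        ext β'
        rw [hT, Finset.mem_filter, Finset.mem_filter, Finset.mem_filter]
        constructor
        · exact fun h => ⟨h.1.1, h.2⟩
        · exact fun h => ⟨⟨h.1, by rw [h.2]; exact hba⟩, h.2⟩
      rw [h2]
      have h3 : ∀ β' ∈ R.filter (fun β' => G β' = b), ∏ β ∈ S, (β - β') ^ (-e β') =
          ((-1) ^ m * (b - a)) ^ (-e β') := by
        intro β' hβ'
        rw [Finset.prod_zpow, hprod β' (Finset.mem_filter.1 hβ').1, (Finset.mem_filter.1 hβ').2]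
      rw [Finset.prod_congr rfl h3, g18_zpow_sum (mul_ne_zero hneg (sub_ne_zero.2 hba)),
        Finset.sum_neg_distrib, hn b, ← mul_neg, mul_comm (ℓ : ℤ), zpow_mul, zpow_natCast]
  have hW0 : d ^ n a * ∏ b ∈ T.image G, ((-1) ^ m * (b - a)) ^ (-n b) ≠ 0 := by
    refine mul_ne_zero (zpow_ne_zero _ hd) (Finset.prod_ne_zero_iff.2 fun b hb => ?_)
    obtain ⟨β₀, hβ₀, hβb⟩ := Finset.mem_image.1 hb
    have hba : b ≠ a := by
      rw [← hβb]
      exact (Finset.mem_filter.1 hβ₀).2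
    exact zpow_ne_zero _ (mul_ne_zero hneg (sub_ne_zero.2 hba))
  have hUW : U (d ^ n a * ∏ b ∈ T.image G, ((-1) ^ m * (b - a)) ^ (-n b)) =
      d ^ n a * ∏ b ∈ T.image G, ((-1) ^ m * (b - a)) ^ (-n b) := by
    rw [map_mul, map_zpow₀, hUd, map_prod]
    congr 1
    refine Finset.prod_congr rfl fun b hb => ?_
    obtain ⟨β₀, hβ₀, hβb⟩ := Finset.mem_image.1 hb
    rw [map_zpow₀, map_mul, map_pow, map_neg, map_one, map_sub, hUa, ← hβb,
      hUG β₀ (Finset.mem_filter.1 hβ₀).1]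
  set W := d ^ n a * ∏ b ∈ T.image G, ((-1) ^ m * (b - a)) ^ (-n b) with hW
  have : NeZero ℓ := ⟨hℓ.ne_zero⟩
  have h4 : ((∏ β ∈ S, x β) / W) ^ ℓ = 1 := by
    rw [div_pow, h1, div_self (pow_ne_zero _ hW0)]
  obtain ⟨i, _, hi⟩ := hz.eq_pow_of_pow_eq_one h4
  have h5 : ∏ β ∈ S, x β = z ^ i * W := by
    rw [hi, div_mul_cancel₀ _ hW0]
  have h6 : U (∏ β ∈ S, x β) = ∏ β ∈ S, x β := by
    rw [h5, map_mul, map_pow, hUz, hUW]
  have h7 : U (∏ β ∈ S, x β) = z ^ (∑ β ∈ S, (e' β + cst)) * ∏ β ∈ S, x β := by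
    rw [map_prod, ← g18_zpow_sum hz0, ← Finset.prod_mul_distrib]
    exact Finset.prod_congr rfl fun β hβ => H β (Finset.mem_filter.1 hβ).2 (x β) (hx β)
  have hP0 : ∏ β ∈ S, x β ≠ 0 := by
    rw [h5]
    exact mul_ne_zero (pow_ne_zero _ hz0) hW0
  have h8 : z ^ (∑ β ∈ S, (e' β + cst)) = 1 := by
    apply mul_right_cancel₀ hP0
    rw [one_mul, ← h7, h6]
  rw [hz.zpow_eq_one_iff_dvd, Finset.sum_add_distrib, Finset.sum_const, hm,
    ← Nat.cast_smul_eq_nsmul ℤ, smul_eq_mul] at h8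
  have h9 : (ℓ : ℤ) ∣ (m : ℤ) * cst := (dvd_add_right hs').1 h8
  have h10 : IsCoprime (ℓ : ℤ) (m : ℤ) := Nat.isCoprime_iff_coprime.2 hcop.symm
  exact h10.dvd_of_dvd_mul_left h9

variable {k F L Ω : Type u} [Field k] [Field F] [Algebra k F] [Field L] [Algebra F[X] L]
  [Field Ω] [Algebra L Ω] [IsAlgClosure k F] [IsFractionRing F[X] L] [IsAlgClosure L Ω]
  [Algebra F Ω] {ℓ : ℕ} {g D : k[X]} [hG : IsGood ℓ (cOver k F L Ω g D)] {ζ : k}
  {hζ : (zA F L Ω ζ) ^ ℓ = 1}

theorem exists_formula_symm (hF : CompatF F L Ω) (H : GlobHyp ℓ g D ζ)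
    {c y : Coch ℓ k F L Ω g D}
    (hc : IsTateCocycle ℓ (curvePoly k F L g D) c) (hLT : LTc c)
    (hy : IsTateCocycle ℓ (curvePoly k F L g D) y) {e e' : F → ℤ} (h : HasExp hζ c e)
    (h' : HasExp hζ y e') (γ : AutO k F L Ω) (hγ : ∀ β ∈ RR F g D, resF γ β = β)
    (hrel : TTc (act γ c - c - (y - Sup.zC ζ hζ y))) :
    ∀ β ∈ RR F g D, ∀ x : F,
      x ^ ℓ = ((-1) ^ (ℓ + 1) * algebraMap k F D.leadingCoeff) ^ e β *
        ∏ β' ∈ (RR F g D).filter fun β' => aeval β' g ≠ aeval β g, (β - β') ^ (e β - e β') →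
      resF γ x = algebraMap k F ζ ^ e' β * x := by
  intro β hβ x hx
  have : IsAlgClosed F := IsAlgClosure.isAlgClosed k
  have hinj := (algebraMap k F).injective
  have hℓ := H.prime
  obtain ⟨m, hmdef⟩ : ∃ m, m = g.natDegree := ⟨_, rfl⟩
  have hm0 : g.natDegree ≠ 0 := by
    intro h0
    have h1 := H.cop
    rw [h0, Nat.coprime_zero_left] at h1
    exact hℓ.one_lt.ne' h1
  have hg : (g.map (algebraMap k F)).Monic := H.monic.map _
  have hm : (g.map (algebraMap k F)).natDegree ≠ 0 := by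
    rwa [natDegree_map]
  have hsep : ((D.map (algebraMap k F)).comp (g.map (algebraMap k F))).Separable := by
    rw [← Polynomial.map_comp]
    exact H.sep.map
  have hRR : RR F g D =
      ((D.map (algebraMap k F)).comp (g.map (algebraMap k F))).roots.toFinset := by
    rw [RR, Polynomial.map_comp]
  have hev : ∀ y : F, (g.map (algebraMap k F)).eval y = aeval y g := fun y =>
    eval_map_algebraMap g y
  obtain ⟨a, ha⟩ : ∃ a, a = aeval β g := ⟨_, rfl⟩
  have haD : aeval a D = 0 := by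
    rw [ha]
    exact (mem_RR H).1 hβ
  have haD' : (D.map (algebraMap k F)).eval a = 0 := by
    rw [eval_map_algebraMap, haD]
  have hder : ∀ β₁ : F, aeval β₁ g = a → aeval a (derivative D) =
      algebraMap k F D.leadingCoeff *
        ∏ β' ∈ (RR F g D).filter (fun β' => aeval β' g ≠ a), (β₁ - β') := by
    intro β₁ hβ₁
    have h1 := g18_derivative hg hm hsep haD' ((hev β₁).trans hβ₁)
    rw [derivative_map, eval_map_algebraMap, leadingCoeff_map, ← hRR] at h1
    simp only [hev] at h1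
    exact h1
  have hlin : g.map (algebraMap k F) - C a =
      ∏ β₁ ∈ (RR F g D).filter (fun β₁ => aeval β₁ g = a), (X - C β₁) := by
    have h1 := g18_sub_eq hg hm hsep haD'
    rw [← hRR] at h1
    simp only [hev] at h1
    exact h1
  have hlc : algebraMap k F D.leadingCoeff ≠ 0 := by
    rw [Ne, map_eq_zero_iff _ hinj, leadingCoeff_eq_zero]
    intro h0
    exact H.pos (by rw [h0, natDegree_zero])
  have hε : ((-1 : F) ^ (ℓ + 1)) ≠ 0 := pow_ne_zero _ (neg_ne_zero.2 one_ne_zero)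
  have hne : ∀ β' ∈ (RR F g D).filter (fun β' => aeval β' g ≠ a), β - β' ≠ 0 := by
    intro β' hβ' h0
    apply (Finset.mem_filter.1 hβ').2
    rw [← sub_eq_zero.1 h0, ha]
  have hd0 : aeval a (derivative D) ≠ 0 := by
    rw [hder β ha.symm]
    exact mul_ne_zero hlc (Finset.prod_ne_zero_iff.2 hne)
  have hUG : ∀ β₁ ∈ RR F g D, (resF γ) (aeval β₁ g) = aeval β₁ g := by
    intro β₁ hβ₁
    have h1 := Polynomial.aeval_algHom_apply ((resF γ : F ≃ₐ[k] F) : F →ₐ[k] F) β₁ g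
    have h2 : ((resF γ : F ≃ₐ[k] F) : F →ₐ[k] F) β₁ = β₁ := hγ β₁ hβ₁
    rw [h2] at h1
    exact h1.symm
  have hUa : (resF γ) a = a := by
    rw [ha]
    exact hUG β hβ
  have hUd : (resF γ) ((-1) ^ (ℓ + 1) * aeval a (derivative D)) =
      (-1) ^ (ℓ + 1) * aeval a (derivative D) := by
    have h1 := Polynomial.aeval_algHom_apply ((resF γ : F ≃ₐ[k] F) : F →ₐ[k] F) a (derivative D)
    have h2 : ((resF γ : F ≃ₐ[k] F) : F →ₐ[k] F) a = a := hUa
    rw [h2] at h1
    have h3 : (resF γ) (aeval a (derivative D)) = aeval a (derivative D) := h1.symm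
    rw [map_mul, map_pow, map_neg, map_one, h3]
  have hcard : ((RR F g D).filter (fun β₁ => aeval β₁ g = a)).card = m := by
    have h1 := congrArg natDegree hlin
    rw [natDegree_sub_C, natDegree_map, natDegree_prod_of_monic _ _ fun _ _ => monic_X_sub_C _] at h1
    simp only [natDegree_X_sub_C, Finset.sum_const, smul_eq_mul, mul_one] at h1
    rw [hmdef, h1]
  have hprod : ∀ β' ∈ RR F g D, ∏ β₁ ∈ (RR F g D).filter (fun β₁ => aeval β₁ g = a),
      (β₁ - β') = (-1) ^ m * (aeval β' g - a) := by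
    intro β' _
    have h1 := congrArg (eval β') hlin
    rw [eval_sub, eval_C, hev, eval_prod] at h1
    simp only [eval_sub, eval_X, eval_C] at h1
    rw [h1, ← hcard, ← Finset.prod_const, ← Finset.prod_mul_distrib]
    exact Finset.prod_congr rfl fun β₁ _ => by ring
  obtain ⟨cst, hcst⟩ := exists_formula hF H hc hLT hy h h' γ hγ hrel haD
  have hzF : IsPrimitiveRoot (algebraMap k F ζ) ℓ := H.zeta.map_of_injective hinj
  have hdvd : (ℓ : ℤ) ∣ cst := by
    refine g18_cst (R := RR F g D) (G := fun β₁ => aeval β₁ g) (a := a)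
      (d := (-1) ^ (ℓ + 1) * aeval a (derivative D)) (z := algebraMap k F ζ)
      (U := ((resF γ : F ≃ₐ[k] F) : F →+* F)) (e := e) (e' := e') (m := m) hℓ hzF
      ((resF γ).commutes ζ) hUG hUa hUd (mul_ne_zero hε hd0) hprod hcard ?_ (h.sum) (h'.sum a) ?_
    · rw [hmdef]
      exact H.cop
    · exact hcst
  have hζc : algebraMap k F ζ ^ cst = 1 := (hzF.zpow_eq_one_iff_dvd cst).2 hdvd
  have hz0 : algebraMap k F ζ ≠ 0 := hzF.ne_zero hℓ.ne_zero
  have hfin := hcst β ha.symm x ?_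
  · rw [hfin, zpow_add₀ hz0, hζc, mul_one]
  · rw [hx, ← ha, hder β ha.symm, ← mul_assoc, mul_zpow _ (∏ _ ∈ _, _), mul_assoc]
    congr 1
    rw [← Finset.prod_zpow, ← Finset.prod_mul_distrib]
    refine Finset.prod_congr rfl fun β' hβ' => ?_
    rw [← zpow_add₀ (hne β' hβ'), sub_eq_add_neg (e β)]

end Pool.Agent.Lib.MP_89bcae_ag.Sup
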