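import Mathlib
import Pool.Agent.Lib.MP_89bcae_ag.Sup.G19

/-!
ROW G20 (80-160 lines). THE MAIN THEOREM.

PROOF. `IsGood` by `isGood_cOver`, `Algebra F Ω` through `L` (`letI`; `CompatF` is then `rfl`). Let `c` be as
in `NoTateClass` (`LTc` is the case `v = plc a`). It is in `WW`: for `γ` in `Aut(Ω/k(t))`, `k'` is generated by
finitely many elements algebraic over `k`, which have finitely many conjugates, so
`U = resF γ` has a power `U^M`, `M > 0`, which fixes `k'` pointwise (the orbit of each generator under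
`U` is finite), i.e. `γ^M` fixes `k'(t)`; by hypothesis the class of `c` is fixed up to torsion by
`γ^M`, and `TTc.of_isFixedBy` (G08). Then `TTc.of_WWc` (G19).
-/

open Polynomial IsDedekindDomain

open scoped Classical

namespace Pool.Agent.Lib.MP_89bcae_ag.Sup

universe u

lemma G20_exists_pow {k F : Type u} [Field k] [Field F] [Algebra k F] [IsAlgClosure k F]
    (k' : IntermediateField k F) [FiniteDimensional k k'] (U : F ≃ₐ[k] F) :
    ∃ M : ℕ, 0 < M ∧ ∀ x : k', (U ^ M) (x : F) = x := by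
  haveI : Finite (k' →ₐ[k] F) := inferInstance
  obtain ⟨a, b, hab, h⟩ := Finite.exists_ne_map_eq_of_infinite
    (fun n : ℕ => ((U ^ n : F ≃ₐ[k] F) : F →ₐ[k] F).comp k'.val)
  wlog hlt : a < b generalizing a b with H
  · exact H b a hab.symm h.symm (lt_of_le_of_ne (not_lt.mp hlt) hab.symm)
  refine ⟨b - a, Nat.sub_pos_of_lt hlt, fun x => ?_⟩
  have hx := DFunLike.congr_fun h x
  have hx' : (U ^ a) (x : F) = (U ^ b) (x : F) := hx
  have e : U ^ b = U ^ a * U ^ (b - a) := by
    rw [← pow_add, Nat.add_sub_cancel' hlt.le]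
  rw [e, AlgEquiv.mul_apply] at hx'
  exact ((U ^ a).injective hx').symm

theorem main {ℓ : ℕ} (k F L Ω : Type u) [Field k] [Field F] [Algebra k F] [IsAlgClosure k F]
    [Field L] [Algebra F[X] L] [IsFractionRing F[X] L] [Field Ω] [Algebra L Ω] [IsAlgClosure L Ω]
    (g D : k[X]) (ζ : k) (H : GlobHyp ℓ g D ζ) (hI : IsIndependent ℓ k F g D)
    (k' : IntermediateField k F) [FiniteDimensional k k'] :
    NoTateClass ℓ L Ω g D k' := by
  letI : Algebra F Ω := ((algebraMap L Ω).comp ((algebraMap F[X] L).comp C)).toAlgebra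
  have hF : CompatF F L Ω := fun c => rfl
  haveI : IsAlgClosed Ω := IsAlgClosure.isAlgClosed L
  haveI : IsGood ℓ (cOver k F L Ω g D) := isGood_cOver H
  intro c hc hloc hfix
  have hW : WWc (k := k) (F := F) (L := L) (Ω := Ω) (g := g) (D := D) c := by
    refine ⟨hc, fun a n => hloc (plc a) n, fun γ => ?_⟩
    obtain ⟨M, hM, hMx⟩ := G20_exists_pow k' (resF γ)
    refine ⟨M, hM, TTc.of_isFixedBy H hc (γ ^ M) (hfix _ _ fun p => ?_)⟩
    have h1 : base k' F L Ω p =
        algebraMap L Ω (algebraMap F[X] L (p.map (algebraMap k' F))) := rfl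
    rw [h1, resF_spec, Polynomial.map_map]
    have h2 : ((resF (γ ^ M) : F ≃ₐ[k] F) : F →+* F).comp (algebraMap k' F) =
        algebraMap k' F := by
      refine RingHom.ext fun x => ?_
      rw [map_pow]
      exact hMx x
    rw [h2]
  exact (TTc.of_WWc hF H hI hW).2

end Pool.Agent.Lib.MP_89bcae_ag.Sup
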