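import Mathlib

/-!
Row B01. Commuting endomorphisms `n` of a finite vector space over `ZMod ℓ` with
`n ^ ℓ = n` have a common eigenvector outside of any given proper subspace `A`.
-/

namespace Pool.Agent.Lib.MP_89bcae_ag.Sup

open Polynomial in
lemma b01_poly (ℓ : ℕ) [Fact ℓ.Prime] :
    (∑ c : ZMod ℓ, (1 - (X - C c) ^ (ℓ - 1)) : (ZMod ℓ)[X]) = 1 := by
  classical
  have hℓ : 1 < ℓ := (Fact.out : ℓ.Prime).one_lt
  rw [← sub_eq_zero]
  refine Polynomial.eq_zero_of_natDegree_lt_card_of_eval_eq_zero' _ (Finset.univ : Finset (ZMod ℓ))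
    ?_ ?_
  · intro d _
    rw [eval_sub, eval_finsetSum, eval_one, sub_eq_zero]
    rw [Finset.sum_eq_single d]
    · rw [eval_sub, eval_one, eval_pow, eval_sub, eval_X, eval_C, sub_self,
        zero_pow (by omega), sub_zero]
    · intro c _ hcd
      rw [eval_sub, eval_one, eval_pow, eval_sub, eval_X, eval_C,
        ZMod.pow_card_sub_one_eq_one (sub_ne_zero.2 (Ne.symm hcd)), sub_self]
    · intro h
      exact absurd (Finset.mem_univ d) h
  · rw [Finset.card_univ, ZMod.card]
    have h1 : ∀ c : ZMod ℓ, (1 - (X - C c) ^ (ℓ - 1) : (ZMod ℓ)[X]).natDegree ≤ ℓ - 1 := by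
      intro c
      refine (natDegree_sub_le _ _).trans ?_
      rw [natDegree_one, natDegree_pow, natDegree_X_sub_C, mul_one]
      simp
    refine lt_of_le_of_lt (natDegree_sub_le _ _) ?_
    rw [natDegree_one]
    refine lt_of_le_of_lt (max_le (natDegree_sum_le_of_forall_le _ _ (fun c _ => h1 c))
      (Nat.zero_le _)) (by omega)

open Polynomial in
lemma b01_poly2 (ℓ : ℕ) [Fact ℓ.Prime] (c : ZMod ℓ) :
    ((X - C c) * (1 - (X - C c) ^ (ℓ - 1)) : (ZMod ℓ)[X]) = X - X ^ ℓ := by
  have hℓ : 0 < ℓ := (Fact.out : ℓ.Prime).pos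
  rw [mul_sub, mul_one, ← pow_succ', Nat.sub_add_cancel hℓ, sub_pow_char, ← C_pow,
    ZMod.pow_card]
  ring

open Polynomial in
lemma b01_mem {R V : Type*} [CommRing R] [AddCommGroup V] [Module R V]
    (f : V →ₗ[R] V) (W : Submodule R V) (hW : ∀ x ∈ W, f x ∈ W) (P : R[X]) :
    ∀ y ∈ W, (aeval f P) y ∈ W := by
  induction P using Polynomial.induction_on' with
  | add p q hp hq =>
    intro y hy
    rw [map_add]
    exact W.add_mem (hp y hy) (hq y hy)
  | monomial k a =>
    intro y hy
    rw [aeval_monomial]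
    have h1 : ∀ k : ℕ, (f ^ k) y ∈ W := by
      intro k
      induction k with
      | zero => exact hy
      | succ k ih =>
        rw [pow_succ']
        exact hW _ ih
    exact W.smul_mem a (h1 k)

open Polynomial in
lemma exists_common_eigenvector_not_mem {ℓ : ℕ} [Fact ℓ.Prime] {V I : Type*} [AddCommGroup V]
    [Module (ZMod ℓ) V] [Finite V] (n : I → V →ₗ[ZMod ℓ] V) (hcomm : ∀ i j, n i * n j = n j * n i)
    (hpow : ∀ i, n i ^ ℓ = n i) (A : Submodule (ZMod ℓ) V) (hA : ∃ x : V, x ∉ A) :
    ∃ x : V, x ∉ A ∧ ∃ a : I → ZMod ℓ, ∀ i, n i x = a i • x := by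
  classical
  have : Finite (Submodule (ZMod ℓ) V) :=
    Finite.of_injective (fun W : Submodule (ZMod ℓ) V => (W : Set V)) SetLike.coe_injective
  set E : Submodule (ZMod ℓ) V :=
    Submodule.span (ZMod ℓ) {x | ∃ a : I → ZMod ℓ, ∀ i, n i x = a i • x} with hE
  have key : ∀ W : Submodule (ZMod ℓ) V, (∀ i, ∀ x ∈ W, n i x ∈ W) → W ≤ E := by
    intro W
    induction W using WellFoundedLT.induction with
    | ind W ih =>
      intro hW
      by_cases hsc : ∀ i, ∃ c : ZMod ℓ, ∀ y ∈ W, n i y = c • y
      · choose a ha using hsc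
        intro y hy
        exact Submodule.subset_span ⟨a, fun i => ha i y hy⟩
      · push Not at hsc
        obtain ⟨i, hi⟩ := hsc
        have hmem : ∀ (c : ZMod ℓ) (y : V), y ∈ W ⊓ LinearMap.ker (n i - c • LinearMap.id) ↔
            y ∈ W ∧ n i y = c • y := by
          intro c y
          rw [Submodule.mem_inf, LinearMap.mem_ker, LinearMap.sub_apply, LinearMap.smul_apply,
            LinearMap.id_apply, sub_eq_zero]
        have hle : ∀ c : ZMod ℓ, W ⊓ LinearMap.ker (n i - c • LinearMap.id) ≤ E := by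
          intro c
          apply ih
          · refine lt_of_le_of_ne inf_le_left ?_
            intro h
            obtain ⟨y, hy, hne⟩ := hi c
            rw [← h, hmem] at hy
            exact hne hy.2
          · intro j x hx
            rw [hmem] at hx ⊢
            refine ⟨hW j x hx.1, ?_⟩
            have h3 : (n i * n j) x = (n j * n i) x := by rw [hcomm]
            change n i (n j x) = n j (n i x) at h3
            rw [h3, hx.2, map_smul]
        intro y hy
        have hsum : y = ∑ c : ZMod ℓ, (aeval (n i) (1 - (X - C c) ^ (ℓ - 1) : (ZMod ℓ)[X])) y := by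
          have h1 : (aeval (n i) (∑ c : ZMod ℓ, (1 - (X - C c) ^ (ℓ - 1)) : (ZMod ℓ)[X])) y = y := by
            rw [b01_poly, map_one]
            rfl
          rw [map_sum, LinearMap.sum_apply] at h1
          exact h1.symm
        rw [hsum]
        apply Submodule.sum_mem
        intro c _
        apply hle c
        rw [hmem]
        refine ⟨b01_mem (n i) W (hW i) _ y hy, ?_⟩
        have h4 : (aeval (n i) ((X - C c) * (1 - (X - C c) ^ (ℓ - 1)) : (ZMod ℓ)[X])) y = 0 := by
          rw [b01_poly2, map_sub, map_pow, aeval_X, hpow i, sub_self]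
          rfl
        rw [map_mul, map_sub, aeval_X, aeval_C] at h4
        exact sub_eq_zero.1 h4
  by_contra hcon
  push Not at hcon
  obtain ⟨x, hx⟩ := hA
  apply hx
  have h1 : E ≤ A := by
    rw [hE, Submodule.span_le]
    rintro z ⟨a, ha⟩
    by_contra hz
    obtain ⟨i, hi⟩ := hcon z hz a
    exact hi (ha i)
  exact h1 (key ⊤ (fun i x _ => Submodule.mem_top) Submodule.mem_top)

end Pool.Agent.Lib.MP_89bcae_ag.Sup
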