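import Mathlib
import Pool.Agent.Lib.MP_89bcae_ag.Sup.Defs

/-!
# The relations between the differences of the roots, and the points of the curve over `F(t)`
-/

open Polynomial

open scoped Classical

namespace Pool.Agent.Lib.MP_89bcae_ag.Sup

universe u

/-- The function `e` on the set `R` of the roots of `D(g(x))` has a sum divisible by `ℓ` over each fibre
of `g` and there is `κ ≠ 0` in the field `K` generated by `R` over `k` such that
`κ ^ e(β) ∏ (β - β') ^ (e(β) - e(β'))`, where `β'` runs through the elements of `R` with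
`g(β') ≠ g(β)`, is the `ℓ`-th power of an element of `K` for all `β` in `R`. -/
def IsSolution (ℓ : ℕ) (k F : Type u) [Field k] [Field F] [Algebra k F] (g D : k[X])
    (e : F → ℤ) : Prop :=
  (∀ β ∈ roots k F g D, (ℓ : ℤ) ∣ ∑ᶠ β' ∈ {β' : F | aeval β' g = aeval β g}, e β') ∧
    ∃ κ ∈ IntermediateField.adjoin k (roots k F g D), κ ≠ 0 ∧
      ∀ β ∈ roots k F g D, ∃ w ∈ IntermediateField.adjoin k (roots k F g D),
        w ^ ℓ = κ ^ e β *
          ∏ᶠ β' ∈ {β' ∈ roots k F g D | aeval β' g ≠ aeval β g}, (β - β') ^ (e β - e β')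

/-- A point `(x, y)` of the curve `D(t) y ^ ℓ = g(x) - t` over `L = F(t)`, with `y ≠ 0`;
`x = num / den` in lowest terms. -/
structure Section (ℓ : ℕ) (k F L : Type u) [Field k] [Field F] [Algebra k F] [Field L]
    [Algebra F[X] L] (g D : k[X]) where
  /-- the numerator of `x` -/
  num : F[X]
  /-- the denominator of `x` -/
  den : F[X]
  /-- the coordinate `y` -/
  y : L
  coprime : IsCoprime num den
  den_ne_zero : den ≠ 0
  y_ne_zero : y ≠ 0
  eqn : y ^ ℓ =
    (curvePoly k F L g D).eval (algebraMap F[X] L num / algebraMap F[X] L den)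

/-- The coordinate `x`. -/
noncomputable def Section.x {ℓ : ℕ} {k F L : Type u} [Field k] [Field F] [Algebra k F] [Field L]
    [Algebra F[X] L] {g D : k[X]} (P : Section ℓ k F L g D) : L :=
  algebraMap F[X] L P.num / algebraMap F[X] L P.den

/-- The exponents of a point `P`, where `x = x(P)` and `m = deg g`: `m - 1` if `x(g(β)) = β`, `0` if `x`
has a pole at `g(β)`, `-1` in the other cases. -/
noncomputable def Section.exponent {ℓ : ℕ} {k F L : Type u} [Field k] [Field F] [Algebra k F]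
    [Field L] [Algebra F[X] L] {g D : k[X]} (P : Section ℓ k F L g D) (β : F) : ℤ :=
  if P.den.eval (aeval β g) = 0 then 0
  else if P.num.eval (aeval β g) = β * P.den.eval (aeval β g) then g.natDegree - 1
  else -1

/-- The class `Q` is the class of the point `(a, b)` of the affine curve `y ^ ℓ = f(x)`: the
corresponding module over the coordinate ring is isomorphic to the ideal `(x - a, y - b)`. -/
def IsPointClass (ℓ : ℕ) {A : Type u} [Field A] (f : A[X]) (a b : A) (Q : Jac ℓ f) : Prop :=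
  Nonempty ((Additive.toMul Q).AsModule ≃ₗ[Coord ℓ f]
    (Ideal.span {AdjoinRoot.of (X ^ ℓ - C f : A[X][X]) (X - C a),
      AdjoinRoot.root (X ^ ℓ - C f : A[X][X]) - AdjoinRoot.of (X ^ ℓ - C f : A[X][X]) (C b)} :
      Ideal (Coord ℓ f)))

/-- The subgroup of the Jacobian generated by the points `(x_i, ζ' y_i)`, `ζ' ^ ℓ = 1`. -/
noncomputable def sectionGroup {ℓ : ℕ} {k F L : Type u} (Ω : Type u) [Field k] [Field F] [Algebra k F]
    [Field L] [Algebra F[X] L] [Field Ω] [Algebra L Ω] {g D : k[X]} {ι : Type}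
    (P : ι → Section ℓ k F L g D) : AddSubgroup (JacOver ℓ (curvePoly k F L g D) Ω) :=
  AddSubgroup.closure {Q | ∃ (i : ι) (z : Ω), z ^ ℓ = 1 ∧
    IsPointClass ℓ ((curvePoly k F L g D).map (algebraMap L Ω)) (algebraMap L Ω (P i).x)
      (z * algebraMap L Ω (P i).y) Q}

/-- Every class of the `ℓ`-adic Selmer group over `L = F(t)` of the Jacobian of the curve
`D(t) y ^ ℓ = g(x) - t` fixed, up to torsion, by the automorphisms of `Ω` over `k'(t)` is generated by
the points `P i`: at level `n` it is the coboundary of a point `Q` such that `ℓ ^ n Q` is in the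
subgroup generated by the points `(x_i, ζ' y_i)`, `ζ' ^ ℓ = 1`. -/
def IsGeneratedBy {ℓ : ℕ} {k F L : Type u} (Ω : Type u) [Field k] [Field F] [Algebra k F]
    [Field L] [Algebra F[X] L] [IsFractionRing F[X] L] [Field Ω] [Algebra L Ω] {g D : k[X]}
    {ι : Type} (P : ι → Section ℓ k F L g D) (k' : IntermediateField k F) : Prop :=
  ∀ c : ℕ → (Ω ≃ₐ[L] Ω) → JacOver ℓ (curvePoly k F L g D) Ω,
    IsTateCocycle ℓ (curvePoly k F L g D) c →
    (∀ (v : IsDedekindDomain.HeightOneSpectrum F[X]) (n : ℕ),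
      IsLocallyTrivial ℓ (curvePoly k F L g D) (c n) (v.adicCompletion L)) →
    (∀ (γ : Ω ≃+* Ω) hγ, (∀ p : k'[X], γ (base k' F L Ω p) = base k' F L Ω p) →
      IsFixedBy ℓ (curvePoly k F L g D) c γ hγ) →
    ∀ n, ∃ Q : JacOver ℓ (curvePoly k F L g D) Ω, ℓ ^ n • Q ∈ sectionGroup Ω P ∧
      ∀ σ : Ω ≃ₐ[L] Ω, c n σ = push ℓ (curvePoly k F L g D) (σ : Ω →ₐ[L] Ω) Q - Q

/-- The solutions of the relations are generated modulo `ℓ` by the exponents of the points `P i`. -/
def SolutionsGeneratedBy {ℓ : ℕ} {k F L : Type u} [Field k] [Field F] [Algebra k F]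
    [Field L] [Algebra F[X] L] {g D : k[X]} {ι : Type} [Fintype ι]
    (P : ι → Section ℓ k F L g D) : Prop :=
  ∀ e : F → ℤ, IsSolution ℓ k F g D e → ∃ a : ι → ℤ, ∀ β ∈ roots k F g D,
    (ℓ : ℤ) ∣ e β - ∑ i, a i * (P i).exponent β

end Pool.Agent.Lib.MP_89bcae_ag.Sup
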