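import Mathlib
import Pool.Agent.Lib.MP_89bcae_ag.Sup.G08

/-!
The Tate cocycles which at every level `n` are the coboundary of a point `Q`
with `ℓ ^ n Q` in a given subgroup `M` of the Jacobian.
-/

open Polynomial IsDedekindDomain

open scoped Classical

namespace Pool.Agent.Lib.MP_89bcae_ag.Sup

universe u

variable {k F L Ω : Type u} [Field k] [Field F] [Algebra k F] [Field L] [Algebra F[X] L]
  [Field Ω] [Algebra L Ω] [IsAlgClosure k F] [IsFractionRing F[X] L] [IsAlgClosure L Ω]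
  {ℓ : ℕ} {g D : k[X]} [hG : IsGood ℓ (cOver k F L Ω g D)] {ζ : k}
  {M : AddSubgroup (JacOver ℓ (curvePoly k F L g D) Ω)}

/-- The Tate cocycles which are Kummer classes of elements of `M` at all levels. -/
def KMc (M : AddSubgroup (JacOver ℓ (curvePoly k F L g D) Ω)) (c : Coch ℓ k F L Ω g D) : Prop :=
  IsTateCocycle ℓ (curvePoly k F L g D) c ∧
    ∀ n, ∃ Q : JacOver ℓ (curvePoly k F L g D) Ω, ℓ ^ n • Q ∈ M ∧
      ∀ σ : Ω ≃ₐ[L] Ω, c n σ = push ℓ (curvePoly k F L g D) (σ : Ω →ₐ[L] Ω) Q - Q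

lemma TTc.km {c : Coch ℓ k F L Ω g D} (hc : TTc c) : KMc M c := by
  refine ⟨hc.1, fun n => ?_⟩
  obtain ⟨A, hA, hcA⟩ := hc.2 n
  exact ⟨A, by rw [hA]; exact M.zero_mem, hcA⟩

lemma KMc.add {c c' : Coch ℓ k F L Ω g D} (hc : KMc M c) (hc' : KMc M c') : KMc M (c + c') := by
  refine ⟨hc.1.add hc'.1, fun n => ?_⟩
  obtain ⟨A, hA, hcA⟩ := hc.2 n
  obtain ⟨B, hB, hcB⟩ := hc'.2 n
  refine ⟨A + B, by rw [smul_add]; exact M.add_mem hA hB, fun σ => ?_⟩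
  change c n σ + c' n σ = _
  rw [hcA σ, hcB σ, map_add]
  abel

lemma KMc.neg {c : Coch ℓ k F L Ω g D} (hc : KMc M c) : KMc M (-c) := by
  refine ⟨hc.1.neg, fun n => ?_⟩
  obtain ⟨A, hA, hcA⟩ := hc.2 n
  refine ⟨-A, by rw [smul_neg]; exact M.neg_mem hA, fun σ => ?_⟩
  change -(c n σ) = _
  rw [hcA σ, map_neg]
  abel

lemma KMc.zC (ζ : k) (hζ : (zA F L Ω ζ) ^ ℓ = 1) (hM : ∀ Q ∈ M, zJ (zA F L Ω ζ) hζ Q ∈ M)
    {c : Coch ℓ k F L Ω g D} (hc : KMc M c) : KMc M (Sup.zC ζ hζ c) := by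
  refine ⟨hc.1.zC ζ hζ, fun n => ?_⟩
  obtain ⟨A, hA, hcA⟩ := hc.2 n
  refine ⟨zJ (zA F L Ω ζ) hζ A, by rw [← map_nsmul]; exact hM _ hA, fun σ => ?_⟩
  change zJ (zA F L Ω ζ) hζ (c n σ) = _
  rw [hcA σ, map_sub, push_eq, push_eq, zJ_symJ]
  exact zA_fixed ζ (galA k F σ)

omit [IsAlgClosure k F] [IsFractionRing F[X] L] [IsAlgClosure L Ω] in
private lemma b05_iterate (ζ : k) (hζ : (zA F L Ω ζ) ^ ℓ = 1) (y : Coch ℓ k F L Ω g D) (N : ℕ)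
    (σ : Ω ≃ₐ[L] Ω) (m : ℕ) :
    ((fun x : Coch ℓ k F L Ω g D => x - Sup.zC ζ hζ x)^[m] y) N σ =
      (fun x => x - zJ (zA F L Ω ζ) hζ x)^[m] (y N σ) := by
  induction m with
  | zero => rfl
  | succ m ih =>
    rw [Function.iterate_succ_apply', Function.iterate_succ_apply', ← ih]
    rfl

theorem KMc.of_separated (H : GlobHyp ℓ g D ζ) (hζ : (zA F L Ω ζ) ^ ℓ = 1)
    {c : Coch ℓ k F L Ω g D} (hc : IsTateCocycle ℓ (curvePoly k F L g D) c)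
    (h : ∀ n : ℕ, ∃ y : Coch ℓ k F L Ω g D, IsTateCocycle ℓ (curvePoly k F L g D) y ∧
      KMc M (c - (fun x => x - Sup.zC ζ hζ x)^[n] y)) : KMc M c := by
  refine ⟨hc, fun N => ?_⟩
  obtain ⟨y, hy, h1⟩ := h ((ℓ - 1) * N)
  obtain ⟨A, hA, hA2⟩ := h1.2 N
  have hz : IsPrimitiveRoot (zA F L Ω ζ) ℓ := zA_primitive H
  refine ⟨A, hA, fun σ => ?_⟩
  rw [← hA2 σ]
  have h2 : ((fun x : Coch ℓ k F L Ω g D => x - Sup.zC ζ hζ x)^[(ℓ - 1) * N] y) N σ = 0 := by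
    rw [b05_iterate]
    exact iterate_eq_zero_of_smul _ hz N _ (hy.pow_smul N σ)
  change c N σ = c N σ - ((fun x : Coch ℓ k F L Ω g D => x - Sup.zC ζ hζ x)^[(ℓ - 1) * N] y) N σ
  rw [h2, sub_zero]

end Pool.Agent.Lib.MP_89bcae_ag.Sup
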