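import Mathlib
import Pool.Agent.Lib.MP_89bcae_ag.Sup.B04
import Pool.Agent.Lib.MP_89bcae_ag.Sup.B05

/-!
If all the solutions of the relations are exponents of classes of `M`, then all invariant Selmer
classes are classes of `M`.
-/

open Polynomial IsDedekindDomain

open scoped Classical

namespace Pool.Agent.Lib.MP_89bcae_ag.Sup

universe u

variable {k F L Ω : Type u} [Field k] [Field F] [Algebra k F] [Field L] [Algebra F[X] L]
  [Field Ω] [Algebra L Ω] [IsAlgClosure k F] [IsFractionRing F[X] L] [IsAlgClosure L Ω]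
  [Algebra F Ω] {ℓ : ℕ} {g D : k[X]} [hG : IsGood ℓ (cOver k F L Ω g D)] {ζ : k}
  {hζ : (zA F L Ω ζ) ^ ℓ = 1} {M : AddSubgroup (JacOver ℓ (curvePoly k F L g D) Ω)}

theorem KMc.of_WWc (hF : CompatF F L Ω) (H : GlobHyp ℓ g D ζ)
    (hM : ∀ Q ∈ M, zJ (zA F L Ω ζ) hζ Q ∈ M)
    (hS : ∀ e : F → ℤ, IsSolution ℓ k F g D e → ∃ (c : Coch ℓ k F L Ω g D) (e' : F → ℤ),
      WWc c ∧ KMc M c ∧ HasExp hζ c e' ∧ ∀ β ∈ RR F g D, (ℓ : ℤ) ∣ e β - e' β)
    {c : Coch ℓ k F L Ω g D} (hc : WWc c) : KMc M c := by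
  let A : AddSubgroup ({β // β ∈ RR F g D} → ZMod ℓ) :=
    { carrier := {ε | ∃ (c : Coch ℓ k F L Ω g D) (e : F → ℤ), WWc c ∧ KMc M c ∧
        HasExp hζ c e ∧ ∀ β : {β // β ∈ RR F g D}, ε β = ((e β : ℤ) : ZMod ℓ)}
      zero_mem' := by
        have hT : TTc (0 : Coch ℓ k F L Ω g D) := TTc.zero
        obtain ⟨e, he⟩ := exists_hasExp (hζ := hζ) hF H hT.1 hT.lt
        refine ⟨0, e, hT.ww, hT.km, he, fun β => ?_⟩
        have h1 := he.dvd_of_TTc hF H hT β β.2
        rw [Pi.zero_apply, eq_comm, ZMod.intCast_zmod_eq_zero_iff_dvd]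
        exact h1
      add_mem' := by
        rintro ε ε' ⟨c, e, hc, hk, he, h⟩ ⟨c', e', hc', hk', he', h'⟩
        refine ⟨c + c', fun β => e β + e' β, hc.add hc', hk.add hk', he.add hF H he',
          fun β => ?_⟩
        rw [Pi.add_apply, h, h', Int.cast_add]
      neg_mem' := by
        rintro ε ⟨c, e, hc, hk, he, h⟩
        refine ⟨-c, fun β => -e β, hc.neg, hk.neg, he.neg hF H, fun β => ?_⟩
        rw [Pi.neg_apply, h, Int.cast_neg] }
  have hA : ∀ (c : Coch ℓ k F L Ω g D) (e : F → ℤ), WWc c → HasExp hζ c e →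
      (fun β : {β // β ∈ RR F g D} => ((e β : ℤ) : ZMod ℓ)) ∈ A := by
    intro c e hc he
    by_contra hn
    obtain ⟨e', he', hne'⟩ := exists_solution hF H A hc he hn
    obtain ⟨c', e'', hc', hk', hx', hd⟩ := hS e' he'
    apply hne'
    refine ⟨c', e'', hc', hk', hx', fun β => ?_⟩
    have h1 := hd β β.2
    rw [← sub_eq_zero, ← Int.cast_sub, ZMod.intCast_zmod_eq_zero_iff_dvd]
    exact h1
  have step : ∀ c : Coch ℓ k F L Ω g D, WWc c → ∃ c' y : Coch ℓ k F L Ω g D,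
      KMc M c' ∧ WWc y ∧ TTc (c - c' - (y - Sup.zC ζ hζ y)) := by
    intro c hc
    obtain ⟨e, he⟩ := exists_hasExp (hζ := hζ) hF H hc.1 hc.2.1
    obtain ⟨c', e', hc', hk', hx', hd⟩ := hA c e hc he
    have h1 : HasExp hζ (c - c') (fun β => e β + -e' β) := by
      rw [sub_eq_add_neg]
      exact he.add hF H (hx'.neg hF H)
    obtain ⟨y, hy, hT⟩ := exists_division hF H (hc.sub hc') h1 (by
      intro β hβ
      have h2 := hd ⟨β, hβ⟩
      rw [← ZMod.intCast_zmod_eq_zero_iff_dvd, Int.cast_add, Int.cast_neg, ← sub_eq_add_neg,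
        sub_eq_zero]
      exact h2)
    exact ⟨c', y, hk', hy, hT⟩
  have iter : ∀ (n : ℕ) (c : Coch ℓ k F L Ω g D), WWc c → ∃ y : Coch ℓ k F L Ω g D, WWc y ∧
      KMc M (c - (fun x => x - Sup.zC ζ hζ x)^[n] y) := by
    intro n
    induction n with
    | zero =>
      intro c hc
      refine ⟨c, hc, ?_⟩
      rw [Function.iterate_zero, id_eq, sub_self]
      exact TTc.zero.km
    | succ n ih =>
      intro c hc
      obtain ⟨c', y₁, hk', hy₁, hT⟩ := step c hc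
      obtain ⟨y, hy, hk⟩ := ih y₁ hy₁
      refine ⟨y, hy, ?_⟩
      have h : c - (fun x => x - Sup.zC ζ hζ x)^[n + 1] y =
          (c - c' - (y₁ - Sup.zC ζ hζ y₁)) +
            (c' + ((y₁ - (fun x => x - Sup.zC ζ hζ x)^[n] y) +
              -(Sup.zC ζ hζ (y₁ - (fun x => x - Sup.zC ζ hζ x)^[n] y)))) := by
        rw [Function.iterate_succ_apply', map_sub]
        abel
      rw [h]
      exact hT.km.add (hk'.add (hk.add (hk.zC ζ hζ hM).neg))
  exact KMc.of_separated H hζ hc.1 fun n => by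
    obtain ⟨y, hy, hk⟩ := iter n c hc
    exact ⟨y, hy.1, hk⟩

end Pool.Agent.Lib.MP_89bcae_ag.Sup
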