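import Mathlib
import Pool.Agent.Lib.MP_89bcae_ag.Sup.B05

/-!
The Kummer cocycle of a rational point `Q₀` of the Jacobian.
-/

open Polynomial IsDedekindDomain

open scoped Classical

namespace Pool.Agent.Lib.MP_89bcae_ag.Sup

universe u

variable {k F L Ω : Type u} [Field k] [Field F] [Algebra k F] [Field L] [Algebra F[X] L]
  [Field Ω] [Algebra L Ω] [IsAlgClosure k F] [IsFractionRing F[X] L] [IsAlgClosure L Ω]
  {ℓ : ℕ} {g D : k[X]} [hG : IsGood ℓ (cOver k F L Ω g D)] {ζ : k}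
  {M : AddSubgroup (JacOver ℓ (curvePoly k F L g D) Ω)}

theorem exists_kummer_cocycle (H : GlobHyp ℓ g D ζ)
    (Q₀ Q₁ : JacOver ℓ (curvePoly k F L g D) Ω) (h₁ : ℓ • Q₁ = Q₀) (hM : Q₀ ∈ M)
    (hfix : ∀ σ : Ω ≃ₐ[L] Ω, symJ (toSym g D (galA k F σ)) Q₀ = Q₀)
    (hfin : ∀ γ : AutO k F L Ω, ∃ N : ℕ, 0 < N ∧ symJ (toSym g D (γ ^ N)) Q₀ = Q₀) :
    ∃ c : Coch ℓ k F L Ω g D, WWc c ∧ KMc M c ∧
      ∀ σ : Ω ≃ₐ[L] Ω, c 1 σ = symJ (toSym g D (galA k F σ)) Q₁ - Q₁ := by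
  have Hζ : IsPrimitiveRoot (zA F L Ω ζ) ℓ := zA_primitive H
  choose dv hdv using fun Q : JacOver ℓ (curvePoly k F L g D) Ω =>
    exists_smul_eq (zA F L Ω ζ) Hζ Q
  set Q : ℕ → JacOver ℓ (curvePoly k F L g D) Ω := fun n =>
    Nat.casesOn n Q₀ (fun m => dv^[m] Q₁) with hQ
  have hQ0 : Q 0 = Q₀ := rfl
  have hQ1 : Q 1 = Q₁ := rfl
  have hQs : ∀ n, ℓ • Q (n + 1) = Q n := by
    intro n
    cases n with
    | zero => exact h₁
    | succ m =>
      have h2 : Q (m + 1 + 1) = dv (Q (m + 1)) := by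
        change dv^[m + 1] Q₁ = dv (dv^[m] Q₁)
        rw [Function.iterate_succ_apply']
      rw [h2]
      exact hdv _
  have hQn : ∀ n, ℓ ^ n • Q n = Q₀ := by
    intro n
    induction n with
    | zero => rw [pow_zero, one_smul, hQ0]
    | succ n ih => rw [pow_succ, mul_smul, hQs, ih]
  set c : Coch ℓ k F L Ω g D := fun n σ =>
    symJ (toSym g D (galA k F σ)) (Q n) - Q n with hc
  have hcT : IsTateCocycle ℓ (curvePoly k F L g D) c := by
    refine ⟨?_, ?_, ?_, ?_⟩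
    · intro σ
      simp only [hc]
      rw [hQ0, hfix σ, sub_self]
    · intro n σ
      simp only [hc]
      rw [smul_sub, ← map_nsmul, hQs]
    · intro n σ τ
      simp only [hc]
      rw [push_eq, map_mul, map_mul, symJ_mul, map_sub]
      abel
    · intro n
      have h2 := isLocallyConstant_symJ (g := g) (D := D) (k := k) (F := F) (L := L) (Ω := Ω) (Q n)
      exact h2.sub (IsLocallyConstant.const (Q n))
  have hcL : LTc c := LTc.of_coboundary fun n => ⟨Q n, fun σ => rfl⟩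
  refine ⟨c, ⟨hcT, hcL, ?_⟩, ⟨hcT, ?_⟩, ?_⟩
  · intro γ
    obtain ⟨N, hN, hNQ⟩ := hfin γ
    refine ⟨N, hN, ?_, ?_⟩
    · rw [sub_eq_add_neg]
      exact (hcT.act _).add hcT.neg
    · intro n
      refine ⟨symJ (toSym g D (γ ^ N)) (Q n) - Q n, ?_, ?_⟩
      · rw [smul_sub, ← map_nsmul, hQn, hNQ, sub_self]
      · intro σ
        change symJ (toSym g D (γ ^ N)) (c n (conjG (γ ^ N)⁻¹ σ)) - c n σ = _
        have h1 : (γ ^ N) * (((γ ^ N)⁻¹ : AutO k F L Ω) * galA k F σ * ((γ ^ N)⁻¹)⁻¹) =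
            galA k F σ * (γ ^ N) := by group
        simp only [hc]
        rw [map_sub, ← symJ_mul, ← map_mul, galA_conjG, h1, push_eq, map_sub, map_mul, symJ_mul]
        abel
  · intro n
    refine ⟨Q n, ?_, fun σ => ?_⟩
    · rw [hQn]
      exact hM
    · rw [push_eq]
  · intro σ
    simp only [hc]
    rw [hQ1]

end Pool.Agent.Lib.MP_89bcae_ag.Sup
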