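import Mathlib

/-!
ROW B08 (200-320 lines). The multiplicities of `A(g(X)) - X B(g(X))` for a point `x = A/B`.

Setting (`SecHyp`): `F` algebraically closed, `g` monic of degree `m` prime to the prime `ℓ`, `D(g(X))`
separable, `A`, `B` coprime, `B ≠ 0`, `C₁ ≠ 0`, `C₂ ≠ 0` with
`C₂^ℓ h = D C₁^ℓ B^m`, `h = G(A, B) - X B^m`, `G(A, B) = ∑ g_i A^i B^(m-i) = B^m g(A/B)` (so
`D y^ℓ = g(x) - t` for `x = A/B`, `y = C₁/C₂`). Let `N = A(g(X)) - X B(g(X))`, `a = g(β)`, `v_a`, `v_β` the
multiplicities. THEOREM: `ℓ` divides `m v_β(N) - m v_β(B(g)) - v_β(D(g)) - e_β`, where `e_β = 0` if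
`D(a) ≠ 0`, and for `D(a) = 0`: `e_β = 0` if `B(a) = 0`, `e_β = m - 1` if `A(a) = β B(a) ≠ ..`, `e_β = -1` in the
other cases.

PROOF. From the equation: (1) `ℓ ∣ v_a(D) + m v_a(B) - v_a(h)` (`rootMultiplicity_mul`, `..._pow`).
Also `v_β(p(g)) = v_a(p) v_β(g - a)` (write `p = (X - a)^v q`, `q(a) ≠ 0`). If `D(a) = 0` then `v_a(D) = 1` and
`v_β(g - a) = 1`, `v_β(D(g)) = 1`, `g'(β) ≠ 0`: `D(g)` is separable, so `D'(a) g'(β) ≠ 0`.
(2) `B(a) = 0`: `A(a) ≠ 0`, `h(a) = A(a)^m ≠ 0` (`g` monic), `N(β) = A(a) ≠ 0`. By (1)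
`ℓ ∣ v_a(D) + m v_a(B)`. If `D(a) ≠ 0`: `m v_β(B(g)) = m v_a(B) v_β(g - a)` is divisible by `ℓ`. If
`D(a) = 0`: `- m v_a(B) - 1 - 0` is divisible by `ℓ`.
(3) `B(a) ≠ 0`, `A(a) ≠ β B(a)`: `N(β) ≠ 0`: clear in both cases (`0 - 0 - 0 - 0` and `0 - 0 - 1 + 1`).
(4) `B(a) ≠ 0`, `A(a) = β B(a)`, so `N(β) = 0`, `h(a) = B(a)^m (g(β) - a) = 0`.
 (4a) `g'(β) = 0` is impossible: then `D(a) ≠ 0`, and `h'(a) = -B(a)^m ≠ 0`: the derivative of `G(A, B)` at `a`
 is `G₁ A' + G₂ B'`, with `G₁ = B^(m-1) g'(β) = 0`, `G₂ = m B^(m-1) g(β) - β B^(m-1) g'(β) = m B^(m-1) a`, and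
 `(X B^m)' = B^m + m a B^(m-1) B'` at `a`. So `v_a(h) = 1`, which contradicts (1) as
 `v_a(D) = v_a(B) = 0`. (It may be easier to use, with `x = A/B` near `a`:
 `G(A,B) - X B^m = B^m (g(x) - g(β)) - (X - a) B^m` and `g(x) - g(β) = (x - β)^2 (...)`: i.e.
 `G(A, B) - a B^m` is divisible by `(A - β B)^2`, since `g - a` is divisible by `(X - β)^2`, hence by
 `(X - a)^2`.)
 (4b) `g'(β) ≠ 0`: `g - a` is `(X - β) q` with `q(β) ≠ 0`; more precisely in two variables
 `g(U) - g(X) = (U - X) q(U, X)`, `q(β, β) = g'(β)`. Homogenizing and substituting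
 `U = A(g)/B(g)`: `h(g(X)) = N(X) · K(X)` with `K(β) = B(a)^(m-1) g'(β) ≠ 0`. So
 `v_β(N) = v_β(h(g)) = v_a(h) v_β(g - a) = v_a(h)`, and by (1) `v_a(h) ≡ v_a(D)`. If `D(a) ≠ 0`: `≡ 0`. If
 `D(a) = 0`: `v_β(N) ≡ 1` and `m - 0 - 1 - (m - 1) = 0`.
-/

open Polynomial

open scoped Classical

namespace Pool.Agent.Lib.MP_89bcae_ag.Sup

universe u

variable {F : Type u} [Field F]

/-- `B ^ m g(A / B)`, `m = deg g`. -/
noncomputable def homog (g A B : F[X]) : F[X] :=
  ∑ i ∈ Finset.range (g.natDegree + 1), C (g.coeff i) * A ^ i * B ^ (g.natDegree - i)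

/-- The hypotheses: `D y ^ ℓ = g(A / B) - X`, `y = C₁ / C₂`. -/
structure SecHyp (ℓ : ℕ) (g D A B C₁ C₂ : F[X]) : Prop where
  prime : ℓ.Prime
  monic : g.Monic
  cop : g.natDegree.Coprime ℓ
  sep : (D.comp g).Separable
  pos : D.natDegree ≠ 0
  coprime : IsCoprime A B
  den : B ≠ 0
  c₁ : C₁ ≠ 0
  c₂ : C₂ ≠ 0
  eq : C₂ ^ ℓ * (homog g A B - X * B ^ g.natDegree) = D * C₁ ^ ℓ * B ^ g.natDegree

/-- The exponent at `β`. -/
noncomputable def secExp (g A B : F[X]) (β : F) : ℤ :=
  if B.eval (g.eval β) = 0 then 0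
  else if A.eval (g.eval β) = β * B.eval (g.eval β) then g.natDegree - 1
  else -1

lemma b08_mult_pow {p : F[X]} (hp : p ≠ 0) (β : F) (n : ℕ) :
    (p ^ n).rootMultiplicity β = n * p.rootMultiplicity β := by
  induction n with
  | zero => simp
  | succ n ih =>
    rw [pow_succ, rootMultiplicity_mul (mul_ne_zero (pow_ne_zero n hp) hp), ih]
    ring

lemma b08_comp_ne {p g : F[X]} (hp : p ≠ 0) (hg : g.natDegree ≠ 0) : p.comp g ≠ 0 := by
  intro h
  rcases comp_eq_zero_iff.mp h with h1 | ⟨_, h2⟩
  · exact hp h1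
  · rw [h2, natDegree_C] at hg
    exact hg rfl

lemma b08_mult_comp {p g : F[X]} (hp : p ≠ 0) (hg : g.natDegree ≠ 0) (β : F) :
    (p.comp g).rootMultiplicity β =
      p.rootMultiplicity (g.eval β) * (g - C (g.eval β)).rootMultiplicity β := by
  obtain ⟨q, hq, hnd⟩ := exists_eq_pow_rootMultiplicity_mul_and_not_dvd p hp (g.eval β)
  have h1 : p.comp g = (g - C (g.eval β)) ^ p.rootMultiplicity (g.eval β) * q.comp g := by
    conv_lhs => rw [hq]
    simp [mul_comp, pow_comp, sub_comp]
  have h2 := b08_comp_ne hp hg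
  have h3 : g - C (g.eval β) ≠ 0 := by
    intro h
    rw [sub_eq_zero] at h
    rw [h, natDegree_C] at hg
    exact hg rfl
  rw [h1] at h2 ⊢
  rw [rootMultiplicity_mul h2, b08_mult_pow h3]
  have h4 : (q.comp g).rootMultiplicity β = 0 := by
    apply rootMultiplicity_eq_zero
    intro h
    rw [IsRoot, eval_comp] at h
    exact hnd (dvd_iff_isRoot.mpr h)
  rw [h4, add_zero]

lemma b08_homog_comp (g A B q : F[X]) :
    (homog g A B).comp q = homog g (A.comp q) (B.comp q) := by
  unfold homog
  rw [Polynomial.sum_comp]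
  refine Finset.sum_congr rfl fun i _ => ?_
  simp [mul_comp, pow_comp]

lemma b08_homog_X (g V : F[X]) : homog g (X * V) V = g * V ^ g.natDegree := by
  unfold homog
  conv_rhs => rw [g.as_sum_range_C_mul_X_pow, Finset.sum_mul]
  have hd : (∑ i ∈ Finset.range (g.natDegree + 1), C (g.coeff i) * X ^ i : F[X]).natDegree =
      g.natDegree := by
    rw [← g.as_sum_range_C_mul_X_pow]
  rw [hd]
  refine Finset.sum_congr rfl fun i hi => ?_
  have h1 : i ≤ g.natDegree := by
    have := Finset.mem_range.mp hi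
    omega
  have h2 : V ^ g.natDegree = V ^ i * V ^ (g.natDegree - i) := by
    rw [← pow_add]; congr 1; omega
  rw [h2, mul_pow]
  ring

/-- the cofactor -/
noncomputable def b08_K (g U V : F[X]) : F[X] :=
  ∑ i ∈ Finset.range (g.natDegree + 1), C (g.coeff i) * V ^ (g.natDegree - i) *
    ∑ j ∈ Finset.range i, U ^ j * (X * V) ^ (i - 1 - j)

lemma b08_factor (g U V : F[X]) :
    homog g U V - homog g (X * V) V = (U - X * V) * b08_K g U V := by
  unfold homog b08_K
  rw [← Finset.sum_sub_distrib, Finset.mul_sum]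
  refine Finset.sum_congr rfl fun i _ => ?_
  have h := geom_sum₂_mul U (X * V) i
  calc C (g.coeff i) * U ^ i * V ^ (g.natDegree - i) -
        C (g.coeff i) * (X * V) ^ i * V ^ (g.natDegree - i)
      = C (g.coeff i) * V ^ (g.natDegree - i) * (U ^ i - (X * V) ^ i) := by ring
    _ = _ := by rw [← h]; ring

lemma b08_K_eval (g U V : F[X]) (β : F) (h : U.eval β = β * V.eval β) :
    (b08_K g U V).eval β = V.eval β ^ (g.natDegree - 1) * g.derivative.eval β := by
  unfold b08_K
  rw [derivative_eval, sum_over_range _ (by intro n; simp), eval_finsetSum, Finset.mul_sum]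
  refine Finset.sum_congr rfl fun i hi => ?_
  have h1 : i ≤ g.natDegree := by
    have := Finset.mem_range.mp hi
    omega
  rcases Nat.eq_zero_or_pos i with h0 | h0
  · subst h0
    simp
  · have h2 : ∀ j ∈ Finset.range i, (U ^ j * (X * V) ^ (i - 1 - j)).eval β =
        (β * V.eval β) ^ (i - 1) := by
      intro j hj
      have h3 : i - 1 = j + (i - 1 - j) := by
        have := Finset.mem_range.mp hj
        omega
      rw [eval_mul, eval_pow, eval_pow, eval_mul, eval_X, h, ← pow_add, ← h3]
    rw [eval_mul, eval_finsetSum, Finset.sum_congr rfl h2, Finset.sum_const, Finset.card_range,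
      nsmul_eq_mul, eval_mul, eval_C, eval_pow]
    have h4 : g.natDegree - 1 = (g.natDegree - i) + (i - 1) := by omega
    rw [h4, pow_add, mul_pow]
    ring

lemma SecHyp.b08_deg {ℓ : ℕ} {g D A B C₁ C₂ : F[X]}
    (H : SecHyp ℓ g D A B C₁ C₂) : g.natDegree ≠ 0 := by
  intro h
  have := H.cop
  rw [h, Nat.coprime_zero_left] at this
  exact H.prime.one_lt.ne' this

lemma SecHyp.b08_D {ℓ : ℕ} {g D A B C₁ C₂ : F[X]}
    (H : SecHyp ℓ g D A B C₁ C₂) : D ≠ 0 := by
  intro h
  apply H.pos
  rw [h, natDegree_zero]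

lemma SecHyp.b08_h {ℓ : ℕ} {g D A B C₁ C₂ : F[X]}
    (H : SecHyp ℓ g D A B C₁ C₂) : homog g A B - X * B ^ g.natDegree ≠ 0 := by
  intro h
  have h1 := H.eq
  rw [h, mul_zero] at h1
  exact mul_ne_zero (mul_ne_zero H.b08_D (pow_ne_zero _ H.c₁)) (pow_ne_zero _ H.den) h1.symm

lemma SecHyp.b08_comp {ℓ : ℕ} {g D A B C₁ C₂ : F[X]}
    (H : SecHyp ℓ g D A B C₁ C₂) : (homog g A B - X * B ^ g.natDegree).comp g =
      (A.comp g - X * B.comp g) * b08_K g (A.comp g) (B.comp g) := by
  rw [← b08_factor, sub_comp, b08_homog_comp, b08_homog_X, mul_comp, X_comp, pow_comp]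

/-- the divisibility (1) -/
lemma SecHyp.b08_one {ℓ : ℕ} {g D A B C₁ C₂ : F[X]}
    (H : SecHyp ℓ g D A B C₁ C₂) (a : F) :
    (ℓ : ℤ) ∣ D.rootMultiplicity a + g.natDegree * B.rootMultiplicity a -
      (homog g A B - X * B ^ g.natDegree).rootMultiplicity a := by
  have h0 := H.b08_h
  have hD := H.b08_D
  have h1 := congrArg (rootMultiplicity a) H.eq
  have hC2 := pow_ne_zero ℓ H.c₂
  have hC1 := pow_ne_zero ℓ H.c₁
  have hB := pow_ne_zero g.natDegree H.den
  rw [rootMultiplicity_mul (mul_ne_zero hC2 h0), rootMultiplicity_mul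
    (mul_ne_zero (mul_ne_zero hD hC1) hB), rootMultiplicity_mul (mul_ne_zero hD hC1),
    b08_mult_pow H.c₂, b08_mult_pow H.c₁, b08_mult_pow H.den] at h1
  have h2 : (ℓ : ℤ) * C₂.rootMultiplicity a +
      (homog g A B - X * B ^ g.natDegree).rootMultiplicity a =
      D.rootMultiplicity a + ℓ * C₁.rootMultiplicity a + g.natDegree * B.rootMultiplicity a := by
    exact_mod_cast h1
  refine ⟨C₂.rootMultiplicity a - C₁.rootMultiplicity a, ?_⟩
  linarith

/-- the derivative of `homog` -/
lemma b08_deriv (g A B : F[X]) (a β : F) (hm : g.natDegree ≠ 0)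
    (h : A.eval a = β * B.eval a) :
    (homog g A B).derivative.eval a = B.eval a ^ (g.natDegree - 1) *
      (A.derivative.eval a * g.derivative.eval β +
        B.derivative.eval a * (g.natDegree * g.eval β - β * g.derivative.eval β)) := by
  have e1 : g.derivative.eval β =
      ∑ i ∈ Finset.range (g.natDegree + 1), g.coeff i * i * β ^ (i - 1) := by
    rw [derivative_eval, sum_over_range _ (by intro n; simp)]
  have e2 : g.eval β = ∑ i ∈ Finset.range (g.natDegree + 1), g.coeff i * β ^ i :=
    eval_eq_sum_range β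
  have e3 : β * g.derivative.eval β =
      ∑ i ∈ Finset.range (g.natDegree + 1), g.coeff i * i * β ^ i := by
    rw [e1, Finset.mul_sum]
    refine Finset.sum_congr rfl fun i _ => ?_
    rcases Nat.eq_zero_or_pos i with h0 | h0
    · subst h0; simp
    · have : β ^ i = β * β ^ (i - 1) := by
        rw [← pow_succ']; congr 1; omega
      rw [this]; ring
  have e4 : (g.natDegree : F) * g.eval β - β * g.derivative.eval β =
      ∑ i ∈ Finset.range (g.natDegree + 1), g.coeff i * ((g.natDegree - i : ℕ) : F) * β ^ i := by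
    rw [e3, e2, Finset.mul_sum, ← Finset.sum_sub_distrib]
    refine Finset.sum_congr rfl fun i hi => ?_
    have h1 : i ≤ g.natDegree := by
      have := Finset.mem_range.mp hi
      omega
    rw [Nat.cast_sub h1]
    ring
  rw [e4, e1, Finset.mul_sum, Finset.mul_sum, ← Finset.sum_add_distrib, Finset.mul_sum]
  unfold homog
  rw [derivative_sum, eval_finsetSum]
  refine Finset.sum_congr rfl fun i hi => ?_
  have h1 : i ≤ g.natDegree := by
    have := Finset.mem_range.mp hi
    omega
  rw [derivative_mul, derivative_mul, derivative_C, zero_mul, zero_add, derivative_pow,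
    derivative_pow]
  simp only [eval_add, eval_mul, eval_C, eval_pow, h]
  have f1 : (i : F) * (β * B.eval a) ^ (i - 1) * B.eval a ^ (g.natDegree - i) =
      i * (β ^ (i - 1) * B.eval a ^ (g.natDegree - 1)) := by
    rcases Nat.eq_zero_or_pos i with h0 | h0
    · subst h0; simp
    · have h4 : g.natDegree - 1 = (i - 1) + (g.natDegree - i) := by omega
      rw [h4, pow_add, mul_pow]
      ring
  have f2 : ((g.natDegree - i : ℕ) : F) * (β * B.eval a) ^ i * B.eval a ^ (g.natDegree - i - 1) =
      ((g.natDegree - i : ℕ) : F) * (β ^ i * B.eval a ^ (g.natDegree - 1)) := by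
    rcases Nat.eq_zero_or_pos (g.natDegree - i) with h0 | h0
    · rw [h0]; simp
    · have h4 : g.natDegree - 1 = i + (g.natDegree - i - 1) := by omega
      rw [h4, pow_add, mul_pow]
      ring
  linear_combination (g.coeff i * A.derivative.eval a) * f1 +
    (g.coeff i * B.derivative.eval a) * f2

/-- `N = A(g(X)) - X B(g(X))` is not zero. -/
lemma SecHyp.ne_zero [IsAlgClosed F] {ℓ : ℕ} {g D A B C₁ C₂ : F[X]}
    (H : SecHyp ℓ g D A B C₁ C₂) : A.comp g - X * B.comp g ≠ 0 := by
  intro h
  have h1 := H.b08_comp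
  rw [h, zero_mul] at h1
  exact b08_comp_ne H.b08_h H.b08_deg h1

theorem SecHyp.dvd_mult [IsAlgClosed F] {ℓ : ℕ} {g D A B C₁ C₂ : F[X]}
    (H : SecHyp ℓ g D A B C₁ C₂) (β : F) :
    (ℓ : ℤ) ∣ g.natDegree * (A.comp g - X * B.comp g).rootMultiplicity β -
      g.natDegree * (B.comp g).rootMultiplicity β - (D.comp g).rootMultiplicity β -
      (if D.eval (g.eval β) = 0 then secExp g A B β else 0) := by
  have hm := H.b08_deg
  have hN := H.ne_zero
  have hD := H.b08_D
  have hh := H.b08_h
  have h1 := H.b08_one (g.eval β)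
  have hcomp := H.b08_comp
  have hcB := b08_mult_comp H.den hm β
  have hcD := b08_mult_comp hD hm β
  have hch := b08_mult_comp hh hm β
  set a := g.eval β with ha
  set h := homog g A B - X * B ^ g.natDegree with hhdef
  have hgC : g - C a ≠ 0 := by
    intro h'
    rw [sub_eq_zero] at h'
    rw [h', natDegree_C] at hm
    exact hm rfl
  have hgroot : (g - C a).IsRoot β := by simp [IsRoot, ha]
  have hNeval : (A.comp g - X * B.comp g).eval β = A.eval a - β * B.eval a := by
    simp [eval_comp, ha]
  -- values at simple roots of D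
  have hDsimple : D.eval a = 0 → (D.comp g).rootMultiplicity β = 1 := by
    intro h0
    have h2 := rootMultiplicity_le_one_of_separable H.sep β
    have h3 : 0 < (D.comp g).rootMultiplicity β :=
      (rootMultiplicity_pos (b08_comp_ne hD hm)).mpr (by rw [IsRoot, eval_comp]; exact h0)
    omega
  have hDzero : D.eval a ≠ 0 → D.rootMultiplicity a = 0 := fun h0 => rootMultiplicity_eq_zero h0
  by_cases hBa : B.eval a = 0
  · -- case (2)
    have hAa : A.eval a ≠ 0 := by
      intro h0
      obtain ⟨u, v, huv⟩ := H.coprime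
      have := congrArg (eval a) huv
      simp [h0, hBa] at this
    have hNz : (A.comp g - X * B.comp g).rootMultiplicity β = 0 := by
      apply rootMultiplicity_eq_zero
      rw [IsRoot, hNeval, hBa, mul_zero, sub_zero]
      exact hAa
    have hhz : h.rootMultiplicity a = 0 := by
      apply rootMultiplicity_eq_zero
      rw [IsRoot, hhdef, eval_sub, eval_mul, eval_pow, hBa, zero_pow hm, mul_zero, sub_zero]
      unfold homog
      rw [eval_finsetSum, Finset.sum_eq_single g.natDegree]
      · simp only [eval_mul, eval_C, eval_pow, Nat.sub_self, pow_zero, mul_one]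
        have : g.coeff g.natDegree = 1 := H.monic
        rw [this, one_mul]
        exact pow_ne_zero _ hAa
      · intro i hi hne
        have h2 : g.natDegree - i ≠ 0 := by
          have := Finset.mem_range.mp hi
          omega
        simp [hBa, h2]
      · intro h'
        exact absurd (Finset.mem_range.mpr (Nat.lt_succ_self _)) h'
    have he : (if D.eval a = 0 then secExp g A B β else 0) = 0 := by
      split_ifs with h0
      · unfold secExp
        rw [← ha, if_pos hBa]
      · rfl
    rw [he, hNz, hcB, hcD]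
    rw [hhz] at h1
    obtain ⟨c, hc⟩ := h1
    refine ⟨-c * (g - C a).rootMultiplicity β, ?_⟩
    push_cast
    have : ((D.rootMultiplicity a : ℕ) : ℤ) + g.natDegree * (B.rootMultiplicity a : ℕ) = ℓ * c := by
      simpa using hc
    linear_combination (-((g - C a).rootMultiplicity β : ℤ)) * this
  · have hBz : B.rootMultiplicity a = 0 := rootMultiplicity_eq_zero hBa
    have hcBz : (B.comp g).rootMultiplicity β = 0 := by rw [hcB, hBz, zero_mul]
    by_cases hAB : A.eval a = β * B.eval a
    · -- case (4)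
      have hha : h.eval a = 0 := by
        have h2 := congrArg (eval β) hcomp
        rw [eval_comp, eval_mul, hNeval, hAB, sub_self, zero_mul, ← ha] at h2
        exact h2
      by_cases hg' : g.derivative.eval β = 0
      · -- case (4a)
        exfalso
        have hDa : D.eval a ≠ 0 := by
          intro h0
          have h2 : 1 < (D.comp g).rootMultiplicity β := by
            rw [one_lt_rootMultiplicity_iff_isRoot (b08_comp_ne hD hm)]
            refine ⟨by rw [IsRoot, eval_comp]; exact h0, ?_⟩
            rw [IsRoot, derivative_comp, eval_mul, hg', zero_mul]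
          rw [hDsimple h0] at h2
          exact lt_irrefl _ h2
        have hh1 : h.rootMultiplicity a = 1 := by
          have h2 : 0 < h.rootMultiplicity a := (rootMultiplicity_pos hh).mpr hha
          have h3 : ¬ 1 < h.rootMultiplicity a := by
            rw [one_lt_rootMultiplicity_iff_isRoot hh]
            rintro ⟨_, h4⟩
            rw [IsRoot, hhdef, derivative_sub, derivative_mul, derivative_X, derivative_pow,
              eval_sub, b08_deriv g A B a β hm hAB, hg'] at h4
            simp only [eval_add, eval_mul, eval_pow, eval_one, eval_X, eval_C, ← ha] at h4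
            have h5 : B.eval a ^ g.natDegree = 0 := by linear_combination -h4
            exact hBa (pow_eq_zero_iff hm |>.mp h5)
          omega
        rw [hDzero hDa, hBz, hh1] at h1
        have h2 : (ℓ : ℤ) ∣ 1 := by
          have := (dvd_neg (a := (ℓ : ℤ))).mpr h1
          simpa using this
        have h3 : ℓ ∣ 1 := by exact_mod_cast h2
        exact H.prime.one_lt.ne' (Nat.dvd_one.mp h3)
      · -- case (4b)
        have hn1 : (g - C a).rootMultiplicity β = 1 := by
          have h2 : 0 < (g - C a).rootMultiplicity β := (rootMultiplicity_pos hgC).mpr hgroot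
          have h3 : ¬ 1 < (g - C a).rootMultiplicity β := by
            rw [one_lt_rootMultiplicity_iff_isRoot hgC]
            rintro ⟨_, h4⟩
            rw [IsRoot, derivative_sub, derivative_C, sub_zero] at h4
            exact hg' h4
          omega
        have hK : (b08_K g (A.comp g) (B.comp g)).rootMultiplicity β = 0 := by
          apply rootMultiplicity_eq_zero
          rw [IsRoot, b08_K_eval _ _ _ _ (by rw [eval_comp, eval_comp]; exact hAB), eval_comp]
          exact mul_ne_zero (pow_ne_zero _ hBa) hg'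
        have hvN : (A.comp g - X * B.comp g).rootMultiplicity β = h.rootMultiplicity a := by
          have h2 : (h.comp g) ≠ 0 := b08_comp_ne hh hm
          have h3 := hch
          rw [hcomp] at h3 h2
          rw [rootMultiplicity_mul h2, hK, add_zero, hn1, mul_one] at h3
          exact h3
        rw [hvN, hcBz]
        rw [hBz] at h1
        by_cases hDa : D.eval a = 0
        · have hDm := hDsimple hDa
          have hD1 : D.rootMultiplicity a = 1 := by
            rw [hcD, hn1, mul_one] at hDm
            exact hDm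
          have he : secExp g A B β = g.natDegree - 1 := by
            unfold secExp
            rw [← ha, if_neg hBa, if_pos hAB]
          rw [if_pos hDa, he, hDm]
          rw [hD1] at h1
          obtain ⟨c, hc⟩ := h1
          refine ⟨-c * g.natDegree, ?_⟩
          push_cast at hc ⊢
          linear_combination (-(g.natDegree : ℤ)) * hc
        · rw [if_neg hDa, hcD, hDzero hDa]
          rw [hDzero hDa] at h1
          obtain ⟨c, hc⟩ := h1
          refine ⟨-c * g.natDegree, ?_⟩
          push_cast at hc ⊢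
          linear_combination (-(g.natDegree : ℤ)) * hc
    · -- case (3)
      have hNz : (A.comp g - X * B.comp g).rootMultiplicity β = 0 := by
        apply rootMultiplicity_eq_zero
        rw [IsRoot, hNeval, sub_eq_zero]
        exact hAB
      rw [hNz, hcBz]
      by_cases hDa : D.eval a = 0
      · have he : secExp g A B β = -1 := by
          unfold secExp
          rw [← ha, if_neg hBa, if_neg hAB]
        rw [if_pos hDa, he, hDsimple hDa]
        simp
      · rw [if_neg hDa, hcD, hDzero hDa]
        simp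

end Pool.Agent.Lib.MP_89bcae_ag.Sup
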