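import Mathlib
import Pool.Agent.Lib.MP_89bcae_ag.Sup.B08

/-!
The sum of the exponents over a fibre is zero.
-/

open Polynomial

open scoped Classical

namespace Pool.Agent.Lib.MP_89bcae_ag.Sup

universe u

variable {F : Type u} [Field F]

lemma b09_natDegree_pos {ℓ : ℕ} {g D A B C₁ C₂ : F[X]}
    (H : SecHyp ℓ g D A B C₁ C₂) : 0 < g.natDegree := by
  rcases Nat.eq_zero_or_pos g.natDegree with h | h
  · have h1 := H.cop
    rw [h, Nat.coprime_zero_left] at h1
    exact absurd h1 H.prime.one_lt.ne'
  · exact h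

lemma b09_homog_eval (g A B : F[X]) (a r : F) (h : A.eval a = r * B.eval a) :
    (homog g A B).eval a = B.eval a ^ g.natDegree * g.eval r := by
  unfold homog
  rw [eval_finsetSum, eval_eq_sum_range (p := g), Finset.mul_sum]
  refine Finset.sum_congr rfl fun i hi => ?_
  have hi' : i ≤ g.natDegree := Nat.lt_succ_iff.mp (Finset.mem_range.mp hi)
  simp only [eval_mul, eval_C, eval_pow, h]
  have h2 : B.eval a ^ g.natDegree = B.eval a ^ i * B.eval a ^ (g.natDegree - i) := by
    rw [← pow_add, Nat.add_sub_cancel' hi']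
  rw [h2, mul_pow]
  ring

lemma b09_separable_sub {g D : F[X]} (hsep : (D.comp g).Separable) {a : F}
    (ha : D.eval a = 0) : (g - C a).Separable := by
  have h1 : (X - C a) ∣ D := dvd_iff_isRoot.mpr ha
  obtain ⟨q, hq⟩ := h1
  refine hsep.of_dvd ⟨q.comp g, ?_⟩
  rw [hq]
  simp [mul_comp]

lemma b09_rootMultiplicity_D {g D : F[X]} (hsep : (D.comp g).Separable) {a β : F}
    (ha : D.eval a = 0) (hβ : g.eval β = a) : D.rootMultiplicity a = 1 := by
  have hD0 : D ≠ 0 := by
    rintro rfl
    rw [zero_comp] at hsep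
    exact not_separable_zero hsep
  have h1 : (derivative D).eval a ≠ 0 := by
    intro h0
    have h2 : (D.comp g).eval β = 0 := by rw [eval_comp, hβ, ha]
    have h3 : (derivative (D.comp g)).eval β = 0 := by
      rw [derivative_comp, eval_mul, eval_comp, hβ, h0, mul_zero]
    obtain ⟨u, v, huv⟩ := hsep
    have h4 := congrArg (eval β) huv
    rw [eval_add, eval_mul, eval_mul, h2, h3] at h4
    simp at h4
  have h2 : 0 < D.rootMultiplicity a := (rootMultiplicity_pos hD0).mpr ha
  by_contra h3
  have h4 : 1 < D.rootMultiplicity a := by omega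
  rw [one_lt_rootMultiplicity_iff_isRoot hD0] at h4
  exact h1 h4.2

lemma b09_rootMultiplicity_pow {p : F[X]} (hp : p ≠ 0) (a : F) (n : ℕ) :
    (p ^ n).rootMultiplicity a = n * p.rootMultiplicity a := by
  induction n with
  | zero => simp [rootMultiplicity_eq_zero]
  | succ n ih =>
    rw [pow_succ, rootMultiplicity_mul (mul_ne_zero (pow_ne_zero _ hp) hp), ih]
    ring

lemma b09_eval_root [IsAlgClosed F] {ℓ : ℕ} {g D A B C₁ C₂ : F[X]}
    (H : SecHyp ℓ g D A B C₁ C₂) {a r : F} (ha : D.eval a = 0) (hB : B.eval a ≠ 0)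
    (hr : A.eval a = r * B.eval a) : g.eval r = a := by
  have hm := b09_natDegree_pos H
  obtain ⟨β, hβ⟩ : ∃ β, (g - C a).IsRoot β := by
    apply IsAlgClosed.exists_root
    have h1 : (g - C a).natDegree = g.natDegree := natDegree_sub_C
    intro h0
    have h2 : (g - C a).natDegree = 0 := natDegree_eq_of_degree_eq_some h0
    omega
  have hβ' : g.eval β = a := by
    have h1 : (g - C a).eval β = 0 := hβ
    rw [eval_sub, eval_C, sub_eq_zero] at h1
    exact h1
  have hvD := b09_rootMultiplicity_D H.sep ha hβ'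
  have hvB : B.rootMultiplicity a = 0 := rootMultiplicity_eq_zero hB
  have hD0 : D ≠ 0 := by
    rintro rfl
    rw [rootMultiplicity_zero] at hvD
    omega
  set h := homog g A B - X * B ^ g.natDegree with hh
  have hR : D * C₁ ^ ℓ * B ^ g.natDegree ≠ 0 :=
    mul_ne_zero (mul_ne_zero hD0 (pow_ne_zero _ H.c₁)) (pow_ne_zero _ H.den)
  have hL : C₂ ^ ℓ * h ≠ 0 := by
    rw [H.eq]
    exact hR
  have h1 := congrArg (rootMultiplicity a) H.eq
  rw [rootMultiplicity_mul hL, rootMultiplicity_mul hR,
    rootMultiplicity_mul (mul_ne_zero hD0 (pow_ne_zero _ H.c₁)),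
    b09_rootMultiplicity_pow H.c₂, b09_rootMultiplicity_pow H.c₁, b09_rootMultiplicity_pow H.den,
    hvD, hvB] at h1
  have h2 : h.rootMultiplicity a ≠ 0 := by
    intro h0
    rw [h0] at h1
    have h3 : ℓ ∣ 1 := by
      have h4 : ℓ ∣ ℓ * C₂.rootMultiplicity a + 0 := by
        rw [add_zero]
        exact dvd_mul_right _ _
      rw [h1, mul_zero, add_zero] at h4
      exact (Nat.dvd_add_left (dvd_mul_right _ _)).mp h4
    exact H.prime.one_lt.ne' (Nat.dvd_one.mp h3)
  have h3 : h.eval a = 0 := by
    by_contra h0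
    exact h2 (rootMultiplicity_eq_zero h0)
  rw [hh, eval_sub, b09_homog_eval g A B a r hr, eval_mul, eval_X, eval_pow,
    mul_comm, ← sub_mul] at h3
  rcases mul_eq_zero.mp h3 with h4 | h4
  · exact sub_eq_zero.mp h4
  · exact absurd h4 (pow_ne_zero _ hB)

lemma SecHyp.sum_eq_zero [IsAlgClosed F] {ℓ : ℕ} {g D A B C₁ C₂ : F[X]}
    (H : SecHyp ℓ g D A B C₁ C₂) (S : Finset F)
    (hS : ∀ β, β ∈ S ↔ D.eval (g.eval β) = 0) (a : F) :
    ∑ β ∈ S.filter (fun β => g.eval β = a), secExp g A B β = 0 := by
  by_cases ha : D.eval a = 0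
  swap
  · apply Finset.sum_eq_zero
    intro β hβ
    rw [Finset.mem_filter] at hβ
    exfalso
    apply ha
    rw [← hβ.2]
    exact (hS β).mp hβ.1
  by_cases hB : B.eval a = 0
  · apply Finset.sum_eq_zero
    intro β hβ
    rw [Finset.mem_filter] at hβ
    unfold secExp
    rw [hβ.2, if_pos hB]
  have hm := b09_natDegree_pos H
  set r : F := A.eval a / B.eval a with hrdef
  have hr : A.eval a = r * B.eval a := by
    rw [hrdef, div_mul_cancel₀ _ hB]
  have hgr := b09_eval_root H ha hB hr
  set T := S.filter (fun β => g.eval β = a) with hT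
  have hrT : r ∈ T := by
    rw [hT, Finset.mem_filter, hS, hgr]
    exact ⟨ha, rfl⟩
  have hcard : T.card = g.natDegree := by
    have hsep := b09_separable_sub H.sep ha
    have h0 : g - C a ≠ 0 := by
      intro h0
      rw [h0] at hsep
      exact not_separable_zero hsep
    have h1 : T = (g - C a).roots.toFinset := by
      ext β
      rw [hT, Finset.mem_filter, hS, Multiset.mem_toFinset, mem_roots h0, IsRoot.def, eval_sub,
        eval_C, sub_eq_zero]
      constructor
      · exact fun h => h.2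
      · intro h
        rw [h]
        exact ⟨ha, rfl⟩
    rw [h1, Multiset.toFinset_card_of_nodup (nodup_roots hsep),
      splits_iff_card_roots.mp (IsAlgClosed.splits _), natDegree_sub_C]
  have hval : ∀ β ∈ T, secExp g A B β = if β = r then (g.natDegree : ℤ) - 1 else -1 := by
    intro β hβ
    rw [hT, Finset.mem_filter] at hβ
    unfold secExp
    rw [hβ.2, if_neg hB]
    have h1 : A.eval a = β * B.eval a ↔ β = r := by
      rw [hr]
      constructor
      · intro h
        exact (mul_right_cancel₀ hB h).symm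
      · rintro rfl
        rfl
    simp only [h1]
  rw [Finset.sum_congr rfl hval, ← Finset.add_sum_erase T _ hrT, if_pos rfl]
  have h2 : ∀ β ∈ T.erase r, (if β = r then (g.natDegree : ℤ) - 1 else -1) = -1 := by
    intro β hβ
    rw [if_neg (Finset.ne_of_mem_erase hβ)]
  rw [Finset.sum_congr rfl h2, Finset.sum_const, Finset.card_erase_of_mem hrT, hcard, nsmul_eq_mul,
    Nat.cast_sub hm]
  push_cast
  ring

end Pool.Agent.Lib.MP_89bcae_ag.Sup
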