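import Mathlib

/-!
A quotient of polynomials with given multiplicities modulo `ℓ`.
-/

open Polynomial

open scoped Classical

namespace Pool.Agent.Lib.MP_89bcae_ag.Sup

universe u

lemma b10_factor {F : Type u} [Field F] [IsAlgClosed F] (W : F[X])
    (T : Finset F) (hT : W.roots.toFinset ⊆ T) :
    C W.leadingCoeff * ∏ β ∈ T, (X - C β) ^ W.rootMultiplicity β = W := by
  conv_rhs => rw [(IsAlgClosed.splits W).eq_prod_roots]
  rw [prod_multiset_root_eq_finset_root]
  congr 1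
  symm
  apply Finset.prod_subset hT
  intro β _ hβ
  have : W.rootMultiplicity β = 0 := by
    rw [← count_roots]
    exact Multiset.count_eq_zero.mpr (fun h => hβ (Multiset.mem_toFinset.mpr h))
  rw [this, pow_zero]

lemma exists_quot_eq {F : Type u} [Field F] [IsAlgClosed F] {ℓ : ℕ} {W₁ W₂ : F[X]} (h₁ : W₁ ≠ 0)
    (h₂ : W₂ ≠ 0) (S : Finset F) (e : F → ℤ)
    (h : ∀ β, (ℓ : ℤ) ∣ (W₁.rootMultiplicity β : ℤ) - W₂.rootMultiplicity β -
      (if β ∈ S then e β else 0)) :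
    ∃ (c : F) (P Q : F[X]), c ≠ 0 ∧ P ≠ 0 ∧ Q ≠ 0 ∧ ∀ (A : Type u) [Field A] [Algebra F A]
      (θ : A), Function.Injective (aeval θ : F[X] →ₐ[F] A) →
        aeval θ W₁ / aeval θ W₂ = algebraMap F A c *
          (∏ β ∈ S, (θ - algebraMap F A β) ^ e β) * (aeval θ P / aeval θ Q) ^ ℓ := by
  choose r hr using h
  set T : Finset F := W₁.roots.toFinset ∪ W₂.roots.toFinset ∪ S with hT
  have hT1 : W₁.roots.toFinset ⊆ T := by
    intro x hx; simp only [hT, Finset.mem_union]; exact Or.inl (Or.inl hx)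
  have hT2 : W₂.roots.toFinset ⊆ T := by
    intro x hx; simp only [hT, Finset.mem_union]; exact Or.inl (Or.inr hx)
  have hTS : S ⊆ T := by
    intro x hx; simp only [hT, Finset.mem_union]; exact Or.inr hx
  have hne : ∀ β : F, (X - C β : F[X]) ≠ 0 := fun β => X_sub_C_ne_zero β
  refine ⟨W₁.leadingCoeff / W₂.leadingCoeff, ∏ β ∈ T, (X - C β) ^ (r β).toNat,
    ∏ β ∈ T, (X - C β) ^ (-(r β)).toNat,
    div_ne_zero (leadingCoeff_ne_zero.mpr h₁) (leadingCoeff_ne_zero.mpr h₂),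
    Finset.prod_ne_zero_iff.mpr fun β _ => pow_ne_zero _ (hne β),
    Finset.prod_ne_zero_iff.mpr fun β _ => pow_ne_zero _ (hne β), ?_⟩
  intro A _ _ θ hθ
  have hθ0 : ∀ β : F, θ - algebraMap F A β ≠ 0 := by
    intro β hβ
    have h1 : aeval θ (X - C β : F[X]) = aeval θ (0 : F[X]) := by
      rw [map_zero, map_sub, aeval_X, aeval_C]; exact hβ
    exact hne β (hθ h1)
  have hfac : ∀ W : F[X], W.roots.toFinset ⊆ T → aeval θ W = algebraMap F A W.leadingCoeff *
      ∏ β ∈ T, (θ - algebraMap F A β) ^ (W.rootMultiplicity β : ℤ) := by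
    intro W hW
    conv_lhs => rw [← b10_factor W T hW]
    rw [map_mul, aeval_C, map_prod]
    congr 1
    refine Finset.prod_congr rfl fun β _ => ?_
    rw [map_pow, map_sub, aeval_X, aeval_C, zpow_natCast]
  rw [hfac W₁ hT1, hfac W₂ hT2, mul_div_mul_comm, ← map_div₀, mul_assoc]
  congr 1
  rw [← Finset.prod_div_distrib, map_prod, map_prod, ← Finset.prod_div_distrib,
    ← Finset.prod_pow]
  have hS : ∏ β ∈ S, (θ - algebraMap F A β) ^ e β =
      ∏ β ∈ T, (θ - algebraMap F A β) ^ (if β ∈ S then e β else 0) := by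
    symm
    rw [← Finset.prod_subset hTS]
    · refine Finset.prod_congr rfl fun β hβ => ?_
      rw [if_pos hβ]
    · intro β _ hβ
      rw [if_neg hβ, zpow_zero]
  rw [hS, ← Finset.prod_mul_distrib]
  refine Finset.prod_congr rfl fun β _ => ?_
  have h3 : aeval θ ((X - C β) ^ (r β).toNat) / aeval θ ((X - C β) ^ (-(r β)).toNat) =
      (θ - algebraMap F A β) ^ (r β) := by
    rw [map_pow, map_pow, map_sub, aeval_X, aeval_C, ← zpow_natCast, ← zpow_natCast,
      ← zpow_sub₀ (hθ0 β)]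
    congr 1
    omega
  rw [h3, ← zpow_natCast, ← zpow_mul, ← zpow_sub₀ (hθ0 β), ← zpow_add₀ (hθ0 β)]
  congr 1
  have h4 := hr β
  rw [mul_comm (r β)]
  linarith

end Pool.Agent.Lib.MP_89bcae_ag.Sup
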