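import Mathlib
import Pool.Agent.Lib.MP_89bcae_ag.Sup.BDefs
import Pool.Agent.Lib.MP_89bcae_ag.Sup.B08
import Pool.Agent.Lib.MP_89bcae_ag.Sup.G12

/-!
The equation of a point of the curve over `F(t)`, in terms of polynomials.
-/

open Polynomial

open scoped Classical

namespace Pool.Agent.Lib.MP_89bcae_ag.Sup

universe u

variable {k F L : Type u} [Field k] [Field F] [Algebra k F] [Field L] [Algebra F[X] L]
  {ℓ : ℕ} {g D : k[X]} {ζ : k}

lemma b11_homog [IsFractionRing F[X] L] (G A B : F[X]) (hB : B ≠ 0) :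
    algebraMap F[X] L (homog G A B) =
      (G.map ((algebraMap F[X] L).comp C)).eval (algebraMap F[X] L A / algebraMap F[X] L B) *
        (algebraMap F[X] L B) ^ G.natDegree := by
  have h1 : algebraMap F[X] L B ≠ 0 := by
    rw [Ne, map_eq_zero_iff _ (IsFractionRing.injective F[X] L)]
    exact hB
  unfold homog
  rw [map_sum, eval_map, eval₂_eq_sum_range, Finset.sum_mul]
  refine Finset.sum_congr rfl fun i hi => ?_
  have h2 : i ≤ G.natDegree := by
    have := Finset.mem_range.mp hi
    omega
  rw [map_mul, map_mul, map_pow, map_pow, div_pow, RingHom.comp_apply, ← pow_sub_mul_pow _ h2]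
  field_simp

lemma b11_curve (x : L) : (curvePoly k F L g D).eval x =
    (algebraMap F[X] L (D.map (algebraMap k F)))⁻¹ *
      (((g.map (algebraMap k F)).map ((algebraMap F[X] L).comp C)).eval x -
        algebraMap F[X] L X) := by
  have h0 : ∀ p : k[X], base k F L L p = algebraMap F[X] L (p.map (algebraMap k F)) := fun p => rfl
  have h1 : (base k F L L).comp C =
      ((algebraMap F[X] L).comp C).comp (algebraMap k F) := by
    ext c
    rw [RingHom.comp_apply, h0, map_C]
    rfl
  unfold curvePoly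
  rw [eval_mul, eval_C, eval_sub, eval_C, h0, h0, map_X, h1, Polynomial.map_map]

lemma Section.secHyp [IsFractionRing F[X] L] (H : GlobHyp ℓ g D ζ) (P : Section ℓ k F L g D) :
    ∃ C₁ C₂ : F[X], SecHyp ℓ (g.map (algebraMap k F)) (D.map (algebraMap k F)) P.num P.den C₁ C₂ := by
  obtain ⟨C₁, C₂, hC₂, hy⟩ := IsFractionRing.div_surjective (A := F[X]) P.y
  have hinj := IsFractionRing.injective F[X] L
  have hD0 : D ≠ 0 := by
    rintro rfl
    exact H.pos natDegree_zero
  have hD : algebraMap F[X] L (D.map (algebraMap k F)) ≠ 0 := by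
    rw [Ne, map_eq_zero_iff _ hinj]
    exact (Polynomial.map_ne_zero_iff (algebraMap k F).injective).2 hD0
  have hC₂0 : C₂ ≠ 0 := nonZeroDivisors.ne_zero hC₂
  have hC₂' : algebraMap F[X] L C₂ ≠ 0 := by
    rw [Ne, map_eq_zero_iff _ hinj]
    exact hC₂0
  refine ⟨C₁, C₂, H.prime, H.monic.map _, ?_, ?_, ?_, P.coprime, P.den_ne_zero, ?_, hC₂0, ?_⟩
  · rw [natDegree_map]
    exact H.cop
  · rw [← Polynomial.map_comp]
    exact H.sep.map
  · rw [natDegree_map]
    exact H.pos
  · rintro rfl
    apply P.y_ne_zero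
    rw [← hy, map_zero, zero_div]
  · apply hinj
    have h1 := P.eqn
    rw [b11_curve] at h1
    have h2 := b11_homog (L := L) (g.map (algebraMap k F)) P.num P.den P.den_ne_zero
    have h3 : algebraMap F[X] L C₂ * P.y = algebraMap F[X] L C₁ := by
      rw [← hy, mul_div_cancel₀ _ hC₂']
    have h4 : algebraMap F[X] L (D.map (algebraMap k F)) * P.y ^ ℓ =
        ((g.map (algebraMap k F)).map ((algebraMap F[X] L).comp C)).eval
          (algebraMap F[X] L P.num / algebraMap F[X] L P.den) - algebraMap F[X] L X := by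
      rw [h1, mul_inv_cancel_left₀ hD]
    rw [map_mul, map_sub, map_mul, map_mul, map_mul, map_pow, map_pow, map_pow, h2, ← sub_mul,
      ← h4, ← h3, mul_pow]
    ring

lemma Section.exponent_eq (P : Section ℓ k F L g D) (β : F) :
    P.exponent β = secExp (g.map (algebraMap k F)) P.num P.den β := by
  unfold Section.exponent secExp
  rw [eval_map_algebraMap, natDegree_map]

/-- The point over `Ω`. -/
noncomputable def Section.pt (Ω : Type u) [Field Ω] [Algebra L Ω] (P : Section ℓ k F L g D) :
    Pt ℓ (cOver k F L Ω g D) where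
  x := algebraMap L Ω P.x
  y := algebraMap L Ω P.y
  eq := by
    rw [eval_map_algebraMap, aeval_algebraMap_apply, ← map_pow, P.eqn]
    rfl

end Pool.Agent.Lib.MP_89bcae_ag.Sup
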