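import Mathlib
import Pool.Agent.Lib.MP_89bcae_ag.Sup.B09
import Pool.Agent.Lib.MP_89bcae_ag.Sup.B10
import Pool.Agent.Lib.MP_89bcae_ag.Sup.B11

/-!
ROW B12 (180-300 lines). The exponents of the Kummer class of a point `P = (x, y)`, multiplied by
`m = deg g`.

PROOF. Let `p = P.pt Ω`, `π Q = Q - Z Q`, `V = v Q₁`; `π V = ℓ Q₁ = clPt p = cl (single p 1)`
(`vJ_sub_zJ`; `cl` of a `Finsupp.single`). Kummer formula R21 (`kummer_formula`) for `V` and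
`single p 1`: `z θ ≠ 0`, `(z θ)^ℓ = ε^{atR} uval = θ - x`: `atR (single p 1) θ = 0` as `p.y ≠ 0`, and
`uval (single p 1) θ = θ - p.x` because `p.x ≠ θ` (`f(p.x) = p.y^ℓ ≠ 0`). For `σ` in `Gal(Ω/L)` (as the
element `toSym g D (galA k F σ)` of `Sym`; it fixes `ζ` (`zA_fixed`) and `p`): if
`σ (z θ) = ζ^{n₀(σθ)} z(σθ)` for all roots `θ` then `σ V - V = ram n₀`; such `n₀` exists as the `ℓ`-th
powers agree (`σ x = x`; see `exists_n_of_pow` in G12 for a similar argument).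
Let `N = A(g(X)) - X B(g(X))`, `A/B = x`; for a root `θ`, `g(θ) = t` (`tA`), `θ - x = -N(θ)/B(g(θ))`. Apply
`exists_quot_eq` (B10) to `W₁ = (X B(g) - A(g))^m`, `W₂ = B(g)^m D(g)`, `S = RR`, `e = secExp` (B08:
`SecHyp.dvd_mult`; `β ∈ RR ↔ D(g(β)) = 0`, `mem_RR`): `(θ - x)^m / D(t) =
c ∏_{β∈RR} (θ - β)^{e β} (P₁(θ)/Q₁(θ))^ℓ`. Take `δ` in `Ω`, `δ^ℓ = D(t)`, `c'^ℓ = c` in `F` and
`z' θ = (z θ)^m δ⁻¹ c'⁻¹ Q₁(θ)/P₁(θ)`: `(z' θ)^ℓ = ∏ (θ - β)^{e β}`. `σ δ = ζ^i δ` for some `i`, so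
`σ (z' θ) = ζ^{m n₀(σθ) - i} z'(σθ)`. If also `σ (z' θ) = ζ^{n(σθ)} z'(σθ)` then `n ≡ m n₀ - i` modulo `ℓ`
on the roots, and `v ((m c) 1 σ) = m v (c 1 σ) = m (σ V - V)` (`vJ_smul`, `vJ_sub`, `vJ_symJ`)
`= m ram n₀ = ram (m n₀) = ram (m n₀ - i) = ram n` (`ram_congr`, `ram_add`, `ram_sub`,
`ram_eq_zero_iff` for the constant).
The field `sum`: `SecHyp.sum_eq_zero` (B09), `Section.exponent_eq` (B11).
-/

open Polynomial IsDedekindDomain

open scoped Classical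

namespace Pool.Agent.Lib.MP_89bcae_ag.Sup

universe u

lemma b12_mult_pow {F : Type u} [Field F] {p : F[X]} (hp : p ≠ 0) (β : F) (n : ℕ) :
    (p ^ n).rootMultiplicity β = n * p.rootMultiplicity β := by
  induction n with
  | zero =>
    rw [pow_zero, zero_mul]
    exact rootMultiplicity_eq_zero (by simp)
  | succ n ih =>
    rw [pow_succ, rootMultiplicity_mul (mul_ne_zero (pow_ne_zero _ hp) hp), ih]
    ring

lemma b12_zpow_inj {E : Type u} [Field E] {ℓ : ℕ} (hℓ : ℓ ≠ 0) {ζ : E}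
    (hζ : IsPrimitiveRoot ζ ℓ) {a b : ℤ} (h : ζ ^ a = ζ ^ b) : (ℓ : ℤ) ∣ a - b := by
  have h0 : ζ ≠ 0 := hζ.ne_zero hℓ
  rw [← hζ.zpow_eq_one_iff_dvd, zpow_sub₀ h0, h, div_self (zpow_ne_zero _ h0)]

lemma b12_exists_zpow {E : Type u} [Field E] {ℓ : ℕ} (hℓ : ℓ ≠ 0) {ζ : E}
    (hζ : IsPrimitiveRoot ζ ℓ) {x y : E} (hy : y ≠ 0) (h : x ^ ℓ = y ^ ℓ) :
    ∃ i : ℤ, x = ζ ^ i * y := by
  have : NeZero ℓ := ⟨hℓ⟩
  have h1 : (x / y) ^ ℓ = 1 := by
    rw [div_pow, h, div_self (pow_ne_zero _ hy)]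
  obtain ⟨i, _, hi⟩ := hζ.eq_pow_of_pow_eq_one h1
  refine ⟨i, ?_⟩
  rw [zpow_natCast, hi, div_mul_cancel₀ _ hy]

lemma b12_ram_const {ℓ : ℕ} {E : Type u} [Field E] {f : E[X]} [hG : IsGood ℓ f] {ζ : E}
    (hζ : IsPrimitiveRoot ζ ℓ) (m : ℕ) (n : E → ℤ) (i : ℤ) :
    (ram (fun θ => (m : ℤ) * n θ - i) : Jac ℓ f) = m • ram n := by
  have h1 : (ram (fun _ => i) : Jac ℓ f) = 0 :=
    (ram_eq_zero_iff ζ hζ (fun _ => i)).2 ⟨i, fun θ _ => by simp⟩
  rw [ram_sub, h1, sub_zero, ram, ramDiv_smul, map_zsmul, natCast_zsmul]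
  rfl

variable {k F L Ω : Type u} [Field k] [Field F] [Algebra k F] [Field L] [Algebra F[X] L]
  [Field Ω] [Algebra L Ω] [IsAlgClosure k F] [IsFractionRing F[X] L] [IsAlgClosure L Ω]
  [Algebra F Ω] {ℓ : ℕ} {g D : k[X]} [hG : IsGood ℓ (cOver k F L Ω g D)] {ζ : k}
  {hζ : (zA F L Ω ζ) ^ ℓ = 1}

omit [IsAlgClosure k F] [IsFractionRing F[X] L] [IsAlgClosure L Ω] hG in
lemma b12_aeval_tA (hF : CompatF F L Ω) (p : F[X]) :
    aeval (tA F L Ω) p = algebraMap L Ω (algebraMap F[X] L p) := by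
  have h : ((aeval (tA F L Ω) : F[X] →ₐ[F] Ω) : F[X] →+* Ω) =
      (algebraMap L Ω).comp (algebraMap F[X] L) := by
    ext c
    · simp only [RingHom.coe_comp, Function.comp_apply, RingHom.coe_coe, aeval_C]
      exact hF c
    · simp only [RingHom.coe_coe, aeval_X, RingHom.coe_comp, Function.comp_apply]
      rfl
  exact congrArg (fun φ : F[X] →+* Ω => φ p) h

omit [IsAlgClosure k F] [IsAlgClosure L Ω] hG in
lemma b12_tA_ne (hF : CompatF F L Ω) {p : F[X]} (hp : p ≠ 0) : aeval (tA F L Ω) p ≠ 0 := by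
  rw [b12_aeval_tA hF]
  intro h
  apply hp
  apply IsFractionRing.injective F[X] L
  apply (algebraMap L Ω).injective
  rw [h, map_zero, map_zero]

omit [IsAlgClosure k F] [IsAlgClosure L Ω] hG in
lemma b12_root (hF : CompatF F L Ω) (H : GlobHyp ℓ g D ζ) {θ : Ω}
    (hθ : θ ∈ rts (cOver k F L Ω g D)) : aeval θ (g.map (algebraMap k F)) = tA F L Ω := by
  have hd : aeval (tA F L Ω) (D.map (algebraMap k F)) ≠ 0 := by
    apply b12_tA_ne hF
    intro h1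
    rw [Polynomial.map_eq_zero] at h1
    exact H.pos (by rw [h1, natDegree_zero])
  have hm : (g.map (algebraMap k F)).natDegree ≠ 0 := by
    rw [natDegree_map]
    intro h
    have h1 := H.cop
    rw [h, Nat.coprime_zero_left] at h1
    exact H.prime.one_lt.ne' h1
  rw [cOver_eq_locPoly hF, mem_rts (locPoly_ne_zero (H.monic.map _) hm hd),
    eval_locPoly_eq_zero hd] at hθ
  exact hθ

omit [IsAlgClosure k F] [IsFractionRing F[X] L] [IsAlgClosure L Ω] [Algebra F Ω] hG in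
lemma b12_mem (hG : IsGood ℓ (cOver k F L Ω g D)) {θ : Ω} :
    θ ∈ rts (cOver k F L Ω g D) ↔ (cOver k F L Ω g D).eval θ = 0 :=
  mem_rts hG.separable.ne_zero

omit [IsAlgClosure k F] [IsFractionRing F[X] L] [IsAlgClosure L Ω] [Algebra F Ω] hG in
lemma b12_smul_mem (hG : IsGood ℓ (cOver k F L Ω g D)) (σ : Ω ≃ₐ[L] Ω) {θ : Ω} (hθ : θ ∈ rts (cOver k F L Ω g D)) :
    σ θ ∈ rts (cOver k F L Ω g D) := by
  rw [b12_mem hG] at hθ ⊢
  have h := R21_eval (toSym g D (galA k F σ)) θ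
  have h2 : ((toSym g D (galA k F σ) : Sym (cOver k F L Ω g D)) : Ω ≃+* Ω) θ = σ θ := rfl
  rw [h2, hθ, map_zero] at h
  exact h

omit [IsAlgClosure k F] [IsFractionRing F[X] L] [IsAlgClosure L Ω] hG in
lemma b12_aeval (hF : CompatF F L Ω) (σ : Ω ≃ₐ[L] Ω) (x : Ω) (P : F[X]) :
    σ (aeval x P) = aeval (σ x) P := by
  have hj : ∀ c : F, σ (algebraMap F Ω c) = algebraMap F Ω c := by
    intro c
    rw [hF c, σ.commutes]
  have h1 := Polynomial.hom_eval₂ P (algebraMap F Ω) ((σ : Ω →ₐ[L] Ω) : Ω →+* Ω) x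
  have h2 : ((σ : Ω →ₐ[L] Ω) : Ω →+* Ω).comp (algebraMap F Ω) = algebraMap F Ω := by
    ext c
    exact hj c
  rw [h2] at h1
  exact h1

omit [Algebra F Ω] in
/-- The Kummer functions of the class of a point. -/
lemma b12_kummer (H : GlobHyp ℓ g D ζ) (P : Section ℓ k F L g D)
    {Q₁ : JacOver ℓ (curvePoly k F L g D) Ω} (hQ₁ : ℓ • Q₁ = clPt (P.pt Ω)) :
    ∃ z : Ω → Ω, (∀ θ ∈ rts (cOver k F L Ω g D), z θ ≠ 0 ∧ z θ ^ ℓ = θ - (P.pt Ω).x) ∧
      ∀ (σ : Ω ≃ₐ[L] Ω) (n : Ω → ℤ), (∀ θ ∈ rts (cOver k F L Ω g D),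
        σ (z θ) = zA F L Ω ζ ^ n (σ θ) * z (σ θ)) →
        vJ (zA F L Ω ζ) hζ (symJ (toSym g D (galA k F σ)) Q₁ - Q₁) = ram n := by
  have hprim : IsPrimitiveRoot (zA F L Ω ζ) ℓ := zA_primitive H
  have hyn : (P.pt Ω).y ≠ 0 := by
    change algebraMap L Ω P.y ≠ 0
    rw [Ne, map_eq_zero]
    exact P.y_ne_zero
  have hV : vJ (zA F L Ω ζ) hζ Q₁ - zJ (zA F L Ω ζ) hζ (vJ (zA F L Ω ζ) hζ Q₁) =
      cl (Finsupp.single (P.pt Ω) 1) := by
    rw [cl, Finsupp.liftAddHom_apply_single, zmultiplesHom_apply, one_smul, ← hQ₁]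
    exact vJ_sub_zJ (zA F L Ω ζ) hprim Q₁
  obtain ⟨z, hz, hzσ⟩ := kummer_formula (zA F L Ω ζ) hprim _ _ hV
  refine ⟨z, fun θ hθ => ?_, fun σ n hn => ?_⟩
  · rw [b12_mem hG] at hθ
    obtain ⟨h1, h2⟩ := hz θ hθ
    refine ⟨h1, ?_⟩
    have h3 : atR (Finsupp.single (P.pt Ω) 1) θ = 0 := by
      unfold atR
      rw [dif_pos hθ, Finsupp.single_apply, if_neg]
      intro h
      exact hyn (congrArg Pt.y h)
    have h4 : (P.pt Ω).x ≠ θ := by
      intro h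
      have h5 := (P.pt Ω).eq
      rw [h, hθ] at h5
      exact hyn ((pow_eq_zero_iff H.prime.ne_zero).1 h5)
    rw [h2, h3, zpow_zero, one_mul, uval, Finsupp.prod_single_index (zpow_zero _), zpow_one,
      if_neg h4]
  · have hfix : ((toSym g D (galA k F σ) : Sym (cOver k F L Ω g D)) : Ω ≃+* Ω) (zA F L Ω ζ) =
        zA F L Ω ζ := zA_fixed ζ (galA k F σ)
    rw [vJ_sub, vJ_symJ _ _ _ hfix]
    refine hzσ (toSym g D (galA k F σ)) hfix ?_ n fun θ hθ => ?_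
    · rw [Finsupp.mapDomain_single]
      congr 1
      refine Pt.ext ?_ ?_
      · exact σ.commutes P.x
      · exact σ.commutes P.y
    · exact hn θ ((b12_mem hG).2 hθ)

omit hG in
/-- The functions `(θ - x) ^ m / D(t)`. -/
lemma b12_quot (hF : CompatF F L Ω) (H : GlobHyp ℓ g D ζ) (P : Section ℓ k F L g D) :
    ∃ (c : F) (P₁ Q₁ : F[X]), c ≠ 0 ∧ P₁ ≠ 0 ∧ Q₁ ≠ 0 ∧ ∀ θ ∈ rts (cOver k F L Ω g D),
      (θ - (P.pt Ω).x) ^ g.natDegree * (aeval (tA F L Ω) (D.map (algebraMap k F)))⁻¹ =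
        algebraMap F Ω c * (∏ β ∈ RR F g D, (θ - algebraMap F Ω β) ^ P.exponent β) *
          (aeval θ P₁ / aeval θ Q₁) ^ ℓ := by
  have : IsAlgClosed F := IsAlgClosure.isAlgClosed k
  obtain ⟨C₁, C₂, HS⟩ := P.secHyp H
  set g' := g.map (algebraMap k F) with hg'
  set D' := D.map (algebraMap k F) with hD'
  have hdeg : g'.natDegree = g.natDegree := natDegree_map _
  have hm0 : g'.natDegree ≠ 0 := by
    intro h
    have h1 := HS.cop
    rw [h, Nat.coprime_zero_left] at h1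
    exact HS.prime.one_lt.ne' h1
  have hN := HS.ne_zero
  have hB : P.den.comp g' ≠ 0 := by
    intro h
    rw [comp_eq_zero_iff] at h
    rcases h with h | ⟨_, h⟩
    · exact HS.den h
    · rw [h, natDegree_C] at hm0
      exact hm0 rfl
  have hD0 : D'.comp g' ≠ 0 := HS.sep.ne_zero
  obtain ⟨c, P₁, Q₁, hc, hP₁, hQ₁, hq⟩ := exists_quot_eq (ℓ := ℓ)
    (W₁ := (P.num.comp g' - X * P.den.comp g') ^ g'.natDegree)
    (W₂ := (P.den.comp g') ^ g'.natDegree * D'.comp g')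
    (pow_ne_zero _ hN) (mul_ne_zero (pow_ne_zero _ hB) hD0) (RR F g D) P.exponent (by
      intro β
      rw [b12_mult_pow hN, rootMultiplicity_mul (mul_ne_zero (pow_ne_zero _ hB) hD0),
        b12_mult_pow hB]
      have h := HS.dvd_mult β
      have h2 : D'.eval (g'.eval β) = 0 ↔ β ∈ RR F g D := by
        rw [mem_RR H, hg', hD', eval_map_algebraMap, eval_map_algebraMap]
      rw [P.exponent_eq]
      simp only [h2] at h
      push_cast
      rw [← sub_sub]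
      exact h)
  have hε0 : ((-1 : F) ^ g.natDegree) ≠ 0 := pow_ne_zero _ (neg_ne_zero.2 one_ne_zero)
  refine ⟨(-1) ^ g.natDegree * c, P₁, Q₁, mul_ne_zero hε0 hc, hP₁, hQ₁, fun θ hθ => ?_⟩
  have h1 := hq Ω θ (aeval_root_injective hF H hθ)
  have hBt := b12_tA_ne hF HS.den
  have hθg := b12_root hF H hθ
  have hx : (P.pt Ω).x = aeval (tA F L Ω) P.num / aeval (tA F L Ω) P.den := by
    rw [b12_aeval_tA hF, b12_aeval_tA hF, ← map_div₀]
    rfl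
  have h2 : aeval θ (P.num.comp g' - X * P.den.comp g') =
      aeval (tA F L Ω) P.num - θ * aeval (tA F L Ω) P.den := by
    rw [map_sub, map_mul, aeval_X, aeval_comp, aeval_comp, hθg]
  rw [map_mul, map_pow, map_pow, h2, aeval_comp, aeval_comp, hθg, hdeg] at h1
  have h3 : (θ - (P.pt Ω).x) ^ g.natDegree = (-1) ^ g.natDegree *
      ((aeval (tA F L Ω) P.num - θ * aeval (tA F L Ω) P.den) ^ g.natDegree /
        (aeval (tA F L Ω) P.den) ^ g.natDegree) := by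
    rw [← div_pow, ← mul_pow, hx]
    congr 1
    field_simp
    ring
  rw [h3, map_mul, map_pow, map_neg, map_one, mul_assoc ((-1) ^ g.natDegree) (_ / _),
    ← div_eq_mul_inv, ← div_mul_eq_div_div, h1]
  ring

theorem hasExp_of_section (hF : CompatF F L Ω) (H : GlobHyp ℓ g D ζ) (P : Section ℓ k F L g D)
    {Q₁ : JacOver ℓ (curvePoly k F L g D) Ω} (hQ₁ : ℓ • Q₁ = clPt (P.pt Ω))
    {c : Coch ℓ k F L Ω g D}
    (hc : ∀ σ : Ω ≃ₐ[L] Ω, c 1 σ = symJ (toSym g D (galA k F σ)) Q₁ - Q₁) :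
    HasExp hζ (g.natDegree • c) P.exponent := by
  have : IsAlgClosed F := IsAlgClosure.isAlgClosed k
  have : IsAlgClosed Ω := IsAlgClosure.isAlgClosed L
  have hprim : IsPrimitiveRoot (zA F L Ω ζ) ℓ := zA_primitive H
  have hζ0 : zA F L Ω ζ ≠ 0 := hprim.ne_zero H.prime.ne_zero
  refine ⟨fun a => ?_, ?_⟩
  · obtain ⟨C₁, C₂, HS⟩ := P.secHyp H
    have h := HS.sum_eq_zero (RR F g D) (fun β => by
      rw [mem_RR H, eval_map_algebraMap, eval_map_algebraMap]) a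
    have h2 : ∑ β ∈ (RR F g D).filter (fun β => aeval β g = a), P.exponent β =
        ∑ β ∈ (RR F g D).filter (fun β => (g.map (algebraMap k F)).eval β = a),
          secExp (g.map (algebraMap k F)) P.num P.den β := by
      refine Finset.sum_congr ?_ fun β _ => P.exponent_eq β
      refine Finset.filter_congr fun β _ => ?_
      rw [eval_map_algebraMap]
    rw [h2, h]
    exact dvd_zero _
  obtain ⟨z, hz, hzσ⟩ := b12_kummer (hζ := hζ) H P hQ₁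
  obtain ⟨c₀, P₁, R₁, hc₀, hP₁, hR₁, hq⟩ := b12_quot (Ω := Ω) hF H P
  have hd : aeval (tA F L Ω) (D.map (algebraMap k F)) ≠ 0 := by
    apply b12_tA_ne hF
    intro h1
    rw [Polynomial.map_eq_zero] at h1
    exact H.pos (by rw [h1, natDegree_zero])
  obtain ⟨δ, hδ⟩ := IsAlgClosed.exists_pow_nat_eq (aeval (tA F L Ω) (D.map (algebraMap k F)))
    H.prime.pos
  obtain ⟨c', hc'⟩ := IsAlgClosed.exists_pow_nat_eq c₀ H.prime.pos
  have hδ0 : δ ≠ 0 := by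
    rintro rfl
    rw [zero_pow H.prime.ne_zero] at hδ
    exact hd hδ.symm
  have hc'0 : algebraMap F Ω c' ≠ 0 := by
    rw [Ne, map_eq_zero]
    rintro rfl
    rw [zero_pow H.prime.ne_zero] at hc'
    exact hc₀ hc'.symm
  have hPθ : ∀ θ ∈ rts (cOver k F L Ω g D), aeval θ P₁ ≠ 0 := by
    intro θ hθ h
    exact hP₁ (aeval_root_injective hF H hθ (by rw [h, map_zero]))
  have hRθ : ∀ θ ∈ rts (cOver k F L Ω g D), aeval θ R₁ ≠ 0 := by
    intro θ hθ h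
    exact hR₁ (aeval_root_injective hF H hθ (by rw [h, map_zero]))
  refine ⟨fun θ => z θ ^ g.natDegree * δ⁻¹ * (algebraMap F Ω c')⁻¹ *
    (aeval θ R₁ / aeval θ P₁), fun θ hθ => ?_, fun σ n hn => ?_⟩
  · have h1 := hq θ hθ
    have h2 := hPθ θ hθ
    have h3 := hRθ θ hθ
    have h4 : (z θ ^ g.natDegree * δ⁻¹ * (algebraMap F Ω c')⁻¹ *
        (aeval θ R₁ / aeval θ P₁)) ^ ℓ =
        ((z θ ^ ℓ) ^ g.natDegree * (δ ^ ℓ)⁻¹) * ((algebraMap F Ω c') ^ ℓ)⁻¹ *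
        (aeval θ R₁ / aeval θ P₁) ^ ℓ := by
      rw [mul_pow, mul_pow, mul_pow, ← pow_mul, ← pow_mul, mul_comm ℓ, inv_pow, inv_pow]
    rw [h4, (hz θ hθ).2, hδ, h1, ← map_pow, hc']
    have h5 : algebraMap F Ω c₀ ≠ 0 := by
      rw [Ne, map_eq_zero]
      exact hc₀
    have h6 : (aeval θ P₁ / aeval θ R₁) ^ ℓ * (aeval θ R₁ / aeval θ P₁) ^ ℓ = 1 := by
      rw [← mul_pow, div_mul_div_comm, mul_comm (aeval θ R₁), div_self (mul_ne_zero h2 h3), one_pow]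
    calc algebraMap F Ω c₀ * (∏ β ∈ RR F g D, (θ - algebraMap F Ω β) ^ P.exponent β) *
          (aeval θ P₁ / aeval θ R₁) ^ ℓ * (algebraMap F Ω c₀)⁻¹ *
          (aeval θ R₁ / aeval θ P₁) ^ ℓ =
        (algebraMap F Ω c₀ * (algebraMap F Ω c₀)⁻¹) *
          (∏ β ∈ RR F g D, (θ - algebraMap F Ω β) ^ P.exponent β) *
          ((aeval θ P₁ / aeval θ R₁) ^ ℓ * (aeval θ R₁ / aeval θ P₁) ^ ℓ) := by ring
      _ = ∏ β ∈ RR F g D, (θ - algebraMap F Ω β) ^ P.exponent β := by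
        rw [h6, mul_inv_cancel₀ h5, one_mul, mul_one]
  · have hxσ : σ (P.pt Ω).x = (P.pt Ω).x := σ.commutes P.x
    have hδσ : (σ δ) ^ ℓ = δ ^ ℓ := by
      rw [← map_pow, hδ, b12_aeval_tA hF]
      exact σ.commutes _
    obtain ⟨i, hi⟩ := b12_exists_zpow H.prime.ne_zero hprim hδ0 hδσ
    have hex : ∀ θ' : Ω, ∃ j : ℤ, θ' ∈ rts (cOver k F L Ω g D) →
        σ (z (σ.symm θ')) = zA F L Ω ζ ^ j * z θ' := by
      intro θ'
      by_cases hθ : θ' ∈ rts (cOver k F L Ω g D)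
      · have h1 : σ.symm θ' ∈ rts (cOver k F L Ω g D) := b12_smul_mem hG σ.symm hθ
        obtain ⟨j, hj⟩ := b12_exists_zpow H.prime.ne_zero hprim (hz θ' hθ).1
          (x := σ (z (σ.symm θ'))) (by
            rw [← map_pow, (hz _ h1).2, (hz _ hθ).2, map_sub, hxσ, AlgEquiv.apply_symm_apply])
        exact ⟨j, fun _ => hj⟩
      · exact ⟨0, fun h => absurd h hθ⟩
    choose n₀ hn₀ using hex
    have hn₁ : ∀ θ ∈ rts (cOver k F L Ω g D), σ (z θ) = zA F L Ω ζ ^ n₀ (σ θ) * z (σ θ) := by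
      intro θ hθ
      have h := hn₀ (σ θ) (b12_smul_mem hG σ hθ)
      rwa [AlgEquiv.symm_apply_apply] at h
    have h1 : (g.natDegree • c) 1 σ = g.natDegree • c 1 σ := rfl
    rw [h1, vJ_smul, hc σ, hzσ σ n₀ hn₁, ← b12_ram_const hprim g.natDegree n₀ i]
    refine ram_congr _ _ fun θ hθ => ?_
    have hθr := (b12_mem hG).2 hθ
    have hθ' : σ.symm θ ∈ rts (cOver k F L Ω g D) := b12_smul_mem hG σ.symm hθr
    have h2 := hn _ hθ'
    have h3 := hn₁ _ hθ'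
    simp only [AlgEquiv.apply_symm_apply] at h2 h3
    rw [map_mul, map_mul, map_mul, map_pow, map_inv₀, map_inv₀, map_div₀, b12_aeval hF,
      b12_aeval hF, AlgEquiv.apply_symm_apply, h3, hi, hF c', σ.commutes, ← hF c', mul_pow,
      mul_inv] at h2
    have hA : z θ ^ g.natDegree * δ⁻¹ * (algebraMap F Ω c')⁻¹ *
        (aeval θ R₁ / aeval θ P₁) ≠ 0 :=
      mul_ne_zero (mul_ne_zero (mul_ne_zero (pow_ne_zero _ (hz θ hθr).1) (inv_ne_zero hδ0))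
        (inv_ne_zero hc'0)) (div_ne_zero (hRθ θ hθr) (hPθ θ hθr))
    have h4 : zA F L Ω ζ ^ ((g.natDegree : ℤ) * n₀ θ - i) = zA F L Ω ζ ^ n θ := by
      apply mul_right_cancel₀ hA
      rw [← h2, zpow_sub₀ hζ0, mul_comm (g.natDegree : ℤ), zpow_mul, zpow_natCast, div_eq_mul_inv]
      ring
    exact b12_zpow_inj H.prime.ne_zero hprim h4

end Pool.Agent.Lib.MP_89bcae_ag.Sup
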