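import Mathlib
import Pool.Agent.Lib.MP_89bcae_ag.Sup.GBase

/-!
Row B13: an automorphism over `k(t)` has a positive power which fixes a given finite
set of elements of `L = F(t)`.
-/

open Polynomial IsDedekindDomain

open scoped Classical

namespace Pool.Agent.Lib.MP_89bcae_ag.Sup

universe u

lemma b13_exists_pow {k F : Type u} [Field k] [Field F] [Algebra k F] [IsAlgClosure k F]
    (k' : IntermediateField k F) [FiniteDimensional k k'] (U : F ≃ₐ[k] F) :
    ∃ M : ℕ, 0 < M ∧ ∀ x : k', (U ^ M) (x : F) = x := by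
  have : Finite (k' →ₐ[k] F) := inferInstance
  obtain ⟨a, b, hab, h⟩ := Finite.exists_ne_map_eq_of_infinite
    (fun n : ℕ => ((U ^ n : F ≃ₐ[k] F) : F →ₐ[k] F).comp k'.val)
  wlog hlt : a < b generalizing a b with H
  · exact H b a hab.symm h.symm (lt_of_le_of_ne (not_lt.mp hlt) hab.symm)
  refine ⟨b - a, Nat.sub_pos_of_lt hlt, fun x => ?_⟩
  have hx := DFunLike.congr_fun h x
  have hx' : (U ^ a) (x : F) = (U ^ b) (x : F) := hx
  have e : U ^ b = U ^ a * U ^ (b - a) := by
    rw [← pow_add, Nat.add_sub_cancel' hlt.le]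
  rw [e, AlgEquiv.mul_apply] at hx'
  exact ((U ^ a).injective hx').symm

variable {k F L Ω : Type u} [Field k] [Field F] [Algebra k F] [Field L] [Algebra F[X] L]
  [Field Ω] [Algebra L Ω] [IsAlgClosure k F] [IsFractionRing F[X] L] [IsAlgClosure L Ω]

lemma exists_pow_fix (γ : AutO k F L Ω) (s : Finset L) :
    ∃ N : ℕ, 0 < N ∧ ∀ x ∈ s, ((γ ^ N : AutO k F L Ω) : Ω ≃+* Ω) (algebraMap L Ω x) =
      algebraMap L Ω x := by
  have hex : ∀ x : L, ∃ pq : F[X] × F[X], algebraMap F[X] L pq.1 / algebraMap F[X] L pq.2 = x := by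
    intro x
    obtain ⟨p, q, _, h⟩ := IsFractionRing.div_surjective (A := F[X]) x
    exact ⟨(p, q), h⟩
  choose f hf using hex
  let S : Finset F := s.biUnion fun x =>
    (f x).1.support.image (fun i => (f x).1.coeff i) ∪ (f x).2.support.image (fun i => (f x).2.coeff i)
  let k' : IntermediateField k F := IntermediateField.adjoin k (S : Set F)
  have : FiniteDimensional k k' := by
    have : Algebra.IsAlgebraic k F := IsAlgClosure.isAlgebraic
    have : Finite (S : Set F) := S.finite_toSet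
    exact IntermediateField.finiteDimensional_adjoin
      fun x _ => (Algebra.IsAlgebraic.isAlgebraic x).isIntegral
  obtain ⟨M, hM, hMx⟩ := b13_exists_pow k' (resF γ)
  refine ⟨M, hM, fun x hx => ?_⟩
  have key : ∀ p : F[X], (∀ i, p.coeff i ∈ k') →
      ((γ ^ M : AutO k F L Ω) : Ω ≃+* Ω) (algebraMap L Ω (algebraMap F[X] L p)) =
        algebraMap L Ω (algebraMap F[X] L p) := by
    intro p hp
    rw [resF_spec]
    congr 2
    ext i
    rw [coeff_map, map_pow]
    exact hMx ⟨p.coeff i, hp i⟩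
  have hmem : ∀ y ∈ S, y ∈ k' := fun y hy => IntermediateField.subset_adjoin k (S : Set F) hy
  have h1 : ∀ i, (f x).1.coeff i ∈ k' := by
    intro i
    by_cases h0 : (f x).1.coeff i = 0
    · rw [h0]
      exact k'.zero_mem
    · refine hmem _ (Finset.mem_biUnion.2 ⟨x, hx, Finset.mem_union_left _ ?_⟩)
      exact Finset.mem_image.2 ⟨i, Polynomial.mem_support_iff.2 h0, rfl⟩
  have h2 : ∀ i, (f x).2.coeff i ∈ k' := by
    intro i
    by_cases h0 : (f x).2.coeff i = 0
    · rw [h0]
      exact k'.zero_mem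
    · refine hmem _ (Finset.mem_biUnion.2 ⟨x, hx, Finset.mem_union_right _ ?_⟩)
      exact Finset.mem_image.2 ⟨i, Polynomial.mem_support_iff.2 h0, rfl⟩
  rw [← hf x, map_div₀, map_div₀, key _ h1, key _ h2]

end Pool.Agent.Lib.MP_89bcae_ag.Sup
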