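import Mathlib
import Pool.Agent.Lib.MP_89bcae_ag.Sup.BDefs
import Pool.Agent.Lib.MP_89bcae_ag.Sup.R09

open Polynomial

open scoped Classical

namespace Pool.Agent.Lib.MP_89bcae_ag.Sup

universe u

lemma isPointClass_iff {ℓ : ℕ} {E : Type u} [Field E] {f : E[X]} [hG : IsGood ℓ f] (P : Pt ℓ f)
    (Q : Jac ℓ f) : IsPointClass ℓ f P.x P.y Q ↔ Q = clPt P := by
  have i1 : Module.Invertible (Coord ℓ f) P.ideal := R09_invertible (Coord ℓ f)
    ⟨P.ideal, mem_nonZeroDivisors_of_ne_zero P.ideal_ne_bot⟩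
  have hcl : clPt P = Additive.ofMul (CommRing.Pic.mk (Coord ℓ f) P.ideal) :=
    congrArg Additive.ofMul (R09_equivPic_mk0 (Coord ℓ f)
      ⟨P.ideal, mem_nonZeroDivisors_of_ne_zero P.ideal_ne_bot⟩)
  have hid : (Ideal.span {AdjoinRoot.of (X ^ ℓ - C f : E[X][X]) (X - C P.x),
      AdjoinRoot.root (X ^ ℓ - C f : E[X][X]) - AdjoinRoot.of (X ^ ℓ - C f : E[X][X]) (C P.y)} :
      Ideal (Coord ℓ f)) = P.ideal := P.ideal_eq_span.symm
  have h1 : IsPointClass ℓ f P.x P.y Q ↔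
      Nonempty ((Additive.toMul Q).AsModule ≃ₗ[Coord ℓ f] P.ideal) := by
    unfold IsPointClass
    rw [hid]
  have h2 : CommRing.Pic.mk (Coord ℓ f) P.ideal = Additive.toMul Q ↔
      Nonempty (P.ideal ≃ₗ[Coord ℓ f] (Additive.toMul Q).AsModule) := CommRing.Pic.mk_eq_iff
  rw [h1, hcl]
  constructor
  · rintro ⟨e⟩
    have h3 := h2.2 ⟨e.symm⟩
    rw [h3]
    rfl
  · intro h
    have h3 : CommRing.Pic.mk (Coord ℓ f) P.ideal = Additive.toMul Q := by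
      rw [h]
      rfl
    obtain ⟨e⟩ := h2.1 h3
    exact ⟨e.symm⟩

end Pool.Agent.Lib.MP_89bcae_ag.Sup
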