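import Mathlib
import Pool.Agent.Lib.MP_89bcae_ag.Sup.B06
import Pool.Agent.Lib.MP_89bcae_ag.Sup.B07
import Pool.Agent.Lib.MP_89bcae_ag.Sup.B12
import Pool.Agent.Lib.MP_89bcae_ag.Sup.B13
import Pool.Agent.Lib.MP_89bcae_ag.Sup.B14
import Pool.Agent.Lib.MP_89bcae_ag.Sup.G20

/-!
# The main theorem with points
-/

open Polynomial IsDedekindDomain

open scoped Classical

namespace Pool.Agent.Lib.MP_89bcae_ag.Sup

universe u

section

variable {ℓ : ℕ} {E : Type u} [Field E] {f : E[X]} [hG : IsGood ℓ f]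

lemma b15_cl_single (P : Pt ℓ f) : cl (Finsupp.single P 1) = clPt P := by
  rw [cl, Finsupp.liftAddHom_apply_single, zmultiplesHom_apply, one_smul]

lemma b15_zJ (ζ : E) (hζ : ζ ^ ℓ = 1) (P : Pt ℓ f) :
    zJ ζ hζ (clPt P) = clPt (P.rot ζ hζ) := by
  rw [← b15_cl_single, zJ_cl, Finsupp.mapDomain_single, b15_cl_single]

lemma b15_symJ (σ : Sym f) (P : Pt ℓ f) : symJ σ (clPt P) = clPt (P.sym σ) := by
  rw [← b15_cl_single, symJ_cl, Finsupp.mapDomain_single, b15_cl_single]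

end

section

variable {k F L Ω : Type u} [Field k] [Field F] [Algebra k F] [Field L] [Algebra F[X] L]
  [Field Ω] [Algebra L Ω] [IsAlgClosure k F] [IsFractionRing F[X] L] [IsAlgClosure L Ω]
  {ℓ : ℕ} {g D : k[X]} [hG : IsGood ℓ (cOver k F L Ω g D)] {ζ : k}

/-- The generators are classes of points. -/
lemma b15_mem_iff {ι : Type} (P : ι → Section ℓ k F L g D) (i : ι) {z : Ω} (hz : z ^ ℓ = 1)
    (Q : JacOver ℓ (curvePoly k F L g D) Ω) :
    IsPointClass ℓ ((curvePoly k F L g D).map (algebraMap L Ω)) (algebraMap L Ω (P i).x)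
      (z * algebraMap L Ω (P i).y) Q ↔ Q = clPt (((P i).pt Ω).rot z hz) :=
  isPointClass_iff (((P i).pt Ω).rot z hz) Q

lemma b15_stable {ι : Type} (P : ι → Section ℓ k F L g D) (hζ : (zA F L Ω ζ) ^ ℓ = 1) :
    ∀ Q ∈ sectionGroup Ω P, zJ (zA F L Ω ζ) hζ Q ∈ sectionGroup Ω P := by
  intro Q hQ
  unfold sectionGroup at hQ ⊢
  induction hQ using AddSubgroup.closure_induction with
  | mem Q hQ =>
    obtain ⟨i, z, hz, hQ⟩ := hQ
    rw [b15_mem_iff P i hz] at hQ
    refine AddSubgroup.subset_closure ⟨i, zA F L Ω ζ * z, by rw [mul_pow, hζ, hz, one_mul], ?_⟩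
    rw [b15_mem_iff P i (by rw [mul_pow, hζ, hz, one_mul]), hQ, b15_zJ]
    congr 1
    refine Pt.ext rfl ?_
    change zA F L Ω ζ * (z * _) = (zA F L Ω ζ * z) * _
    rw [mul_assoc]
  | zero =>
    rw [map_zero]
    exact zero_mem _
  | add Q Q' _ _ h h' =>
    rw [map_add]
    exact add_mem h h'
  | neg Q _ h =>
    rw [map_neg]
    exact neg_mem h

/-- The Kummer cocycle of a point. -/
lemma b15_exists [Algebra F Ω] {hζ : (zA F L Ω ζ) ^ ℓ = 1} (hF : CompatF F L Ω)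
    (H : GlobHyp ℓ g D ζ) {ι : Type} (P : ι → Section ℓ k F L g D) (i : ι) :
    ∃ c : Coch ℓ k F L Ω g D, WWc c ∧ KMc (sectionGroup Ω P) c ∧
      HasExp hζ c (P i).exponent := by
  have hζ0 : IsPrimitiveRoot (zA F L Ω ζ) ℓ := zA_primitive H
  obtain ⟨Q₁, hQ₁⟩ := exists_smul_eq (zA F L Ω ζ) hζ0 (clPt ((P i).pt Ω))
  have hfixpt : ∀ γ : AutO k F L Ω, (γ : Ω ≃+* Ω) (algebraMap L Ω (P i).x) =
      algebraMap L Ω (P i).x → (γ : Ω ≃+* Ω) (algebraMap L Ω (P i).y) = algebraMap L Ω (P i).y →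
      symJ (toSym g D γ) (clPt ((P i).pt Ω)) = clPt ((P i).pt Ω) := by
    intro γ hx hy
    rw [b15_symJ]
    congr 1
    exact Pt.ext hx hy
  obtain ⟨c, hW, hK, hc⟩ := exists_kummer_cocycle (M := sectionGroup Ω P) H
    (clPt ((P i).pt Ω)) Q₁ hQ₁
    (by
      refine AddSubgroup.subset_closure ⟨i, 1, one_pow _, ?_⟩
      rw [b15_mem_iff P i (one_pow _)]
      congr 1
      refine Pt.ext rfl ?_
      change _ = 1 * _
      rw [one_mul])
    (fun σ => hfixpt _ (σ.commutes _) (σ.commutes _))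
    (by
      intro γ
      obtain ⟨N, hN, h⟩ := exists_pow_fix γ {(P i).x, (P i).y}
      exact ⟨N, hN, hfixpt _ (h _ (by simp)) (h _ (by simp))⟩)
  have hsmul : ∀ n : ℕ, WWc (n • c) ∧ KMc (sectionGroup Ω P) (n • c) := by
    intro n
    induction n with
    | zero =>
      rw [zero_smul]
      exact ⟨TTc.zero.ww, TTc.zero.km⟩
    | succ n ih =>
      rw [succ_nsmul]
      exact ⟨ih.1.add hW, ih.2.add hK⟩
  exact ⟨g.natDegree • c, (hsmul _).1, (hsmul _).2, hasExp_of_section hF H (P i) hQ₁ hc⟩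

/-- Combinations. -/
lemma b15_comb [Algebra F Ω] {hζ : (zA F L Ω ζ) ^ ℓ = 1} (hF : CompatF F L Ω)
    (H : GlobHyp ℓ g D ζ) {ι : Type} (P : ι → Section ℓ k F L g D) (a : ι → ℤ) (s : Finset ι) :
    ∃ c : Coch ℓ k F L Ω g D, WWc c ∧ KMc (sectionGroup Ω P) c ∧
      HasExp hζ c (fun β => ∑ i ∈ s, a i * (P i).exponent β) := by
  have hzero : ∃ e, HasExp hζ (0 : Coch ℓ k F L Ω g D) e :=
    exists_hasExp hF H TTc.zero.1 TTc.zero.lt
  obtain ⟨e₀, he₀⟩ := hzero
  have h0 : HasExp hζ (0 : Coch ℓ k F L Ω g D) (fun _ => 0) :=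
    he₀.congr hF H (fun β hβ => by
      rw [zero_sub, dvd_neg]
      exact he₀.dvd_of_TTc hF H TTc.zero β hβ)
  have hnat : ∀ (c : Coch ℓ k F L Ω g D) (e : F → ℤ), WWc c → KMc (sectionGroup Ω P) c →
      HasExp hζ c e → ∀ n : ℕ, WWc (n • c) ∧ KMc (sectionGroup Ω P) (n • c) ∧
        HasExp hζ (n • c) (fun β => n * e β) := by
    intro c e hW hK he n
    induction n with
    | zero =>
      rw [zero_smul]
      refine ⟨TTc.zero.ww, TTc.zero.km, ?_⟩
      simpa using h0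
    | succ n ih =>
      rw [succ_nsmul]
      refine ⟨ih.1.add hW, ih.2.1.add hK, ?_⟩
      refine (ih.2.2.add hF H he).congr hF H (fun β _ => ?_)
      push_cast
      ring_nf
      exact dvd_zero _
  induction s using Finset.induction_on with
  | empty =>
    refine ⟨0, TTc.zero.ww, TTc.zero.km, ?_⟩
    simpa using h0
  | insert i s hi ih =>
    obtain ⟨c, hW, hK, he⟩ := ih
    obtain ⟨c₁, hW₁, hK₁, he₁⟩ := b15_exists (hζ := hζ) hF H P i
    obtain ⟨n, hn | hn⟩ := (a i).eq_nat_or_neg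
    · obtain ⟨h1, h2, h3⟩ := hnat c₁ _ hW₁ hK₁ he₁ n
      refine ⟨n • c₁ + c, h1.add hW, h2.add hK, ?_⟩
      refine (h3.add hF H he).congr hF H (fun β _ => ?_)
      rw [Finset.sum_insert hi, hn, sub_self]
      exact dvd_zero _
    · obtain ⟨h1, h2, h3⟩ := hnat c₁ _ hW₁ hK₁ he₁ n
      refine ⟨-(n • c₁) + c, h1.neg.add hW, h2.neg.add hK, ?_⟩
      refine ((h3.neg hF H).add hF H he).congr hF H (fun β _ => ?_)
      rw [Finset.sum_insert hi, hn, neg_mul, sub_self]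
      exact dvd_zero _

end

theorem main_generated {ℓ : ℕ} (k F L Ω : Type u) [Field k] [Field F] [Algebra k F]
    [IsAlgClosure k F] [Field L] [Algebra F[X] L] [IsFractionRing F[X] L] [Field Ω] [Algebra L Ω]
    [IsAlgClosure L Ω] (g D : k[X]) (ζ : k) (H : GlobHyp ℓ g D ζ) {ι : Type} [Fintype ι]
    (P : ι → Section ℓ k F L g D) (hS : SolutionsGeneratedBy P)
    (k' : IntermediateField k F) [FiniteDimensional k k'] :
    IsGeneratedBy Ω P k' := by
  letI : Algebra F Ω := ((algebraMap L Ω).comp ((algebraMap F[X] L).comp C)).toAlgebra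
  have hF : CompatF F L Ω := fun c => rfl
  haveI : IsAlgClosed Ω := IsAlgClosure.isAlgClosed L
  haveI : IsGood ℓ (cOver k F L Ω g D) := isGood_cOver H
  have hζ : (zA F L Ω ζ) ^ ℓ = 1 := (zA_primitive H).pow_eq_one
  intro c hc hloc hfix
  have hW : WWc (k := k) (F := F) (L := L) (Ω := Ω) (g := g) (D := D) c := by
    refine ⟨hc, fun a n => hloc (plc a) n, fun γ => ?_⟩
    obtain ⟨M, hM, hMx⟩ := G20_exists_pow k' (resF γ)
    refine ⟨M, hM, TTc.of_isFixedBy H hc (γ ^ M) (hfix _ _ fun p => ?_)⟩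
    have h1 : base k' F L Ω p =
        algebraMap L Ω (algebraMap F[X] L (p.map (algebraMap k' F))) := rfl
    rw [h1, resF_spec, Polynomial.map_map]
    have h2 : ((resF (γ ^ M) : F ≃ₐ[k] F) : F →+* F).comp (algebraMap k' F) =
        algebraMap k' F := by
      refine RingHom.ext fun x => ?_
      rw [map_pow]
      exact hMx x
    rw [h2]
  refine (KMc.of_WWc (hζ := hζ) hF H (b15_stable P hζ) (fun e he => ?_) hW).2
  obtain ⟨a, ha⟩ := hS e he
  obtain ⟨c', hW', hK', he'⟩ := b15_comb (hζ := hζ) (Ω := Ω) hF H P a Finset.univ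
  exact ⟨c', _, hW', hK', he', fun β hβ => ha β ((mem_RR H).mp hβ)⟩

end Pool.Agent.Lib.MP_89bcae_ag.Sup
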